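import Pool.Agent.Lib.DR.GL.Spec
import Pool.Agent.Lib.DN.B.All

/-!
# Theorem DR, part GL, module Act: the action of the inertia elements on points
-/

set_option autoImplicit false

open scoped Pointwise

noncomputable section

namespace Pool.Agent.DR.GL

open Pool.Agent.MuZ Pool.Agent.FW Pool.Agent.DN
open Pool.Agent.DI (io ofC io_inj exists_io io_ofC ofC_io VP MP UP TP ex)
open Pool.Agent.DN.GL (EE pH IsR)
open Pool.Agent.DL (vl GE Pl Fi Fp Cn Cf dl Gen Dr LD)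

variable {n t : ℕ}

/-- Divisors of a natural number in `O`. -/
private theorem ract_dvd {f j : ℕ} {h : OO n t} (hj : j ∣ f) (h1 : (f : OO n t) ∣ h - 1) :
    (j : OO n t) ∣ h - 1 :=
  (Nat.cast_dvd_cast hj).trans h1

/-- `h` is prime to `2`, so it is not zero. -/
private theorem ract_ne [SqN n t] {h : OO n t} (hc : Cop h 2) : h ≠ 0 := by
  rintro rfl
  unfold Cop at hc
  rw [Nm_zero] at hc
  have h1 : IsUnit (((2 : ℕ) : ℤ)) := isCoprime_zero_left.1 hc
  have h2 := Int.isUnit_iff.1 h1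
  omega

/-- The smoothed function. -/
private theorem ract_gC [SqN n t] (m b : Ideal (OO n t)) (hm : m ≠ ⊥) (hb : G15 b)
    (h : OO n t) (h0 : h ≠ 0) (hf : fr (sp h * b) = toC h * fr b) (z : ℂ) :
    gC m (sp h * b) z = gC m b (toC h * z) := by
  have := aO1 n t
  have hmb : m * b ≠ ⊥ := mul_ne_zero hm hb.ne
  have e1 : KC (sp h * b) z = toC h * KC b (toC h * z) := (((aB7 n t b hb.ne).1 h h0).1 z).2.2
  have e2 : KC (sp h * (m * b)) z = toC h * KC (m * b) (toC h * z) :=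
    (((aB7 n t (m * b) hmb).1 h h0).1 z).2.2
  have e3 : m * (sp h * b) = sp h * (m * b) := mul_left_comm _ _ _
  unfold gC
  rw [e3, e1, e2, hf]
  have hh : toC h ≠ 0 := toC_ne h0
  have e4 : toC h * KC (m * b) (toC h * z) - (NI m : ℂ) * (toC h * KC b (toC h * z)) =
      toC h * (KC (m * b) (toC h * z) - NI m * KC b (toC h * z)) := by ring
  rw [e4, mul_div_mul_left _ _ hh]

/-- Periods. -/
private theorem ract_per [SqN n t] (b : Ideal (OO n t)) (hb : b ≠ ⊥) (z l : ℂ)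
    (hl : l ∈ Lam b) : xO b (z + l) = xO b z ∧ vO b (z + l) = vO b z := by
  have h := (aB1 n t b hb).1 z l hl
  unfold xO vO XC WC
  rw [h.1, h.2]
  exact ⟨rfl, rfl⟩

theorem tAct : S_Act := by
  intro R1 D8 E6 E10 n t _ P hP f N h τ hf f15 hc b hb
  have := aO1 n t
  have hfpos : 0 < f := hf.pos
  have hMpos : 0 < f * 2 ^ N := Nat.mul_pos hfpos (pow_pos (by norm_num) N)
  have hM15 : 15 ∣ f * 2 ^ N := f15.mul_right _
  have h0 : h ≠ 0 := ract_ne hc.cop
  have hGK : τ ∈ GK n t := hc.mem.2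
  have d3 : (3 : OO n t) ∣ h - 1 := by
    have := ract_dvd (j := 3) ((by norm_num : 3 ∣ 15).trans f15) hc.one
    exact_mod_cast this
  have d5 : (5 : OO n t) ∣ h - 1 := by
    have := ract_dvd (j := 5) ((by norm_num : 5 ∣ 15).trans f15) hc.one
    exact_mod_cast this
  have key : ∀ c : Ideal (OO n t), G15 c → fr (sp h * c) = toC h * fr c ∧ A1 (sp h * c) = A1 c ∧
      A3 (sp h * c) = A3 c ∧
      ∀ z : ℂ, XC (sp h * c) z = XC c (toC h * z) ∧ WC (sp h * c) z = WC c (toC h * z) :=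
    fun c hc' => ((aB7 n t c hc'.ne).2.2 hc'.cop).1 h h0 d3 (Or.inl d5)
  have kx : ∀ z : ℂ, xO (sp h * b) z = xO b (toC h * z) := fun z => by
    unfold xO
    rw [((key b hb).2.2.2 z).1]
  have kv : ∀ z : ℂ, vO (sp h * b) z = vO b (toC h * z) := fun z => by
    unfold vO
    rw [((key b hb).2.2.2 z).2]
  obtain ⟨E10a, E10b⟩ := E10 n t τ (f * 2 ^ N) (sp h) hMpos hM15 hc.psi
  have hpt : ∀ z : ℂ, ((f * 2 ^ N : ℕ) : ℂ) * z ∈ Lam b →
      τ (xO b z) = xO b (toC h * z) ∧ τ (vO b z) = vO b (toC h * z) := fun z hz =>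
    ⟨(hc.psi.xx b hb.ne hb.cop z hz).trans (kx z), ((E10a b hb).1 z hz).trans (kv z)⟩
  have L2 := aL2 n t
  refine ⟨?_, ?_, ?_, hpt, ?_, ?_, ?_⟩
  · rw [hc.psi.a1 b hb.ne hb.cop]
    unfold a1O
    rw [(key b hb).2.1]
  · rw [hc.psi.a3 b hb.ne hb.cop]
    unfold a3O
    rw [(key b hb).2.2.1]
  · intro c hc'
    rw [(E10a b hb).2 c hc']
    unfold rO
    rw [(key b hb).1, (key c hc').1, mul_div_mul_left _ _ (toC_ne h0)]
  · intro z hz
    have hz' : ((f * 2 ^ N : ℕ) : ℂ) * z ∈ Lam b := by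
      have h1 := (L2.1 b).2.2.2 ((2 ^ N : ℕ) : OO n t) _ hz
      rw [toC_nat] at h1
      have e : ((f * 2 ^ N : ℕ) : ℂ) * z = ((2 ^ N : ℕ) : ℂ) * ((f : ℂ) * z) := by
        push_cast
        ring
      rw [e]
      exact h1
    obtain ⟨w, hw⟩ := hc.one
    have hl : toC w * ((f : ℂ) * z) ∈ Lam b := (L2.1 b).2.2.2 w _ hz
    have e : toC h * z = z + toC w * ((f : ℂ) * z) := by
      have e1 : h = 1 + (f : OO n t) * w := by rw [← hw]; ring
      rw [e1, toC_add, toC_one, toC_mul, toC_nat]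
      ring
    have hp := ract_per b hb.ne z _ hl
    rw [← e] at hp
    exact ⟨(hpt z hz').1.trans hp.1, (hpt z hz').2.trans hp.2⟩
  · intro ζ hζ
    have h1 : ζ ^ (f * 2 ^ N) = 1 := by
      rw [mul_comm, pow_mul, hζ, one_pow]
    have h2 := E6 n t τ (f * 2 ^ N) (sp h) hGK hMpos hM15 hc.psi ζ h1
    have h3 : (NI (sp h) : ℤ) = Nm h := (aO2 n t).2.2.2.1 h
    have h4 : (Nm h).toNat = NI (sp h) := by
      rw [← h3, Int.toNat_natCast]
    rw [h4]
    exact h2
  · intro m hm m2 m15 hmf z hz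
    obtain ⟨g1, g2⟩ := E10b m b hm hb m2 m15 (hmf.mul_right _) z hz
    refine ⟨fun hzm => ?_, ?_⟩
    · rw [g1 hzm]
      unfold gO
      rw [ract_gC m b hm hb h h0 (key b hb).1 z]
    · rw [g2]
      have hcop : Cop h 15 := cop_congr (j := 15) (a := 1) (b := h) (by
        have h1 := ract_dvd (j := 15) f15 hc.one
        rw [← neg_sub]
        exact (dvd_neg).2 h1) (cop_one 15)
      have htor : Tor n t z := (L2.2.2.2.2.2.2.2 b z hb.ne).2 ⟨f * 2 ^ N, hMpos, hz⟩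
      exact (D8 n t m b hm hb m2 m15).2.2.1 h z h0 hcop htor

end Pool.Agent.DR.GL
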