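import Pool.Agent.Lib.DR.GL.SpecB
import Pool.Agent.Lib.DN.CV.Bas

/-!
# Theorem DR, part GL: module `Chi` (the character `χ`: integrality, inertia, principal ideals)
-/

set_option autoImplicit false

open scoped Pointwise

noncomputable section

namespace Pool.Agent.DR.GL

open Pool.Agent.MuZ Pool.Agent.FW Pool.Agent.DN
open Pool.Agent.DI (io ofC io_inj exists_io io_ofC ofC_io VP MP UP TP ex sqr sqr_sq kap)
open Pool.Agent.DI.GL (Fx StP xx mem_of_Fx Fx.mul Fx.inv Fx.one)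
open Pool.Agent.DN.GL (EE pH IsR)
open Pool.Agent.DL (vl GE Pl Fi Fp Cn Cf dl Gen Dr LD)

variable {n t : ℕ}

private theorem Chi_pow {P : Ideal ZZ} (hP : P.IsPrime) {a b : Om} (ha : VP P a) (hb : VP P b)
    (h : MP P (a - b)) (j : ℕ) : MP P (a ^ j - b ^ j) := by
  induction j with
  | zero => rw [pow_zero, pow_zero, sub_self]; exact DI.MP.zero
  | succ j ih =>
    rw [pow_succ, pow_succ]
    exact CV_mp_mul hP ha (DI.VP.pow hb j) ih h

/-- Lemma R. -/
private theorem Chi_one {P : Ideal ZZ} (hP : P.IsPrime) (h2 : MP P 2) {x : Om} {M : ℕ} (hM : Odd M)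
    (hx : x ^ M = 1) (h : MP P (x - 1)) : x = 1 := by
  by_contra hne
  have hx1 : x - 1 ≠ 0 := sub_ne_zero.2 hne
  have h3 : (∑ i ∈ Finset.range M, x ^ i) * (x - 1) = 0 := by
    rw [geom_sum_mul, hx, sub_self]
  have h4 : ∑ i ∈ Finset.range M, x ^ i = 0 := (mul_eq_zero.1 h3).resolve_right hx1
  have hV : VP P x := (CV_up_of_pow hP hM.pos hx).1
  have h5 : MP P (∑ i ∈ Finset.range M, (x ^ i - 1)) := by
    refine DI.MP.sum _ _ fun i _ => ?_
    have := Chi_pow hP hV DI.VP.one h i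
    rwa [one_pow] at this
  rw [Finset.sum_sub_distrib, h4, Finset.sum_const, Finset.card_range, nsmul_eq_mul, mul_one,
    zero_sub] at h5
  have h6 := DI.MP.neg h5
  rw [neg_neg] at h6
  exact (CV_up_oddN hP h2 hM).2 h6

theorem tChi : S_Chi := by
  intro hO4 n t _ P hP f χ hf h15 hχ
  have hPp : P.IsPrime := hP.1.1
  have h2 : MP P 2 := hP.2
  have hf0 : 0 < f := hf.pos
  have hF0 : 0 < 2 * f := by omega
  obtain ⟨m, hm, hχm⟩ := hχ.odd
  obtain ⟨-, -, -, -, -, -, -, -, -, -, -, h4q, -⟩ := hO4 n t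
  obtain ⟨-, -, -, -, -, -, -, h7s, -⟩ := aO7 n t (2 * f) hF0
  have htop : χ ⊤ = 1 := by
    have h3 := hχm ⊤ top_ne_bot (CV_top _)
    have h5 : χ ⊤ * χ ⊤ = χ ⊤ := by rw [← hχ.mul, Ideal.top_mul]
    have h6 : χ ⊤ ≠ 0 := by
      intro h
      rw [h, zero_pow hm.pos.ne'] at h3
      exact zero_ne_one h3
    exact mul_right_cancel₀ h6 (by rw [h5, one_mul])
  have hsp : ∀ (v : OO n t) (j : ℕ), χ (sp (v ^ j)) = χ (sp v) ^ j := by
    intro v j
    induction j with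
    | zero => rw [pow_zero, pow_zero, CV_sp_one, htop]
    | succ j ih => rw [pow_succ, pow_succ, ← CV_sp_mul, hχ.mul, ih]
  have hcop2 : ∀ v : OO n t, (f : OO n t) ∣ v - 1 → Cop v 2 → Cop v (2 * f) :=
    fun v h3 h5 => CV_cop_mul.2 ⟨h5, CV_cop_of_dvd h3⟩
  have hxm : ∀ v : OO n t, Cop v (2 * f) → χ (sp v) ^ m = 1 := fun v h3 =>
    hχm _ (CV_sp_ne (CV_ne_of_cop (by omega) h3)) (CV_pri_sp hF0 h3)
  have hcong : ∀ v v' : OO n t, Cop v (2 * f) → Cop v' (2 * f) →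
      ((2 * f : ℕ) : OO n t) ∣ v - v' → χ (sp v) = χ (sp v') := by
    intro v v' h3 h3' h5
    have hv := CV_ne_of_cop (by omega) h3
    have hv' := CV_ne_of_cop (by omega) h3'
    refine hχ.ray _ _ (CV_sp_ne hv) (CV_sp_ne hv') (CV_pri_sp hF0 h3) (CV_pri_sp hF0 h3') ?_
    exact (h7s v v' hv hv' h3 h3').2 ⟨1, Nm_one, by rw [one_mul]; exact h5⟩
  have h2f : Nat.Coprime 2 f := (Nat.coprime_two_left).2 hf
  have hHf : ∀ h : OO n t, Hf f h → χ (sp h) = 1 := by
    rintro h ⟨hc, i, hi⟩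
    have hcp : Cop (h ^ 2 ^ i) (2 * f) := by
      have hgen : ∀ k : ℕ, Cop (h ^ k) (2 * f) := by
        intro k
        induction k with
        | zero => rw [pow_zero]; exact cop_one _
        | succ k ih => rw [pow_succ]; exact cop_mul ih hc
      exact hgen _
    have h3 := hcong (h ^ 2 ^ i) 1 hcp (cop_one _) hi
    rw [hsp, CV_sp_one, htop] at h3
    have h5 := hxm h hc
    have h6 := pow_gcd_eq_one.2 ⟨h3, h5⟩
    have h7 : Nat.gcd (2 ^ i) m = 1 := Nat.Coprime.pow_left i ((Nat.coprime_two_left).2 hm)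
    rwa [h7, pow_one] at h6
  refine ⟨?_, ?_, hHf⟩
  · -- (1)
    intro b
    by_cases hb : b = ⊥ ∨ ¬ PrI b (2 * f)
    · rw [hχ.zero b hb]
      exact ⟨DI.VP.zero, fun τ _ => map_zero τ⟩
    · push Not at hb
      have h3 := hχm b hb.1 hb.2
      have hV : VP P (χ b) := (CV_up_of_pow hPp hm.pos h3).1
      refine ⟨hV, fun τ hτ => ?_⟩
      obtain ⟨x, hx⟩ : ∃ x : Om, x = χ b := ⟨_, rfl⟩
      rw [← hx] at h3 hV ⊢
      have h4 : MP P (τ x - x) := DI.VP.inertia hτ hV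
      have h5 : x * x ^ (m - 1) = 1 := by
        rw [← pow_succ', Nat.sub_add_cancel hm.pos, h3]
      have h6 : τ x * x ^ (m - 1) = 1 := by
        refine Chi_one hPp h2 hm ?_ ?_
        · rw [mul_pow, ← map_pow, h3, map_one, one_mul, ← pow_mul, mul_comm, pow_mul, h3, one_pow]
        · have e : τ x * x ^ (m - 1) - 1 = (τ x - x) * x ^ (m - 1) := by
            rw [sub_mul, h5]
          rw [e]
          exact DI.MP.mul_right h4 (DI.VP.pow hV _)
      calc τ x = τ x * (x * x ^ (m - 1)) := by rw [h5, mul_one]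
        _ = (τ x * x ^ (m - 1)) * x := by ring
        _ = x := by rw [h6, one_mul]
  · -- (2)
    intro v h3 h5
    refine hHf v ⟨hcop2 v h3 h5, 1, ?_⟩
    rw [pow_one]
    refine CV_cast_mul h2f ?_ ?_
    · rw [CV_cast_two]
      exact h4q v h5
    · exact dvd_trans h3 (sub_one_dvd_pow_sub_one v 2)

end Pool.Agent.DR.GL
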