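import Pool.Agent.Lib.DR.GL.SpecT

/-!
# Theorem DR, part GL: the different of the subgroup of the h = 1 modulo 2 (S_D1)
-/

set_option autoImplicit false

open scoped Pointwise

noncomputable section

namespace Pool.Agent.DR.GL

open Pool.Agent.MuZ Pool.Agent.FW Pool.Agent.DN
open Pool.Agent.DI (io ofC io_inj exists_io io_ofC ofC_io VP MP UP TP ex)
open Pool.Agent.DN.GL (EE pH IsR)
open Pool.Agent.DL (vl GE Pl Fi Fp Cn Cf dl Gen Dr LD)

variable {n t : ℕ}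

theorem tD1 : S_D1 := by
  classical
  intro _ hRep hPi hGen n t _ P hP f N z0 d hpt
  have hpr : P.IsPrime := hP.1.1
  have h2 : Pl P 2 := ⟨two_ne_zero, by exact_mod_cast hP.2⟩
  obtain ⟨-, -, -, -, p5, p6, -⟩ := hPi n t P hP f N z0 d hpt
  have hN := hpt.pos
  obtain ⟨q1, -, q3, -, q5⟩ := hRep n t N hN
  obtain ⟨⟨S, hS⟩, g2, -⟩ := hGen n t P hP f N z0 d hpt
  obtain ⟨-, hcard, hvS, hsub⟩ := g2 S hS
  have hUn1 : Un (n := n) (t := t) f 1 := ⟨by rw [sub_self]; exact dvd_zero _, cop_one 2⟩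
  obtain ⟨S1, hS1, hsS, hm, hne, -, -⟩ := hsub (fun h => Un f h ∧ (2 : OO n t) ∣ h - 1)
    (fun h hh => hh.1) ⟨hUn1, by rw [sub_self]; exact dvd_zero _⟩
  refine ⟨S1, hS1, hm, ?_⟩
  obtain ⟨T, hT⟩ := q1 (Un (n := n) (t := t) f)
  obtain ⟨h1, h1T, h1d⟩ := hT.ex 1 hUn1
  obtain ⟨c1, c2, c3⟩ := q5 f hpt.odd T hT
  have hpi1 : pH z0 d (1 : OO n t) = pH z0 d h1 := p5 1 h1 h1d
  have h2N : (2 : OO n t) ∣ ((2 ^ N : ℕ) : OO n t) := by
    push_cast
    exact dvd_pow_self _ (by omega)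
  have hiff : ∀ h : OO n t, h - h1 ∈ pp n t ^ 2 ↔ (2 : OO n t) ∣ h - 1 := by
    intro h
    have e := q3 (h - h1) 1
    rw [mul_one, pow_one, Nat.cast_ofNat] at e
    rw [e]
    have e1 : h - 1 = (h - h1) - (1 - h1) := by ring
    rw [e1]
    exact (dvd_sub_left (h2N.trans h1d)).symm
  -- the points are the images of the representatives
  have hST : S = T.image (pH z0 d) := by
    ext x
    rw [hS x, Finset.mem_image]
    constructor
    · rintro ⟨h, hh, rfl⟩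
      obtain ⟨k, kT, kd⟩ := hT.ex h hh
      exact ⟨k, kT, (p5 h k kd).symm⟩
    · rintro ⟨h, hh, rfl⟩
      exact ⟨h, hT.mem h hh, rfl⟩
  have hinj : Set.InjOn (pH z0 d) (T : Set (OO n t)) := by
    rw [← Finset.card_image_iff, ← hST, hcard, c1]
  have hST1 : S1 = (T.filter (fun h => h - h1 ∈ pp n t ^ 2)).image (pH z0 d) := by
    ext x
    rw [hS1 x, Finset.mem_image]
    constructor
    · rintro ⟨h, hh, rfl⟩
      obtain ⟨k, kT, kd⟩ := hT.ex h hh.1
      refine ⟨k, Finset.mem_filter.2 ⟨kT, (hiff k).2 ?_⟩, (p5 h k kd).symm⟩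
      have e1 : k - 1 = (h - 1) - (h - k) := by ring
      rw [e1]
      exact dvd_sub hh.2 (h2N.trans kd)
    · rintro ⟨h, hh, rfl⟩
      rw [Finset.mem_filter] at hh
      exact ⟨h, ⟨hT.mem h hh.1, (hiff h).1 hh.2⟩, rfl⟩
  have hcard1 : S1.card = 2 ^ (2 * N - 2) := by
    rw [hST1, Finset.card_image_of_injOn (hinj.mono fun x hx => ?_)]
    · exact c3 h1 h1T 2 (by omega) (by omega)
    · exact (Finset.mem_filter.1 hx).1
  -- the other points
  have hoth : ∀ r ∈ S \ S1, pH z0 d (1 : OO n t) - r ≠ 0 ∧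
      vl P 2 (pH z0 d (1 : OO n t) - r) = 1 / 2 ^ (2 * N - 1) := by
    intro r hr
    obtain ⟨hrS, hr1⟩ := Finset.mem_sdiff.1 hr
    rw [hST, Finset.mem_image] at hrS
    obtain ⟨h, hh, rfl⟩ := hrS
    have h3 : h - h1 ∉ pp n t ^ (1 + 1) := by
      intro h4
      refine hr1 ?_
      rw [hST1]
      exact Finset.mem_image_of_mem _ (Finset.mem_filter.2 ⟨hh, h4⟩)
    have h4 : h1 - h ∈ pp n t ^ 1 := c2 h1 h1T h hh
    have h5 : h1 - h ∉ pp n t ^ (1 + 1) := by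
      intro h6
      refine h3 ?_
      rw [← neg_sub]
      exact Submodule.neg_mem _ h6
    obtain ⟨h6, h7⟩ := p6 h1 h 1 (hT.mem h1 h1T).2 (hT.mem h hh).2 (by omega) h4 h5
    rw [hpi1]
    exact ⟨sub_ne_zero.2 h6, h7⟩
  have hprod : dl S (pH z0 d (1 : OO n t)) = dl S1 (pH z0 d (1 : OO n t)) *
      ∏ r ∈ S \ S1, (pH z0 d (1 : OO n t) - r) := by
    unfold DL.dl
    have e : S.erase (pH z0 d (1 : OO n t)) \ S1.erase (pH z0 d (1 : OO n t)) = S \ S1 := by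
      ext r
      simp only [Finset.mem_sdiff, Finset.mem_erase]
      constructor
      · rintro ⟨⟨a, b⟩, c⟩
        exact ⟨b, fun e => c ⟨a, e⟩⟩
      · rintro ⟨a, b⟩
        exact ⟨⟨fun e => b (e ▸ hm), a⟩, fun e => b e.2⟩
    rw [← Finset.prod_sdiff (Finset.erase_subset_erase _ hsS), e, mul_comm]
  have hcd : ((S \ S1).card : ℚ) = 2 ^ (2 * N - 2) := by
    rw [Finset.card_sdiff_of_subset hsS, hcard, hcard1]
    have e : 2 ^ (2 * N - 1) - 2 ^ (2 * N - 2) = 2 ^ (2 * N - 2) := by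
      rw [show 2 * N - 1 = (2 * N - 2) + 1 by omega, pow_succ]
      omega
    rw [e]
    push_cast
    rfl
  have hv : vl P 2 (∏ r ∈ S \ S1, (pH z0 d (1 : OO n t) - r)) = 1 / 2 := by
    rw [DL.vl_prod h2 _ _ fun r hr => (hoth r hr).1, Finset.sum_congr rfl fun r hr => (hoth r hr).2,
      Finset.sum_const, nsmul_eq_mul, hcd, show 2 * N - 1 = (2 * N - 2) + 1 by omega, pow_succ]
    have : (2 : ℚ) ^ (2 * N - 2) ≠ 0 := by positivity
    field_simp
  rw [hprod, DL.vl_mul h2 hne (Finset.prod_ne_zero_iff.2 fun r hr => (hoth r hr).1), hv] at hvS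
  linarith

end Pool.Agent.DR.GL
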