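import Pool.Agent.Lib.DR.GL.SpecB
import Pool.Agent.Lib.DN.B.All

/-!
# Theorem DR, part GL: the inertia elements outside of `Gal(Om/K)` (S_Dta)
-/

set_option autoImplicit false

open scoped Pointwise

noncomputable section

namespace Pool.Agent.DR.GL

open Pool.Agent.MuZ Pool.Agent.FW Pool.Agent.DN
open Pool.Agent.DI (io ofC io_inj exists_io io_ofC ofC_io VP MP UP TP ex sqr sqr_sq kap)
open Pool.Agent.DI.GL (Fx StP xx mem_of_Fx Fx.mul Fx.inv Fx.one)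
open Pool.Agent.DN.GL (EE pH IsR)
open Pool.Agent.DL (vl GE Pl Fi Fp Cn Cf dl Gen Dr LD)

variable {n t : ℕ}

/-- A root of unity of odd order which is congruent to `1` is `1`. -/
private theorem Dta_root {P : Ideal ZZ} [hP : P.IsPrime] (h2 : MP P 2) {x : Om} {M : ℕ} (hM : Odd M)
    (hx : x ^ M = 1) (h1 : MP P (x - 1)) : x = 1 := by
  by_contra hne
  have hMpos : 0 < M := hM.pos
  have hxV : VP P x := by
    have h := (DI.VP.one (P := P)).add h1.vp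
    have e : 1 + (x - 1) = x := by ring
    rwa [e] at h
  have h3 : (∑ i ∈ Finset.range M, x ^ i) * (x - 1) = 0 := by rw [geom_sum_mul, hx, sub_self]
  have h4 : ∑ i ∈ Finset.range M, x ^ i = 0 := by
    rcases mul_eq_zero.1 h3 with h | h
    · exact h
    · exact absurd (sub_eq_zero.1 h) hne
  have h5 : MP P (∑ i ∈ Finset.range M, (x ^ i - 1)) := by
    refine DI.MP.sum _ _ fun i _ => ?_
    have h6 : (∑ j ∈ Finset.range i, x ^ j) * (x - 1) = x ^ i - 1 := geom_sum_mul x i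
    rw [← h6]
    exact DI.MP.mul_left (DI.VP.sum _ _ fun j _ => DI.VP.pow hxV j) h1
  rw [Finset.sum_sub_distrib, h4, Finset.sum_const, Finset.card_range, nsmul_eq_mul, mul_one,
    zero_sub] at h5
  obtain ⟨j, hj⟩ := hM
  have h7 : MP P (-(M : Om) + 2 * j) := by
    refine DI.MP.add h5 (DI.MP.mul_right h2 (DI.VP.nat j))
  have e : -(M : Om) + 2 * j = -1 := by
    rw [hj]
    push_cast
    ring
  rw [e] at h7
  have h8 := h7.neg
  rw [neg_neg] at h8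
  exact DI.MP.one_not h8

/-- Inertia elements fix the roots of unity of odd order. -/
private theorem Dta_fix {P : Ideal ZZ} [hP : P.IsPrime] (h2 : MP P 2) {τ : Gal(Om/ℚ)}
    (hτ : τ ∈ P.inertia Gal(Om/ℚ)) {z : Om} {M : ℕ} (hM : Odd M) (hz : z ^ M = 1) : τ z = z := by
  have hz0 : z ≠ 0 := by
    rintro rfl
    rw [zero_pow hM.pos.ne'] at hz
    exact zero_ne_one hz
  have hzV : VP P z := DI.VP.of_pow hM.pos (by rw [hz]; exact DI.VP.one)
  have hzi : VP P z⁻¹ := DI.VP.of_pow hM.pos (by rw [inv_pow, hz, inv_one]; exact DI.VP.one)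
  have h3 := DI.MP.mul_right (DI.VP.inertia hτ hzV) hzi
  have e : (τ z - z) * z⁻¹ = τ z * z⁻¹ - 1 := by rw [sub_mul, mul_inv_cancel₀ hz0]
  rw [e] at h3
  have h4 : (τ z * z⁻¹) ^ M = 1 := by
    rw [mul_pow, ← map_pow, hz, map_one, inv_pow, hz, inv_one, mul_one]
  have h5 := Dta_root h2 hM h4 h3
  rw [← div_eq_mul_inv, div_eq_one_iff_eq hz0] at h5
  exact h5

private theorem Dta_top15 [SqN n t] : G15 (⊤ : Ideal (OO n t)) :=
  ⟨top_ne_bot, by unfold PrI; rw [top_sup_eq]⟩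

theorem tDta : S_Dta := by
  intro hCn hDer hCj hR1 hD2 hE6 hE11 hLev hIn hPi hGen hTrh n t _ P hP f N z0 d hp τ hτ hτK
  classical
  have hpr : P.IsPrime := hP.1.1
  have h2 : Pl P 2 := pl2 hP
  have hM2 : MP P (2 : Om) := hP.2
  have hf0 : 0 < f := hp.odd.pos
  set M : ℕ := f * 2 ^ N with hMd
  have hM0 : 0 < M := Nat.mul_pos hf0 (pow_pos (by norm_num) N)
  have hM15 : 15 ∣ M := hp.f15.mul_right _
  obtain ⟨e1, e2, e3, -⟩ := hE11 n t M hM0 hM15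
  obtain ⟨⟨a, ha⟩, hτO⟩ := e1 τ hτK
  obtain ⟨b1, -, b3, -, b5⟩ := e2 τ a ha
  obtain ⟨o1, o2, o3, -, -⟩ := aO6 n t
  have pa15 : PrI a 15 := ((o2 15 M a).1 ha.cop).1
  have paM : PrI a M := ((o2 15 M a).1 ha.cop).2
  have paf : PrI a f := ((o2 f (2 ^ N) a).1 paM).1
  have pa2N : PrI a (2 ^ N) := ((o2 f (2 ^ N) a).1 paM).2
  have hc2 : (NI a).Coprime 2 := by
    have h := (o3 (2 ^ N) a (pow_pos (by norm_num) N)).1 pa2N
    exact Nat.Coprime.coprime_dvd_right (dvd_pow_self 2 (by have := hp.pos; omega)) h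
  have pa2 : PrI a 2 := (o3 2 a (by norm_num)).2 hc2
  have hG : G15 a := ⟨ha.ne, pa15⟩
  have hGT : G15 (⊤ : Ideal (OO n t)) := Dta_top15
  obtain ⟨-, j2, j3, j4, j5, -⟩ := aO3 n t
  have hsp1 : sp (1 : OO n t) = ⊤ := Ideal.span_singleton_one
  have hcT : cjI (⊤ : Ideal (OO n t)) = ⊤ := by
    have h := j4 (1 : OO n t)
    rwa [cjO_one, hsp1] at h
  have haT : a * cjI (⊤ : Ideal (OO n t)) = a := by rw [hcT, Ideal.mul_top]
  have hMz : ∀ z : ℂ, (M : ℂ) * z ∈ Lam (⊤ : Ideal (OO n t)) → (starRingEnd ℂ) z = z →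
      τ (xO (⊤ : Ideal (OO n t)) z) = xO a z ∧ τ (vO (⊤ : Ideal (OO n t)) z) = vO a z := by
    intro z hz hzc
    have h3 := ha.xx ⊤ top_ne_bot hGT.cop z hz
    have h4 := (b1 ⊤ hGT).1 z hz
    rw [haT, hzc] at h3 h4
    exact ⟨h3, h4⟩
  have hMz0 : (M : ℂ) * z0 ∈ Lam (⊤ : Ideal (OO n t)) := by
    have e : (M : ℂ) * z0 = ((2 ^ N : ℕ) : ℂ) * ((f : ℂ) * z0) := by
      rw [hMd]
      push_cast
      ring
    rw [e]
    exact lam_nat _ hp.z
  have hMd' : (M : ℂ) * d ∈ Lam (⊤ : Ideal (OO n t)) := by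
    have e : (M : ℂ) * d = (f : ℂ) * ((2 : ℂ) ^ N * d) := by
      rw [hMd]
      push_cast
      ring
    rw [e]
    exact lam_nat _ hp.dd
  have hMzd : (M : ℂ) * (z0 + d) ∈ Lam (⊤ : Ideal (OO n t)) := by
    rw [mul_add]
    exact lam_add hMz0 hMd'
  obtain ⟨t1, t2⟩ := hMz (z0 + d) hMzd (by rw [map_add, hp.cz, hp.cd])
  obtain ⟨t3, -⟩ := hMz z0 hMz0 hp.cz
  set r : Om := rO (⊤ : Ideal (OO n t)) a with hr
  obtain ⟨g1, g2⟩ := hTrh n t P hP f N z0 d hp.toPt a 1 hG pa2 one_ne_zero (cop_one 2) (by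
    rw [hsp1, Ideal.top_mul]
    exact hp.pri a ha.ne paf)
  rw [toC_one, one_mul] at g1
  rw [toC_one, one_mul, toO_one, one_mul] at g2
  obtain ⟨S, hS, hGn, hq0, hq1⟩ := gen0 hGen hP hp.toPt
  obtain ⟨p1, -⟩ := hPi n t P hP f N z0 d hp.toPt
  obtain ⟨-, -, -, -, -, p16⟩ := p1 (1 : OO n t) (cop_one 2)
  rw [toC_one, one_mul] at p16
  obtain ⟨-, -, -, r4, r5, -⟩ := hDer P 2 2 (II n t P) S _ hGn (N - 1 / 2)
    (vO (⊤ : Ideal (OO n t)) (z0 + d)) hq0 hq1 p16.1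
  have hupr : UP P r := by
    obtain ⟨-, -, -, -, -, -, d7, -⟩ := hD2 n t P hP ⊤ hGT
    have h := d7 a ha.ne pa2 pa15
    rwa [Ideal.mul_top] at h
  have hfir : Fi (II n t P) r := by
    obtain ⟨-, -, l3, -⟩ := hLev n t f hf0 hp.f15
    obtain ⟨-, -, -, -, -, -, i7, -⟩ := hIn n t P hP f N hp.odd hp.f15
    exact i7 r ((l3 ⊤ hGT).2.2.2 a hG)
  have hπ : τ (pH z0 d (1 : OO n t)) = xO a (z0 + d) - xO a z0 := by
    unfold DN.GL.pH
    rw [toC_one, one_mul, map_sub, t1, t3]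
  have hDπ : Dn n t P N z0 d (τ (pH z0 d (1 : OO n t))) (r * τ (vO (⊤ : Ideal (OO n t)) (z0 + d))) := by
    have h := (r5 _ _ _ _ g2 (r4 _ g1)).2.1
    rw [sub_zero] at h
    rw [hπ, t2]
    exact h
  have hτw : ∀ v : OO n t, τ (toO v) = toO (cjO v) := hτO
  have hconj : ∀ σ ∈ II n t P, τ⁻¹ * σ * τ ∈ II n t P := by
    intro σ hσ
    obtain ⟨hσ1, hσ2⟩ := Subgroup.mem_inf.1 hσ
    refine Subgroup.mem_inf.2 ⟨mul_mem (mul_mem (inv_mem hτ) hσ1) hτ, ?_⟩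
    rw [mem_GK_iff]
    change τ⁻¹ (σ (τ (wO n t))) = wO n t
    have e4 : σ (τ (wO n t)) = τ (wO n t) := by
      rw [← toO_wI, hτw]
      exact GK_toO hσ2 _
    rw [e4]
    exact τ.symm_apply_apply _
  obtain ⟨c1, c2⟩ := hCj P 2 2 (II n t P) S _ hGn (N - 1 / 2) (vO (⊤ : Ideal (OO n t)) (z0 + d)) r τ
    hq0 hq1 p16.1 hupr.1 hτ hconj hDπ
  refine ⟨r, ⟨hupr.1, hfir⟩, ?_, c1, c2⟩
  -- the claim on the norm
  obtain ⟨hR1a, c, hc, -⟩ := hR1
  have hcO : ∀ v : OO n t, c (toO v) = toO (cjO v) := by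
    intro v
    apply io_inj
    rw [hc, io_toO, io_toO, conj_toC]
  have hτc : τ * c ∈ GK n t := by
    rw [mem_GK_iff]
    change τ (c (wO n t)) = wO n t
    rw [← toO_wI, hcO, hτw, cjO_cjO]
  have hPsi : Psi (τ * c) M a := by
    have h := b5 c ⊤ (e3 c hc)
    rwa [haT] at h
  have hNI : 15 ∣ NI a + 1 := by
    have : NeZero ((15 : ℕ) : Om) := ⟨by norm_num⟩
    obtain ⟨ζ, hζ⟩ := HasEnoughRootsOfUnity.exists_primitiveRoot Om 15
    have hζ1 : ζ ^ 15 = 1 := hζ.pow_eq_one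
    have hζM : ζ ^ M = 1 := by
      obtain ⟨k, hk⟩ := hM15
      rw [hk, pow_mul, hζ1, one_pow]
    have h6 := hE6 n t (τ * c) M a hτc hM0 hM15 hPsi ζ hζM
    have hcζ : c ζ = ζ⁻¹ := by
      apply io_inj
      have h7 : (io ζ) ^ 15 = 1 := by rw [← map_pow, hζ1, map_one]
      have h8 : ‖io ζ‖ = 1 := Complex.norm_eq_one_of_pow_eq_one h7 (by norm_num)
      rw [hc, map_inv₀, Complex.inv_eq_conj h8]
    have hτζ : τ ζ⁻¹ = ζ⁻¹ := Dta_fix (M := 15) hM2 hτ (by decide) (by rw [inv_pow, hζ1, inv_one])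
    have h9 : (τ * c) ζ = ζ⁻¹ := by
      change τ (c ζ) = ζ⁻¹
      rw [hcζ, hτζ]
    rw [h9] at h6
    have hζ0 : ζ ≠ 0 := hζ.ne_zero (by norm_num)
    refine hζ.dvd_of_pow_eq_one _ ?_
    rw [pow_succ, ← h6, inv_mul_cancel₀ hζ0]
  have hsp : a * cjI a = sp (NI a : OO n t) := (j3 a).2.2
  have hne : a * cjI a ≠ ⊥ := by
    rw [hsp]
    intro h
    have h3 : (NI a : OO n t) = 0 := Ideal.span_singleton_eq_bot.1 h
    have h4 : NI a = 0 := by
      have h5 := congrArg (fun v : OO n t => v.re) h3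
      simp only [re_nat] at h5
      exact_mod_cast h5
    exact ha.ne (((aO2 n t).2.2.2.2.2.1 a).1 h4)
  have hG2 : G15 (a * cjI a) := ⟨hne, (o1 15 a (cjI a)).2 ⟨pa15, (j5 a 15).2 pa15⟩⟩
  have hrτ : r * τ r = -(NI a : Om) := by
    have h3 : τ r = rO a (a * cjI a) := by
      have h := (b1 ⊤ hGT).2 a hG
      rwa [haT] at h
    rw [h3]
    apply io_inj
    have k1 := ((hR1a n t).1 ⊤ hGT).2.2.2 a hG
    have k2 := ((hR1a n t).1 a hG).2.2.2 (a * cjI a) hG2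
    have ffa : fr a ≠ 0 := ((aB1 n t a ha.ne).2.2.2.2.2 pa15).1
    have ffT : fr (⊤ : Ideal (OO n t)) ≠ 0 := ((aB1 n t ⊤ top_ne_bot).2.2.2.2.2 hGT.cop).1
    have hα0 : (-(NI a : OO n t)) ≠ 0 := by
      intro h
      apply hne
      rw [hsp, neg_eq_zero.1 h]
      exact Ideal.span_singleton_eq_bot.2 rfl
    have h15 : ((15 : ℕ) : OO n t) ∣ -(NI a : OO n t) - 1 := by
      have e : -(NI a : OO n t) - 1 = -((NI a + 1 : ℕ) : OO n t) := by
        push_cast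
        ring
      rw [e]
      exact (dvd_neg).2 (Nat.cast_dvd_cast hNI)
    have d3 : (3 : OO n t) ∣ -(NI a : OO n t) - 1 := Dvd.dvd.trans ⟨5, by norm_num⟩ h15
    have d5 : (5 : OO n t) ∣ -(NI a : OO n t) - 1 := Dvd.dvd.trans ⟨3, by norm_num⟩ h15
    have h4 := (((aB7 n t ⊤ top_ne_bot).2.2 hGT.cop).1 (-(NI a : OO n t)) hα0 d3 (Or.inl d5)).1
    have h5 : sp (-(NI a : OO n t)) = sp (NI a : OO n t) := Ideal.span_singleton_neg _
    rw [h5, Ideal.mul_top, ← hsp, toC_neg, toC_nat] at h4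
    rw [map_mul, hr, k1.1, k2.1, h4, map_neg, map_natCast]
    field_simp
  -- `r` is `1` modulo `P`
  have hodd : MP P (r * τ r - 1) := by
    rw [hrτ]
    have h3 : 2 ∣ NI a + 1 := by
      have h4 : NI a % 2 = 1 := by
        rcases Nat.mod_two_eq_zero_or_one (NI a) with h | h
        · exfalso
          have h5 : 2 ∣ NI a := Nat.dvd_of_mod_eq_zero h
          have h6 := Nat.Coprime.eq_one_of_dvd hc2.symm h5
          omega
        · exact h
      omega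
    obtain ⟨k, hk⟩ := h3
    have e : -(NI a : Om) - 1 = 2 * -(k : Om) := by
      have h4 : ((NI a + 1 : ℕ) : Om) = ((2 * k : ℕ) : Om) := by rw [hk]
      push_cast at h4
      linear_combination -h4
    rw [e]
    exact DI.MP.mul_right hM2 (DI.VP.nat k).neg
  have hMr : MP P (r - 1) := by
    have h3 : MP P (τ r - r) := DI.VP.inertia hτ hupr.1
    have h4 : MP P (r ^ 2 - 1) := by
      have e : r ^ 2 - 1 = (r * τ r - 1) - r * (τ r - r) := by ring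
      rw [e]
      exact DI.MP.sub hodd (DI.MP.mul_left hupr.1 h3)
    have h5 : MP P ((r - 1) ^ 2) := by
      have e : (r - 1) ^ 2 = (r ^ 2 - 1) - 2 * (r - 1) := by ring
      rw [e]
      exact DI.MP.sub h4 (DI.MP.mul_right hM2 (DI.VP.sub hupr.1 DI.VP.one))
    exact DI.MP.of_pow h5
  by_cases hr1 : r - 1 = 0
  · exact Or.inl hr1
  · right
    have hfi : Fi (II n t P) (r - 1) := fun σ hσ => by rw [map_sub, hfir σ hσ, map_one]
    obtain ⟨-, -, -, -, -, -, -, i8⟩ := hIn n t P hP f N hp.odd hp.f15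
    obtain ⟨j, hj⟩ := i8 (r - 1) hfi hr1
    have hpos := (DL.vl_pos h2 hr1).2 hMr
    rw [hj] at hpos ⊢
    have h3 : (0 : ℚ) < j := by linarith
    have h4 : (0 : ℤ) < j := by exact_mod_cast h3
    have h5 : (1 : ℤ) ≤ j := by omega
    have h6 : (1 : ℚ) ≤ j := by exact_mod_cast h5
    linarith

end Pool.Agent.DR.GL
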