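import Pool.Agent.Lib.DR.GL.Spec

/-!
# Theorem DR, part GL: HD, the different of the group `H_N` (author helper71)
-/

set_option autoImplicit false

open scoped Pointwise

noncomputable section

namespace Pool.Agent.DR.GL

open Pool.Agent.MuZ Pool.Agent.FW Pool.Agent.DN
open Pool.Agent.DI (io ofC io_inj exists_io io_ofC ofC_io VP MP UP TP ex)
open Pool.Agent.DN.GL (EE pH IsR)
open Pool.Agent.DL (vl GE Pl Fi Fp Cn Cf dl Gen Dr LD)

variable {n t : ℕ}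

private theorem pl2 {P : Ideal ZZ} (hP : Ab2 P) : Pl P 2 := ⟨two_ne_zero, by exact_mod_cast hP.2⟩

/-- Levels and valuations of the differences. -/
private theorem lev_ex (rep : C_Rep) (pi : C_Pi) [Rmf n t] {P : Ideal ZZ} (hP : Ab2 P) {f N : ℕ}
    {z0 d : ℂ} (hpt : Pt n t f N z0 d) {h h' : OO n t} (hc : Cop h 2) (hc' : Cop h' 2)
    (hne : ¬ ((2 ^ N : ℕ) : OO n t) ∣ h - h') :
    ∃ j : ℕ, j < 2 * N ∧ h - h' ∈ pp n t ^ j ∧ pH z0 d h ≠ pH z0 d h' ∧
      vl P 2 (pH z0 d h - pH z0 d h') = 1 / 2 ^ (2 * N - j) := by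
  classical
  have hN := hpt.pos
  have h3 := (rep n t N hN).2.2.1 (h - h') N
  have hex : ∃ j : ℕ, h - h' ∉ pp n t ^ (j + 1) := by
    refine ⟨2 * N - 1, ?_⟩
    rw [show 2 * N - 1 + 1 = 2 * N by omega, h3]
    exact hne
  have hlt : Nat.find hex ≤ 2 * N - 1 := by
    refine Nat.find_min' hex ?_
    rw [show 2 * N - 1 + 1 = 2 * N by omega, h3]
    exact hne
  have hmem : h - h' ∈ pp n t ^ (Nat.find hex) := by
    rcases Nat.eq_zero_or_pos (Nat.find hex) with h0 | h0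
    · rw [h0, pow_zero, Ideal.one_eq_top]
      exact Submodule.mem_top
    · have h1 := Nat.find_min hex (m := Nat.find hex - 1) (by omega)
      rw [not_not, show Nat.find hex - 1 + 1 = Nat.find hex by omega] at h1
      exact h1
  obtain ⟨h4, h5⟩ := (pi n t P hP f N z0 d hpt).2.2.2.2.2.1 h h' (Nat.find hex) hc hc' (by omega) hmem
    (Nat.find_spec hex)
  exact ⟨Nat.find hex, by omega, hmem, h4, h5⟩

open Classical in
/-- The valuation of the product of the differences. -/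
private theorem vl_dl (rep : C_Rep) (pi : C_Pi) [Rmf n t] {P : Ideal ZZ} (hP : Ab2 P) {f N : ℕ}
    {z0 d : ℂ} (hpt : Pt n t f N z0 d) {C : OO n t → Prop} (hC : ∀ h, C h → Cop h 2)
    {T : Finset (OO n t)} (hT : IsR N C T) {S : Finset Om} (hS : Orb z0 d C S) :
    vl P 2 (dl S (pH z0 d (1 : OO n t))) =
      ∑ h ∈ T.filter (fun h => ¬ ((2 ^ N : ℕ) : OO n t) ∣ h - 1),
        vl P 2 (pH z0 d (1 : OO n t) - pH z0 d h) := by
  have hp := hP.1.1
  have h5 := (pi n t P hP f N z0 d hpt).2.2.2.2.1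
  have e : dl S (pH z0 d (1 : OO n t)) =
      ∏ h ∈ T.filter (fun h => ¬ ((2 ^ N : ℕ) : OO n t) ∣ h - 1),
        (pH z0 d (1 : OO n t) - pH z0 d h) := by
    unfold dl
    symm
    refine Finset.prod_bij (fun h _ => pH z0 d h) ?_ ?_ ?_ ?_
    · intro h hh
      rw [Finset.mem_filter] at hh
      rw [Finset.mem_erase]
      obtain ⟨j, -, -, h3, -⟩ := lev_ex rep pi hP hpt (hC h (hT.mem h hh.1)) (cop_one 2) hh.2
      exact ⟨h3, (hS _).2 ⟨h, hT.mem h hh.1, rfl⟩⟩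
    · intro h hh h' hh' heq
      rw [Finset.mem_filter] at hh hh'
      by_contra hne
      have hnd : ¬ ((2 ^ N : ℕ) : OO n t) ∣ h - h' := fun h1 => hne (hT.uni h hh.1 h' hh'.1 h1)
      obtain ⟨j, -, -, h3, -⟩ := lev_ex rep pi hP hpt (hC h (hT.mem h hh.1))
        (hC h' (hT.mem h' hh'.1)) hnd
      exact h3 heq
    · intro r hr
      rw [Finset.mem_erase] at hr
      obtain ⟨u, hu, hur⟩ := (hS r).1 hr.2
      obtain ⟨h, hh, h1⟩ := hT.ex u hu
      have e1 : pH z0 d h = r := by rw [← hur, h5 u h h1]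
      refine ⟨h, Finset.mem_filter.2 ⟨hh, fun h3 => hr.1 ?_⟩, e1⟩
      rw [← e1]
      exact h5 h 1 h3
    · intro h hh
      rfl
  rw [e, DL.vl_prod (pl2 hP)]
  intro h hh
  rw [Finset.mem_filter] at hh
  obtain ⟨j, -, -, h3, -⟩ := lev_ex rep pi hP hpt (hC h (hT.mem h hh.1)) (cop_one 2) hh.2
  exact sub_ne_zero.2 h3.symm

/-- The bounds for one term. -/
private theorem w_bd (rep : C_Rep) (pi : C_Pi) [Rmf n t] {P : Ideal ZZ} (hP : Ab2 P) {f N : ℕ}
    {z0 d : ℂ} (hpt : Pt n t f N z0 d) {h : OO n t} (hc : Cop h 2)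
    (hne : ¬ ((2 ^ N : ℕ) : OO n t) ∣ h - 1) :
    (∃ k : ℕ, k < N ∧ ((2 ^ k : ℕ) : OO n t) ∣ h - 1 ∧
      vl P 2 (pH z0 d (1 : OO n t) - pH z0 d h) ≤ 2 ^ (2 * k + 1) / 2 ^ (2 * N)) ∧
    (¬ ((2 ^ 10 : ℕ) : OO n t) ∣ h - 1 →
      vl P 2 (pH z0 d (1 : OO n t) - pH z0 d h) ≤ 2 ^ 19 / 2 ^ (2 * N)) := by
  obtain ⟨j, hj, hm, -, hv⟩ := lev_ex rep pi hP hpt (cop_one 2) hc
    (fun h1 => hne (by rw [dvd_sub_comm]; exact h1))
  have h3 := (rep n t N hpt.pos).2.2.1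
  have hv2 : vl P 2 (pH z0 d (1 : OO n t) - pH z0 d h) = 2 ^ j / 2 ^ (2 * N) := by
    rw [hv, ← pow_sub_mul_pow (2 : ℚ) hj.le]
    field_simp
  have hpos : (0 : ℚ) ≤ 2 ^ (2 * N) := by positivity
  have hle : ∀ i : ℕ, 2 * i ≤ j → ((2 ^ i : ℕ) : OO n t) ∣ h - 1 := by
    intro i hi
    rw [dvd_sub_comm]
    exact (h3 (1 - h) i).1 (Ideal.pow_le_pow_right hi hm)
  refine ⟨⟨j / 2, by omega, hle _ (by omega), ?_⟩, ?_⟩
  · rw [hv2]
    exact div_le_div_of_nonneg_right (pow_le_pow_right₀ one_le_two (by omega)) hpos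
  · intro h10
    have hj2 : j ≤ 19 := by
      by_contra h4
      exact h10 (hle 10 (by omega))
    rw [hv2]
    exact div_le_div_of_nonneg_right (pow_le_pow_right₀ one_le_two hj2) hpos

/-- The integer `1 + 2^i f a`. -/
private def cc (i f a : ℕ) : ℤ := 1 + 2 ^ i * f * a

/-- Injectivity. -/
private theorem inj_key {f N i : ℕ} (hf : Odd f) (hi : 2 ≤ i) (hiN : i + 1 ≤ N) {h h' : OO n t}
    (hh : Hn f N h) (hh' : Hn f N h') {a b : ℕ} (ha : a < 2 ^ (N - i - 1)) (hb : b < 2 ^ (N - i - 1))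
    (hd : ((2 ^ N : ℕ) : OO n t) ∣ h * ((cc i f a : ℤ) : OO n t) - h' * ((cc i f b : ℤ) : OO n t)) :
    a = b ∧ ((2 ^ N : ℕ) : OO n t) ∣ h - h' := by
  have h1 := Nm_congr hd
  rw [Nm_mul, Nm_mul, Nm_int, Nm_int] at h1
  push_cast at h1
  have h4N : (4 : ℤ) ∣ 2 ^ N := ⟨2 ^ (N - 2), by
    obtain ⟨M, rfl⟩ : ∃ M, N = M + 2 := ⟨N - 2, by omega⟩
    rw [Nat.add_sub_cancel, pow_add]
    ring⟩
  have h4 : ∀ x : ℕ, ∃ y : ℤ, cc i f x = 1 + 4 * y := by
    intro x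
    obtain ⟨j, rfl⟩ : ∃ j, i = j + 2 := ⟨i - 2, by omega⟩
    refine ⟨2 ^ j * f * x, ?_⟩
    unfold cc
    rw [pow_add]
    ring
  obtain ⟨A', hA'⟩ := h4 a
  obtain ⟨B', hB'⟩ := h4 b
  -- the norms agree
  have hsgn : (2 : ℤ) ^ N ∣ (cc i f a) ^ 2 - (cc i f b) ^ 2 := by
    have key : ∀ X Y : ℤ, (2 : ℤ) ^ N ∣ X * (cc i f a) ^ 2 - Y * (cc i f b) ^ 2 →
        ∀ u v : ℤ, (2 : ℤ) ^ N ∣ X - u → (2 : ℤ) ^ N ∣ Y - v →
        (2 : ℤ) ^ N ∣ u * (cc i f a) ^ 2 - v * (cc i f b) ^ 2 := by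
      intro X Y h2 u v h3 h4
      have e : u * (cc i f a) ^ 2 - v * (cc i f b) ^ 2 =
          (X * (cc i f a) ^ 2 - Y * (cc i f b) ^ 2) - (X - u) * (cc i f a) ^ 2 +
            (Y - v) * (cc i f b) ^ 2 := by ring
      rw [e]
      exact dvd_add (dvd_sub h2 (dvd_mul_of_dvd_left h3 _)) (dvd_mul_of_dvd_left h4 _)
    rcases hh.2.2 with e1 | e1 <;> rcases hh'.2.2 with e2 | e2
    · have h5 := key _ _ h1 1 1 e1 e2
      rwa [one_mul, one_mul] at h5
    · exfalso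
      have h5 := key _ _ h1 1 (-1) e1 (by rwa [sub_neg_eq_add])
      rw [hA', hB'] at h5
      obtain ⟨z, hz⟩ := dvd_trans h4N h5
      have e6 : (4 : ℤ) * (z - (2 * A' + 4 * A' ^ 2 + 2 * B' + 4 * B' ^ 2)) = 2 := by
        linear_combination -hz
      omega
    · exfalso
      have h5 := key _ _ h1 (-1) 1 (by rwa [sub_neg_eq_add]) e2
      rw [hA', hB'] at h5
      obtain ⟨z, hz⟩ := dvd_trans h4N h5
      have e6 : (4 : ℤ) * (z + (2 * A' + 4 * A' ^ 2 + 2 * B' + 4 * B' ^ 2)) = -2 := by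
        linear_combination -hz
      omega
    · have h5 := key _ _ h1 (-1) (-1) (by rwa [sub_neg_eq_add]) (by rwa [sub_neg_eq_add])
      have e : (cc i f a) ^ 2 - (cc i f b) ^ 2 =
          -(-1 * (cc i f a) ^ 2 - -1 * (cc i f b) ^ 2) := by ring
      rw [e]
      exact (dvd_neg).2 h5
  have hab : a = b := by
    obtain ⟨j, rfl⟩ : ∃ j, i = j + 2 := ⟨i - 2, by omega⟩
    obtain ⟨M, rfl⟩ : ∃ M, N = M + (j + 3) := ⟨N - (j + 3), by omega⟩
    have eM : M + (j + 3) - (j + 2) - 1 = M := by omega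
    rw [eM] at ha hb
    have e : (cc (j + 2) f a) ^ 2 - (cc (j + 2) f b) ^ 2 =
        2 ^ (j + 3) * ((f * (1 + 2 * (2 ^ j * f * (a + b)))) * ((a : ℤ) - b)) := by
      unfold cc
      rw [pow_add, pow_add]
      ring
    rw [e, show (2 : ℤ) ^ (M + (j + 3)) = 2 ^ (j + 3) * 2 ^ M by rw [pow_add]; ring] at hsgn
    have h6 : (2 : ℤ) ^ M ∣ (f * (1 + 2 * (2 ^ j * f * (a + b)))) * ((a : ℤ) - b) :=
      (mul_dvd_mul_iff_left (by positivity)).1 hsgn
    have hodd : Odd ((f : ℤ) * (1 + 2 * (2 ^ j * f * (a + b)))) := by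
      refine Odd.mul (by exact_mod_cast hf) ⟨2 ^ j * f * (a + b), by ring⟩
    have hcop : IsCoprime ((2 : ℤ) ^ M) ((f : ℤ) * (1 + 2 * (2 ^ j * f * (a + b)))) := by
      refine IsCoprime.pow_left ?_
      obtain ⟨z, hz⟩ := hodd
      exact ⟨-z, 1, by rw [hz]; ring⟩
    have h7 := hcop.dvd_of_dvd_mul_left h6
    have h8 := Int.eq_zero_of_abs_lt_dvd h7 (by
      have ha' : (a : ℤ) < 2 ^ M := by exact_mod_cast ha
      have hb' : (b : ℤ) < 2 ^ M := by exact_mod_cast hb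
      rw [abs_lt]
      constructor <;> omega)
    omega
  refine ⟨hab, ?_⟩
  subst hab
  rw [← sub_mul, nat_dvd_iff, re_mul, im_mul, re_int, im_int, mul_zero, mul_zero, mul_zero, sub_zero,
    zero_add, add_zero] at hd
  have hcop : IsCoprime (((2 ^ N : ℕ) : ℤ)) (cc i f a) := by
    push_cast
    refine IsCoprime.pow_left ?_
    exact ⟨-(2 * A'), 1, by rw [hA']; ring⟩
  rw [nat_dvd_iff]
  exact ⟨hcop.dvd_of_dvd_mul_right hd.1, hcop.dvd_of_dvd_mul_right hd.2⟩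

/-- Counting. -/
private theorem cnt_key {f N i : ℕ} (hf : Odd f) (hi : 2 ≤ i) (hiN : i + 1 ≤ N)
    {T V U W : Finset (OO n t)} (hT : IsR N (Hn f N) T) (hU : IsR N (Un f) U) (hV : V ⊆ T)
    (hW : ∀ h ∈ V, ∀ a : ℕ, ∀ u ∈ U,
      ((2 ^ N : ℕ) : OO n t) ∣ h * ((cc i f a : ℤ) : OO n t) - u → u ∈ W) :
    V.card * 2 ^ (N - i - 1) ≤ W.card := by
  classical
  have hex : ∀ p : OO n t × ℕ, ∃ u : OO n t, p.1 ∈ V → u ∈ U ∧
      ((2 ^ N : ℕ) : OO n t) ∣ p.1 * ((cc i f p.2 : ℤ) : OO n t) - u := by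
    rintro ⟨h, a⟩
    by_cases hh : h ∈ V
    · obtain ⟨h1, h2, -⟩ := hT.mem h (hV hh)
      have h3 : ∀ j : ℕ, (j : ℤ) ∣ 2 ^ i * f * a → ((j : ℕ) : OO n t) ∣ ((cc i f a : ℤ) : OO n t) - 1 := by
        intro j hj
        rw [nat_dvd_iff, QuadraticAlgebra.re_sub, QuadraticAlgebra.im_sub, re_int, im_int, re_one,
          im_one]
        refine ⟨?_, by simp⟩
        unfold cc
        rw [add_sub_cancel_left]
        exact hj
      have hU1 : Un f (h * ((cc i f a : ℤ) : OO n t)) := by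
        refine ⟨?_, cop_mul h2 ?_⟩
        · have e : h * ((cc i f a : ℤ) : OO n t) - 1 =
              (h - 1) * ((cc i f a : ℤ) : OO n t) + (((cc i f a : ℤ) : OO n t) - 1) := by ring
          rw [e]
          exact dvd_add (dvd_mul_of_dvd_left h1 _) (h3 f ⟨2 ^ i * a, by ring⟩)
        · refine cop_congr ?_ (cop_one 2)
          have h4 := h3 2 ⟨2 ^ (i - 1) * f * a, by
            obtain ⟨j, rfl⟩ : ∃ j, i = j + 1 := ⟨i - 1, by omega⟩
            rw [Nat.add_sub_cancel, pow_succ]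
            push_cast
            ring⟩
          rw [dvd_sub_comm]
          exact h4
      obtain ⟨u, hu, h5⟩ := hU.ex _ hU1
      exact ⟨u, fun _ => ⟨hu, h5⟩⟩
    · exact ⟨0, fun h1 => absurd h1 hh⟩
  choose g hg using hex
  rw [← Finset.card_range (2 ^ (N - i - 1)), ← Finset.card_product]
  refine Finset.card_le_card_of_injOn g ?_ ?_
  · rintro ⟨h, a⟩ hp
    rw [Finset.mem_coe, Finset.mem_product] at hp
    obtain ⟨h1, h2⟩ := hg (h, a) hp.1
    exact Finset.mem_coe.2 (hW h hp.1 a _ h1 h2)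
  · rintro ⟨h, a⟩ hp ⟨h', b⟩ hp' heq
    rw [Finset.mem_coe, Finset.mem_product, Finset.mem_range] at hp hp'
    have h1 := (hg (h, a) hp.1).2
    have h2 := (hg (h', b) hp'.1).2
    rw [← heq] at h2
    have h3 := dvd_sub h1 h2
    rw [sub_sub_sub_cancel_right] at h3
    obtain ⟨h4, h5⟩ := inj_key hf hi hiN (hT.mem h (hV hp.1)) (hT.mem h' (hV hp'.1)) hp.2 hp'.2 h3
    have h6 := hT.uni h (hV hp.1) h' (hV hp'.1) h5
    exact Prod.ext h6 h4

private theorem geom (M : ℕ) : ∑ k ∈ Finset.range M, (2 : ℚ) ^ k = 2 ^ M - 1 := by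
  induction M with
  | zero => simp
  | succ M ih => rw [Finset.sum_range_succ, ih, pow_succ]; ring

private theorem numer {N : ℕ} (hN : 12 ≤ N) (F : ℕ → ℚ) (h0 : F 0 ≤ 2 ^ (N + 3))
    (h1 : F 1 ≤ 2 ^ (N + 5)) (h2 : ∀ k, 2 ≤ k → k < N → F k ≤ 2 ^ (N + 2) * 2 ^ k) :
    ∑ k ∈ Finset.range N, F k ≤ 9 * 2 ^ (2 * N) := by
  obtain ⟨M, rfl⟩ : ∃ M, N = M + 2 := ⟨N - 2, by omega⟩
  rw [Finset.sum_range_succ', Finset.sum_range_succ']
  have h3 : ∑ k ∈ Finset.range M, F (k + 1 + 1) ≤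
      ∑ k ∈ Finset.range M, (2 : ℚ) ^ (M + 6) * 2 ^ k := by
    refine Finset.sum_le_sum fun k hk => ?_
    have h4 := h2 (k + 1 + 1) (by omega) (by have := Finset.mem_range.1 hk; omega)
    refine h4.trans (le_of_eq ?_)
    ring
  rw [← Finset.mul_sum, geom] at h3
  have e1 : (2 : ℚ) ^ (2 * (M + 2)) = 16 * (2 ^ M * 2 ^ M) := by ring
  have e2 : (2 : ℚ) ^ (M + 2 + 3) = 32 * 2 ^ M := by ring
  have e3 : (2 : ℚ) ^ (M + 2 + 5) = 128 * 2 ^ M := by ring
  have e4 : (2 : ℚ) ^ (M + 6) = 64 * 2 ^ M := by ring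
  rw [e2] at h0
  rw [e3] at h1
  rw [e4] at h3
  rw [e1]
  have hX : (2 : ℚ) ≤ 2 ^ M := by
    calc (2 : ℚ) = 2 ^ 1 := by norm_num
      _ ≤ 2 ^ M := pow_le_pow_right₀ one_le_two (by omega)
  generalize (2 : ℚ) ^ M = X at *
  rw [zero_add]
  nlinarith

theorem tHD : S_HD := by
  classical
  intro o4 rep pi n t _ P hP f N z0 d hpt hN SH SH2 hSH hSH2
  have hN1 := hpt.pos
  obtain ⟨hr1, hr2, hr3, hr4, hr5⟩ := rep n t N hN1
  obtain ⟨T, hT⟩ := hr1 (Hn f N)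
  obtain ⟨U, hU⟩ := hr1 (Un f)
  obtain ⟨hUc, -, hUf⟩ := hr5 f hpt.odd U hU
  -- the counts
  have hTc : T.card ≤ 2 ^ (N + 2) := by
    have h1 := cnt_key (i := 2) hpt.odd le_rfl (by omega) hT hU (Finset.Subset.refl T)
      (W := U) (fun _ _ _ u hu _ => hu)
    rw [hUc] at h1
    have e : 2 ^ (2 * N - 1) = 2 ^ (N + 2) * 2 ^ (N - 2 - 1) := by
      rw [← pow_add]
      congr 1
      omega
    rw [e] at h1
    exact Nat.le_of_mul_le_mul_right h1 (by positivity)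
  have hTn : ∀ i : ℕ, 2 ≤ i → i < N →
      (T.filter (fun h => ((2 ^ i : ℕ) : OO n t) ∣ h - 1)).card ≤ 2 ^ (N - i + 1) := by
    intro i hi hiN
    obtain ⟨u0, hu0, hu1⟩ := hU.ex 1 ⟨by rw [sub_self]; exact dvd_zero _, cop_one 2⟩
    have hdv : ((2 ^ i : ℕ) : OO n t) ∣ ((2 ^ N : ℕ) : OO n t) := by
      obtain ⟨s, hs⟩ := pow_dvd_pow 2 hiN.le
      exact ⟨(s : OO n t), by rw [hs]; push_cast; ring⟩
    have h1 := cnt_key (i := i) hpt.odd hi (by omega) hT hU (Finset.filter_subset _ T)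
      (V := T.filter (fun h => ((2 ^ i : ℕ) : OO n t) ∣ h - 1))
      (W := U.filter (fun u => u - u0 ∈ pp n t ^ (2 * i))) (by
        intro h hh a u hu h2
        rw [Finset.mem_filter] at hh
        rw [Finset.mem_filter]
        refine ⟨hu, (hr3 _ _).2 ?_⟩
        have h3 : ((2 ^ i : ℕ) : OO n t) ∣ ((cc i f a : ℤ) : OO n t) - 1 := by
          rw [nat_dvd_iff, QuadraticAlgebra.re_sub, QuadraticAlgebra.im_sub, re_int, im_int, re_one,
            im_one]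
          refine ⟨?_, by simp⟩
          unfold cc
          rw [add_sub_cancel_left]
          exact ⟨f * a, by push_cast; ring⟩
        have e : u - u0 = (h - 1) * ((cc i f a : ℤ) : OO n t) + (((cc i f a : ℤ) : OO n t) - 1) -
            (h * ((cc i f a : ℤ) : OO n t) - u) + (1 - u0) := by ring
        rw [e]
        exact dvd_add (dvd_sub (dvd_add (dvd_mul_of_dvd_left hh.2 _) h3) (dvd_trans hdv h2))
          (dvd_trans hdv hu1))
    rw [hUf u0 hu0 (2 * i) (by omega) (by omega)] at h1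
    have e : 2 ^ (2 * N - 2 * i) = 2 ^ (N - i + 1) * 2 ^ (N - i - 1) := by
      rw [← pow_add]
      congr 1
      omega
    rw [e] at h1
    exact Nat.le_of_mul_le_mul_right h1 (by positivity)
  have hCop : ∀ h : OO n t, Hn f N h → Cop h 2 := fun h hh => hh.2.1
  have hCop2 : ∀ h : OO n t, Hs f N h → Cop h 2 := fun h hh => hh.1.2.1
  have hpos : (0 : ℚ) < 2 ^ (2 * N) := by positivity
  have hD := vl_dl rep pi hP hpt hCop hT hSH
  constructor
  · rw [hD]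
    have h1 : ∀ h ∈ T.filter (fun h => ¬ ((2 ^ N : ℕ) : OO n t) ∣ h - 1),
        vl P 2 (pH z0 d (1 : OO n t) - pH z0 d h) ≤
          ∑ k ∈ Finset.range N, if ((2 ^ k : ℕ) : OO n t) ∣ h - 1 then
            (2 : ℚ) ^ (2 * k + 1) / 2 ^ (2 * N) else 0 := by
      intro h hh
      rw [Finset.mem_filter] at hh
      obtain ⟨⟨k, hk, h2, h3⟩, -⟩ := w_bd rep pi hP hpt (hCop h (hT.mem h hh.1)) hh.2
      refine h3.trans ?_
      have h4 := Finset.single_le_sum (f := fun k => if ((2 ^ k : ℕ) : OO n t) ∣ h - 1 then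
            (2 : ℚ) ^ (2 * k + 1) / 2 ^ (2 * N) else 0) (s := Finset.range N) (by
          intro k _
          change (0 : ℚ) ≤ if ((2 ^ k : ℕ) : OO n t) ∣ h - 1 then
            (2 : ℚ) ^ (2 * k + 1) / 2 ^ (2 * N) else 0
          split_ifs
          · positivity
          · exact le_rfl) (Finset.mem_range.2 hk)
      refine le_trans (le_of_eq ?_) h4
      change _ = if ((2 ^ k : ℕ) : OO n t) ∣ h - 1 then (2 : ℚ) ^ (2 * k + 1) / 2 ^ (2 * N) else 0
      rw [if_pos h2]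
    refine (Finset.sum_le_sum h1).trans ?_
    rw [Finset.sum_comm]
    have h2 : ∀ k ∈ Finset.range N, (∑ h ∈ T.filter (fun h => ¬ ((2 ^ N : ℕ) : OO n t) ∣ h - 1),
        if ((2 ^ k : ℕ) : OO n t) ∣ h - 1 then (2 : ℚ) ^ (2 * k + 1) / 2 ^ (2 * N) else 0) ≤
        (((T.filter (fun h => ((2 ^ k : ℕ) : OO n t) ∣ h - 1)).card : ℚ) * 2 ^ (2 * k + 1)) /
          2 ^ (2 * N) := by
      intro k _
      rw [← Finset.sum_filter, Finset.sum_const, nsmul_eq_mul, mul_div_assoc]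
      refine mul_le_mul_of_nonneg_right ?_ (by positivity)
      have h3 : (T.filter (fun h => ¬ ((2 ^ N : ℕ) : OO n t) ∣ h - 1)).filter
          (fun h => ((2 ^ k : ℕ) : OO n t) ∣ h - 1) ⊆
          T.filter (fun h => ((2 ^ k : ℕ) : OO n t) ∣ h - 1) :=
        Finset.filter_subset_filter _ (Finset.filter_subset _ T)
      exact_mod_cast Finset.card_le_card h3
    refine (Finset.sum_le_sum h2).trans ?_
    rw [← Finset.sum_div, div_le_iff₀ hpos]
    refine numer hN _ ?_ ?_ ?_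
    · have h3 : ((T.filter (fun h => ((2 ^ 0 : ℕ) : OO n t) ∣ h - 1)).card : ℚ) ≤ 2 ^ (N + 2) := by
        exact_mod_cast (Finset.card_le_card (Finset.filter_subset _ T)).trans hTc
      calc ((T.filter (fun h => ((2 ^ 0 : ℕ) : OO n t) ∣ h - 1)).card : ℚ) * 2 ^ (2 * 0 + 1)
          ≤ 2 ^ (N + 2) * 2 ^ (2 * 0 + 1) := mul_le_mul_of_nonneg_right h3 (by positivity)
        _ = 2 ^ (N + 3) := by ring
    · have h3 : ((T.filter (fun h => ((2 ^ 1 : ℕ) : OO n t) ∣ h - 1)).card : ℚ) ≤ 2 ^ (N + 2) := by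
        exact_mod_cast (Finset.card_le_card (Finset.filter_subset _ T)).trans hTc
      calc ((T.filter (fun h => ((2 ^ 1 : ℕ) : OO n t) ∣ h - 1)).card : ℚ) * 2 ^ (2 * 1 + 1)
          ≤ 2 ^ (N + 2) * 2 ^ (2 * 1 + 1) := mul_le_mul_of_nonneg_right h3 (by positivity)
        _ = 2 ^ (N + 5) := by ring
    · intro k hk1 hk2
      have h3 : ((T.filter (fun h => ((2 ^ k : ℕ) : OO n t) ∣ h - 1)).card : ℚ) ≤
          2 ^ (N - k + 1) := by
        exact_mod_cast hTn k hk1 hk2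
      calc ((T.filter (fun h => ((2 ^ k : ℕ) : OO n t) ∣ h - 1)).card : ℚ) * 2 ^ (2 * k + 1)
          ≤ 2 ^ (N - k + 1) * 2 ^ (2 * k + 1) := mul_le_mul_of_nonneg_right h3 (by positivity)
        _ = 2 ^ (N + 2) * 2 ^ k := by
          rw [← pow_add, ← pow_add]
          congr 1
          omega
  · -- the subgroup
    have hT2 : IsR N (Hs f N) (T.filter (fun h => ((2 ^ 10 : ℕ) : OO n t) ∣ h - 1)) := by
      refine ⟨?_, ?_, ?_⟩
      · intro h hh
        rw [Finset.mem_filter] at hh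
        exact ⟨hT.mem h hh.1, hh.2⟩
      · intro v hv
        obtain ⟨h, hh, h1⟩ := hT.ex v hv.1
        refine ⟨h, Finset.mem_filter.2 ⟨hh, ?_⟩, h1⟩
        have hdv : ((2 ^ 10 : ℕ) : OO n t) ∣ ((2 ^ N : ℕ) : OO n t) := by
          obtain ⟨s, hs⟩ := pow_dvd_pow 2 (show 10 ≤ N by omega)
          exact ⟨(s : OO n t), by rw [hs]; push_cast; ring⟩
        have e : h - 1 = (v - 1) - (v - h) := by ring
        rw [e]
        exact dvd_sub hv.2 (dvd_trans hdv h1)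
      · intro h hh h' hh' h1
        rw [Finset.mem_filter] at hh hh'
        exact hT.uni h hh.1 h' hh'.1 h1
    have hD2 := vl_dl rep pi hP hpt hCop2 hT2 hSH2
    rw [hD, hD2]
    set X := T.filter (fun h => ¬ ((2 ^ N : ℕ) : OO n t) ∣ h - 1) with hX
    have e1 : (T.filter (fun h => ((2 ^ 10 : ℕ) : OO n t) ∣ h - 1)).filter
        (fun h => ¬ ((2 ^ N : ℕ) : OO n t) ∣ h - 1) =
        X.filter (fun h => ((2 ^ 10 : ℕ) : OO n t) ∣ h - 1) := by
      rw [hX, Finset.filter_filter, Finset.filter_filter]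
      refine Finset.filter_congr fun h _ => ?_
      tauto
    rw [e1, ← Finset.sum_filter_add_sum_filter_not X (fun h => ((2 ^ 10 : ℕ) : OO n t) ∣ h - 1)]
    have h1 : ∑ h ∈ X.filter (fun h => ¬ ((2 ^ 10 : ℕ) : OO n t) ∣ h - 1),
        vl P 2 (pH z0 d (1 : OO n t) - pH z0 d h) ≤ 2 ^ 21 / 2 ^ N := by
      have h2 : ∑ h ∈ X.filter (fun h => ¬ ((2 ^ 10 : ℕ) : OO n t) ∣ h - 1),
          vl P 2 (pH z0 d (1 : OO n t) - pH z0 d h) ≤
          ∑ h ∈ X.filter (fun h => ¬ ((2 ^ 10 : ℕ) : OO n t) ∣ h - 1),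
            (2 : ℚ) ^ 19 / 2 ^ (2 * N) := by
        refine Finset.sum_le_sum fun h hh => ?_
        rw [Finset.mem_filter, hX, Finset.mem_filter] at hh
        exact (w_bd rep pi hP hpt (hCop h (hT.mem h hh.1.1)) hh.1.2).2 hh.2
      refine h2.trans ?_
      rw [Finset.sum_const, nsmul_eq_mul]
      have h3 : ((X.filter (fun h => ¬ ((2 ^ 10 : ℕ) : OO n t) ∣ h - 1)).card : ℚ) ≤
          2 ^ (N + 2) := by
        have h4 : (X.filter (fun h => ¬ ((2 ^ 10 : ℕ) : OO n t) ∣ h - 1)).card ≤ T.card :=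
          (Finset.card_le_card (Finset.filter_subset _ X)).trans
            (Finset.card_le_card (Finset.filter_subset _ T))
        exact_mod_cast h4.trans hTc
      calc ((X.filter (fun h => ¬ ((2 ^ 10 : ℕ) : OO n t) ∣ h - 1)).card : ℚ) *
            (2 ^ 19 / 2 ^ (2 * N))
          ≤ 2 ^ (N + 2) * (2 ^ 19 / 2 ^ (2 * N)) := mul_le_mul_of_nonneg_right h3 (by positivity)
        _ = 2 ^ 21 / 2 ^ N := by
          have e2 : (2 : ℚ) ^ (2 * N) = 2 ^ N * 2 ^ N := by ring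
          rw [e2, pow_add]
          field_simp
    linarith

end Pool.Agent.DR.GL
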