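import Pool.Agent.Lib.DR.GL.SpecB
import Pool.Agent.Lib.DN.B.All

/-!
# Theorem DR, part GL, module Kud: the Kummer relation between `X(z)` and `X(z + u)`
-/

set_option autoImplicit false

open scoped Pointwise

noncomputable section

namespace Pool.Agent.DR.GL

open scoped Pointwise
open Pool.Agent.MuZ Pool.Agent.FW Pool.Agent.DN
open Pool.Agent.DI (io ofC io_inj exists_io io_ofC ofC_io VP MP UP TP ex sqr sqr_sq kap)
open Pool.Agent.DI.GL (Fx StP xx mem_of_Fx Fx.mul Fx.inv Fx.one)
open Pool.Agent.DN.GL (EE pH IsR)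
open Pool.Agent.DL (vl GE Pl Fi Fp Cn Cf dl Gen Dr LD)

theorem tKud : S_Kud := by
  intro hR1 k t _ b hb z u hz hu hzL huL hzu hzu' X X' U W W' V a c hX hX' hU hW hW' hV
    ha hc
  obtain ⟨ha1, ha3, hxw, -⟩ := (hR1.1 k t).1 b hb
  have iX : io X = XC b z := by rw [hX]; exact (hxw z hz).1
  have iX' : io X' = XC b (z + u) := by rw [hX']; exact (hxw _ (tor_add hz hu)).1
  have iU : io U = XC b u := by rw [hU]; exact (hxw u hu).1
  have iW : io W = WC b z := by rw [hW]; exact (hxw z hz).2
  have iW' : io W' = WC b (z + u) := by rw [hW']; exact (hxw _ (tor_add hz hu)).2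
  have iV : io V = WC b u := by rw [hV]; exact (hxw u hu).2
  have ia : io a = A1 b := by rw [ha]; exact ha1
  have ic : io c = A3 b := by rw [hc]; exact ha3
  obtain ⟨-, -, -, hK⟩ := (aB3 k t b hb.ne).1 z u hzL huL hzu hzu'
  obtain ⟨k1, k2, k3⟩ := hK hb.cop
  -- the product of the two derivatives
  have k4 : WC b (z + u) * WC b u =
      2 * XC b z * (XC b (z + u) - XC b u) ^ 2 -
        (2 * XC b (z + u) * XC b u * (XC b (z + u) + XC b u) + A1 b ^ 2 * (XC b (z + u) * XC b u) +
          A1 b * A3 b * (XC b (z + u) + XC b u) + A3 b ^ 2) := by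
    by_cases h2 : z + u + u ∈ Lam b
    · have e1 : z + u = -u + (z + u + u) := by ring
      have h3 := (aB1 k t b hb.ne).1 (-u) (z + u + u) h2
      have h4 := (aB1 k t b hb.ne).2.1 u
      have hx : XC b (z + u) = XC b u := by
        unfold XC
        rw [e1, h3.1, h4.1]
      have hw : WC b (z + u) = -WC b u := by
        unfold WC
        rw [e1, h3.2, h4.2, neg_div]
      have h5 := ((aB2 k t b hb.ne u huL).2 hb.cop).1
      rw [hx, hw]
      linear_combination -h5
    · have e2 : z + u - u = z := by ring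
      obtain ⟨-, -, -, hK'⟩ := (aB3 k t b hb.ne).1 (z + u) u hzu huL h2 (by rwa [e2])
      obtain ⟨m1, -, m3⟩ := hK' hb.cop
      rw [e2] at m1 m3
      linear_combination m3 - m1
  refine ⟨?_, ?_, ?_⟩
  · apply io_inj
    simp only [map_add, map_sub, map_mul, map_pow, map_zero, map_ofNat, iX, iX', iU, ia, ic]
    linear_combination XC b (z + u) * k1 - k2
  · apply io_inj
    simp only [map_add, map_sub, map_mul, map_pow, map_neg, map_ofNat, iX, iX', iU, iW, iV, ia, ic]
    linear_combination k1 + k3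
  · apply io_inj
    simp only [map_add, map_sub, map_mul, map_pow, map_ofNat, iX, iX', iU, iW, iW', iV, ia, ic]
    linear_combination -WC b z * k4

end Pool.Agent.DR.GL
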