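import Pool.Agent.Lib.DR.GL.SpecB

/-!
# Theorem DR, part GL, module LSA: the local step
-/

set_option autoImplicit false

open scoped Pointwise

noncomputable section

namespace Pool.Agent.DR.GL

open Pool.Agent.MuZ Pool.Agent.FW Pool.Agent.DN
open Pool.Agent.DI (io ofC io_inj exists_io io_ofC ofC_io VP MP UP TP ex sqr sqr_sq kap)
open Pool.Agent.DI.GL (Fx StP xx mem_of_Fx Fx.mul Fx.inv Fx.one)
open Pool.Agent.DN.GL (EE pH IsR)
open Pool.Agent.DL (vl GE Pl Fi Fp Cn Cf dl Gen Dr LD)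

private theorem pow_ge {N : ℕ} (hN : 12 ≤ N) : (4 : ℚ) / 2 ^ N ≤ 1 / 2 := by
  have h1 : (2 : ℚ) ^ 3 ≤ 2 ^ N := pow_le_pow_right₀ (by norm_num) (by omega)
  rw [div_le_iff₀ (by positivity)]
  linarith

theorem tLSA : S_LSA := by
  intro tau dta resA resB chi lsg n t _ P hP f N m χ T D z0 d SH hfm hχ hN hT hpt hSH hD hkap
  have := hP.1.1
  have h2 := pl2 hP
  have h4N := pow_ge hN
  obtain ⟨hc1, -, -⟩ := chi n t P hP f χ hpt.odd hpt.f15 hχ
  have B : n % 8 = 6 → GE P 2 (dv n t P z0 d SH) (SS f N m χ T D) ∧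
      GE P 2 (1 + dv n t P z0 d SH) (SS f N m χ T D) := by
    intro h6
    exact lsg n t P hP f N m χ T D z0 d SH (1 + dv n t P z0 d SH) (AddMonoidHom.id Om) hfm hχ
      (by omega) hT hpt hSH hD hkap (fun q' x h => h) (fun c x => rfl) le_rfl
      (fun w hw hg y hy => resB n t P hP h6 f N z0 d hpt hN SH hSH w hw hg y hy)
  have A : n % 8 ≠ 6 → ∀ τ ∈ P.inertia Gal(Om/ℚ), (∀ ζ : Om, ζ ^ 2 ^ N = 1 → τ ζ = ζ⁻¹) →
      GE P 2 (dv n t P z0 d SH) (SS f N m χ T D) ∧
      GE P 2 (1 / 2 + dv n t P z0 d SH) (SS f N m χ T D - τ (SS f N m χ T D)) := by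
    intro h6 τ hτ hζ
    have hτG := (tau n t P hP h6 N (by omega)).2 τ hτ hζ
    obtain ⟨r, hr, hr1, -, hr3⟩ := dta n t P hP f N z0 d hpt τ hτ hτG
    have hrV : VP P r := hr.1
    let L : Om →+ Om := AddMonoidHom.mk' (fun x => x + r * τ x) (fun a b => by
      simp only [map_add]
      ring)
    have hL : ∀ x, L x = x + r * τ x := fun x => rfl
    obtain ⟨h1, h3⟩ := lsg n t P hP f N m χ T D z0 d SH (1 + dv n t P z0 d SH - 4 / 2 ^ N) L hfm hχ
      (by omega) hT hpt hSH hD hkap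
      (fun q' x h => by
        rw [hL]
        exact h.add h2 (GE.mul_left h2 hrV (h.inertia h2 hτ)))
      (fun c x => by
        rw [hL, hL, map_mul, (hc1 c).2 τ hτ]
        ring)
      (by
        have : (0 : ℚ) < 4 / 2 ^ N := by positivity
        linarith)
      (fun w hw hg y hy => by
        rw [hL]
        exact resA n t P hP f N z0 d hpt hN SH hSH τ hτ hζ r hr3 w hw hg y hy)
    refine ⟨h1, ?_⟩
    rw [hL] at h3
    have e : SS f N m χ T D - τ (SS f N m χ T D) = 2 * SS f N m χ T D + (r - 1) * τ (SS f N m χ T D) -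
        (SS f N m χ T D + r * τ (SS f N m χ T D)) := by ring
    have h5 : GE P 2 (1 / 2 + dv n t P z0 d SH) ((r - 1) * τ (SS f N m χ T D)) :=
      hr1.mul h2 (h1.inertia h2 hτ)
    have h7 : GE P 2 (1 + dv n t P z0 d SH) (2 * SS f N m χ T D) := by
      refine GE.mul h2 ?_ h1
      rw [GE.two_iff h2]
      push_cast
      exact ⟨1, DI.VP.one, by rw [mul_one]⟩
    rw [e]
    exact ((h7.mono (by linarith)).add h2 h5).sub h2 (h3.mono (by linarith))
  refine ⟨?_, fun h6 τ hτ hζ => (A h6 τ hτ hζ).2, fun h6 => (B h6).2⟩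
  by_cases h6 : n % 8 = 6
  · exact (B h6).1
  · obtain ⟨τ, hτ, hζ⟩ := (tau n t P hP h6 N (by omega)).1
    exact (A h6 τ hτ hζ).1

end Pool.Agent.DR.GL
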