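import Pool.Agent.Lib.DR.GL.SpecB
import Pool.Agent.Lib.DK.GL.RR
import Pool.Agent.Lib.DK.GL.Lin
import Pool.Agent.Lib.DI.G.L.Kap
import Pool.Agent.Lib.DI.G.L.Arch

/-!
# Theorem DR, part GL, module LSg: the linear algebra of the local step
-/

set_option autoImplicit false

open scoped Pointwise

noncomputable section

namespace Pool.Agent.DR.GL

open Pool.Agent.MuZ Pool.Agent.FW Pool.Agent.DN
open Pool.Agent.DI (io ofC io_inj exists_io io_ofC ofC_io VP MP UP TP ex sqr sqr_sq kap)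
open Pool.Agent.DI.GL (Fx StP xx mem_of_Fx Fx.mul Fx.inv Fx.one)
open Pool.Agent.DN.GL (EE pH IsR)
open Pool.Agent.DL (vl GE Pl Fi Fp Cn Cf dl Gen Dr LD)

variable {n t : ℕ}

/-- The decomposition of a sum over `D`. -/
private theorem LSg_split {ι : Type} {n : ℕ} (D : Finset ι) (χ : ι → Om) (b : Fin n → ι)
    (c : Fin n → ι → ℕ) (C : ι → Om) : ∑ v ∈ D, χ v * C v =
      ∑ v ∈ D, (χ v - ∑ i, (c i v : Om) * χ (b i)) * C v +
        ∑ i, χ (b i) * ∑ v ∈ D, (c i v : Om) * C v := by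
  have h1 : ∑ i, χ (b i) * ∑ v ∈ D, (c i v : Om) * C v =
      ∑ v ∈ D, (∑ i, (c i v : Om) * χ (b i)) * C v := by
    simp only [Finset.mul_sum, Finset.sum_mul]
    rw [Finset.sum_comm]
    refine Finset.sum_congr rfl fun v _ => Finset.sum_congr rfl fun i _ => ?_
    ring
  rw [h1, ← Finset.sum_add_distrib]
  refine Finset.sum_congr rfl fun v _ => ?_
  ring

private theorem LSg_kid (d : Gal(Om/ℚ)) : kap 1 d = 0 :=
  (DI.GL.tKap.1 1 1 d (one_pow 2)).2 (map_one d)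

private theorem LSg_kpow (u : Om) (d : Gal(Om/ℚ)) (hu : u ≠ 0) (h : d u = u)
    (c : ℕ) : kap (u ^ c) d = (c : ZMod 2) * kap u d := by
  induction c with
  | zero => rw [pow_zero, LSg_kid, Nat.cast_zero, zero_mul]
  | succ c ih =>
    rw [pow_succ, DI.GL.tKap.2.1 _ _ d (pow_ne_zero c hu) hu (by rw [map_pow, h]) h, ih,
      Nat.cast_succ]
    ring

/-- `kap` of a product, arbitrary index type. -/
private theorem LSg_kprod {ι : Type} (s : Finset ι) (u : ι → Om) (c : ι → ℕ)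
    (d : Gal(Om/ℚ)) : (∀ v ∈ s, u v ≠ 0 ∧ d (u v) = u v) →
    kap (∏ v ∈ s, u v ^ c v) d = ∑ v ∈ s, (c v : ZMod 2) * kap (u v) d := by
  classical
  induction s using Finset.induction_on with
  | empty =>
    intro _
    rw [Finset.prod_empty, Finset.sum_empty]
    exact LSg_kid d
  | insert a s ha ih =>
    intro h
    have h1 := ih fun v hv => h v (Finset.mem_insert_of_mem hv)
    obtain ⟨h2, h3⟩ := h a (Finset.mem_insert_self a s)
    rw [Finset.prod_insert ha, Finset.sum_insert ha, ← h1, ← LSg_kpow (u a) d h2 h3 (c a)]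
    apply DI.GL.tKap.2.1
    · exact pow_ne_zero _ h2
    · exact Finset.prod_ne_zero_iff.2 fun v hv =>
        pow_ne_zero _ (h v (Finset.mem_insert_of_mem hv)).1
    · rw [map_pow, h3]
    · rw [map_prod]
      refine Finset.prod_congr rfl fun v hv => ?_
      rw [map_pow, (h v (Finset.mem_insert_of_mem hv)).2]

private theorem LSg_nine {P : Ideal ZZ} [hP : P.IsPrime] (h2 : MP P 2) : UP P (-9 : Om) := by
  have h : MP P ((9 : Om) - 1) := by
    have h3 : MP P ((4 : ℕ) * 2 : Om) := DI.MP.mul_left (DI.VP.nat 4) h2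
    have e : ((4 : ℕ) * 2 : Om) = 9 - 1 := by
      push_cast
      norm_num
    rwa [e] at h3
  exact DI.UP.neg (DI.UP.congr DI.UP.one h)

private theorem LSg_int (Λ : Om →+ Om) (x : Om) : Λ (-9 * x) = -9 * Λ x := by
  have h : ∀ y : Om, (-9 : Om) * y = (-9 : ℤ) • y := fun y => by
    rw [zsmul_eq_mul]
    norm_num
  rw [h, h, map_zsmul]

theorem tLSg : S_LSg := by
  intro hLDr hG3 hPi hGen hUn4 hChi n t _ P hP f N m χ T D z0 d SH q Λ hFM hχ hN hT hpt hSH hD hsum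
    hΛ1 hΛ2 hq hRes
  have hPi0 : P.IsPrime := hP.1.1
  have h2 : MP P 2 := hP.2
  have hpl : Pl P 2 := pl2 hP
  obtain ⟨S, -, hgen, hq0, hq1⟩ := gen0 hGen hP hpt.toPt
  have hW : VP P (vO (⊤ : Ideal (OO n t)) (z0 + d)) := by
    have h := ((hPi n t P hP f N z0 d hpt.toPt).1 1 (un_one f).2).2.2.2.2.2
    rw [toC_one, one_mul] at h
    exact h.1
  obtain ⟨-, -, -, hL4, hL5, -, -⟩ := hLDr P 2 2 (II n t P) S (pH z0 d (1 : OO n t)) hgen
    ((N : ℚ) - 1 / 2) (vO (⊤ : Ideal (OO n t)) (z0 + d)) hq0 hq1 hW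
  have hU : ∀ c ∈ D, LDn n t P N z0 d (uN f N m T c) (SN f N m T c) ∧
      GE P 2 (dv n t P z0 d SH) (SN f N m T c) := fun c hc =>
    hUn4 n t P hP f N m T hFM hN hT z0 d hpt SH hSH c (hD c hc).1 (hD c hc).2
  have hG : ∀ c ∈ D, uN f N m T c ∈ Mn n t f N ∧ UP P (uN f N m T c) := fun c hc => by
    obtain ⟨h3, -, h4, -⟩ := hG3 n t f m N T hFM.odd hFM.dvd hFM.ne hFM.two hFM.cop hN hT c
      (hD c hc).1 (hD c hc).2
    exact ⟨h3, h4 P hP.1⟩
  obtain ⟨m', hm', hχ'⟩ := hχ.odd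
  have hχ1 : ∀ c, χ c = 0 ∨ χ c ^ m' = 1 := by
    intro c
    by_cases h : c = ⊥ ∨ ¬ PrI c (2 * f)
    · exact Or.inl (hχ.zero c h)
    · rw [not_or, not_not] at h
      exact Or.inr (hχ' c h.1 h.2)
  have hV : ∀ v, VP P (χ v) := fun v => ((hChi n t P hP f χ hFM.odd hFM.dvd hχ).1 v).1
  obtain ⟨k, b, e, hind, he⟩ := DK.GL.tLin P hPi0 h2 (Ideal (OO n t)) χ hV D
  have hRR := DK.GL.tRR fun P hP h2 => (DI.GL.tArch P hP h2).2.1
  have hρ : ∀ c ∈ D, GE P 2 1 (χ c - ∑ i, (e i c : Om) * χ (b i)) := by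
    intro v hv
    refine (GE.two_iff hpl).2 ?_
    have h3 := hRR _ χ m' hm' hχ1 P hPi0 h2 (χ v - ∑ i, (e i v : Om) * χ (b i)) ?_ (he v hv)
    · exact_mod_cast h3
    refine sub_mem (Algebra.subset_adjoin ⟨v, rfl⟩) (sum_mem fun i _ => ?_)
    exact mul_mem (natCast_mem _ _) (Algebra.subset_adjoin ⟨b i, rfl⟩)
  have hw1 : ∀ i, (∏ c ∈ D, uN f N m T c ^ e i c) ∈ Mn n t f N := fun i =>
    prod_mem fun v hv => pow_mem (hG v hv).1 _
  have hkap : ∀ i, ∀ g : Gal(Om/ℚ), DN.GL.DD (Mn n t f) P g →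
      kap (∏ c ∈ D, uN f N m T c ^ e i c) g = 0 := by
    intro i g hg
    have h3 := hsum g ⟨hg.1, fun n => hg.2.1 n, hg.2.2⟩
    rw [LSg_split D χ b e] at h3
    have h4 : MP P (∑ v ∈ D, (χ v - ∑ i, (e i v : Om) * χ (b i)) *
        ((kap (uN f N m T v) g).val : Om)) :=
      DI.MP.sum D _ fun v hv => DI.MP.mul_right (he v hv) (DI.VP.nat _)
    have h5 := DI.MP.sub h3 h4
    rw [add_sub_cancel_left] at h5
    have h6 : ∑ i, χ (b i) * ∑ v ∈ D, (e i v : Om) * ((kap (uN f N m T v) g).val : Om) =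
        ∑ i, ((∑ v ∈ D, e i v * (kap (uN f N m T v) g).val : ℕ) : Om) * χ (b i) := by
      refine Finset.sum_congr rfl fun i _ => ?_
      push_cast
      ring
    rw [h6] at h5
    have h7 := hind _ h5 i
    rw [LSg_kprod D (uN f N m T) (e i) g
      (fun v hv => ⟨(hG v hv).2.ne_zero, hg.2.1 N _ (hG v hv).1⟩)]
    have h8 := (ZMod.natCast_eq_zero_iff _ 2).2 h7
    push_cast at h8
    simpa only [ZMod.natCast_zmod_val] using h8
  have hwi : ∀ i, GE P 2 q (Λ (∑ c ∈ D, (e i c : Om) * SN f N m T c)) := fun i =>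
    hRes _ (hw1 i) (hkap i) _
      (hL5 (Ideal (OO n t)) D (fun c => uN f N m T c ^ e i c)
        (fun c => (e i c : Om) * SN f N m T c) fun c hc => hL4 _ _ _ (hU c hc).1)
  have h9 := LSg_nine h2
  have h0 : (-9 : Om) ≠ 0 := h9.ne_zero
  have hinv : VP P ((-9 : Om)⁻¹) := (DI.UP.inv h9).1
  have hfin : ∑ c ∈ D, χ c * SN f N m T c = -9 * SS f N m χ T D := by
    unfold SS
    rw [Finset.mul_sum]
    refine Finset.sum_congr rfl fun c _ => ?_
    unfold SN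
    rw [mul_left_comm (χ c) (-9 : Om)]
  have hdiv : ∀ (q' : ℚ) (x : Om), GE P 2 q' (-9 * x) → GE P 2 q' x := fun q' x h => by
    have h3 := GE.mul_left hpl hinv h
    rwa [inv_mul_cancel_left₀ h0] at h3
  refine ⟨hdiv _ _ ?_, hdiv _ _ ?_⟩
  · rw [← hfin]
    exact GE.sum hpl _ _ fun c hc => GE.mul_left hpl (hV c) (hU c hc).2
  · rw [← LSg_int, ← hfin, LSg_split D χ b e, map_add]
    refine GE.add hpl (GE.mono (hΛ1 (1 + dv n t P z0 d SH) _
      (GE.sum hpl _ _ fun c hc => GE.mul hpl (hρ c hc) (hU c hc).2)) hq) ?_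
    rw [map_sum]
    refine GE.sum hpl _ _ fun i _ => ?_
    rw [hΛ2]
    exact GE.mul_left hpl (hV _) (hwi i)

end Pool.Agent.DR.GL
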