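import Pool.Agent.Lib.DR.GL.Spec

/-!
# Theorem DR, part GL: the fields `EE M`, levels and elements
-/

set_option autoImplicit false

open scoped Pointwise

noncomputable section

namespace Pool.Agent.DR.GL

open Pool.Agent.MuZ Pool.Agent.FW Pool.Agent.DN
open Pool.Agent.DI (io ofC io_inj exists_io io_ofC ofC_io VP MP UP TP ex)
open Pool.Agent.DN.GL (EE pH IsR)
open Pool.Agent.DL (vl GE Pl Fi Fp Cn Cf dl Gen Dr LD)

variable {n t : ℕ}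

private theorem Lev_mem {M : ℕ} {x : Om}
    (h : ∀ τ ∈ GK n t, ∀ a : Ideal (OO n t), Psi τ M a → Ray M a ⊤ → τ x = x) : x ∈ EE n t M := h

private theorem Lev_NI : NI (⊤ : Ideal (OO n t)) = 1 := by
  unfold NI
  rw [Nat.card_eq_one_iff_unique]
  exact ⟨Ideal.Quotient.subsingleton_iff.2 rfl, ⟨0⟩⟩

private theorem Lev_pri {τ : Gal(Om/ℚ)} {N : ℕ} {a : Ideal (OO n t)} (h : Psi τ N a) : PrI a N := by
  have h1 := h.cop
  unfold PrI at *
  rw [eq_top_iff, ← h1]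
  refine sup_le_sup_left ?_ a
  rw [Ideal.span_singleton_le_span_singleton]
  exact_mod_cast Nat.cast_dvd_cast (⟨15, by ring⟩ : N ∣ 15 * N)

/-- **Lev.** -/
theorem tLev : S_Lev := by
  intro hE1 hE6 hE10 n t _ M hM h15
  obtain ⟨e1, e2, e3, e4, e5⟩ := hE1 n t M hM h15
  obtain ⟨o1, o2, o3, o4, o5, o6, o7, o8⟩ := aO7 n t M hM
  have key : ∀ x : Om, (∀ τ ∈ GK n t, Psi τ M (⊤ : Ideal (OO n t)) → τ x = x) → x ∈ EE n t M := by
    intro x hx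
    refine Lev_mem fun τ hτ a h1 h2 => hx τ hτ (e3 τ a ⊤ h1 h2)
  refine ⟨?_, ?_, ?_, ?_, ?_, ?_⟩
  · intro M' hM' hd x hx τ hτ a h1 h2
    have h15' : 15 ∣ M' := h15.trans hd
    obtain ⟨f1, f2, f3, f4, f5⟩ := hE1 n t M' hM' h15'
    obtain ⟨p1, p2, p3, p4, p5, p6, p7, p8⟩ := aO7 n t M' hM'
    exact hx τ hτ a (f5 τ M a h1 hd h15) (p7 M a ⊤ hd h2)
  · intro v
    exact key _ fun τ hτ _ => GK_toO hτ v
  · intro b hb
    refine ⟨key _ fun τ hτ h => ?_, key _ fun τ hτ h => ?_, fun z hz => ⟨key _ fun τ hτ h => ?_,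
      key _ fun τ hτ h => ?_⟩, fun c hc => key _ fun τ hτ h => ?_⟩
    · rw [h.a1 b hb.ne hb.cop, Ideal.top_mul]
    · rw [h.a3 b hb.ne hb.cop, Ideal.top_mul]
    · rw [h.xx b hb.ne hb.cop z hz, Ideal.top_mul]
    · rw [((hE10 n t τ M ⊤ hM h15 h).1 b hb).1 z hz, Ideal.top_mul]
    · rw [((hE10 n t τ M ⊤ hM h15 h).1 b hb).2 c hc, Ideal.top_mul, Ideal.top_mul]
  · intro ζ hζ
    refine key _ fun τ hτ h => ?_
    rw [hE6 n t τ M ⊤ hτ hM h15 h ζ hζ, Lev_NI, pow_one]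
  · intro m b hm hb h2 h15m hNI z hz
    refine ⟨fun hzn => key _ fun τ hτ h => ?_, key _ fun τ hτ h => ?_⟩
    · rw [((hE10 n t τ M ⊤ hM h15 h).2 m b hm hb h2 h15m hNI z hz).1 hzn, Ideal.top_mul]
    · rw [((hE10 n t τ M ⊤ hM h15 h).2 m b hm hb h2 h15m hNI z hz).2, Ideal.top_mul]
  · intro τ hτ τ' hτ' a a' ha ha' hr x hx
    have hσ : τ'⁻¹ * τ ∈ GK n t := (GK n t).mul_mem ((GK n t).inv_mem hτ') hτ
    obtain ⟨s, hs⟩ := e1 _ hσ
    have h1 : Psi τ M (a' * s) := by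
      have h := e4 _ _ _ _ ha' hs
      rwa [mul_inv_cancel_left] at h
    have h2 : Ray M (a' * s) a := e2 τ _ _ h1 ha
    have h3 : Ray M (s * a') (⊤ * a') := by
      rw [Ideal.top_mul, mul_comm]
      exact o3 _ _ _ h2 hr
    have h4 : Ray M s ⊤ := o5 s ⊤ a' ha'.ne (Lev_pri ha') h3
    have h5 : (τ'⁻¹ * τ) x = x := hx _ hσ s hs h4
    have h6 : τ' ((τ'⁻¹ * τ) x) = τ' x := by rw [h5]
    rw [← AlgEquiv.mul_apply, mul_inv_cancel_left] at h6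
    exact h6

end Pool.Agent.DR.GL
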