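import Pool.Agent.Lib.DR.GL.SpecB

/-!
# Theorem DR, part GL, module Odq: the points `z + d`, `z` of odd order, `d` of order a power of two (author helper71)
-/

set_option autoImplicit false

open scoped Pointwise

noncomputable section

namespace Pool.Agent.DR.GL

open Pool.Agent.MuZ Pool.Agent.FW Pool.Agent.DN
open Pool.Agent.DI (io ofC io_inj exists_io io_ofC ofC_io VP MP UP TP ex sqr sqr_sq kap)
open Pool.Agent.DI.GL (Fx StP xx mem_of_Fx Fx.mul Fx.inv Fx.one)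
open Pool.Agent.DN.GL (EE pH IsR)
open Pool.Agent.DL (vl GE Pl Fi Fp Cn Cf dl Gen Dr LD)

variable {n t : ℕ}

private theorem odd_not [SqN n t] {P : Ideal ZZ} [P.IsPrime] (h2 : MP P 2) {f : ℕ} (hf : Odd f) :
    ¬ MP P (toO ((f : ℕ) : OO n t)) := by
  intro h
  rw [toO_nat] at h
  obtain ⟨j, rfl⟩ := hf
  refine DI.MP.one_not (P := P) ?_
  have e : (1 : Om) = ((2 * j + 1 : ℕ) : Om) - (j : Om) * 2 := by
    push_cast
    ring
  rw [e]
  exact DI.MP.sub h (DI.MP.mul_left (DI.VP.nat j) h2)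

private theorem int_lam [SqN n t] {b : Ideal (OO n t)} {z : ℂ} (j : ℤ) (h : z ∈ Lam b) :
    (j : ℂ) * z ∈ Lam b := by
  rw [← toC_int (n := n) (t := t)]
  exact lam_mul _ h

private theorem core (d2 : S_D2) [Rmf n t] {P : Ideal ZZ} (hP : Ab2 P) {b : Ideal (OO n t)}
    (hb : G15 b) {f N : ℕ} {z d : ℂ} (hf : Odd f) (hz : (f : ℂ) * z ∈ Lam b) (hzn : z ∉ Lam b)
    (hd : (2 : ℂ) ^ N * d ∈ Lam b) :
    ¬ Qp P b (z + d) ∧ ¬ IK P b (z + d) ∧ Tor n t (z + d) ∧ z + d ∉ Lam b ∧ VP P (xO b (z + d)) ∧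
      UP P (vO b (z + d)) := by
  have hPp : P.IsPrime := hP.1.1
  have h2 : MP P 2 := hP.2
  have hfd : ((f * 2 ^ N : ℕ) : ℂ) * (z + d) ∈ Lam b := by
    have e : ((f * 2 ^ N : ℕ) : ℂ) * (z + d) = ((2 ^ N : ℕ) : ℂ) * ((f : ℂ) * z) +
        (f : ℂ) * ((2 : ℂ) ^ N * d) := by
      push_cast
      ring
    rw [e]
    exact lam_add (lam_nat _ hz) (lam_nat _ hd)
  have hq : ¬ Qp P b (z + d) := by
    intro h
    have h3 := h ((f : ℕ) : OO n t) ((2 ^ N : ℕ) : OO n t) (odd_not h2 hf) (by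
      rw [← Nat.cast_mul, toC_nat]
      exact hfd)
    rw [toC_nat] at h3
    have h4 : ((2 ^ N : ℕ) : ℂ) * z ∈ Lam b := by
      have e : ((2 ^ N : ℕ) : ℂ) * z = ((2 ^ N : ℕ) : ℂ) * (z + d) - (2 : ℂ) ^ N * d := by
        push_cast
        ring
      rw [e]
      exact lam_sub h3 hd
    have hcop : IsCoprime ((2 ^ N : ℕ) : ℤ) (f : ℤ) :=
      Nat.isCoprime_iff_coprime.2 (Nat.Coprime.pow_left _ (Nat.coprime_two_left.2 hf))
    obtain ⟨a, c, hac⟩ := hcop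
    apply hzn
    have hac' : (a : ℂ) * ((2 ^ N : ℕ) : ℂ) + (c : ℂ) * (f : ℂ) = 1 := by
      have := congrArg (fun w : ℤ => (w : ℂ)) hac
      push_cast at this ⊢
      exact this
    have e : z = (a : ℂ) * (((2 ^ N : ℕ) : ℂ) * z) + (c : ℂ) * ((f : ℂ) * z) := by
      linear_combination (-z) * hac'
    rw [e]
    exact lam_add (int_lam a h4) (int_lam c hz)
  have ht : Tor n t (z + d) := (tor_iff hb.1).2 ⟨f * 2 ^ N, by have := hf.pos; positivity, hfd⟩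
  have hl : z + d ∉ Lam b := fun h => hq fun α β _ _ => lam_mul β h
  obtain ⟨-, -, -, q4, q5, -⟩ := d2 n t P hP b hb
  have hik := q5 (z + d) ht hq
  obtain ⟨r1, r2, -⟩ := q4 (z + d) ht hik
  exact ⟨hq, hik, ht, hl, r1, r2⟩

theorem tOdq : S_Odq := by
  intro d2 lev inn n t _ P hP b hb f N z d hf h15 hz hzn hd
  obtain ⟨a1, a2, a3, a4, a5, a6⟩ := core d2 hP hb hf hz hzn hd
  obtain ⟨-, -, -, -, b5, b6⟩ := core (N := 0) (d := 0) d2 hP hb hf hz hzn (by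
    rw [mul_zero]
    exact lam_zero b)
  rw [add_zero] at b5 b6
  obtain ⟨-, -, l3, -⟩ := lev n t f hf.pos h15
  obtain ⟨-, -, l4, -⟩ := l3 b hb
  have i7 := (inn n t P hP f N hf h15).2.2.2.2.2.2.1
  exact ⟨a1, a2, a3, a4, a5, a6, ⟨b5, i7 _ (l4 z hz).1⟩, ⟨b6.1, i7 _ (l4 z hz).2⟩, b6⟩

end Pool.Agent.DR.GL
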