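import Pool.Agent.Lib.DR.GL.Spec
import Pool.Agent.Lib.DN.B.All

/-!
# DR, part GL, module Pi: the valuations of the differences of the conjugates (helper58, after helper86)
-/

set_option autoImplicit false

open scoped Pointwise

noncomputable section

namespace Pool.Agent.DR.GL

open Pool.Agent.MuZ Pool.Agent.FW Pool.Agent.DN
open Pool.Agent.DI (io ofC io_inj exists_io io_ofC ofC_io VP MP UP TP ex)
open Pool.Agent.DN.GL (EE pH IsR)
open Pool.Agent.DL (vl GE Pl Fi Fp Cn Cf dl Gen Dr LD)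

variable {k t : ℕ}

private theorem gtop : G15 (⊤ : Ideal (OO k t)) := ⟨top_ne_bot, top_sup_eq _⟩

/-- An ideal prime to `2` which contains a power of `2` is trivial. -/
private theorem top_of [Rmf k t] {a : Ideal (OO k t)} (h : PrI a 2) {N : ℕ}
    (hN : ((2 ^ N : ℕ) : OO k t) ∈ a) : a = ⊤ := by
  obtain ⟨x, hx, y, e⟩ : ∃ x ∈ a, ∃ y : OO k t, x + ((2 : ℕ) : OO k t) * y = 1 := by
    have h1 : (1 : OO k t) ∈ a ⊔ Ideal.span {((2 : ℕ) : OO k t)} := by
      have h2 : a ⊔ Ideal.span {((2 : ℕ) : OO k t)} = ⊤ := h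
      rw [h2]
      exact trivial
    obtain ⟨x, hx, y', hy', e⟩ := Submodule.mem_sup.1 h1
    obtain ⟨y, rfl⟩ := Ideal.mem_span_singleton.1 hy'
    exact ⟨x, hx, y, e⟩
  rw [Ideal.eq_top_iff_one]
  have key : ∀ i : ℕ, ∃ z ∈ a, ∃ w : OO k t, z + ((2 ^ i : ℕ) : OO k t) * w = 1 := by
    intro i
    induction i with
    | zero => exact ⟨0, a.zero_mem, 1, by push_cast; ring⟩
    | succ i ih =>
      obtain ⟨z, hz, w, e1⟩ := ih
      refine ⟨z + ((2 ^ i : ℕ) : OO k t) * w * x, a.add_mem hz (a.mul_mem_left _ hx), w * y, ?_⟩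
      push_cast at e e1 ⊢
      linear_combination e1 + 2 ^ i * w * e
  obtain ⟨z, hz, w, e1⟩ := key N
  rw [← e1]
  exact a.add_mem hz (a.mul_mem_right _ hN)

/-- The annihilator of `d`. -/
private def ann [Rmf k t] (d : ℂ) : Ideal (OO k t) where
  carrier := {v | toC v * d ∈ Lam (⊤ : Ideal (OO k t))}
  zero_mem' := by
    change toC (0 : OO k t) * d ∈ Lam (⊤ : Ideal (OO k t))
    rw [toC_zero, zero_mul]
    exact lam_zero _
  add_mem' := by
    intro v u hv hu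
    change toC (v + u) * d ∈ Lam (⊤ : Ideal (OO k t))
    rw [toC_add, add_mul]
    exact lam_add hv hu
  smul_mem' := by
    intro c v hv
    change toC (c * v) * d ∈ Lam (⊤ : Ideal (OO k t))
    rw [toC_mul, mul_assoc]
    exact lam_mul c hv

private theorem mem_ann [Rmf k t] {d : ℂ} {v : OO k t} : v ∈ ann (k := k) (t := t) d ↔
    toC v * d ∈ Lam (⊤ : Ideal (OO k t)) := Iff.rfl

private theorem pO_mem : pO k t ∈ pp k t := Ideal.subset_span (Set.mem_insert_of_mem _ rfl)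

/-- The annihilator of `d` is `pp ^ (2 N)`. -/
private theorem ann_eq [Rmf k t] (hO4 : S_O4) (hRep : C_Rep) {f N : ℕ} {z0 d : ℂ} (hp : Pt k t f N z0 d)
    (v : OO k t) : toC v * d ∈ Lam (⊤ : Ideal (OO k t)) ↔ v ∈ pp k t ^ (2 * N) := by
  obtain ⟨-, -, r3, -⟩ := hRep k t N hp.pos
  obtain ⟨-, -, -, -, -, -, -, -, -, -, -, -, -, -, -, o⟩ := hO4 k t
  have h2N : ((2 ^ N : ℕ) : OO k t) ∈ ann (k := k) (t := t) d := by
    rw [mem_ann, toC_nat]
    push_cast
    exact hp.dd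
  constructor
  · intro hv
    have hne : ann (k := k) (t := t) d ≠ ⊥ := by
      intro h0
      rw [h0, Ideal.mem_bot] at h2N
      have h1 := congrArg (fun u : OO k t => toC u) h2N
      simp only [toC_nat, toC_zero] at h1
      have : ((2 ^ N : ℕ) : ℂ) ≠ 0 := by
        rw [Nat.cast_ne_zero]
        positivity
      exact this h1
    obtain ⟨i, a', ha0, ha2, ha⟩ := o _ hne
    have hat : a' = ⊤ := by
      refine top_of ha2 (N := N) ?_
      have h1 : pp k t ^ i * a' ≤ a' := Ideal.mul_le_right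
      exact h1 (ha ▸ h2N)
    rw [hat, Ideal.mul_top] at ha
    have hi : 2 * N ≤ i := by
      by_contra hc
      have h1 : pO k t * ((2 ^ (N - 1) : ℕ) : OO k t) ∈ ann (k := k) (t := t) d := by
        rw [ha]
        have h2 : ((2 ^ (N - 1) : ℕ) : OO k t) ∈ pp k t ^ (2 * (N - 1)) := (r3 _ _).2 dvd_rfl
        have h3 : pO k t * ((2 ^ (N - 1) : ℕ) : OO k t) ∈ pp k t ^ (2 * (N - 1) + 1) := by
          rw [pow_succ']
          exact Ideal.mul_mem_mul pO_mem h2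
        have hN1 := hp.pos
        exact Ideal.pow_le_pow_right (by omega) h3
      rw [mem_ann, toC_mul, toC_nat] at h1
      push_cast at h1
      rw [mul_assoc] at h1
      exact hp.dn h1
    have h1 : v ∈ ann (k := k) (t := t) d := hv
    rw [ha] at h1
    exact Ideal.pow_le_pow_right hi h1
  · intro hv
    obtain ⟨u, rfl⟩ := (r3 v N).1 hv
    rw [mul_comm ((2 ^ N : ℕ) : OO k t) u, toC_mul, toC_nat, mul_assoc]
    push_cast
    exact lam_mul u hp.dd

/-- The exact order of `v d`. -/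
private theorem ord [Rmf k t] (hO4 : S_O4) (hRep : C_Rep) {f N : ℕ} {z0 d : ℂ} (hp : Pt k t f N z0 d)
    {j : ℕ} {v : OO k t} (hj : j < 2 * N) (h1 : v ∈ pp k t ^ j) (h2 : v ∉ pp k t ^ (j + 1)) :
    toC v * d ∈ Lam (pp k t ^ (2 * N - j - 1 + 1) * (⊤ : Ideal (OO k t))) ∧
      toC v * d ∉ Lam (pp k t ^ (2 * N - j - 1) * (⊤ : Ideal (OO k t))) := by
  have hpp0 : pp k t ≠ ⊥ := by
    intro h0
    have h3 : (2 : OO k t) ∈ pp k t := Ideal.subset_span (Set.mem_insert _ _)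
    rw [h0, Ideal.mem_bot] at h3
    have h4 := congrArg (fun u : OO k t => toC u) h3
    simp only [toC_two, toC_zero] at h4
    norm_num at h4
  constructor
  · rw [lam_prod]
    intro u hu
    rw [← mul_assoc, ← toC_mul, ann_eq hO4 hRep hp]
    have e : 2 * N = (2 * N - j - 1 + 1) + j := by omega
    rw [e, pow_add]
    exact Ideal.mul_mem_mul hu h1
  · rw [lam_prod]
    intro h3
    apply h2
    have h4 : sp v * pp k t ^ (2 * N - j - 1) ≤ pp k t ^ (2 * N) := by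
      rw [Ideal.span_singleton_mul_le_iff]
      intro u hu
      rw [← ann_eq hO4 hRep hp, toC_mul, mul_comm (toC v), mul_assoc]
      exact h3 u hu
    have e : 2 * N = (j + 1) + (2 * N - j - 1) := by omega
    have h5 : pp k t ^ (j + 1) * pp k t ^ (2 * N - j - 1) ∣ sp v * pp k t ^ (2 * N - j - 1) := by
      rw [← pow_add, ← e]
      exact Ideal.dvd_iff_le.2 h4
    have h6 := (mul_dvd_mul_iff_right (pow_ne_zero (2 * N - j - 1) hpp0)).1 h5
    exact (Ideal.span_singleton_le_iff_mem _).1 (Ideal.dvd_iff_le.1 h6)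

/-- Points of the field of level `f 2 ^ N`. -/
private theorem lev_pt [Rmf k t] {f N : ℕ} {z0 d : ℂ} (hz : (f : ℂ) * z0 ∈ Lam (⊤ : Ideal (OO k t)))
    (hd : (2 : ℂ) ^ N * d ∈ Lam (⊤ : Ideal (OO k t))) (v : OO k t) :
    ((f * 2 ^ N : ℕ) : ℂ) * (z0 + toC v * d) ∈ Lam (⊤ : Ideal (OO k t)) := by
  have e1 : ((f * 2 ^ N : ℕ) : ℂ) * (z0 + toC v * d) =
      ((2 ^ N : ℕ) : ℂ) * (f * z0) + (f : ℂ) * (toC v * (2 ^ N * d)) := by
    push_cast
    ring
  rw [e1]
  exact lam_add (lam_nat _ hz) (lam_nat _ (lam_mul v hd))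

/-- Odd numbers are units. -/
private theorem odd_not {P : Ideal ZZ} [P.IsPrime] (h2 : MP P 2) {f : ℕ} (hf : Odd f) :
    ¬ MP P (f : Om) := by
  intro h
  obtain ⟨j, rfl⟩ := hf
  have h3 : MP P ((2 : Om) * (j : Om)) := DI.MP.mul_right h2 (DI.VP.nat j)
  have h4 := h.sub h3
  have e : (((2 * j + 1 : ℕ) : Om) - 2 * (j : Om)) = 1 := by
    push_cast
    ring
  rw [e] at h4
  exact DI.MP.one_not h4

/-- Periods. -/
private theorem x_per [Rmf k t] {z z' : ℂ} (h : z - z' ∈ Lam (⊤ : Ideal (OO k t))) :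
    xO (⊤ : Ideal (OO k t)) z = xO (⊤ : Ideal (OO k t)) z' := by
  have h1 := ((aB1 k t ⊤ top_ne_bot).1 z' (z - z') h).1
  rw [add_sub_cancel] at h1
  unfold xO XC
  rw [h1]

theorem tPi : S_Pi := by
  intro hO4 hR1 hR2 hD1 hD2 hD10 hLev hIn hAct hRep k t _ P hP f N z0 d hp
  have hPp : P.IsPrime := hP.1.1
  have h2 : MP P 2 := hP.2
  have hPl : Pl P 2 := ⟨two_ne_zero, by exact_mod_cast hP.2⟩
  have gt : G15 (⊤ : Ideal (OO k t)) := gtop
  have hf0 : 0 < f := hp.odd.pos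
  have hN1 := hp.pos
  have hM : 0 < f * 2 ^ N := by positivity
  have h15 : 15 ∣ f * 2 ^ N := hp.f15.mul_right _
  obtain ⟨hD21, -, -, hD24, hD25, -, -, -⟩ := hD2 k t P hP ⊤ gt
  obtain ⟨hGQ, -⟩ := (hR2 k t).1 P hP
  obtain ⟨ha1, ha3, -⟩ := hGQ.2 ⊤ gt
  obtain ⟨hD11, -, -, -, -, -, -⟩ := hD1 k t P hGQ ⊤ gt
  obtain ⟨-, -, hL, -, -, -⟩ := hLev k t (f * 2 ^ N) hM h15
  obtain ⟨-, -, hL0, -, -, -⟩ := hLev k t f hf0 hp.f15
  obtain ⟨hLa1, hLa3, hLx, -⟩ := hL0 ⊤ gt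
  obtain ⟨-, -, hLX, -⟩ := hL ⊤ gt
  obtain ⟨-, -, -, -, -, -, hFi, -⟩ := hIn k t P hP f N hp.odd hp.f15
  -- torsion points
  have tz0 : Tor k t z0 := (tor_iff top_ne_bot).2 ⟨f, hf0, hp.z⟩
  have td : Tor k t d := (tor_iff top_ne_bot).2 ⟨2 ^ N, by positivity, by
    push_cast
    exact hp.dd⟩
  have tz : ∀ v : OO k t, Tor k t (z0 + toC v * d) := fun v => tor_add tz0 (tor_mul v td)
  -- the kernel of reduction
  have kz0 : ¬ IK P (⊤ : Ideal (OO k t)) z0 := by
    refine hD25 z0 tz0 fun hq => hp.zn ?_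
    have h3 := hq (f : OO k t) 1 (by
      rw [toO_nat]
      exact odd_not h2 hp.odd) (by
      rw [mul_one, toC_nat]
      exact hp.z)
    rwa [toC_one, one_mul] at h3
  have kd : ∀ v : OO k t, IK P (⊤ : Ideal (OO k t)) (toC v * d) := fun v => by
    refine hD21 _ N ?_
    have e : (2 : ℂ) ^ N * (toC v * d) = toC v * (2 ^ N * d) := by ring
    rw [e]
    exact lam_mul v hp.dd
  have kz : ∀ v : OO k t, ¬ IK P (⊤ : Ideal (OO k t)) (z0 + toC v * d) := by
    intro v hk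
    have h3 := hD11 _ _ hk (kd (-v))
    rw [toC_neg, neg_mul, add_neg_cancel_right] at h3
    exact kz0 h3
  -- the cases `j = 0` of the orders
  have hcop : ∀ h : OO k t, Cop h 2 → h ∈ pp k t ^ 0 ∧ h ∉ pp k t ^ (0 + 1) := by
    intro h hh
    refine ⟨?_, ?_⟩
    · rw [pow_zero, Ideal.one_eq_top]
      exact trivial
    · rw [zero_add, pow_one]
      exact ((hO4 k t).2.2.2.2.2.2.1 h).1 hh
  have main : ∀ (z : ℂ) (v : OO k t) (j : ℕ), Tor k t z → ¬ IK P (⊤ : Ideal (OO k t)) z → j < 2 * N →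
      v ∈ pp k t ^ j → v ∉ pp k t ^ (j + 1) →
      xO (⊤ : Ideal (OO k t)) (z + toC v * d) - xO (⊤ : Ideal (OO k t)) z ≠ 0 ∧
      vl P 2 (xO (⊤ : Ideal (OO k t)) (z + toC v * d) - xO (⊤ : Ideal (OO k t)) z) =
        1 / 2 ^ (2 * N - j) := by
    intro z v j hz hk hj hv1 hv2
    obtain ⟨o1, o2⟩ := ord hO4 hRep hp hj hv1 hv2
    have h3 := (hD10 k t P hP ⊤ gt).1 (2 * N - j - 1) z (toC v * d) hz hk o1 o2
    have e1 : 2 * N - j - 1 + 1 = 2 * N - j := by omega
    rw [e1] at h3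
    have hpos : 0 < 2 ^ (2 * N - j) := by positivity
    constructor
    · intro h0
      rw [h0, zero_pow hpos.ne', zero_div] at h3
      exact DI.UP.ne_zero h3 rfl
    · have h4 : UP P ((xO (⊤ : Ideal (OO k t)) (z + toC v * d) - xO (⊤ : Ideal (OO k t)) z) ^
          (2 ^ (2 * N - j)) / ((2 : ℕ) : Om) ^ (1 : ℤ)) := by
        rw [zpow_one]
        exact_mod_cast h3
      rw [DL.vl_eq hPl hpos h4]
      push_cast
      rfl
  refine ⟨?_, ⟨(hD24 z0 tz0 kz0).1, hFi _ (hLx z0 hp.z).1⟩, ⟨ha1, hFi _ hLa1⟩, ⟨ha3.1, hFi _ hLa3⟩, ?_, ?_, ?_⟩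
  · intro h hh
    obtain ⟨c1, c2⟩ := hcop h hh
    obtain ⟨m1, m2⟩ := main z0 h 0 tz0 kz0 (by omega) c1 c2
    rw [Nat.sub_zero] at m2
    refine ⟨?_, m1, m2, kz h, (hD24 _ (tz h) (kz h)).1, (hD24 _ (tz h) (kz h)).2.1⟩
    refine sub_mem (hLX _ (lev_pt hp.z hp.dd h)).1 (hLX _ ?_).1
    have h3 := lev_pt hp.z hp.dd (0 : OO k t)
    rwa [toC_zero, zero_mul, add_zero] at h3
  · intro h h' hd
    unfold pH
    congr 1
    refine x_per ?_
    obtain ⟨u, hu⟩ := hd
    have e : z0 + toC h * d - (z0 + toC h' * d) = toC u * (2 ^ N * d) := by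
      have e1 : toC h - toC h' = 2 ^ N * toC u := by
        rw [← toC_sub, hu, toC_mul, toC_nat]
        push_cast
        ring
      linear_combination d * e1
    rw [e]
    exact lam_mul u hp.dd
  · intro h h' j _ _ hj hd1 hd2
    obtain ⟨m1, m2⟩ := main (z0 + toC h' * d) (h - h') j (tz h') (kz h') hj hd1 hd2
    have e : z0 + toC h' * d + toC (h - h') * d = z0 + toC h * d := by
      rw [toC_sub]
      ring
    have e1 : pH z0 d h - pH z0 d h' =
        xO (⊤ : Ideal (OO k t)) (z0 + toC h' * d + toC (h - h') * d) -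
          xO (⊤ : Ideal (OO k t)) (z0 + toC h' * d) := by
      rw [e]
      unfold pH
      ring
    rw [← e1] at m1 m2
    exact ⟨fun h0 => m1 (by rw [h0, sub_self]), m2⟩
  · intro f' h h' τ hf' hff' hc
    obtain ⟨-, -, -, hx, hx0, -, -⟩ := hAct k t P hP f' N h τ hf' (hp.f15.trans hff') hc ⊤ gt
    have hz' : (f' : ℂ) * z0 ∈ Lam (⊤ : Ideal (OO k t)) := by
      obtain ⟨c, rfl⟩ := hff'
      have e : ((f * c : ℕ) : ℂ) * z0 = (c : ℂ) * (f * z0) := by
        push_cast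
        ring
      rw [e]
      exact lam_nat c hp.z
    unfold pH
    rw [map_sub, (hx0 z0 hz').1, (hx _ (lev_pt hz' hp.dd h')).1]
    congr 1
    refine x_per ?_
    obtain ⟨u, hu⟩ := hc.one
    have e : toC h * (z0 + toC h' * d) - (z0 + toC (h * h') * d) = toC u * (f' * z0) := by
      have e1 : toC h - 1 = f' * toC u := by
        rw [← toC_one (n := k) (t := t), ← toC_sub, hu, toC_mul, toC_nat]
      rw [toC_mul]
      linear_combination z0 * e1
    rw [e]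
    exact lam_mul u hz'

end Pool.Agent.DR.GL
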