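import Pool.Agent.Lib.DR.GL.SpecB

/-!
# Theorem DR, part GL, second half: the point `1/(f 2^N)`
-/

set_option autoImplicit false

open scoped Pointwise

noncomputable section

namespace Pool.Agent.DR.GL

open Pool.Agent.MuZ Pool.Agent.FW Pool.Agent.DN
open Pool.Agent.DI (io ofC io_inj exists_io io_ofC ofC_io VP MP UP TP ex sqr sqr_sq kap)
open Pool.Agent.DI.GL (Fx StP xx mem_of_Fx Fx.mul Fx.inv Fx.one)
open Pool.Agent.DN.GL (EE pH IsR)
open Pool.Agent.DL (vl GE Pl Fi Fp Cn Cf dl Gen Dr LD)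

variable {n t : ℕ}

private theorem Pnt_not [Rmf n t] {a : Ideal (OO n t)} {N : ℕ} (hN : 0 < N)
    (hp : PrI a N) {j : ℤ} (hj : ¬ (N : ℤ) ∣ j) : ((j : ℂ) / N) ∉ Lam a := by
  intro h
  have hN0 : (N : ℂ) ≠ 0 := by exact_mod_cast hN.ne'
  have h1 : (1 : OO n t) ∈ a ⊔ Ideal.span {(N : OO n t)} := by
    unfold PrI at hp
    rw [hp]
    exact Submodule.mem_top
  obtain ⟨x, hx, y', hy', hxy⟩ := Submodule.mem_sup.1 h1
  obtain ⟨y, rfl⟩ := Ideal.mem_span_singleton'.1 hy'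
  obtain ⟨u, hu⟩ := h x hx
  have e1 : toC (((N : ℕ) : OO n t) * (u + (j : OO n t) * y)) = toC ((j : OO n t)) := by
    rw [toC_mul, toC_add, toC_mul, toC_nat, toC_int, ← hu]
    have e2 : toC x + toC y * (N : ℂ) = 1 := by
      have := congrArg toC hxy
      rw [toC_add, toC_mul, toC_nat] at this
      rw [this]
      have := toC_nat (n := n) (t := t) 1
      simpa using this
    field_simp
    linear_combination (j : ℂ) * e2
  have h3 : ((N : ℕ) : OO n t) ∣ (j : OO n t) := ⟨_, (toC_inj e1).symm⟩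
  have h2 := ((nat_dvd_iff N _).1 h3).1
  exact hj (by simpa using h2)

/-- The point `1/(f 2^N)`. -/
theorem tPnt : S_Pnt := by
  intro n t _ f N hf h15 hN
  have hf15 := Nat.le_of_dvd hf.pos h15
  have hcop : Nat.Coprime (2 ^ N) f := Nat.Coprime.pow_left N (Nat.coprime_two_left.2 hf)
  obtain ⟨a0, c0, hac⟩ : ∃ a0 c0 : ℤ, a0 * 2 ^ N + c0 * f = 1 := by
    obtain ⟨a, b, h⟩ := Nat.isCoprime_iff_coprime.2 hcop
    exact ⟨a, b, by push_cast at h; exact h⟩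
  have hf0 : (f : ℂ) ≠ 0 := by exact_mod_cast hf.pos.ne'
  have h20 : (2 : ℂ) ^ N ≠ 0 := pow_ne_zero _ two_ne_zero
  have hac' : (a0 : ℂ) * 2 ^ N + c0 * f = 1 := by exact_mod_cast hac
  have hfa : ¬ (f : ℤ) ∣ a0 := by
    intro h
    have h1 : (f : ℤ) ∣ 1 := by
      rw [← hac]
      exact dvd_add (h.mul_right _) (dvd_mul_left _ _)
    have h2 := Int.le_of_dvd one_pos h1
    omega
  have h2c : ¬ ((2 : ℕ) : ℤ) ∣ c0 := by
    intro h
    have h1 : ((2 : ℕ) : ℤ) ∣ 1 := by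
      rw [← hac]
      refine dvd_add (Dvd.dvd.mul_left ?_ _) (h.mul_right _)
      exact_mod_cast dvd_pow_self (2 : ℤ) (by omega : N ≠ 0)
    omega
  have hkey : ∀ a : Ideal (OO n t), a ≠ ⊥ → PrI a f → (a0 : ℂ) / f ∉ Lam a :=
    fun a _ hp => Pnt_not hf.pos hp hfa
  have htop : ∀ M : ℕ, PrI (⊤ : Ideal (OO n t)) M := fun M => by
    unfold PrI
    rw [top_sup_eq]
  refine ⟨a0 / f, c0 / 2 ^ N, ⟨hf, h15, hN, ?_, ?_, ?_, ?_⟩, ?_, hkey, ?_, ?_⟩
  · rw [mul_div_cancel₀ _ hf0]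
    exact lam_top.2 ⟨(a0 : OO n t), (toC_int a0).symm⟩
  · exact hkey ⊤ top_ne_bot (htop f)
  · rw [mul_div_cancel₀ _ h20]
    exact lam_top.2 ⟨(c0 : OO n t), (toC_int c0).symm⟩
  · have e : (2 : ℂ) ^ (N - 1) * (c0 / 2 ^ N) = (c0 : ℂ) / 2 := by
      obtain ⟨M, rfl⟩ : ∃ M, N = M + 1 := ⟨N - 1, by omega⟩
      rw [Nat.add_sub_cancel, pow_succ]
      have h2M : (2 : ℂ) ^ M ≠ 0 := pow_ne_zero _ two_ne_zero
      field_simp
    rw [e]
    intro h
    obtain ⟨u, hu⟩ := lam_top.1 h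
    have e1 : toC (((c0 : ℤ) : OO n t) * pO n t) = toC (((2 : ℕ) : OO n t) * u) := by
      rw [toC_mul, toC_mul, toC_int, toC_nat, ← hu]
      push_cast
      ring
    have h3 : ((2 : ℕ) : OO n t) ∣ ((c0 : ℤ) : OO n t) * pO n t := ⟨_, toC_inj e1⟩
    have h4 := ((nat_dvd_iff 2 _).1 h3).2
    apply h2c
    simpa [pO] using h4
  · push_cast
    field_simp
    linear_combination hac'
  · rw [map_div₀]
    simp
  · have e2 : (starRingEnd ℂ) 2 = 2 := by
      have := Complex.conj_ofReal 2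
      push_cast at this
      exact this
    rw [map_div₀, map_pow, e2]
    simp

end Pool.Agent.DR.GL
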