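import Pool.Agent.Lib.DR.GL.Spec

/-!
# DR, part GL, module Rep: representatives modulo `2 ^ N`, `pp`-adic levels, counting

`v` is in `pp ^ j` if and only if `2 ^ (j / 2)` divides `v.im` and `2 ^ ((j + 1) / 2)` divides `v.re - (n mod 2) v.im`.
-/

set_option autoImplicit false

open scoped Pointwise

noncomputable section

namespace Pool.Agent.DR.GL

open Pool.Agent.MuZ Pool.Agent.FW Pool.Agent.DN
open Pool.Agent.DI (io ofC io_inj exists_io io_ofC ofC_io VP MP UP TP ex)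
open Pool.Agent.DN.GL (EE pH IsR)
open Pool.Agent.DL (vl GE Pl Fi Fp Cn Cf dl Gen Dr LD)

variable {n t : ℕ}

private theorem dvd_co (j : ℕ) (a b : OO n t) :
    (j : OO n t) ∣ a - b ↔ (j : ℤ) ∣ a.re - b.re ∧ (j : ℤ) ∣ a.im - b.im := by
  rw [nat_dvd_iff, QuadraticAlgebra.re_sub, QuadraticAlgebra.im_sub]

/-- The class modulo `M`. -/
private def rh (M : ℕ) (v : OO n t) : ZMod M × ZMod M := (((v.re : ℤ) : ZMod M), ((v.im : ℤ) : ZMod M))

private theorem rh_eq (M : ℕ) (a b : OO n t) : rh M b = rh M a ↔ (M : OO n t) ∣ a - b := by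
  unfold rh
  rw [Prod.mk.injEq, dvd_co, ZMod.intCast_eq_intCast_iff_dvd_sub, ZMod.intCast_eq_intCast_iff_dvd_sub]

private theorem card_le {N : ℕ} {C : OO n t → Prop} {T T' : Finset (OO n t)} (h : IsR N C T)
    (h' : IsR N C T') : T.card ≤ T'.card := by
  choose! g hg using h'.ex
  refine Finset.card_le_card_of_injOn g (fun x hx => (hg x (h.mem x hx)).1) ?_
  intro x hx y hy hxy
  refine h.uni x hx y hy ?_
  have h1 := (hg x (h.mem x hx)).2
  have h2 := (hg y (h.mem y hy)).2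
  rw [← hxy] at h2
  have h3 := dvd_sub h1 h2
  rwa [sub_sub_sub_cancel_right] at h3

private theorem exS (N : ℕ) (C : OO n t → Prop) : ∃ T : Finset (OO n t), IsR N C T := by
  classical
  have : NeZero (2 ^ N) := ⟨by positivity⟩
  set S : Finset (ZMod (2 ^ N) × ZMod (2 ^ N)) := Finset.univ.filter (fun p => ∃ v : OO n t, C v ∧ rh (2 ^ N) v = p)
    with hS
  have key : ∀ p : ZMod (2 ^ N) × ZMod (2 ^ N), ∃ v : OO n t, p ∈ S → C v ∧ rh (2 ^ N) v = p := by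
    intro p
    by_cases hp : p ∈ S
    · obtain ⟨v, hv⟩ := (Finset.mem_filter.1 hp).2
      exact ⟨v, fun _ => hv⟩
    · exact ⟨0, fun h => absurd h hp⟩
  choose g hg using key
  refine ⟨S.image g, ⟨?_, ?_, ?_⟩⟩
  · intro h hh
    obtain ⟨p, hp, rfl⟩ := Finset.mem_image.1 hh
    exact (hg p hp).1
  · intro v hv
    have hp : rh (2 ^ N) v ∈ S := Finset.mem_filter.2 ⟨Finset.mem_univ _, v, hv, rfl⟩
    exact ⟨g (rh (2 ^ N) v), Finset.mem_image_of_mem g hp, (rh_eq _ _ _).1 (hg _ hp).2⟩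
  · intro h hh h' hh' hd
    obtain ⟨p, hp, rfl⟩ := Finset.mem_image.1 hh
    obtain ⟨q, hq, rfl⟩ := Finset.mem_image.1 hh'
    have h1 := (rh_eq _ _ _).2 hd
    rw [(hg p hp).2, (hg q hq).2] at h1
    rw [h1]

private theorem lift (f N : ℕ) (hf : Odd f) (a b : ℤ) : ∃ v : OO n t, (f : OO n t) ∣ v - 1 ∧
    ((2 ^ N : ℕ) : ℤ) ∣ v.re - a ∧ ((2 ^ N : ℕ) : ℤ) ∣ v.im - b := by
  have hc : IsCoprime (f : ℤ) ((2 ^ N : ℕ) : ℤ) := by
    rw [Nat.isCoprime_iff_coprime]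
    exact Nat.Coprime.pow_right N hf.coprime_two_right
  obtain ⟨x, y, hxy⟩ := hc
  refine ⟨⟨a * (x * f) + y * (2 ^ N : ℕ), b * (x * f)⟩, ?_, ⟨y - a * y, ?_⟩, ⟨- (b * y), ?_⟩⟩
  · rw [nat_dvd_iff, QuadraticAlgebra.re_sub, QuadraticAlgebra.im_sub, re_one, im_one]
    exact ⟨⟨a * x - x, by linear_combination hxy⟩, ⟨b * x, by ring⟩⟩
  · show a * (x * f) + y * (2 ^ N : ℕ) - a = _
    linear_combination a * hxy
  · show b * (x * f) - b = _
    linear_combination b * hxy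

private theorem eq_of (K : ℕ) (p q : ℕ) (hp : p < K) (hq : q < K) (h : (K : ℤ) ∣ (p : ℤ) - q) : p = q := by
  have h1 : (q : ℤ) ≡ p [ZMOD K] := (Int.modEq_iff_dvd).2 h
  have h2 : q ≡ p [MOD K] := (Int.natCast_modEq_iff).1 h1
  exact (Nat.ModEq.eq_of_lt_of_lt h2 hq hp).symm

/-- The property of the explicit systems. -/
private def Cj (f a b : ℕ) (ε e1 e2 : ℤ) (v : OO n t) : Prop :=
  (f : OO n t) ∣ v - 1 ∧ ((2 ^ b : ℕ) : ℤ) ∣ v.re - ε * v.im - e1 ∧ ((2 ^ a : ℕ) : ℤ) ∣ v.im - e2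

private theorem sys (f N a b : ℕ) (hf : Odd f) (ha : a ≤ N) (hb : b ≤ N) (ε e1 e2 : ℤ) :
    ∃ T : Finset (OO n t), IsR N (Cj f a b ε e1 e2) T ∧ T.card = 2 ^ (N - b) * 2 ^ (N - a) := by
  classical
  choose g hg1 hg2 hg3 using fun p : ℕ × ℕ =>
    lift (n := n) (t := t) f N hf (e1 + (2 ^ b : ℕ) * p.1 + ε * (e2 + (2 ^ a : ℕ) * p.2))
      (e2 + (2 ^ a : ℕ) * p.2)
  have hNb : ((2 ^ N : ℕ) : ℤ) = ((2 ^ b : ℕ) : ℤ) * ((2 ^ (N - b) : ℕ) : ℤ) := by
    rw [← Nat.cast_mul, ← pow_add, Nat.add_sub_cancel' hb]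
  have hNa : ((2 ^ N : ℕ) : ℤ) = ((2 ^ a : ℕ) : ℤ) * ((2 ^ (N - a) : ℕ) : ℤ) := by
    rw [← Nat.cast_mul, ← pow_add, Nat.add_sub_cancel' ha]
  have hbN : ((2 ^ b : ℕ) : ℤ) ∣ ((2 ^ N : ℕ) : ℤ) := ⟨_, hNb⟩
  have haN : ((2 ^ a : ℕ) : ℤ) ∣ ((2 ^ N : ℕ) : ℤ) := ⟨_, hNa⟩
  have h0b : ((2 ^ b : ℕ) : ℤ) ≠ 0 := by positivity
  have h0a : ((2 ^ a : ℕ) : ℤ) ≠ 0 := by positivity
  -- the first coordinate
  have hg4 : ∀ p : ℕ × ℕ, ((2 ^ N : ℕ) : ℤ) ∣ (g p).re - ε * (g p).im - (e1 + (2 ^ b : ℕ) * p.1) := by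
    intro p
    have := dvd_sub (hg2 p) ((hg3 p).mul_left ε)
    rwa [show (g p).re - (e1 + ((2 ^ b : ℕ) : ℤ) * p.1 + ε * (e2 + ((2 ^ a : ℕ) : ℤ) * p.2)) -
      ε * ((g p).im - (e2 + ((2 ^ a : ℕ) : ℤ) * p.2)) =
      (g p).re - ε * (g p).im - (e1 + ((2 ^ b : ℕ) : ℤ) * p.1) by ring] at this
  set R : Finset (ℕ × ℕ) := (Finset.range (2 ^ (N - b))) ×ˢ (Finset.range (2 ^ (N - a))) with hR
  have inj : ∀ p ∈ R, ∀ q ∈ R, ((2 ^ N : ℕ) : OO n t) ∣ g p - g q → p = q := by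
    intro p hp q hq h
    obtain ⟨h1, h2⟩ := (dvd_co _ _ _).1 h
    rw [hR, Finset.mem_product, Finset.mem_range, Finset.mem_range] at hp hq
    have e1' : ((2 ^ N : ℕ) : ℤ) ∣ ((2 ^ b : ℕ) : ℤ) * ((p.1 : ℤ) - q.1) := by
      have := dvd_sub (dvd_add (dvd_sub h1 (h2.mul_left ε)) (hg4 q)) (hg4 p)
      rwa [show (g p).re - (g q).re - ε * ((g p).im - (g q).im) +
        ((g q).re - ε * (g q).im - (e1 + ((2 ^ b : ℕ) : ℤ) * q.1)) -
        ((g p).re - ε * (g p).im - (e1 + ((2 ^ b : ℕ) : ℤ) * p.1)) =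
        ((2 ^ b : ℕ) : ℤ) * ((p.1 : ℤ) - q.1) by ring] at this
    have e2' : ((2 ^ N : ℕ) : ℤ) ∣ ((2 ^ a : ℕ) : ℤ) * ((p.2 : ℤ) - q.2) := by
      have := dvd_sub (dvd_add h2 (hg3 q)) (hg3 p)
      rwa [show (g p).im - (g q).im + ((g q).im - (e2 + ((2 ^ a : ℕ) : ℤ) * q.2)) -
        ((g p).im - (e2 + ((2 ^ a : ℕ) : ℤ) * p.2)) = ((2 ^ a : ℕ) : ℤ) * ((p.2 : ℤ) - q.2) by ring]
        at this
    rw [hNb] at e1'
    rw [hNa] at e2'
    exact Prod.ext (eq_of _ _ _ hp.1 hq.1 ((mul_dvd_mul_iff_left h0b).1 e1'))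
      (eq_of _ _ _ hp.2 hq.2 ((mul_dvd_mul_iff_left h0a).1 e2'))
  refine ⟨R.image g, ⟨?_, ?_, ?_⟩, ?_⟩
  · intro h hh
    obtain ⟨p, hp, rfl⟩ := Finset.mem_image.1 hh
    refine ⟨hg1 p, ?_, ?_⟩
    · have := dvd_add (hbN.trans (hg4 p))
        (Dvd.intro (p.1 : ℤ) rfl : ((2 ^ b : ℕ) : ℤ) ∣ ((2 ^ b : ℕ) : ℤ) * p.1)
      rwa [show (g p).re - ε * (g p).im - (e1 + ((2 ^ b : ℕ) : ℤ) * p.1) + ((2 ^ b : ℕ) : ℤ) * p.1 =
        (g p).re - ε * (g p).im - e1 by ring] at this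
    · have := dvd_add (haN.trans (hg3 p))
        (Dvd.intro (p.2 : ℤ) rfl : ((2 ^ a : ℕ) : ℤ) ∣ ((2 ^ a : ℕ) : ℤ) * p.2)
      rwa [show (g p).im - (e2 + ((2 ^ a : ℕ) : ℤ) * p.2) + ((2 ^ a : ℕ) : ℤ) * p.2 =
        (g p).im - e2 by ring] at this
  · rintro v ⟨-, ⟨X, hX⟩, ⟨Y, hY⟩⟩
    set K : ℕ := 2 ^ (N - b) with hK
    set L : ℕ := 2 ^ (N - a) with hL
    have hK0 : (0 : ℤ) < K := by positivity
    have hL0 : (0 : ℤ) < L := by positivity
    have m1 : ((X % K).toNat : ℤ) = X % K := Int.toNat_of_nonneg (Int.emod_nonneg _ hK0.ne')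
    have m2 : ((Y % L).toNat : ℤ) = Y % L := Int.toNat_of_nonneg (Int.emod_nonneg _ hL0.ne')
    have l1 := Int.emod_lt_of_pos X hK0
    have l2 := Int.emod_lt_of_pos Y hL0
    refine ⟨g ((X % K).toNat, (Y % L).toNat), Finset.mem_image_of_mem g ?_, ?_⟩
    · rw [hR, Finset.mem_product, Finset.mem_range, Finset.mem_range]
      constructor
      · show (X % K).toNat < K
        omega
      · show (Y % L).toNat < L
        omega
    · rw [dvd_co]
      have a1 := hg4 ((X % K).toNat, (Y % L).toNat)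
      have a2 := hg3 ((X % K).toNat, (Y % L).toNat)
      simp only [m1, m2] at a1 a2
      have b1 : ((2 ^ N : ℕ) : ℤ) ∣ v.re - ε * v.im - (e1 + ((2 ^ b : ℕ) : ℤ) * (X % K)) := by
        rw [show v.re - ε * v.im - (e1 + ((2 ^ b : ℕ) : ℤ) * (X % K)) =
          ((2 ^ b : ℕ) : ℤ) * (X - X % K) by linear_combination hX, hNb]
        exact mul_dvd_mul_left _ (Int.dvd_self_sub_emod)
      have b2 : ((2 ^ N : ℕ) : ℤ) ∣ v.im - (e2 + ((2 ^ a : ℕ) : ℤ) * (Y % L)) := by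
        rw [show v.im - (e2 + ((2 ^ a : ℕ) : ℤ) * (Y % L)) = ((2 ^ a : ℕ) : ℤ) * (Y - Y % L) by
          linear_combination hY, hNa]
        exact mul_dvd_mul_left _ (Int.dvd_self_sub_emod)
      have c2 := dvd_sub b2 a2
      rw [sub_sub_sub_cancel_right] at c2
      refine ⟨?_, c2⟩
      have c1 := dvd_sub b1 a1
      rw [sub_sub_sub_cancel_right] at c1
      have := dvd_add c1 (c2.mul_left ε)
      rwa [show ∀ x y z w : ℤ, x - ε * y - (z - ε * w) + ε * (y - w) = x - z from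
        fun x y z w => by ring] at this
  · intro h hh h' hh' hd
    obtain ⟨p, hp, rfl⟩ := Finset.mem_image.1 hh
    obtain ⟨q, hq, rfl⟩ := Finset.mem_image.1 hh'
    rw [inj p hp q hq hd]
  · rw [Finset.card_image_of_injOn, hR, Finset.card_product, Finset.card_range, Finset.card_range]
    intro p hp q hq h
    refine inj p hp q hq ?_
    rw [h, sub_self]
    exact dvd_zero _

private theorem isr_congr {N : ℕ} {C C' : OO n t → Prop} {T : Finset (OO n t)} (h : IsR N C T)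
    (hc : ∀ v, C v ↔ C' v) : IsR N C' T :=
  ⟨fun v hv => (hc v).1 (h.mem v hv), fun v hv => h.ex v ((hc v).2 hv), h.uni⟩

/-! ## `pp`-adic levels -/

private theorem ppe [Rmf n t] (h4 : S_O4) (i : ℕ) : pp n t ^ (2 * i) = sp ((2 ^ i : ℕ) : OO n t) := by
  rw [pow_mul, pow_two, (h4 n t).2.2.2.1, Ideal.span_singleton_pow]
  push_cast
  rfl

private theorem mem_even [Rmf n t] (h4 : S_O4) (v : OO n t) (i : ℕ) :
    v ∈ pp n t ^ (2 * i) ↔ ((2 ^ i : ℕ) : OO n t) ∣ v := by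
  rw [ppe h4, Ideal.mem_span_singleton]

private theorem mem_one [Rmf n t] (h4 : S_O4) (v : OO n t) :
    v ∈ pp n t ↔ (2 : ℤ) ∣ v.re - ((n % 2 : ℕ) : ℤ) * v.im := by
  have h1 := (h4 n t).2.2.2.2.2.2.2.2.1 v
  have h2 := (h4 n t).2.2.2.2.2.2.2.2.2.1
  rw [h1, h2, h2]
  have e1 : (v - pO n t).re = v.re - ((n % 2 : ℕ) : ℤ) := rfl
  have e2 : (v - pO n t).im = v.im - 1 := rfl
  rw [e1, e2]
  rcases Nat.mod_two_eq_zero_or_one n with h | h
  · rw [h]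
    push_cast
    omega
  · rw [h]
    push_cast
    omega

private theorem mem_odd [Rmf n t] (h4 : S_O4) (v : OO n t) (i : ℕ) :
    v ∈ pp n t ^ (2 * i + 1) ↔ ((2 ^ i : ℕ) : ℤ) ∣ v.im ∧
      ((2 ^ (i + 1) : ℕ) : ℤ) ∣ v.re - ((n % 2 : ℕ) : ℤ) * v.im := by
  rw [pow_succ, ppe h4, Ideal.mem_span_singleton_mul]
  constructor
  · rintro ⟨z, hz, rfl⟩
    obtain ⟨c, hc⟩ := (mem_one h4 z).1 hz
    rw [re_mul, im_mul, re_nat, im_nat]
    refine ⟨⟨z.im, by ring⟩, ⟨c, ?_⟩⟩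
    push_cast at hc ⊢
    linear_combination (2 ^ i : ℤ) * hc
  · rintro ⟨⟨Y, hY⟩, ⟨c, hc⟩⟩
    refine ⟨⟨2 * c + ((n % 2 : ℕ) : ℤ) * Y, Y⟩, ?_, ?_⟩
    · rw [mem_one h4]
      exact ⟨c, by ring⟩
    · generalize ((n % 2 : ℕ) : ℤ) = ε at hc ⊢
      apply ext'
      · rw [re_mul, re_nat, im_nat]
        push_cast at hc hY ⊢
        linear_combination -hc - ε * hY
      · rw [im_mul, re_nat, im_nat]
        push_cast at hY ⊢
        linear_combination -hY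

private theorem memj [Rmf n t] (h4 : S_O4) (v : OO n t) (j : ℕ) :
    v ∈ pp n t ^ j ↔ ((2 ^ ((j + 1) / 2) : ℕ) : ℤ) ∣ v.re - ((n % 2 : ℕ) : ℤ) * v.im ∧
      ((2 ^ (j / 2) : ℕ) : ℤ) ∣ v.im := by
  obtain ⟨i, rfl | rfl⟩ := Nat.even_or_odd' j
  · rw [show (2 * i + 1) / 2 = i by omega, show 2 * i / 2 = i by omega, mem_even h4, nat_dvd_iff]
    constructor
    · rintro ⟨h1, h2⟩
      exact ⟨dvd_sub h1 (h2.mul_left _), h2⟩
    · rintro ⟨h1, h2⟩
      have := dvd_add h1 (h2.mul_left ((n % 2 : ℕ) : ℤ))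
      rw [sub_add_cancel] at this
      exact ⟨this, h2⟩
  · rw [show (2 * i + 1 + 1) / 2 = i + 1 by omega, show (2 * i + 1) / 2 = i by omega, mem_odd h4]
    exact and_comm

private theorem cop_iff [Rmf n t] (h4 : S_O4) (v : OO n t) :
    Cop v 2 ↔ (2 : ℤ) ∣ v.re - ((n % 2 : ℕ) : ℤ) * v.im - 1 := by
  rw [(h4 n t).2.2.2.2.2.2.1 v, mem_one h4]
  omega

theorem tRep : S_Rep := by
  classical
  intro h4 n t _ N hN
  refine ⟨fun C => exS N C, fun C T T' h h' => le_antisymm (card_le h h') (card_le h' h),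
    fun v i => mem_even h4 v i, ?_, ?_⟩
  · intro v u j hu
    constructor
    · intro h
      obtain ⟨x, y, hxy⟩ := (hu.pow_right : IsCoprime (Nm u) (((2 : ℕ) : ℤ) ^ j))
      have h2 : (2 : OO n t) ^ j ∈ pp n t ^ j :=
        Ideal.pow_mem_pow (Ideal.subset_span (Set.mem_insert _ _)) j
      have e : v = ((x : OO n t) * cjO u) * (u * v) + ((y : OO n t) * v) * 2 ^ j := by
        have e1 := mul_cjO u
        have e2 : ((x : OO n t) * ((Nm u : ℤ) : OO n t) + (y : OO n t) * 2 ^ j) = 1 := by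
          have := congrArg (fun z : ℤ => (z : OO n t)) hxy
          simpa using this
        linear_combination (-(v : OO n t)) * e2 - (x : OO n t) * v * e1
      rw [e]
      exact add_mem (Ideal.mul_mem_left _ _ h) (Ideal.mul_mem_left _ _ h2)
    · intro h
      exact Ideal.mul_mem_left _ _ h
  · intro f hf T hT
    set ε : ℤ := ((n % 2 : ℕ) : ℤ) with hε
    refine ⟨?_, ?_, ?_⟩
    · obtain ⟨T0, h0, h1⟩ := sys (n := n) (t := t) f N 0 1 hf (Nat.zero_le _) hN ε 1 0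
      have h2 : IsR N (Un f) T0 := by
        refine isr_congr h0 (fun v => ?_)
        unfold Cj Un
        rw [cop_iff h4 v]
        simp [hε]
      rw [le_antisymm (card_le hT h2) (card_le h2 hT), h1, ← pow_add]
      congr 1
      omega
    · intro h hh h' hh'
      rw [memj h4, QuadraticAlgebra.re_sub, QuadraticAlgebra.im_sub]
      have a1 := (cop_iff h4 h).1 (hT.mem h hh).2
      have a2 := (cop_iff h4 h').1 (hT.mem h' hh').2
      refine ⟨?_, by simp⟩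
      have := dvd_sub a1 a2
      rw [show h.re - ((n % 2 : ℕ) : ℤ) * h.im - 1 - (h'.re - ((n % 2 : ℕ) : ℤ) * h'.im - 1) =
        h.re - h'.re - ((n % 2 : ℕ) : ℤ) * (h.im - h'.im) by ring] at this
      exact this
    · intro h0 hh0 j hj1 hj2
      obtain ⟨T0, hT0, h1⟩ := sys (n := n) (t := t) f N (j / 2) ((j + 1) / 2) hf (by omega) (by omega)
        ε (h0.re - ε * h0.im) h0.im
      have hlev : ∀ v : OO n t, v - h0 ∈ pp n t ^ j ↔
          ((2 ^ ((j + 1) / 2) : ℕ) : ℤ) ∣ v.re - ε * v.im - (h0.re - ε * h0.im) ∧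
          ((2 ^ (j / 2) : ℕ) : ℤ) ∣ v.im - h0.im := by
        intro v
        rw [memj h4, QuadraticAlgebra.re_sub, QuadraticAlgebra.im_sub, ← hε,
          show v.re - h0.re - ε * (v.im - h0.im) = v.re - ε * v.im - (h0.re - ε * h0.im) by ring]
      have hU0 := hT.mem h0 hh0
      have hun : ∀ v : OO n t, (f : OO n t) ∣ v - 1 → v - h0 ∈ pp n t ^ j → Un f v := by
        intro v hv hv2
        refine ⟨hv, ?_⟩
        have a1 := (cop_iff h4 h0).1 hU0.2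
        have a2 := ((hlev v).1 hv2).1
        rw [cop_iff h4]
        have h2 : (2 : ℤ) ∣ ((2 ^ ((j + 1) / 2) : ℕ) : ℤ) := by
          obtain ⟨m, hm⟩ : ∃ m, (j + 1) / 2 = m + 1 := ⟨(j + 1) / 2 - 1, by omega⟩
          rw [hm]
          exact ⟨((2 ^ m : ℕ) : ℤ), by push_cast; ring⟩
        have := dvd_add (h2.trans a2) a1
        rwa [show v.re - ε * v.im - (h0.re - ε * h0.im) + (h0.re - ((n % 2 : ℕ) : ℤ) * h0.im - 1) =
          v.re - ((n % 2 : ℕ) : ℤ) * v.im - 1 by rw [← hε]; ring] at this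
      have h2N : ((2 ^ N : ℕ) : OO n t) ∈ pp n t ^ j := by
        refine Ideal.pow_le_pow_right hj2 ?_
        rw [mem_even h4]
      have h2 : IsR N (Cj f (j / 2) ((j + 1) / 2) ε (h0.re - ε * h0.im) h0.im)
          (T.filter (fun h => h - h0 ∈ pp n t ^ j)) := by
        refine ⟨?_, ?_, ?_⟩
        · intro v hv
          obtain ⟨hv1, hv2⟩ := Finset.mem_filter.1 hv
          exact ⟨(hT.mem v hv1).1, (hlev v).1 hv2⟩
        · rintro v ⟨hv1, hv2⟩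
          have hv3 := (hlev v).2 hv2
          obtain ⟨w, hw, hw2⟩ := hT.ex v (hun v hv1 hv3)
          refine ⟨w, Finset.mem_filter.2 ⟨hw, ?_⟩, hw2⟩
          obtain ⟨c, hc⟩ := hw2
          have h3 : v - w ∈ pp n t ^ j := by
            rw [hc]
            exact Ideal.mul_mem_right _ _ h2N
          have := sub_mem hv3 h3
          rwa [sub_sub_sub_cancel_left] at this
        · intro a ha b hb h
          exact hT.uni a (Finset.mem_filter.1 ha).1 b (Finset.mem_filter.1 hb).1 h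
      rw [le_antisymm (card_le h2 hT0) (card_le hT0 h2), h1, ← pow_add]
      congr 1
      omega

end Pool.Agent.DR.GL
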