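import Pool.Agent.Lib.DR.GL.SpecB
import Pool.Agent.Lib.DI.G.L.X0

/-!
# Theorem DR, part GL, module `ResA`: the square root and the semilinear action (helper20)
-/

set_option autoImplicit false

open scoped Pointwise

noncomputable section

namespace Pool.Agent.DR.GL

open Pool.Agent.MuZ Pool.Agent.FW Pool.Agent.DN
open Pool.Agent.DI (io ofC io_inj exists_io io_ofC ofC_io VP MP UP TP ex sqr sqr_sq kap)
open Pool.Agent.DI.GL (Fx StP xx mem_of_Fx Fx.mul Fx.inv Fx.one)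
open Pool.Agent.DN.GL (EE pH IsR)
open Pool.Agent.DL (vl GE Pl Fi Fp Cn Cf dl Gen Dr LD)

variable {n t : ℕ}

/-- The valuation of `xx ζ`, `ζ` of order `2 ^ (k + 2)`. -/
private theorem vxx {P : Ideal ZZ} (hP : Ab2 P) :
    ∀ (k : ℕ) (ζ : Om), IsPrimitiveRoot ζ (2 ^ (k + 2)) →
      xx ζ ≠ 0 ∧ VP P (xx ζ) ∧ vl P 2 (xx ζ) = 1 / 2 ^ k := by
  have hPp : P.IsPrime := hP.1.1
  have h2 : Pl P 2 := pl2 hP
  intro k
  induction k with
  | zero =>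
    intro ζ hζ
    obtain ⟨h3, h4, -, h5, -⟩ := DI.GL.tX0 P hPp hP.2 2 le_rfl ζ (by simpa using hζ)
    refine ⟨h3, h4.vp, ?_⟩
    rw [h5 rfl]
    have h6 := DL.vl_two (P := P) h2
    rw [Nat.cast_ofNat] at h6
    rw [h6]
    norm_num
  | succ k ih =>
    intro ζ hζ
    have hζ2 : IsPrimitiveRoot (ζ ^ 2) (2 ^ (k + 2)) := hζ.pow (by positivity) (by ring)
    obtain ⟨i1, -, i3⟩ := ih (ζ ^ 2) hζ2
    obtain ⟨h3, h4, -, -, -⟩ := DI.GL.tX0 P hPp hP.2 (k + 1 + 2) (by omega) ζ hζ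
    obtain ⟨-, -, -, -, h5⟩ := DI.GL.tX0 P hPp hP.2 (k + 2) (by omega) (ζ ^ 2) hζ2
    have h6 := DL.vl_of_up h2 (h5 ζ rfl).2
    rw [DL.vl_div h2 (pow_ne_zero 2 h3) i1, DL.vl_pow h2 h3, i3] at h6
    refine ⟨h3, h4.vp, ?_⟩
    push_cast at h6
    rw [pow_succ]
    field_simp
    field_simp at h6
    linarith

private theorem xx_mem {L : IntermediateField ℚ Om} {LN : ℕ → IntermediateField ℚ Om}
    {P : Ideal ZZ} (hS : DL.SitR L LN P) {N : ℕ} (hN : 1 ≤ N) {ζ : Om}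
    (hζ : IsPrimitiveRoot ζ (2 ^ N)) : xx ζ ∈ LN N := by
  refine mem_of_Fx fun τ hτ => ?_
  have h2 := ((hS.lnx N ζ hN hζ τ).1 hτ).2
  unfold DI.GL.xx
  rw [map_add, map_add, map_inv₀, map_ofNat]
  rcases h2 with h | h
  · rw [h]
  · rw [h, inv_inv]
    ring

theorem tResA : S_ResA := by
  intro cn der ldr fix rt rsq e9 hd pi sur gen mnf sitr n t _ P hP f N z0 d hPt hN SH hSH τ hτ hτζ r
    hr w hw hkap y hLD
  have hPp : P.IsPrime := hP.1.1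
  have h2 : Pl P 2 := pl2 hP
  have hodd := hPt.odd
  have h15 := hPt.f15
  have hsit := sitr n t P hP f hodd h15
  obtain ⟨S, hS, hG0, hq0, hq⟩ := gen0 gen hP hPt.toPt
  have hW : VP P (vO (⊤ : Ideal (OO n t)) (z0 + d)) := by
    have h3 := ((pi n t P hP f N z0 d hPt.toPt).1 1 (un_one (n := n) (t := t) f).2).2.2.2.2.2
    rw [toC_one, one_mul] at h3
    exact h3.1
  obtain ⟨hm1, -, hd0, hd1⟩ := genH gen hP hPt.toPt (fun h hh => hn_un (f := f) (N := N) h hh)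
    (hn_one f N) hSH
  -- FACT F
  have factF : ∀ x ∈ Mn n t f N, VP P x → Fp (II n t P) (pH z0 d (1 : OO n t)) x ∧
      ∃ x' : Om, Dn n t P N z0 d x x' ∧ GE P 2 (dv n t P z0 d SH) x' := by
    intro x hx hxV
    have hE : x ∈ EE n t (f * 2 ^ N) := (mnf n t P hP f hodd h15).2.1 N (by omega) hx
    have hFp := (gen n t P hP f N z0 d hPt.toPt).2.2.1 f hodd (dvd_refl f) x hE
    obtain ⟨x', hx'⟩ := (der P 2 2 _ S _ hG0 _ _ hq0 hq hW).2.2.2.2.2.2.2.1 x hFp hxV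
    refine ⟨hFp, x', hx', ?_⟩
    exact fix P 2 2 _ S _ hG0 _ (dv n t P z0 d SH) _ SH hW hm1 hd0 hd1 le_rfl _ _ hx'
      (fun r hr => by
        obtain ⟨h, hh, rfl⟩ := (hSH r).1 hr
        obtain ⟨σ, hσ⟩ := sur n t P hP f N hodd h15 (by omega) h hh.1 hh.2.1
        exact ⟨σ, hσ.mem, ((gen n t P hP f N z0 d hPt.toPt).2.2.2.2 f hodd (dvd_refl f) σ h hσ).1,
          (mnf n t P hP f hodd h15).2.2.2 f N h σ (by omega) hodd (dvd_refl f) hσ hh _ hx⟩)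
  -- the root of unity
  have hne : NeZero (2 ^ N) := ⟨(pow_pos (by norm_num) N).ne'⟩
  have hne' : NeZero ((2 ^ N : ℕ) : Om) := ⟨by
    rw [Nat.cast_ne_zero]
    exact hne.out⟩
  obtain ⟨ζ, hζ⟩ := HasEnoughRootsOfUnity.exists_primitiveRoot Om (2 ^ N)
  obtain ⟨k, rfl⟩ : ∃ k, N = k + 2 := ⟨N - 2, by omega⟩
  obtain ⟨hx0, hxV, hxv⟩ := vxx hP k ζ hζ
  have hxL : xx ζ ∈ Mn n t f (k + 2) := xx_mem hsit (by omega) hζ
  have hτx : τ (xx ζ) = xx ζ := by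
    unfold DI.GL.xx
    rw [map_add, map_add, map_inv₀, map_ofNat, hτζ ζ hζ.pow_eq_one, inv_inv]
    ring
  obtain ⟨e, b, he, hb, -, hroot⟩ := rsq _ _ P hsit (k + 2) (by omega) ζ hζ w hw hLD.1 hkap
  have he2 : e * e = 1 := by
    rcases he with h | h <;> rw [h] <;> ring
  have hτe : τ e = e := by
    rcases he with h | h
    · rw [h, map_one]
    · rw [h, map_neg, map_one]
  have heL : e ∈ Mn n t f (k + 2) := by
    rcases he with h | h
    · rw [h]; exact one_mem _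
    · rw [h]; exact neg_mem (one_mem _)
  obtain ⟨r0, hr0L, hr0V, s0, hs0V, hs0⟩ := hroot (k + 2)
  have h2n : (2 : Om) ^ (k + 2) ≠ 0 := pow_ne_zero _ two_ne_zero
  have h2L : (2 : Om) ^ (k + 2) ∈ Mn n t f (k + 2) := pow_mem (ofNat_mem _ 2) _
  have hst : ∀ x ∈ Mn n t f (k + 2), τ x ∈ Mn n t f (k + 2) :=
    fun x hx => (e9 n t f hodd h15).2.1 (k + 2) τ (by omega) x hx
  set v := xx ζ ^ b with hv
  have hv0 : v ≠ 0 := pow_ne_zero _ hx0
  have hvL : v ∈ Mn n t f (k + 2) := pow_mem hxL b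
  have hvV : VP P v := DI.VP.pow hxV b
  have hτv : τ v = v := by rw [hv, map_pow, hτx]
  have hs0L : s0 ∈ Mn n t f (k + 2) := by
    have e1 : s0 = (w * (e * v) - r0 ^ 2) / 2 ^ (k + 2) := by
      rw [hs0, mul_div_cancel_left₀ _ h2n]
    rw [e1]
    exact div_mem (sub_mem (mul_mem hw (mul_mem heL hvL)) (pow_mem hr0L 2)) h2L
  have hτs0 : τ w * (e * v) - τ r0 ^ 2 = 2 ^ (k + 2) * τ s0 := by
    have h3 := congrArg τ hs0
    rw [map_sub, map_mul τ w, map_mul τ e, map_mul, map_pow τ r0, map_pow τ 2, map_ofNat, hτe, hτv] at h3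
    exact h3
  set s := r0 ^ 2 * τ s0 + τ r0 ^ 2 * s0 + 2 ^ (k + 2) * (s0 * τ s0) with hs
  have h2V : VP P (2 : Om) := by exact_mod_cast DI.VP.nat (P := P) 2
  have hτr0V : VP P (τ r0) := DI.VP.inertia_vp hτ hr0V
  have hτs0V : VP P (τ s0) := DI.VP.inertia_vp hτ hs0V
  have hsV : VP P s := (((hr0V.pow 2).mul hτs0V).add ((hτr0V.pow 2).mul hs0V)).add
    ((h2V.pow _).mul (hs0V.mul hτs0V))
  have hsL : s ∈ Mn n t f (k + 2) :=
    add_mem (add_mem (mul_mem (pow_mem hr0L 2) (hst _ hs0L))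
      (mul_mem (pow_mem (hst _ hr0L) 2) hs0L)) (mul_mem h2L (mul_mem hs0L (hst _ hs0L)))
  have hmain : w * τ w * (v * v) = (r0 * τ r0) ^ 2 + ((2 : ℕ) : Om) ^ (k + 2) * s := by
    rw [Nat.cast_ofNat, hs]
    linear_combination (τ w * (e * v)) * hs0 + (r0 ^ 2 + 2 ^ (k + 2) * s0) * hτs0
      - (w * τ w * v * v) * he2
  have hcV : VP P (v * v) := hvV.mul hvV
  have hc0 : v * v ≠ 0 := mul_ne_zero hv0 hv0
  obtain ⟨hFps, -⟩ := factF s hsL hsV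
  obtain ⟨-, yu, hyu, hGyu⟩ := factF (r0 * τ r0) (mul_mem hr0L (hst _ hr0L)) (hr0V.mul hτr0V)
  obtain ⟨-, v', hv', hGv'⟩ := factF v hvL hvV
  have hyc : Dn n t P (k + 2 : ℕ) z0 d (v * v) (v * v' + v * v') :=
    ((der P 2 2 _ S _ hG0 _ _ hq0 hq hW).2.2.2.2.1 v v' v v' hv' hv').2.2
  have hLD2 := (ldr P 2 2 _ S _ hG0 _ _ hq0 hq hW).2.1 _ _ _ _ hLD (hr w y hLD)
  -- numbers
  obtain ⟨SH2, hSH2⟩ := genE gen hP hPt.toPt (fun h hh => hs_un (f := f) (N := k + 2) h hh)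
    (hs_one f (k + 2))
  have hD9 := (hd n t P hP f (k + 2) z0 d hPt.toPt hN SH SH2 hSH hSH2).1
  have hk : (1 : ℚ) / 2 ^ k ≤ 1 / 4 := by
    refine one_div_le_one_div_of_le (by norm_num) ?_
    have h3 : (2 : ℚ) ^ 2 ≤ 2 ^ k := pow_le_pow_right₀ (by norm_num) (by omega)
    linarith
  have hk0 : (0 : ℚ) < 1 / 2 ^ k := by positivity
  have hvv : vl P 2 v = b * (1 / 2 ^ k) := by rw [hv, DL.vl_pow h2 hx0, hxv]
  have hb1 : (b : ℚ) ≤ 1 := by
    rcases hb with h | h <;> rw [h] <;> norm_num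
  have hb0 : (0 : ℚ) ≤ b := Nat.cast_nonneg b
  have hvv1 : vl P 2 v ≤ 1 / 2 ^ k := by
    rw [hvv]
    nlinarith
  have hvv0 : 0 ≤ vl P 2 v := by
    rw [hvv]
    positivity
  have hvc : vl P 2 (v * v) = 2 * vl P 2 v := by
    rw [DL.vl_mul h2 hv0 hv0]
    ring
  have h4 : (4 : ℚ) / 2 ^ (k + 2) = 1 / 2 ^ k := by
    rw [pow_add]
    field_simp
    norm_num
  have hN' : (12 : ℚ) ≤ ((k + 2 : ℕ) : ℚ) := by exact_mod_cast hN
  have hrt := rt P 2 2 _ S _ hG0 _ _ hq0 hq hW Nat.prime_two (w * τ w) (y + r * τ y) (v * v)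
    (v * v' + v * v') (r0 * τ r0) yu s (dv n t P z0 d SH) (k + 2) hLD2 hc0 hcV hyc hyu hFps hsV
    hGyu hmain (by rw [hvc]; linarith)
  rw [h4]
  have hge1 : GE P 2 (1 + dv n t P z0 d SH - 1 / 2 ^ k)
      (y + r * τ y + (v * v' + v * v') / (v * v)) := by
    refine hrt.mono (le_min ?_ (le_min ?_ ?_))
    · rw [hvc]
      push_cast
      linarith
    · rw [hvc]
      linarith
    · rw [hvc]
      linarith
  have hge2 : GE P 2 (1 + dv n t P z0 d SH - 1 / 2 ^ k) ((v * v' + v * v') / (v * v)) := by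
    have e1 : (v * v' + v * v') / (v * v) = (((2 : ℕ) : Om) * v') / v := by
      rw [Nat.cast_ofNat]
      field_simp
      ring
    rw [e1]
    have h5 : GE P 2 1 (((2 : ℕ) : Om)) := Or.inr (DL.vl_two h2).ge
    refine ((h5.mul h2 hGv').div h2 hv0).mono ?_
    linarith
  have h6 := hge1.sub h2 hge2
  rwa [add_sub_cancel_right] at h6

end Pool.Agent.DR.GL
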