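import Pool.Agent.Lib.DR.GL.SpecB

/-!
# Theorem DR, part GL, module ResB: the square root, `n = 6` modulo `8`
-/

set_option autoImplicit false

open scoped Pointwise

noncomputable section

namespace Pool.Agent.DR.GL

open Pool.Agent.MuZ Pool.Agent.FW Pool.Agent.DN
open Pool.Agent.DI (io ofC io_inj exists_io io_ofC ofC_io VP MP UP TP ex sqr sqr_sq kap)
open Pool.Agent.DI.GL (Fx StP xx mem_of_Fx Fx.mul Fx.inv Fx.one)
open Pool.Agent.DN.GL (EE pH IsR)
open Pool.Agent.DL (vl GE Pl Fi Fp Cn Cf dl Gen Dr LD)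

theorem tResB : S_ResB := by
  intro hCn hDer hFix hRt hRSq hHD hPi hSur hGen hMnf hSitR hHev n t _ P hP h6 f N z0 d hp hN SH hSH
    w hw hkap y hLD
  have := hP.1.1
  have hpos : 0 < 2 ^ N := pow_pos (by norm_num) N
  have hne : NeZero (2 ^ N) := ⟨hpos.ne'⟩
  have hne' : NeZero ((2 ^ N : ℕ) : Om) := ⟨by
    rw [Nat.cast_ne_zero]
    exact hne.out⟩
  obtain ⟨ζ, hζ⟩ := HasEnoughRootsOfUnity.exists_primitiveRoot Om (2 ^ N)
  have hf := hp.odd
  have hf15 := hp.f15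
  have hN1 : 1 ≤ N := hp.pos
  have hp' : Pt n t f N z0 d := hp.toPt
  have hS := hSitR n t P hP f hf hf15
  obtain ⟨e, b, he, hb, hb1, h⟩ := hRSq (Mf n t f) (Mn n t f) P hS N (by omega) ζ hζ w hw hLD.1 hkap
  have hb0 : b = 0 := by
    rcases hb with hb | hb
    · exact hb
    · obtain ⟨ρ, hρ, hρU⟩ := hb1 hb
      exact absurd hρU (hHev n t P hP h6 f hf hf15 N (by omega) ζ hζ ρ hρ)
  subst hb0
  obtain ⟨r, hr, hrV, s, hsV, hs⟩ := h N
  rw [pow_zero, mul_one] at hs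
  have h2N : ((2 : Om) ^ N) ≠ 0 := pow_ne_zero _ two_ne_zero
  have heM : e ∈ Mn n t f N := by
    rcases he with rfl | rfl
    · exact one_mem _
    · exact neg_mem (one_mem _)
  have hsM : s ∈ Mn n t f N := by
    have e1 : s = (w * e - r ^ 2) / 2 ^ N := by
      rw [hs]
      field_simp
    rw [e1]
    exact div_mem (sub_mem (mul_mem hw heM) (pow_mem hr 2)) (pow_mem (natCast_mem _ 2) N)
  obtain ⟨hMle, -, hM4⟩ := (hMnf n t P hP f hf hf15).2
  have hG := hGen n t P hP f N z0 d hp'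
  have hFp : ∀ x ∈ Mn n t f N, Fp (II n t P) (pH z0 d (1 : OO n t)) x := fun x hx =>
    hG.2.2.1 f hf (dvd_refl f) x (hMle N hN1 hx)
  obtain ⟨S, hSO, hGen', hq0, hq⟩ := gen0 hGen hP hp'
  have hWV : VP P (vO (⊤ : Ideal (OO n t)) (z0 + d)) := by
    have h1 := ((hPi n t P hP f N z0 d hp').1 1 (un_one f).2).2.2.2.2.2.1
    rwa [toC_one, one_mul] at h1
  obtain ⟨hπ, hdl, hdv0, hdvN⟩ := genH hGen hP hp' (hn_un (f := f) (N := N)) (hn_one f N) hSH
  obtain ⟨-, -, -, hD4, -, -, -, hD8, -⟩ := hDer P 2 2 (II n t P) S _ hGen' _ _ hq0 hq hWV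
  obtain ⟨yu, hyu⟩ := hD8 r (hFp r hr) hrV
  have hyG : GE P 2 (dv n t P z0 d SH) yu := by
    refine hFix P 2 2 (II n t P) S _ hGen' _ _ _ SH hWV hπ hdv0 hdvN le_rfl r yu hyu ?_
    intro r' hr'
    obtain ⟨h', hh', e1⟩ := (hSH r').1 hr'
    obtain ⟨σ, hσ⟩ := hSur n t P hP f N hf hf15 hN1 h' hh'.1 hh'.2.1
    refine ⟨σ, hσ.mem, ?_, hM4 f N h' σ hN1 hf (dvd_refl f) hσ hh' r hr⟩
    rw [(hG.2.2.2.2 f hf (dvd_refl f) σ h' hσ).1, e1]
  have heU : UP P e := by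
    rcases he with rfl | rfl
    · exact DI.UP.one
    · exact DI.UP.neg DI.UP.one
  have he0 : e ≠ 0 := DI.UP.ne_zero heU
  have heC : Cn P (II n t P) e := by
    refine ⟨heU.1, fun σ _ => ?_⟩
    rcases he with rfl | rfl
    · exact map_one σ
    · rw [map_neg, map_one]
  have hvl : vl P 2 e = 0 := DL.vl_of_up (pl2 hP) heU
  have hkey := hRt P 2 2 (II n t P) S _ hGen' _ _ hq0 hq hWV Nat.prime_two w y e 0 r yu s
    (dv n t P z0 d SH) N hLD he0 heU.1 (hD4 e heC) hyu (hFp s hsM) hsV hyG (by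
      push_cast
      linear_combination hs) (by
      rw [hvl]
      exact_mod_cast hN1)
  rw [zero_div, add_zero, hvl] at hkey
  obtain ⟨SH2, hSH2⟩ := genE hGen hP hp' (hs_un (f := f) (N := N)) (hs_one f N)
  have h9 : dv n t P z0 d SH ≤ 9 := (hHD n t P hP f N z0 d hp' hN SH SH2 hSH hSH2).1
  have h12 : (12 : ℚ) ≤ N := by exact_mod_cast hN
  refine hkey.mono (le_min ?_ (le_min ?_ ?_))
  · push_cast
    linarith
  · linarith
  · linarith

end Pool.Agent.DR.GL
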