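import Pool.Agent.Lib.DR.GL.SpecB

/-!
# Theorem DR, part GL, module SitR: the abstract tower applies
-/

set_option autoImplicit false

open scoped Pointwise

noncomputable section

namespace Pool.Agent.DR.GL

open Pool.Agent.MuZ Pool.Agent.FW Pool.Agent.DN
open Pool.Agent.DI (io ofC io_inj exists_io io_ofC ofC_io VP MP UP TP ex sqr sqr_sq kap)
open Pool.Agent.DI.GL (Fx StP xx mem_of_Fx Fx.mul Fx.inv Fx.one)
open Pool.Agent.DN.GL (EE pH IsR)
open Pool.Agent.DL (vl GE Pl Fi Fp Cn Cf dl Gen Dr LD)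

variable {n t : ℕ}

private theorem SitR_pwm {z : Om} {M a b : ℕ} (hz : z ^ M = 1) (h : a ≡ b [MOD M]) :
    z ^ a = z ^ b := by
  have h1 : a ≡ b [MOD orderOf z] := h.of_dvd (orderOf_dvd_of_pow_eq_one hz)
  rw [← pow_mod_orderOf z a, ← pow_mod_orderOf z b]
  exact congrArg _ h1

/-- Square roots modulo powers of two. -/
private theorem SitR_sq (u : ℕ) (hu : u % 8 = 1) (j : ℕ) : ∃ s : ℤ, (2 : ℤ) ^ (j + 3) ∣ s ^ 2 - u := by
  induction j with
  | zero =>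
    refine ⟨1, ?_⟩
    norm_num
    omega
  | succ j ih =>
    obtain ⟨s, c, hc⟩ := ih
    have hodd : Odd (s ^ 2) := by
      have e : s ^ 2 = u + 2 * (4 * 2 ^ j * c) := by
        rw [pow_add] at hc
        linear_combination hc
      obtain ⟨v, hv⟩ : ∃ v : ℤ, (u : ℤ) = 2 * v + 1 := ⟨(u : ℤ) / 2, by omega⟩
      exact ⟨v + 4 * 2 ^ j * c, by rw [e, hv]; ring⟩
    obtain ⟨e, he⟩ : Odd s := by
      rcases Int.even_or_odd s with h | h
      · exact absurd (h.pow_of_ne_zero two_ne_zero) (Int.not_even_iff_odd.2 hodd)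
      · exact h
    rcases Int.even_or_odd c with ⟨d, hd⟩ | ⟨d, hd⟩
    · refine ⟨s, d, ?_⟩
      rw [hc, hd]
      ring
    · refine ⟨s + 2 ^ (j + 2), d + e + 1 + 2 ^ j, ?_⟩
      have e1 : (s + 2 ^ (j + 2)) ^ 2 - (u : ℤ) = (s ^ 2 - u) + 2 ^ (j + 3) * s +
          2 ^ (j + 3) * 2 ^ (j + 1) := by
        ring
      rw [e1, hc, hd, he]
      ring

/-- Lifting modulo `f` and `2 ^ N`. -/
private theorem SitR_lift {f : ℕ} (N : ℕ) (hf : Odd f) (u : ℤ) :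
    ∃ u' : ℤ, (2 : ℤ) ^ N ∣ u' - u ∧ (f : ℤ) ∣ u' - 1 := by
  have hcop : Nat.Coprime f (2 ^ N) := Nat.Coprime.pow_right N (Nat.coprime_two_right.2 hf)
  obtain ⟨x, y, h⟩ := Nat.isCoprime_iff_coprime.2 hcop
  push_cast at h
  refine ⟨x * f * u + y * 2 ^ N, ?_, ?_⟩
  · exact ⟨y * (1 - u), by linear_combination u * h⟩
  · exact ⟨x * (u - 1), by linear_combination h⟩

theorem tSitR : S_SitR := by
  intro hE9 hGM hAct hSur hMnf n t _ P hP f hf h15
  obtain ⟨-, -, -, -, hE, -, -⟩ := hE9 n t f hf h15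
  obtain ⟨-, -, -, -, -, -, -, hG⟩ := hGM n t f hf h15
  obtain ⟨-, -, hM, -⟩ := hMnf n t P hP f hf h15
  refine ⟨hP.1.1, hP.2, ?_, ?_, ?_⟩
  · intro m u hu
    obtain ⟨s0, hs0⟩ := SitR_sq u hu m
    obtain ⟨s, hs1, hs2⟩ := SitR_lift (m + 3) hf s0
    have hs : (2 : ℤ) ^ (m + 3) ∣ s ^ 2 - u := by
      have e : s ^ 2 - (u : ℤ) = (s - s0) * (s + s0) + (s0 ^ 2 - u) := by ring
      rw [e]
      exact dvd_add (hs1.mul_right _) hs0
    have hone : (f : OO n t) ∣ (s : OO n t) - 1 := by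
      obtain ⟨c, hc⟩ := hs2
      exact ⟨c, by exact_mod_cast congrArg (fun x : ℤ => (x : OO n t)) hc⟩
    have hcop : Cop (s : OO n t) 2 := by
      unfold Cop
      rw [Nm_int]
      have h2 : (2 : ℤ) ∣ s ^ 2 - u := dvd_trans (dvd_pow_self 2 (by omega)) hs
      obtain ⟨c, hc⟩ := h2
      obtain ⟨v, hv⟩ : ∃ v : ℤ, (u : ℤ) = 2 * v + 1 := ⟨(u : ℤ) / 2, by omega⟩
      refine ⟨1, -(c + v), ?_⟩
      push_cast
      linear_combination hc + hv
    obtain ⟨ι, hι⟩ := hSur n t P hP f (m + 3) hf h15 (by omega) (s : OO n t) hone hcop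
    refine ⟨ι, hι.mem.1, hE P hP ι hι.mem.1 hι.mem.2, fun z hz => ?_⟩
    have hz' : z ^ 2 ^ (m + 3) = 1 := by
      rw [pow_add 2 m 3, pow_mul, hz, one_pow]
    have htop : G15 (⊤ : Ideal (OO n t)) := by
      refine ⟨top_ne_bot, ?_⟩
      unfold PrI
      rw [top_sup_eq]
    obtain ⟨-, -, -, -, -, h6, -⟩ := hAct n t P hP f (m + 3) _ ι hf h15 hι ⊤ htop
    rw [h6 z hz']
    refine SitR_pwm hz' ?_
    rw [Nat.modEq_iff_dvd, Nm_int, Int.toNat_of_nonneg (sq_nonneg s)]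
    push_cast
    rw [← neg_sub]
    exact (dvd_neg).2 hs
  · intro τ hτ x hx
    exact hτ x (hM hx)
  · intro N ζ hN hζ τ
    exact hG N ζ hN hζ τ

end Pool.Agent.DR.GL
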