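import Pool.Agent.Lib.DR.GL.Spec

/-!
# Theorem DR, part GL, module `Sur`: total ramification
-/

set_option autoImplicit false

open scoped Pointwise

noncomputable section

namespace Pool.Agent.DR.GL

open Pool.Agent.MuZ Pool.Agent.FW Pool.Agent.DN
open Pool.Agent.DI (io ofC io_inj exists_io io_ofC ofC_io VP MP UP TP ex)
open Pool.Agent.DN.GL (EE pH IsR)
open Pool.Agent.DL (vl GE Pl Fi Fp Cn Cf dl Gen Dr LD)

/-- `1/M` is not a lattice point for `M ≥ 2` -/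
private theorem Sur_one_div {n t : ℕ} [SqN n t] {M : ℕ} (hM : 2 ≤ M) :
    (1 : ℂ) / M ∉ Lam (⊤ : Ideal (OO n t)) := by
  intro h
  obtain ⟨v, hv⟩ := lam_top.1 h
  have hM0 : (M : ℂ) ≠ 0 := Nat.cast_ne_zero.2 (by omega)
  have h1 : ((M : ℕ) : OO n t) * v = 1 := by
    apply toC_inj
    rw [toC_mul, toC_nat, toC_one, ← hv]
    field_simp
  have h2 := (nat_dvd_iff M (1 : OO n t)).1 ⟨v, h1.symm⟩
  rw [re_one] at h2
  have h3 := Int.le_of_dvd one_pos h2.1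
  omega

private theorem Sur_pt {n t : ℕ} [Rmf n t] {f N : ℕ} (hf : Odd f) (h15 : 15 ∣ f) (hN : 1 ≤ N) :
    Pt n t f N (1 / f) (1 / (2 ^ N : ℕ)) where
  odd := hf
  f15 := h15
  pos := hN
  z := one_div_lam _ hf.pos
  zn := Sur_one_div (by have := Nat.le_of_dvd hf.pos h15; omega)
  dd := by
    have h := one_div_lam (⊤ : Ideal (OO n t)) (N := 2 ^ N) (by positivity)
    push_cast at h ⊢
    exact h
  dn := by
    have e : (2 : ℂ) ^ (N - 1) * (1 / ((2 ^ N : ℕ) : ℂ)) = 1 / 2 := by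
      obtain ⟨j, rfl⟩ := Nat.exists_eq_add_of_le' hN
      rw [Nat.add_sub_cancel]
      push_cast
      rw [pow_succ]
      field_simp
    rw [e]
    intro h
    obtain ⟨v, hv⟩ := lam_top.1 h
    have h1 : pO n t = ((2 : ℕ) : OO n t) * v := by
      apply toC_inj
      rw [toC_mul, toC_nat, ← hv]
      push_cast
      ring
    have h2 := ((nat_dvd_iff 2 (pO n t)).1 ⟨v, h1⟩).2
    have h3 : (pO n t).im = 1 := rfl
    rw [h3] at h2
    have h4 := Int.le_of_dvd one_pos h2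
    norm_num at h4

theorem tSur : S_Sur := by
  classical
  intro _ In Rep Pi n t _ P hP f N hf h15 hN h hh1 hh2
  have : P.IsPrime := hP.1.1
  have hPl : Pl P 2 := ⟨two_ne_zero, by exact_mod_cast hP.2⟩
  obtain ⟨hI1, -, hI3, hI4, -, -, -, hI8⟩ := In n t P hP f N hf h15
  obtain ⟨hR1, -, hR3, hR4, hR5⟩ := Rep n t N hN
  obtain ⟨T, hT⟩ := hR1 (Un f)
  have hTc := (hR5 f hf T hT).1
  have hpt : Pt n t f N (1 / f) (1 / (2 ^ N : ℕ)) := Sur_pt hf h15 hN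
  obtain ⟨z0, hz0⟩ : ∃ z0 : ℂ, z0 = 1 / f := ⟨_, rfl⟩
  obtain ⟨d, hd⟩ : ∃ d : ℂ, d = 1 / (2 ^ N : ℕ) := ⟨_, rfl⟩
  rw [← hz0, ← hd] at hpt
  obtain ⟨hP1, -, -, -, hP5, -, hP7⟩ := Pi n t P hP f N z0 d hpt
  obtain ⟨T', hT'⟩ : ∃ T' : Finset (OO n t), T' = T.filter (fun g => ∃ σ, Cls P f N g σ) := ⟨_, rfl⟩
  have hmem : ∀ g, g ∈ T' ↔ g ∈ T ∧ ∃ σ, Cls P f N g σ := by
    intro g
    rw [hT', Finset.mem_filter]
  have hsub : T' ⊆ T := fun g hg => ((hmem g).1 hg).1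
  have hcop : ∀ g ∈ T', Cop g 2 := fun g hg => (hT.mem g (hsub hg)).2
  -- representatives
  have hrep : ∀ (g : OO n t) (σ : Gal(Om/ℚ)), Cls P f N g σ →
      ∃ g' ∈ T', ((2 ^ N : ℕ) : OO n t) ∣ g - g' := by
    intro g σ hg
    obtain ⟨g', hg', hgg⟩ := hT.ex g ⟨hg.one, hg.cop⟩
    obtain ⟨h1, h2⟩ := hT.mem g' hg'
    refine ⟨g', (hmem g').2 ⟨hg', σ, hI3 σ g g' hg h1 ?_ h2⟩, hgg⟩
    rw [← neg_sub]
    exact hgg.neg_right
  -- `T'` is not empty
  have hne : 0 < T'.card := by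
    obtain ⟨g, hg⟩ := hI1 1 (Subgroup.one_mem _)
    obtain ⟨g', hg', -⟩ := hrep g 1 hg
    exact Finset.card_pos.2 ⟨g', hg'⟩
  -- the product is fixed
  have hy0 : ∏ g ∈ T', pH z0 d g ≠ 0 := Finset.prod_ne_zero_iff.2 fun g hg => (hP1 g (hcop g hg)).2.1
  have hfix : Fi (II n t P) (∏ g ∈ T', pH z0 d g) := by
    intro σ hσ
    obtain ⟨h0, hh0⟩ := hI1 σ hσ
    have hr : ∀ g ∈ T', ∃ g' ∈ T', ((2 ^ N : ℕ) : OO n t) ∣ h0 * g - g' := by
      intro g hg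
      obtain ⟨-, σ', hσ'⟩ := (hmem g).1 hg
      exact hrep (h0 * g) (σ * σ') (hI4 σ σ' h0 g hh0 hσ')
    choose! r hrT hrd using hr
    have hinj : ∀ g ∈ T', ∀ g' ∈ T', r g = r g' → g = g' := by
      intro g hg g' hg' he
      refine hT.uni g (hsub hg) g' (hsub hg') ?_
      have h1 : ((2 ^ N : ℕ) : OO n t) ∣ h0 * (g - g') := by
        have h2 := dvd_sub (hrd g hg) (hrd g' hg')
        rw [he] at h2
        have e : h0 * g - r g' - (h0 * g' - r g') = h0 * (g - g') := by ring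
        rwa [e] at h2
      rw [← hR3] at h1 ⊢
      exact (hR4 _ _ _ hh0.cop).1 h1
    have him : T'.image r = T' := by
      refine Finset.eq_of_subset_of_card_le (Finset.image_subset_iff.2 hrT) ?_
      rw [Finset.card_image_of_injOn fun g hg g' hg' he => hinj g hg g' hg' he]
    rw [map_prod]
    calc ∏ g ∈ T', σ (pH z0 d g) = ∏ g ∈ T', pH z0 d (r g) := by
          refine Finset.prod_congr rfl fun g hg => ?_
          rw [hP7 f h0 g σ hf dvd_rfl hh0]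
          exact hP5 _ _ (hrd g hg)
      _ = ∏ g ∈ T'.image r, pH z0 d g := (Finset.prod_image fun g hg g' hg' he => hinj g hg g' hg' he).symm
      _ = ∏ g ∈ T', pH z0 d g := by rw [him]
  -- the valuation
  obtain ⟨j, hj⟩ := hI8 _ hfix hy0
  rw [Pool.Agent.DL.vl_prod hPl T' _ fun g hg => (hP1 g (hcop g hg)).2.1,
    Finset.sum_congr rfl fun g hg => (hP1 g (hcop g hg)).2.2.1, Finset.sum_const, nsmul_eq_mul] at hj
  have h2N : (2 : ℚ) ^ (2 * N) = 2 * 2 ^ (2 * N - 1) := by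
    rw [← pow_succ']
    congr 1
    omega
  have hj1 : (T'.card : ℤ) = j * 2 ^ (2 * N - 1) := by
    have h1 : (0 : ℚ) < 2 ^ (2 * N - 1) := by positivity
    rw [h2N] at hj
    field_simp at hj
    rw [mul_comm]
    exact_mod_cast hj
  have hle : T.card ≤ T'.card := by
    rw [hTc]
    have h4 : (0 : ℤ) < 2 ^ (2 * N - 1) := by positivity
    have h5 : 0 < j := by
      by_contra h6
      have h7 : j * 2 ^ (2 * N - 1) ≤ 0 := mul_nonpos_of_nonpos_of_nonneg (not_lt.1 h6) h4.le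
      rw [← hj1] at h7
      omega
    have h6 : (2 ^ (2 * N - 1) : ℤ) ≤ T'.card := by
      rw [hj1]
      nlinarith
    exact_mod_cast h6
  have hTT : T' = T := Finset.eq_of_subset_of_card_le hsub hle
  obtain ⟨g, hg, hgg⟩ := hT.ex h ⟨hh1, hh2⟩
  rw [← hTT] at hg
  obtain ⟨-, τ, hτ⟩ := (hmem g).1 hg
  exact ⟨τ, hI3 τ g h hτ hh1 hgg hh2⟩

end Pool.Agent.DR.GL
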