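import Pool.Agent.Lib.DR.GL.SpecT

/-!
# Theorem DR, part GL, module T0a: valuations in `K` (2 ramified)
-/

set_option autoImplicit false

open scoped Pointwise

noncomputable section

namespace Pool.Agent.DR.GL

open Pool.Agent.MuZ Pool.Agent.FW Pool.Agent.DN
open Pool.Agent.DI (io ofC io_inj exists_io io_ofC ofC_io VP MP UP TP ex)
open Pool.Agent.DN.GL (EE pH IsR)
open Pool.Agent.DL (vl GE Pl Fi Fp Cn Cf dl Gen Dr LD)

variable {n t : ℕ}

private theorem T0a_odd {P : Ideal ZZ} [P.IsPrime] (h2 : MP P 2) (k : ℤ) (hk : ¬ (2 : ℤ) ∣ k) :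
    UP P (k : Om) := by
  refine ⟨DI.VP.int k, fun h => ?_⟩
  obtain ⟨m, hm⟩ : ∃ m : ℤ, k = 2 * m + 1 := ⟨k / 2, by omega⟩
  have h3 : MP P ((k : Om) - 2 * (m : Om)) := DI.MP.sub h (DI.MP.mul_right h2 (DI.VP.int m))
  have e : (k : Om) - 2 * (m : Om) = 1 := by
    rw [hm]
    push_cast
    ring
  rw [e] at h3
  exact DI.MP.one_not h3

private theorem T0a_up [SqN n t] {P : Ideal ZZ} [P.IsPrime] (h2 : MP P 2) (v : OO n t)
    (hv : ¬ (2 : ℤ) ∣ Nm v) : UP P (toO v) := by
  refine ⟨toO_VP v, fun h => (T0a_odd h2 _ hv).2 ?_⟩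
  have h3 : MP P (toO v * toO (cjO v)) := DI.MP.mul_right h (toO_VP _)
  rw [← toO_mul, mul_cjO, toO_int] at h3
  exact h3

private theorem T0a_sq [Rmf n t] (h4 : n % 4 = 1 ∨ n % 4 = 2) :
    ∃ u : OO n t, pO n t ^ 2 = 2 * u ∧ ¬ (2 : ℤ) ∣ Nm u := by
  have ht : t = 0 := Rmf.zero (n := n)
  rcases h4 with h4 | h4
  · obtain ⟨m, hm⟩ : ∃ m : ℕ, n = 4 * m + 1 := ⟨n / 4, by omega⟩
    have hz : (n : ℤ) = 4 * m + 1 := by exact_mod_cast hm
    have hp : pO n t = ⟨1, 1⟩ := by
      unfold pO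
      rw [show n % 2 = 1 by omega]
      rfl
    refine ⟨⟨-2 * m, 1⟩, ?_, ?_⟩
    · rw [hp, pow_two, two_mul]
      apply ext'
      · rw [re_mul, QuadraticAlgebra.re_add, hz]
        push_cast
        ring
      · rw [im_mul, QuadraticAlgebra.im_add, ht]
        push_cast
    · simp only [Nm, ht]
      rintro ⟨c, hc⟩
      rw [hz] at hc
      push_cast at hc
      have h5 : (2 : ℤ) * (c - 2 * m ^ 2 - 2 * m) = 1 := by linarith
      omega
  · obtain ⟨m, hm⟩ : ∃ m : ℕ, n = 4 * m + 2 := ⟨n / 4, by omega⟩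
    have hz : (n : ℤ) = 4 * m + 2 := by exact_mod_cast hm
    have hp : pO n t = ⟨0, 1⟩ := by
      unfold pO
      rw [show n % 2 = 0 by omega]
      rfl
    refine ⟨⟨-(2 * m + 1), 0⟩, ?_, ?_⟩
    · rw [hp, pow_two, two_mul]
      apply ext'
      · rw [re_mul, QuadraticAlgebra.re_add, hz]
        push_cast
        ring
      · rw [im_mul, QuadraticAlgebra.im_add, ht]
        push_cast
    · simp only [Nm, ht]
      rintro ⟨c, hc⟩
      have h5 : (2 : ℤ) * (c - 2 * m ^ 2 - 2 * m) = 1 := by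
        push_cast at hc
        linarith
      omega

theorem tT0a : S_T0a := by
  intro O4 n t _ P hP
  have hPp : P.IsPrime := hP.1.1
  obtain ⟨h4, -, -, -, -, -, -, hcop, hmem, -, hcop2, -⟩ := O4 n t
  have h2 : MP P 2 := hP.2
  have hPl : Pl P 2 := ⟨two_ne_zero, by exact_mod_cast hP.2⟩
  obtain ⟨u, hu, hun⟩ := T0a_sq (n := n) (t := t) h4
  have hU : UP P (toO u) := T0a_up h2 u hun
  have hU0 : toO u ≠ 0 := DI.UP.ne_zero hU
  have hsq : toO (pO n t) ^ 2 = 2 * toO u := by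
    rw [← toO_pow, hu, toO_mul]
    congr 1
    exact_mod_cast toO_nat (n := n) (t := t) 2
  have h20 : (2 : Om) ≠ 0 := two_ne_zero
  have hq : toO (pO n t) ^ 2 / 2 = toO u := by
    rw [hsq, mul_div_cancel_left₀ _ h20]
  have hM : MP P (toO (pO n t)) := by
    apply DI.MP.of_pow (n := 2)
    rw [hsq]
    exact DI.MP.mul_right h2 hU.1
  have hp0 : toO (pO n t) ≠ 0 := by
    intro h
    rw [h] at hsq
    exact mul_ne_zero h20 hU0 (by rw [← hsq]; ring)
  have t2 : ∀ x : OO n t, toO (2 * x) = 2 * toO x := by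
    intro x
    rw [toO_mul]
    congr 1
    exact_mod_cast toO_nat (n := n) (t := t) 2
  have h7 : ∀ v ∈ pp n t, VP P (toO v / toO (pO n t)) := by
    intro v hv
    have h5 : ∀ x : OO n t, VP P (toO (2 * x) / toO (pO n t)) := by
      intro x
      have e : toO (2 * x) / toO (pO n t) = toO x * (toO (pO n t) * (toO u)⁻¹) := by
        rw [t2]
        field_simp
        rw [hsq]
        ring
      rw [e]
      exact DI.VP.mul (toO_VP x) (DI.VP.mul (toO_VP _) (DI.UP.inv hU).1)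
    rcases (hmem v).1 hv with ⟨x, hx⟩ | ⟨x, hx⟩
    · rw [hx]
      exact h5 x
    · have e : toO v / toO (pO n t) = 1 + toO (2 * x) / toO (pO n t) := by
        have e1 : v = pO n t + 2 * x := by rw [← hx]; ring
        rw [e1, toO_add, add_div, div_self hp0]
      rw [e]
      exact DI.VP.add DI.VP.one (h5 x)
  refine ⟨by rw [hq]; exact hU, hM, hp0, ?_, ?_, ?_, h7, ?_⟩
  · have h5 : UP P (toO (pO n t) ^ 2 / ((2 : ℕ) : Om) ^ (1 : ℤ)) := by
      rw [zpow_one]
      push_cast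
      rw [hq]
      exact hU
    rw [DL.vl_eq hPl two_pos h5]
    norm_num
  · intro σ hσ
    set x : Om := σ (toO (pO n t)) / toO (pO n t) with hx
    have e1 : x ^ 2 = σ (toO u) / toO u := by
      rw [hx, div_pow, ← map_pow, hsq, map_mul, map_ofNat, mul_div_mul_left _ _ h20]
    have h5 : MP P (x ^ 2 - 1) := by
      have e : x ^ 2 - 1 = (σ (toO u) - toO u) * (toO u)⁻¹ := by
        rw [e1]
        field_simp
      rw [e]
      exact DI.MP.mul_right (DI.VP.inertia hσ hU.1) (DI.UP.inv hU).1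
    have h6 : VP P x := by
      apply DI.VP.of_pow two_pos
      have := DI.VP.add h5.vp DI.VP.one
      rwa [sub_add_cancel] at this
    apply DI.MP.of_pow (n := 2)
    have e : (x - 1) ^ 2 = (x ^ 2 - 1) - 2 * (x - 1) := by ring
    rw [e]
    exact DI.MP.sub h5 (DI.MP.mul_right h2 (DI.VP.sub h6 DI.VP.one))
  · intro v hv
    refine ⟨T0a_up h2 v ((hcop v).1 hv), ?_⟩
    rcases (hcop2 v).1 hv with ⟨x, hx⟩ | ⟨x, hx⟩
    · have e : toO v - 1 = 2 * toO x := by
        rw [← t2, ← hx, toO_sub, toO_one]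
      rw [e]
      exact DI.MP.mul_right h2 (toO_VP x)
    · have e : toO v - 1 = toO (pO n t) + 2 * toO x := by
        rw [← t2, ← hx, toO_sub, toO_add, toO_one]
        ring
      rw [e]
      exact DI.MP.add hM (DI.MP.mul_right h2 (toO_VP x))
  · intro v hv
    have e : toO v ^ 2 / 2 = (toO v / toO (pO n t)) ^ 2 * (toO (pO n t) ^ 2 / 2) := by
      field_simp
    rw [e]
    exact DI.VP.mul (DI.VP.pow (h7 v hv) 2) (by rw [hq]; exact hU.1)

end Pool.Agent.DR.GL
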