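import Pool.Agent.Lib.DR.GL.SpecT
import Pool.Agent.Lib.MuZ.Tot

/-!
# Theorem DR, part GL, module T0b: inertia outside of Gal(Om/K), conjugacy of the primes above 2
-/

set_option autoImplicit false

open scoped Pointwise

noncomputable section

namespace Pool.Agent.DR.GL

open Pool.Agent.MuZ Pool.Agent.FW Pool.Agent.DN
open Pool.Agent.DI (io ofC io_inj exists_io io_ofC ofC_io VP MP UP TP ex)
open Pool.Agent.DN.GL (EE pH IsR)
open Pool.Agent.DL (vl GE Pl Fi Fp Cn Cf dl Gen Dr LD)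

variable {n t : ℕ}

private theorem T0b_w [Rmf n t] (s : Gal(Om/ℚ)) (hs : s ∉ GK n t) : s (wO n t) = - wO n t := by
  have ht : t = 0 := Rmf.zero (n := n)
  have h1 : wO n t ^ 2 = -(n : Om) := by
    rw [wO_sq, ht]
    push_cast
    ring
  have h2 : s (wO n t) ^ 2 = wO n t ^ 2 := by
    rw [← map_pow, h1, map_neg, map_natCast]
  rcases sq_eq_sq_iff_eq_or_eq_neg.1 h2 with h | h
  · exact absurd (mem_GK_iff.2 h) hs
  · exact h

private theorem T0b_idx [Rmf n t] (s s' : Gal(Om/ℚ)) (hs : s ∉ GK n t) (hs' : s' ∉ GK n t) :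
    s * s' ∈ GK n t := by
  rw [mem_GK_iff, AlgEquiv.mul_apply, T0b_w s' hs', map_neg, T0b_w s hs, neg_neg]

private theorem T0b_inv : Algebra.IsInvariant ℤ ZZ Gal(Om/ℚ) := by
  refine ⟨fun b hb => ?_⟩
  have h1 : (b : Om) ∈ Set.range (algebraMap ℚ Om) := by
    rw [InfiniteGalois.mem_range_algebraMap_iff_fixed]
    intro f
    have := hb f
    exact congrArg Subtype.val this
  obtain ⟨q, hq⟩ := h1
  have hbi : IsIntegral ℤ (b : Om) := b.2
  rw [← hq, isIntegral_algebraMap_iff (FaithfulSMul.algebraMap_injective ℚ Om)] at hbi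
  obtain ⟨a, rfl⟩ := IsIntegrallyClosed.algebraMap_eq_of_integral hbi
  refine ⟨a, ?_⟩
  apply Subtype.ext
  rw [← hq]
  simp

private theorem T0b_conj (P P' : Ideal ZZ) (hP : Ab2 P) (hP' : Ab2 P') :
    ∃ g : Gal(Om/ℚ), P' = g • P := by
  have hPp : P.IsPrime := hP.1.1
  have hPp' : P'.IsPrime := hP'.1.1
  have h2 : ((2 : ℕ) : ZZ) ∈ P := (DI.MP.nat_iff (P := P) 2).1 (by exact_mod_cast hP.2)
  have h2' : ((2 : ℕ) : ZZ) ∈ P' := (DI.MP.nat_iff (P := P') 2).1 (by exact_mod_cast hP'.2)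
  obtain ⟨g, -, hg⟩ := tot_trans (⊤ : Subgroup Gal(Om/ℚ)) isClosed_univ P P' hPp hPp' (by
    intro x hx
    obtain ⟨a, ha⟩ := T0b_inv.1 x (fun g => hx g trivial)
    have e : (a : ZZ) = x := ha
    rw [← e, tot_int 2 Nat.prime_two P hPp h2 a, tot_int 2 Nat.prime_two P' hPp' h2' a])
  exact ⟨g, hg⟩

theorem tT0b : S_T0b := by
  intro K0 T0a n t _ P hP
  have hPp : P.IsPrime := hP.1.1
  obtain ⟨a1, a2, a3, a4, a5, a6, a7, -⟩ := T0a n t P hP
  have hPl : Pl P 2 := ⟨two_ne_zero, by exact_mod_cast hP.2⟩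
  have hex : ∃ τ ∈ P.inertia Gal(Om/ℚ), τ ∉ GK n t := by
    by_contra hcon
    push Not at hcon
    obtain ⟨j, hj⟩ := K0 P 2 hPp Nat.prime_two hPl (toO (pO n t))
      (fun τ hτ => GK_toO (hcon τ hτ) _) a3
    rw [a4] at hj
    have h1 : (1 : ℚ) = 2 * j := by linarith
    have h2 : (1 : ℤ) = 2 * j := by exact_mod_cast h1
    omega
  refine ⟨a1, a2, hex, a5, a6, a7, ?_⟩
  intro P' hP'
  obtain ⟨h, hh⟩ := T0b_conj P P' hP hP'
  have key : ∀ x : ZZ, x ∈ P' ↔ h⁻¹ • x ∈ P := by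
    intro x
    rw [hh, ← DI.smul_mem_smul_iff (P := P) h (h⁻¹ • x), smul_inv_smul]
  by_cases hG : h ∈ GK n t
  · exact ⟨h⁻¹, inv_mem hG, key⟩
  · obtain ⟨τ, hτ, hτG⟩ := hex
    refine ⟨(h * τ)⁻¹, inv_mem (T0b_idx h τ hG hτG), fun x => ?_⟩
    rw [key x, mul_inv_rev, mul_smul]
    have h3 : τ⁻¹ • (h⁻¹ • x) - h⁻¹ • x ∈ P := DI.inertia_smul (inv_mem hτ) _
    constructor
    · intro h4
      have := P.add_mem h3 h4
      rwa [sub_add_cancel] at this
    · intro h4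
      have := P.sub_mem h4 h3
      rwa [sub_sub_cancel] at this

end Pool.Agent.DR.GL
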