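import Pool.Agent.Lib.DR.GL.SpecT

/-!
# Theorem DR, part GL: the interface statement `S_T1`
-/

set_option autoImplicit false

open scoped Pointwise

noncomputable section

namespace Pool.Agent.DR.GL

open Pool.Agent.MuZ Pool.Agent.FW Pool.Agent.DN
open Pool.Agent.DI (io ofC io_inj exists_io io_ofC ofC_io VP MP UP TP ex)
open Pool.Agent.DN.GL (EE pH IsR)
open Pool.Agent.DL (vl GE Pl Fi Fp Cn Cf dl Gen Dr LD)

/-- **T1g.** -/
theorem tT1g : S_T1g := by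
  intro _ hIn hSur n t _ P hP F0 N hodd h15
  obtain ⟨i1, -, -, -, -, -⟩ := hIn n t P hP F0 N hodd h15
  refine ⟨fun σ hσ hK => ?_, fun α hα hα2 => ?_⟩
  · obtain ⟨h, hh⟩ := i1 σ (Subgroup.mem_inf.2 ⟨hσ, hK⟩)
    exact ⟨h, hh.one, hh.cop, hh.psi⟩
  · obtain ⟨τ, hτ⟩ := hSur n t P hP F0 (N + 1) hodd h15 (by omega) α hα hα2
    have h1 := (hIn n t P hP F0 (N + 1) hodd h15).2.2.2.2.2.1 τ α F0 N hτ h15 dvd_rfl (by omega)
    have h2 := Subgroup.mem_inf.1 h1.mem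
    exact ⟨τ, h2.1, h2.2, h1.psi⟩

end Pool.Agent.DR.GL
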