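import Pool.Agent.Lib.DR.GL.SpecT

/-!
# Theorem DR, part GL, module T2g: statement `S_T2` of the interface (the traces over all classes and over the
classes `1` modulo `2`)
-/

set_option autoImplicit false

open scoped Pointwise

noncomputable section

namespace Pool.Agent.DR.GL

open Pool.Agent.MuZ Pool.Agent.FW Pool.Agent.DN
open Pool.Agent.DI (io ofC io_inj exists_io io_ofC ofC_io VP MP UP TP ex)
open Pool.Agent.DN.GL (EE pH IsR)
open Pool.Agent.DL (vl GE Pl Fi Fp Cn Cf dl Gen Dr LD)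

variable {n t : ℕ}

private theorem T2g_sp_one : sp (1 : OO n t) = (⊤ : Ideal (OO n t)) := Ideal.span_singleton_one

private theorem T2g_pt [Rmf n t] {f N : ℕ} (hf : Odd f) (h15 : 15 ∣ f) (hN : 1 ≤ N) :
    Pt n t f N (1 / f) (1 / (2 ^ N : ℕ)) where
  odd := hf
  f15 := h15
  pos := hN
  z := one_div_lam _ hf.pos
  zn := by
    intro h
    have h1 := (aL6.1 n t (⊤ : Ideal (OO n t)) f top_ne_bot hf.pos (by unfold PrI; rw [top_sup_eq]) 1).1
      (by rw [toC_one]; exact h)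
    rw [nat_dvd_iff] at h1
    obtain ⟨h2, -⟩ := h1
    rw [re_one] at h2
    have h3 := Int.le_of_dvd one_pos h2
    have h4 := Nat.le_of_dvd hf.pos h15
    omega
  dd := by
    have h := one_div_lam (⊤ : Ideal (OO n t)) (N := 2 ^ N) (by positivity)
    push_cast at h ⊢
    exact h
  dn := by
    intro h
    have e : toC (pO n t) * ((2 : ℂ) ^ (N - 1) * (1 / ((2 ^ N : ℕ) : ℂ))) = toC (pO n t) / ((2 : ℕ) : ℂ) := by
      obtain ⟨j, rfl⟩ := Nat.exists_eq_add_of_le' hN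
      rw [Nat.add_sub_cancel]
      push_cast
      rw [pow_succ]
      field_simp
    rw [e] at h
    have h1 := (aL6.1 n t (⊤ : Ideal (OO n t)) 2 top_ne_bot two_pos (by unfold PrI; rw [top_sup_eq]) _).1 h
    rw [nat_dvd_iff] at h1
    obtain ⟨-, h2⟩ := h1
    have h3 : (pO n t).im = 1 := rfl
    rw [h3] at h2
    omega

private theorem T2g_isR [SqN n t] {F0 N : ℕ} {A : Finset (OO n t)} (ho : Odd F0) (hA : IsG F0 N A) :
    IsR N (Un F0) A := by
  have hcop : IsCoprime ((2 ^ N : ℕ) : OO n t) (F0 : OO n t) := by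
    have h3 : IsCoprime ((2 ^ N : ℕ) : ℤ) (F0 : ℤ) :=
      Nat.isCoprime_iff_coprime.2 (Nat.Coprime.pow_left _ (Nat.coprime_two_left.2 ho))
    obtain ⟨a, b, hab⟩ := h3
    refine ⟨(a : OO n t), (b : OO n t), ?_⟩
    have h4 := congrArg (fun z : ℤ => (z : OO n t)) hab
    push_cast at h4 ⊢
    exact h4
  refine ⟨fun h hh => hA.mem h hh, fun v hv => ?_, fun h hh h' hh' hd => ?_⟩
  · obtain ⟨α, hα, hd⟩ := hA.ex v hv.1 hv.2
    refine ⟨α, hα, dvd_trans ?_ hd⟩
    push_cast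
    exact dvd_mul_left _ _
  · refine hA.uni h hh h' hh' ?_
    have h3 : (F0 : OO n t) ∣ h - h' := by
      have e : h - h' = (h - 1) - (h' - 1) := by ring
      rw [e]
      exact dvd_sub (hA.mem h hh).1 (hA.mem h' hh').1
    have h4 := hcop.mul_dvd hd h3
    have e : ((F0 * 2 ^ N : ℕ) : OO n t) = ((2 ^ N : ℕ) : OO n t) * (F0 : OO n t) := by
      push_cast
      ring
    rw [e]
    exact h4

theorem tT2g : S_T2g := by
  classical
  intro _k0 _o4 t0a inn _rep pi gen trt trs d1 n t _ P hP F0 N A s ho h15 hN hA hs y hy hyV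
  have hPp : P.IsPrime := hP.1.1
  have h2 : Pl P 2 := ⟨two_ne_zero, by exact_mod_cast hP.2⟩
  obtain ⟨-, -, hpO0, hvlO, -⟩ := t0a n t P hP
  have hT : IsR N (Un F0) A := T2g_isR ho hA
  have hs' : ∀ h ∈ A, Cls P F0 N h (s h) := fun h hh =>
    ⟨Subgroup.mem_inf.2 ⟨(hs h hh).1, (hs h hh).2.1⟩, (hA.mem h hh).1, (hA.mem h hh).2, (hs h hh).2.2⟩
  have hy1 : ∀ σ : Gal(Om/ℚ), Cls P F0 N (1 : OO n t) σ → σ y = y := by
    intro σ hσ
    have h3 := hσ.psi
    rw [T2g_sp_one] at h3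
    have h4 := Subgroup.mem_inf.1 hσ.mem
    exact hy σ h4.1 h4.2 h3
  constructor
  · -- the trace over all classes
    have h3 := trt n t P hP F0 N ho h15 hN A s hT hs' y hy1 hyV
    have hvll : vl P 2 (toO (pO n t) ^ (2 * N - 1)) = N - 1 / 2 := by
      rw [DL.vl_pow h2 hpO0, hvlO, Nat.cast_sub (by omega)]
      push_cast
      ring
    have h4 := h3.div h2 (pow_ne_zero (2 * N - 1) hpO0)
    rw [hvll, sub_self, DL.GE.vp_iff h2] at h4
    exact h4
  · -- the trace over the classes `1` modulo `2`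
    intro A1 hA1
    have hPt : Pt n t F0 N (1 / F0) (1 / (2 ^ N : ℕ)) := T2g_pt ho h15 hN
    obtain ⟨z0, hz0⟩ : ∃ z0 : ℂ, z0 = 1 / F0 := ⟨_, rfl⟩
    obtain ⟨d, hd⟩ : ∃ d : ℂ, d = 1 / (2 ^ N : ℕ) := ⟨_, rfl⟩
    rw [← hz0, ← hd] at hPt
    obtain ⟨⟨S, hS⟩, hG, -, -, hG5⟩ := gen n t P hP F0 N z0 d hPt
    obtain ⟨hGen, -, -, -⟩ := hG S hS
    obtain ⟨-, -, -, -, hP5, -, hP7⟩ := pi n t P hP F0 N z0 d hPt
    obtain ⟨i1, i2, i3, i4, -, -, -, -⟩ := inn n t P hP F0 N ho h15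
    obtain ⟨S1, hS1, hm1, hv1⟩ := d1 n t P hP F0 N z0 d hPt
    have h11 : (F0 : OO n t) ∣ (1 : OO n t) - 1 := by rw [sub_self]; exact dvd_zero _
    have hsub : S1 ⊆ S := by
      intro r hr
      obtain ⟨h, ⟨hU, -⟩, he⟩ := (hS1 r).1 hr
      exact (hS r).2 ⟨h, hU, he⟩
    have hl0 : (2 : Om) ^ (N - 1) ≠ 0 := pow_ne_zero _ two_ne_zero
    have hsπ : ∀ i ∈ A, s i (pH z0 d (1 : OO n t)) = pH z0 d i := fun i hi =>
      (hG5 F0 ho dvd_rfl (s i) i (hs' i hi)).1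
    refine trs P 2 2 (II n t P) S (pH z0 d (1 : OO n t)) hGen S1 y (2 ^ (N - 1)) (OO n t) A1 s hsub hm1 ?_ hyV
      ?_ ?_ ?_ hl0 ?_ ?_
    · -- `Fp`
      intro σ hσ hσπ
      obtain ⟨h, hh⟩ := i1 σ hσ
      have h3 := ((hG5 F0 ho dvd_rfl σ h hh).2).1 hσπ
      refine hy1 σ (i3 σ h 1 hh h11 ?_ (cop_one 2))
      rw [← neg_sub]
      exact h3.neg_right
    · -- the elements of `A1`
      intro i hi
      obtain ⟨hiA, hi2⟩ := (hA1 i).1 hi
      refine ⟨(hs' i hiA).mem, fun r hr => ?_⟩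
      obtain ⟨h, ⟨hU, hh2⟩, he⟩ := (hS1 r).1 hr
      rw [← he, hP7 F0 i h (s i) ho dvd_rfl (hs' i hiA)]
      have e : i * h - 1 = i * (h - 1) + (i - 1) := by ring
      refine (hS1 _).2 ⟨i * h, ⟨⟨?_, cop_mul (hA.mem i hiA).2 hU.2⟩, ?_⟩, rfl⟩
      · rw [e]
        exact dvd_add (hU.1.mul_left _) (hA.mem i hiA).1
      · rw [e]
        exact dvd_add (hh2.mul_left _) hi2
    · -- surjectivity
      intro r hr
      obtain ⟨h, ⟨hU, hh2⟩, he⟩ := (hS1 r).1 hr
      obtain ⟨α, hα, hαd⟩ := hT.ex h hU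
      have h22 : (2 : OO n t) ∣ h - α := by
        refine dvd_trans ?_ hαd
        push_cast
        exact dvd_pow_self _ (by omega)
      refine ⟨α, (hA1 α).2 ⟨hα, ?_⟩, ?_⟩
      · have e : α - 1 = (h - 1) - (h - α) := by ring
        rw [e]
        exact dvd_sub hh2 h22
      · rw [hsπ α hα, ← he]
        exact (hP5 h α hαd).symm
    · -- injectivity
      intro i hi i' hi' he
      have hiA := ((hA1 i).1 hi).1
      have hiA' := ((hA1 i').1 hi').1
      have hσ : (s i')⁻¹ * s i ∈ II n t P := mul_mem (inv_mem (hs' i' hiA').mem) (hs' i hiA).mem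
      obtain ⟨g, hg⟩ := i1 _ hσ
      have hfix : ((s i')⁻¹ * s i) (pH z0 d (1 : OO n t)) = pH z0 d (1 : OO n t) := by
        rw [AlgEquiv.mul_apply, he]
        exact (s i').symm_apply_apply _
      have h3 := ((hG5 F0 ho dvd_rfl _ g hg).2).1 hfix
      have h4 := i4 _ _ _ _ (hs' i' hiA') hg
      rw [mul_inv_cancel_left] at h4
      have h5 := i2 _ _ _ (hs' i hiA) h4
      refine hT.uni i hiA i' hiA' ?_
      have e : i - i' = (i - i' * g) + i' * (g - 1) := by ring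
      rw [e]
      exact dvd_add h5 (h3.mul_left _)
    · -- constants
      intro σ _
      rw [map_pow, map_ofNat]
    · -- the value
      have h3 := DL.vl_two_pow h2 (N - 1)
      push_cast at h3
      rw [h3, hv1, Nat.cast_sub hN, Nat.cast_one]

end Pool.Agent.DR.GL
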