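import Pool.Agent.Lib.DR.GL.SpecB
import Pool.Agent.Lib.DI.G.L.Iu

/-!
# Theorem DR, part GL, module Tau: inertia elements with `ζ ↦ ζ⁻¹`
-/

set_option autoImplicit false

open scoped Pointwise

noncomputable section

namespace Pool.Agent.DR.GL

open Pool.Agent.MuZ Pool.Agent.FW Pool.Agent.DN
open Pool.Agent.DI (io ofC io_inj exists_io io_ofC ofC_io VP MP UP TP ex sqr sqr_sq kap)
open Pool.Agent.DI.GL (Fx StP xx mem_of_Fx Fx.mul Fx.inv Fx.one)
open Pool.Agent.DN.GL (EE pH IsR)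
open Pool.Agent.DL (vl GE Pl Fi Fp Cn Cf dl Gen Dr LD)

theorem tTau : S_Tau := by
  intro hO4 hIn hAct n t _ P hP h6 N hN
  have := hP.1.1
  have hpos : 0 < 2 ^ N := pow_pos (by norm_num) N
  constructor
  · have hodd : Odd (2 ^ N - 1) := by
      refine Nat.Even.sub_odd (Nat.one_le_two_pow) ?_ odd_one
      exact (even_two).pow_of_ne_zero (by omega)
    obtain ⟨ι, hι, h⟩ := DI.GL.tIu P hP.1.1 hP.2 N (2 ^ N - 1) hodd
    refine ⟨ι, hι, fun ζ hζ => ?_⟩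
    rw [h ζ hζ]
    refine eq_inv_of_mul_eq_one_left ?_
    rw [← pow_succ, Nat.sub_add_cancel Nat.one_le_two_pow, hζ]
  · intro τ hτ hinv hG
    obtain ⟨h, hc⟩ := (hIn n t P hP 15 N (by decide) (dvd_refl 15)).1 τ ⟨hτ, hG⟩
    have hne : NeZero (2 ^ N) := ⟨hpos.ne'⟩
    have hne' : NeZero ((2 ^ N : ℕ) : Om) := ⟨by
      rw [Nat.cast_ne_zero]
      exact hne.out⟩
    obtain ⟨ζ, hζ⟩ := HasEnoughRootsOfUnity.exists_primitiveRoot Om (2 ^ N)
    have hG15 : G15 (⊤ : Ideal (OO n t)) := ⟨top_ne_bot, by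
      unfold PrI
      exact top_sup_eq _⟩
    have h1 := (hAct n t P hP 15 N h τ (by decide) (dvd_refl 15) hc ⊤ hG15).2.2.2.2.2.1 ζ
      hζ.pow_eq_one
    rw [hinv ζ hζ.pow_eq_one] at h1
    have hζ0 : ζ ≠ 0 := hζ.ne_zero hpos.ne'
    have h2 : ζ ^ ((Nm h).toNat + 1) = 1 := by
      rw [pow_succ, ← h1, inv_mul_cancel₀ hζ0]
    have h3 : 2 ^ N ∣ (Nm h).toNat + 1 := (hζ.pow_eq_one_iff_dvd _).1 h2
    have h4 : 8 ∣ (Nm h).toNat + 1 := (pow_dvd_pow 2 hN).trans h3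
    have h5 : (((Nm h).toNat : ℕ) : ℤ) = Nm h := Int.toNat_of_nonneg (Nm_nonneg h)
    have h8 : (8 : ℤ) ∣ Nm h + 1 := by
      rw [← h5]
      exact_mod_cast h4
    obtain ⟨hn4, -, -, -, -, -, -, -, -, -, -, -, -, h41, h42, -⟩ := hO4 n t
    rcases hn4 with hn | hn
    · have h9 := h41 h hc.cop hn
      omega
    · rcases h42 h hc.cop hn with h9 | h9
      · omega
      · omega

end Pool.Agent.DR.GL
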