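import Pool.Agent.Lib.DR.GL.SpecB
import Pool.Agent.Lib.DN.B.All

/-!
# Theorem DR, part GL, module Tht: the logarithmic derivative of `Theta`
-/

set_option autoImplicit false

open scoped Pointwise

noncomputable section

namespace Pool.Agent.DR.GL

open Pool.Agent.MuZ Pool.Agent.FW Pool.Agent.DN
open Pool.Agent.DI (io ofC io_inj exists_io io_ofC ofC_io VP MP UP TP ex sqr sqr_sq kap)
open Pool.Agent.DI.GL (Fx StP xx mem_of_Fx Fx.mul Fx.inv Fx.one)
open Pool.Agent.DN.GL (EE pH IsR)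
open Pool.Agent.DL (vl GE Pl Fi Fp Cn Cf dl Gen Dr LD)

variable {n t : ℕ}

/-- `W(u)²` is the square of `W(u)`. -/
private theorem Tht_W2 (hR1 : S_R1) [Rmf n t] {c : Ideal (OO n t)} (hc : G15 c) {u : ℂ}
    (hu : Tor n t u) (hun : u ∉ Lam c) : W2 c u = vO c u ^ 2 := by
  obtain ⟨r1, r2, r3, -⟩ := (hR1.1 n t).1 c hc
  obtain ⟨r4, r5⟩ := r3 u hu
  apply io_inj
  unfold W2
  rw [map_add, map_mul, map_pow, map_pow, map_add, map_mul, map_pow, r1, r2, r4, r5, map_ofNat]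
  exact (((aB2 n t c hc.ne u hun).2 hc.cop).1).symm

/-- `NI m` is odd, and kills `Lam (m c) / Lam c`. -/
private theorem Tht_odd [SqN n t] {m : Ideal (OO n t)} (hm2 : PrI m 2) : Odd (NI m) :=
  Nat.coprime_two_right.1 (((aO6 n t).2.2.1 2 m two_pos).1 hm2)

private theorem Tht_NI [SqN n t] {m c : Ideal (OO n t)} {u : ℂ} (hu : u ∈ Lam (m * c)) :
    (NI m : ℂ) * u ∈ Lam c := by
  have h1 : (NI m : OO n t) ∈ m := by
    have h2 : (NI m : OO n t) ∈ sp (NI m : OO n t) := Ideal.mem_span_singleton_self _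
    rw [← ((aO3 n t).2.2.1 m).2.2] at h2
    exact Ideal.mul_le_left h2
  have h3 := lam_prod.1 hu _ h1
  rwa [toC_nat] at h3

/-- **Tht.** The logarithmic derivative of `Theta`. -/
theorem tTht : S_Tht := by
  intro hCn hDer hLDr hR1 hD2 hD9 hLev hIn hPi hGen hOdq hTrh n t _ P hP f N z0 d hpt m c h hm0
    hm2 hm15 hc hc2 hh0 hh hz
  have hPp : P.IsPrime := hP.1.1
  obtain ⟨S, -, hG, hq0, hqS⟩ := gen0 hGen hP hpt
  have hW0 : VP P (vO (⊤ : Ideal (OO n t)) (z0 + d)) := by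
    have h1 := ((hPi n t P hP f N z0 d hpt).1 1 (un_one f).2).2.2.2.2.2.1
    rwa [toC_one, one_mul] at h1
  obtain ⟨l1, l2, l3, l4, l5, l6, -⟩ := hLDr P 2 2 (II n t P) S (pH z0 d (1 : OO n t)) hG
    ((N : ℚ) - 1 / 2) (vO (⊤ : Ideal (OO n t)) (z0 + d)) hq0 hqS hW0
  obtain ⟨-, -, -, d4, d5, -⟩ := hDer P 2 2 (II n t P) S (pH z0 d (1 : OO n t)) hG
    ((N : ℚ) - 1 / 2) (vO (⊤ : Ideal (OO n t)) (z0 + d)) hq0 hqS hW0
  obtain ⟨-, -, o3, -⟩ := hCn P (II n t P) hPp hG.ine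
  obtain ⟨-, -, -, -, -, e6, -⟩ := hD2 n t P hP c hc
  obtain ⟨g1, -⟩ := aB14 n t m c hm0 hc.ne hm2
  have hf' : Odd (f * NI m) := hpt.odd.mul (Tht_odd hm2)
  have hf15 : 15 ∣ f * NI m := Dvd.dvd.mul_right hpt.f15 _
  have hzc : z0 ∉ Lam (sp h * c) := fun h1 => hz (lam_mono h1)
  have hTr := (hTrh n t P hP f N z0 d hpt c h hc hc2 hh0 hh hzc).2
  have hhz0 : toC h * z0 ∉ Lam (m * c) := by
    intro h1
    apply hz
    rw [mul_left_comm]
    exact lam_sp.2 h1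
  -- translated points
  have hpts : ∀ u ∈ Lam (m * c), ((f * NI m : ℕ) : ℂ) * (toC h * z0 + u) ∈ Lam c ∧
      toC h * z0 + u ∉ Lam c := by
    intro u hu
    constructor
    · have e : ((f * NI m : ℕ) : ℂ) * (toC h * z0 + u) =
          (NI m : ℂ) * (toC h * ((f : ℂ) * z0)) + (f : ℂ) * ((NI m : ℂ) * u) := by
        push_cast
        ring
      rw [e]
      exact lam_add (lam_nat _ (lam_mul h (lam_anti le_top hpt.z))) (lam_nat _ (Tht_NI hu))
    · intro h1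
      apply hhz0
      have h2 : toC h * z0 = toC h * z0 + u - u := by ring
      rw [h2]
      exact lam_sub (lam_mono h1) hu
  have hdd : (2 : ℂ) ^ N * (toC h * d) ∈ Lam c := by
    have e : (2 : ℂ) ^ N * (toC h * d) = toC h * ((2 : ℂ) ^ N * d) := by ring
    rw [e]
    exact lam_mul h (lam_anti le_top hpt.dd)
  have hq : ∀ u ∈ Lam (m * c), ¬ Qp P c (toC h * (z0 + d) + u) ∧ ¬ IK P c (toC h * (z0 + d) + u) ∧
      Tor n t (toC h * (z0 + d) + u) ∧ toC h * (z0 + d) + u ∉ Lam c := by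
    intro u hu
    obtain ⟨h1, h2⟩ := hpts u hu
    have h3 := hOdq n t P hP c hc (f * NI m) N (toC h * z0 + u) (toC h * d) hf' hf15 h1 h2 hdd
    have e : toC h * z0 + u + toC h * d = toC h * (z0 + d) + u := by ring
    rw [e] at h3
    exact ⟨h3.1, h3.2.1, h3.2.2.1, h3.2.2.2.1⟩
  have h0 := hq 0 (lam_zero _)
  rw [add_zero] at h0
  obtain ⟨-, hIK, hTor, hzn⟩ := h0
  have hgO := (hD9 n t P hP m c hm0 hc hm2 hm15 (toC h * (z0 + d)) hTor
    fun u hu => (hq u hu).1).2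
  -- the factors
  have hfac : ∀ u ∈ hs m c, LDn n t P N z0 d
      ((W2 c u * ((xO c (toC h * (z0 + d)) - xO c u) ^ 3)⁻¹) ^ 3)
      (((3 : ℕ) : Om) * (0 + -(((3 : ℕ) : Om) * ((toO h * rO (⊤ : Ideal (OO n t)) c *
        vO c (toC h * (z0 + d)) - 0) / (xO c (toC h * (z0 + d)) - xO c u))))) := by
    intro u hu
    obtain ⟨hu1, hu2⟩ := g1.mem u hu
    have hfu : ((f * NI m : ℕ) : ℂ) * u ∈ Lam c := by
      have e : ((f * NI m : ℕ) : ℂ) * u = (f : ℂ) * ((NI m : ℂ) * u) := by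
        push_cast
        ring
      rw [e]
      exact lam_nat _ (Tht_NI hu1)
    obtain ⟨-, i2, i3, -, -, -, i7, i8, i9⟩ := hOdq n t P hP c hc (f * NI m) N u 0 hf' hf15 hfu hu2
      (by rw [mul_zero]; exact lam_zero _)
    rw [add_zero] at i2 i3
    have hup : UP P (xO c (toC h * (z0 + d)) - xO c u) := by
      refine e6 _ u hTor i3 hIK i2 (hq u hu1).1 ?_
      have h1 := (hq (-u) (lam_neg hu1)).1
      rwa [← sub_eq_add_neg] at h1
    have hW : W2 c u = vO c u ^ 2 := Tht_W2 hR1 hc i3 hu2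
    have hWL : LDn n t P N z0 d (W2 c u) 0 := by
      refine l1 _ ?_ ?_
      · rw [hW]
        exact o3 _ 2 i8
      · rw [hW]
        exact DI.UP.pow i9 2
    have hD := (d5 _ _ _ _ hTr (d4 _ i7)).2.1
    have hL := l6 _ _ hup hD
    exact l4 _ _ 3 (l2 _ _ _ _ hWL (l3 _ _ (l4 _ _ 3 hL)))
  have hprod := l5 ℂ (hs m c) _ _ hfac
  have e : ∑ u ∈ hs m c, ((3 : ℕ) : Om) * (0 + -(((3 : ℕ) : Om) * ((toO h *
      rO (⊤ : Ideal (OO n t)) c * vO c (toC h * (z0 + d)) - 0) /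
        (xO c (toC h * (z0 + d)) - xO c u)))) =
      -9 * (toO h * rO (⊤ : Ideal (OO n t)) c * gO m c (toC h * (z0 + d))) := by
    rw [hgO, Finset.mul_sum, Finset.mul_sum]
    refine Finset.sum_congr rfl fun u _ => ?_
    push_cast
    rw [div_eq_mul_inv]
    ring
  rw [e] at hprod
  exact hprod

end Pool.Agent.DR.GL
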