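import Pool.Agent.Lib.DR.GL.SpecB
import Pool.Agent.Lib.DI.G.L.Kap

/-!
# Theorem DR, part GL: module `Tp` (transport to the conjugate primes)
-/

set_option autoImplicit false

open scoped Pointwise

noncomputable section

namespace Pool.Agent.DR.GL

open Pool.Agent.MuZ Pool.Agent.FW Pool.Agent.DN
open Pool.Agent.DI (io ofC io_inj exists_io io_ofC ofC_io VP MP UP TP ex sqr sqr_sq kap)
open Pool.Agent.DI.GL (Fx StP xx mem_of_Fx Fx.mul Fx.inv Fx.one)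
open Pool.Agent.DN.GL (EE pH IsR)
open Pool.Agent.DL (vl GE Pl Fi Fp Cn Cf dl Gen Dr LD)

variable {n t : ℕ}

private theorem Tp_ab2 (σ : Gal(Om/ℚ)) {P : Ideal ZZ} (hP : Ab2 P) : Ab2 (σ • P) := by
  have hPp : P.IsPrime := hP.1.1
  refine ⟨⟨Ideal.IsPrime.smul σ, ?_⟩, ?_⟩
  · intro h
    refine hP.1.2 ?_
    have h1 : σ⁻¹ • (σ • P) = σ⁻¹ • (⊥ : Ideal ZZ) := by rw [h]
    rw [inv_smul_smul] at h1
    rw [h1]
    refine le_bot_iff.1 fun x hx => ?_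
    rw [Ideal.mem_pointwise_smul_iff_inv_smul_mem, inv_inv, Ideal.mem_bot] at hx
    have h2 : σ⁻¹ • (σ • x) = σ⁻¹ • (0 : ZZ) := by rw [hx]
    rw [inv_smul_smul, smul_zero] at h2
    rw [h2]
    exact zero_mem _
  · have h1 := (DI.MP.smul (P := P) σ (x := 2)).2 hP.2
    rwa [map_ofNat] at h1

private theorem Tp_zmod (a b : ZMod 2) (h : a = 0 ↔ b = 0) : a = b := by
  revert a b
  decide

theorem tTp : S_Tp := by
  intro hE9 hGM hG3 hMnf n t _ f N m T hF hN hT τ hτ a ha P hP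
  have hPp : P.IsPrime := hP.1.1
  obtain ⟨-, h9n, -⟩ := hE9 n t f hF.odd hF.dvd
  obtain ⟨-, -, -, -, hMn, -⟩ := hGM n t f hF.odd hF.dvd
  obtain ⟨-, -, hM0, -⟩ := hMnf n t P hP f hF.odd hF.dvd
  refine ⟨τ⁻¹ • P, Tp_ab2 τ⁻¹ hP, fun d hd => ⟨⟨?_, ?_, ?_⟩, ?_⟩⟩
  · intro x hx
    rw [Ideal.mem_pointwise_smul_iff_inv_smul_mem, inv_inv] at hx ⊢
    have h1 := hd.stab _ hx
    rwa [smul_smul, mul_assoc, mul_inv_cancel_left, mul_smul]
  · have key : ∀ M : ℕ, 1 ≤ M → ∀ x ∈ Mn n t f M, (τ⁻¹ * d * τ) x = x := by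
      intro M hM x hx
      have h1 := hd.fix M _ (h9n M τ hM x hx)
      rw [AlgEquiv.mul_apply, AlgEquiv.mul_apply, h1, ← AlgEquiv.mul_apply, inv_mul_cancel,
        AlgEquiv.one_apply]
    intro M x hx
    rcases Nat.eq_zero_or_pos M with rfl | hM
    · exact key 1 le_rfl x ((hMn 1 le_rfl).2.1 (hM0 hx))
    · exact key M hM x hx
  · intro i hi
    have h1 := hd.four (τ i) (by rw [← map_pow, hi, map_neg, map_one])
    rw [AlgEquiv.mul_apply, AlgEquiv.mul_apply, h1, ← AlgEquiv.mul_apply, inv_mul_cancel,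
      AlgEquiv.one_apply]
  · intro c hc hc2
    obtain ⟨-, -, -, -, -, h6, -⟩ := hG3 n t f m N T hF.odd hF.dvd hF.ne hF.two hF.cop hN hT c hc hc2
    rw [← h6 τ hτ a ha]
    obtain ⟨w, hw⟩ : ∃ w : Om, w = uN f N m T c := ⟨_, rfl⟩
    rw [← hw]
    refine Tp_zmod _ _ ?_
    rw [DI.GL.tKap.1 (τ w) (τ (sqr w)) d (by rw [← map_pow, sqr_sq]),
      DI.GL.tKap.1 w (sqr w) (τ⁻¹ * d * τ) (sqr_sq w), AlgEquiv.mul_apply, AlgEquiv.mul_apply]
    constructor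
    · intro h
      rw [h, ← AlgEquiv.mul_apply, inv_mul_cancel, AlgEquiv.one_apply]
    · intro h
      have h1 := congrArg τ h
      rwa [← AlgEquiv.mul_apply, mul_inv_cancel, AlgEquiv.one_apply] at h1

end Pool.Agent.DR.GL
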