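import Pool.Agent.Lib.DR.GL.Spec

/-!
# Theorem DR, part GL, module TrN: the trace over the norm classes
-/

set_option autoImplicit false

open scoped Pointwise

noncomputable section

namespace Pool.Agent.DR.GL

open Pool.Agent.MuZ Pool.Agent.FW Pool.Agent.DN
open Pool.Agent.DI (io ofC io_inj exists_io io_ofC ofC_io VP MP UP TP ex)
open Pool.Agent.DN.GL (EE pH IsR)
open Pool.Agent.DL (vl GE Pl Fi Fp Cn Cf dl Gen Dr LD)

variable {n t : ℕ}

/-- Equal up to the sign modulo `2 ^ N`. -/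
private def TrN_E (N : ℕ) (x y : ℤ) : Prop := (2 : ℤ) ^ N ∣ x - y ∨ (2 : ℤ) ^ N ∣ x + y

private theorem TrN_E.symm {N : ℕ} {x y : ℤ} (h : TrN_E N x y) : TrN_E N y x := by
  rcases h with ⟨c, hc⟩ | ⟨c, hc⟩
  · exact Or.inl ⟨-c, by linear_combination -hc⟩
  · exact Or.inr ⟨c, by linear_combination hc⟩

private theorem TrN_E.trans {N : ℕ} {x y z : ℤ} (h : TrN_E N x y) (h' : TrN_E N y z) :
    TrN_E N x z := by
  rcases h with ⟨c, hc⟩ | ⟨c, hc⟩ <;> rcases h' with ⟨c', hc'⟩ | ⟨c', hc'⟩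
  · exact Or.inl ⟨c + c', by linear_combination hc + hc'⟩
  · exact Or.inr ⟨c + c', by linear_combination hc + hc'⟩
  · exact Or.inr ⟨c - c', by linear_combination hc - hc'⟩
  · exact Or.inl ⟨c - c', by linear_combination hc - hc'⟩

private theorem TrN_E.mul {N : ℕ} {x y : ℤ} (h : TrN_E N x y) (c : ℤ) :
    TrN_E N (c * x) (c * y) := by
  rcases h with h | h
  · exact Or.inl (by rw [← mul_sub]; exact h.mul_left c)
  · exact Or.inr (by rw [← mul_add]; exact h.mul_left c)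

private theorem TrN_nat {N : ℕ} {x : ℤ} (h : ((2 ^ N : ℕ) : ℤ) ∣ x) : (2 : ℤ) ^ N ∣ x := by
  push_cast at h
  exact h

/-- Lifting modulo `f` and `2 ^ N`. -/
private theorem TrN_lift {f : ℕ} (N : ℕ) (hf : Odd f) (u : OO n t) :
    ∃ u' : OO n t, ((2 ^ N : ℕ) : OO n t) ∣ u' - u ∧ (f : OO n t) ∣ u' - 1 := by
  have hcop : Nat.Coprime f (2 ^ N) := Nat.Coprime.pow_right N (Nat.coprime_two_right.2 hf)
  obtain ⟨x, y, h⟩ := Nat.isCoprime_iff_coprime.2 hcop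
  have h' : (x : OO n t) * (f : OO n t) + (y : OO n t) * ((2 ^ N : ℕ) : OO n t) = 1 := by
    have := congrArg (fun c : ℤ => (c : OO n t)) h
    push_cast at this ⊢
    exact this
  refine ⟨x * f * u + y * ((2 ^ N : ℕ) : OO n t), ?_, ?_⟩
  · exact ⟨y * (1 - u), by linear_combination u * h'⟩
  · exact ⟨x * (u - 1), by linear_combination h'⟩

private theorem TrN_two {N : ℕ} (hN : 1 ≤ N) {u u' : OO n t}
    (h : ((2 ^ N : ℕ) : OO n t) ∣ u' - u) (hu : Cop u 2) : Cop u' 2 := by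
  refine cop_congr (j := 2) (a := u) ?_ hu
  rw [← neg_sub]
  refine (dvd_neg).2 (dvd_trans ?_ h)
  exact_mod_cast dvd_pow_self (2 : OO n t) (by omega : N ≠ 0)

theorem tTrN : S_TrN := by
  classical
  intro hTrH hIn hRep hPi hSur hGen n t _ P hP f N z0 d hpt SH hSH f' hf' hff' A s hA1 hA2 hA3
    z hz hGE
  have hpr := hP.1.1
  have hN := hpt.pos
  have h15 : 15 ∣ f' := hpt.f15.trans hff'
  have hffO : (f : OO n t) ∣ (f' : OO n t) := by
    obtain ⟨c, hc⟩ := hff'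
    exact ⟨c, by rw [hc]; push_cast; ring⟩
  obtain ⟨-, -, hRep3, -, -⟩ := hRep n t N hN
  obtain ⟨-, -, -, -, hPi5, hPi6, hPi7⟩ := hPi n t P hP f N z0 d hpt
  obtain ⟨⟨S, hS⟩, hG2, -, -, hG5⟩ := hGen n t P hP f N z0 d hpt
  obtain ⟨hG, -, hvS, -⟩ := hG2 S hS
  obtain ⟨hIn1, -⟩ := hIn n t P hP f' N hf' h15
  -- equal values
  have heq : ∀ h h' : OO n t, Cop h 2 → Cop h' 2 → pH z0 d h = pH z0 d h' →
      ((2 ^ N : ℕ) : OO n t) ∣ h - h' := by
    intro h h' hh hh' he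
    by_contra hne
    have h1 : h - h' ∉ pp n t ^ (2 * N) := fun h2 => hne ((hRep3 _ N).1 h2)
    have hex : ∃ j : ℕ, h - h' ∉ pp n t ^ j := ⟨2 * N, h1⟩
    obtain ⟨i, hi⟩ : ∃ i, Nat.find hex = i + 1 := by
      refine Nat.exists_eq_succ_of_ne_zero fun h0 => ?_
      have h2 := Nat.find_spec hex
      rw [h0] at h2
      apply h2
      rw [pow_zero, Ideal.one_eq_top]
      trivial
    have h2 := Nat.find_spec hex
    rw [hi] at h2
    have h3 := Nat.find_min' hex h1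
    have h4 : h - h' ∈ pp n t ^ i := by
      by_contra h5
      have := Nat.find_min' hex h5
      omega
    exact (hPi6 h h' i hh hh' (by omega) h4 h2).1 he
  have hlift : ∀ u : OO n t, Cop u 2 → ∃ u' : OO n t, ((2 ^ N : ℕ) : OO n t) ∣ u' - u ∧
      (f' : OO n t) ∣ u' - 1 ∧ Cop u' 2 := by
    intro u hu
    obtain ⟨u', h1, h2⟩ := TrN_lift N hf' u
    exact ⟨u', h1, h2, TrN_two hN h1 hu⟩
  -- the hypotheses of `TrH`
  have hmem : pH z0 d (1 : OO n t) ∈ SH := by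
    refine (hSH _).2 ⟨1, ⟨?_, cop_one 2, Or.inl ?_⟩, rfl⟩
    · rw [sub_self]
      exact dvd_zero _
    · rw [Nm_one, sub_self]
      exact dvd_zero _
  have hsub : SH ⊆ S := by
    intro r hr
    obtain ⟨h, hh, hr'⟩ := (hSH r).1 hr
    exact (hS r).2 ⟨h, ⟨hh.1, hh.2.1⟩, hr'⟩
  have hFp : Fp (II n t P) (pH z0 d (1 : OO n t)) z := by
    intro σ hσ hσπ
    obtain ⟨h, hC⟩ := hIn1 σ hσ
    have h1 := ((hG5 f' hf' hff' σ h hC).2).1 hσπ
    refine hz σ h hC ⟨hC.one, hC.cop, Or.inl ?_⟩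
    have h2 := Nm_congr h1
    rw [Nm_one] at h2
    exact TrN_nat h2
  have hE : ∀ r ∈ SH, ∃ σ ∈ II n t P, σ (pH z0 d (1 : OO n t)) = r ∧ σ z = z ∧
      ∀ r' ∈ SH, σ r' ∈ SH := by
    intro r hr
    obtain ⟨h, hh, rfl⟩ := (hSH r).1 hr
    obtain ⟨h', h1, h2, h3⟩ := hlift h hh.2.1
    obtain ⟨σ, hσ⟩ := hSur n t P hP f' N hf' h15 hN h' h2 h3
    have hnm : TrN_E N (Nm h') 1 := TrN_E.trans (Or.inl (TrN_nat (Nm_congr h1))) hh.2.2
    refine ⟨σ, hσ.mem, ?_, hz σ h' hσ ⟨h2, h3, hnm⟩, ?_⟩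
    · rw [(hG5 f' hf' hff' σ h' hσ).1]
      exact hPi5 _ _ h1
    · intro r' hr'
      obtain ⟨u, hu, rfl⟩ := (hSH r').1 hr'
      rw [hPi7 f' h' u σ hf' hff' hσ]
      refine (hSH _).2 ⟨h' * u, ⟨?_, cop_mul h3 hu.2.1, ?_⟩, rfl⟩
      · have e : h' * u - 1 = (h' - 1) * u + (u - 1) := by ring
        rw [e]
        exact dvd_add ((hffO.trans h2).mul_right _) hu.1
      · rw [Nm_mul]
        have e1 : TrN_E N (Nm h' * Nm u) (Nm h' * 1) := TrN_E.mul hu.2.2 _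
        rw [mul_one] at e1
        exact e1.trans hnm
  have hcov : ∀ r ∈ S, ∃ a ∈ A, ∃ r' ∈ SH, s a r' = r := by
    intro r hr
    obtain ⟨u, hu, rfl⟩ := (hS r).1 hr
    obtain ⟨u', h1, h2, h3⟩ := hlift u hu.2
    obtain ⟨a, ha, hNu⟩ := hA2 u' h3 h2
    obtain ⟨h, hC, hNa⟩ := hA1 a ha
    have hch : Cop h (f' * 2 ^ N) := by
      have e1 : Cop h f' := by
        refine cop_congr (j := f') (a := 1) ?_ (cop_one f')
        rw [← neg_sub]
        exact (dvd_neg).2 hC.one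
      have e2 : Cop h 2 := hC.cop
      unfold Cop at e1 e2 ⊢
      push_cast
      exact e1.mul_right (e2.pow_right (n := N))
    obtain ⟨v, hv, hvd⟩ := cop_inv hch
    have hd3 : (f' : OO n t) ∣ h * v - 1 := by
      refine dvd_trans ?_ hvd
      push_cast
      exact dvd_mul_right _ _
    have hd4 : ((2 ^ N : ℕ) : OO n t) ∣ h * v - 1 := by
      refine dvd_trans ?_ hvd
      push_cast
      exact dvd_mul_left _ _
    have hv1 : (f' : OO n t) ∣ v - 1 := by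
      have e : v - 1 = (h * v - 1) - (h - 1) * v := by ring
      rw [e]
      exact dvd_sub hd3 (hC.one.mul_right v)
    have hv2 : Cop v 2 := by
      refine cop_dvd hv ?_
      refine Dvd.dvd.mul_left ?_ _
      exact dvd_pow_self 2 (by omega)
    refine ⟨a, ha, pH z0 d (v * u'), (hSH _).2 ⟨v * u', ⟨?_, cop_mul hv2 h3, ?_⟩, rfl⟩, ?_⟩
    · have e : v * u' - 1 = (v - 1) * u' + (u' - 1) := by ring
      rw [e]
      exact dvd_add ((hffO.trans hv1).mul_right _) (hffO.trans h2)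
    · rw [Nm_mul]
      have e1 : TrN_E N (Nm v * Nm u') (Nm v * a) := TrN_E.mul hNu _
      have e2 : TrN_E N (Nm v * Nm h) (Nm v * a) := TrN_E.mul (Or.inl hNa) _
      have e3 : TrN_E N (Nm v * Nm h) 1 := by
        have h5 := Nm_congr hd4
        rw [Nm_mul, Nm_one, mul_comm (Nm h)] at h5
        exact Or.inl (TrN_nat h5)
      exact (e1.trans e2.symm).trans e3
    · rw [hPi7 f' h (v * u') _ hf' hff' hC]
      apply hPi5
      have e : h * (v * u') - u = (h * v - 1) * u' + (u' - u) := by ring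
      rw [e]
      exact dvd_add (hd4.mul_right _) h1
  have huni : ∀ a ∈ A, ∀ a' ∈ A, ∀ r ∈ SH, ∀ r' ∈ SH, s a r = s a' r' → a = a' := by
    intro a ha a' ha' r hr r' hr' he
    obtain ⟨h, hC, hNa⟩ := hA1 a ha
    obtain ⟨h', hC', hNa'⟩ := hA1 a' ha'
    obtain ⟨u, hu, rfl⟩ := (hSH r).1 hr
    obtain ⟨u', hu', rfl⟩ := (hSH r').1 hr'
    rw [hPi7 f' h u _ hf' hff' hC, hPi7 f' h' u' _ hf' hff' hC'] at he
    have h1 := heq _ _ (cop_mul hC.cop hu.2.1) (cop_mul hC'.cop hu'.2.1) he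
    have h2 := Nm_congr h1
    rw [Nm_mul, Nm_mul] at h2
    apply hA3 a ha a' ha'
    have e1 : TrN_E N (Nm h * Nm u) (Nm h' * Nm u') := Or.inl (TrN_nat h2)
    have e2 : TrN_E N (Nm h * Nm u) (Nm h * 1) := TrN_E.mul hu.2.2 _
    have e3 : TrN_E N (Nm h' * Nm u') (Nm h' * 1) := TrN_E.mul hu'.2.2 _
    rw [mul_one] at e2 e3
    have e4 : TrN_E N (Nm h) (Nm h') := (e2.symm.trans e1).trans e3
    have e5 : TrN_E N (Nm h) a := Or.inl hNa
    have e6 : TrN_E N (Nm h') a' := Or.inl hNa'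
    exact (e5.symm.trans e4).trans e6
  have hl0 : ((2 : ℕ) : Om) ^ N ≠ 0 := pow_ne_zero _ hG.pl.nz
  have hlF : Fi (II n t P) (((2 : ℕ) : Om) ^ N) := by
    intro σ _
    rw [map_pow, map_natCast]
  have hvl : vl P 2 (((2 : ℕ) : Om) ^ N) = N := DL.vl_two_pow hG.pl N
  have hfin := hTrH P 2 2 (II n t P) S (pH z0 d (1 : OO n t)) hG SH z (((2 : ℕ) : Om) ^ N) ℕ A s
    hmem hsub hFp hE (fun a ha => by
      obtain ⟨h, hC, -⟩ := hA1 a ha
      exact hC.mem) hcov huni hl0 hlF (by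
      rw [hvl, hvS]
      refine DL.GE.mono hGE (le_of_eq ?_)
      ring)
  rwa [hvl] at hfin

end Pool.Agent.DR.GL
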