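import Pool.Agent.Lib.DR.GL.SpecT

/-!
# Theorem DR, part GL, module TrS: the trace over a subgroup
-/

set_option autoImplicit false

open scoped Pointwise

noncomputable section

namespace Pool.Agent.DR.GL

open Pool.Agent.MuZ Pool.Agent.FW Pool.Agent.DN
open Pool.Agent.DI (io ofC io_inj exists_io io_ofC ofC_io VP MP UP TP ex)
open Pool.Agent.DN.GL (EE pH IsR)
open Pool.Agent.DL (vl GE Pl Fi Fp Cn Cf dl Gen Dr LD)

open Classical in
private theorem dl_ne (A : Finset Om) (a : Om) : dl A a ≠ 0 := by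
  unfold dl
  exact Finset.prod_ne_zero_iff.2 fun r hr => sub_ne_zero.2 (Finset.ne_of_mem_erase hr).symm

open Classical in
private theorem dl_map (σ : Gal(Om/ℚ)) (A : Finset Om) (hA : ∀ r ∈ A, σ r ∈ A) (a : Om) :
    σ (dl A a) = dl A (σ a) := by
  unfold dl
  rw [map_prod]
  have h1 : A.image σ = A := by
    refine Finset.eq_of_subset_of_card_le (Finset.image_subset_iff.2 hA) ?_
    rw [Finset.card_image_of_injective _ σ.injective]
  have h2 : (A.erase a).image σ = A.erase (σ a) := by
    rw [Finset.image_erase σ.injective, h1]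
  rw [← h2, Finset.prod_image fun x _ y _ h => σ.injective h]
  simp only [map_sub]

/-- **TrS.** -/
theorem tTrS : S_TrS := by
  classical
  intro pol cn mono P p e I S π hG SH y l ι T s hSH hπ hy hVy hs hsS hinj hl0 hlI hle
  have hP : P.IsPrime := hG.prime
  have h2 : Pl P p := hG.pl
  -- integrality
  have hVπ : VP P π := by
    rw [← DL.vl_nonneg h2 hG.ne, hG.vpi]
    positivity
  have hVS : ∀ r ∈ S, VP P r := by
    intro r hr
    obtain ⟨σ, hσI, rfl⟩ := hG.tra r hr
    exact DI.VP.inertia_vp (hG.ine σ hσI) hVπ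
  have hδ0 : dl SH π ≠ 0 := dl_ne SH π
  set u : Om := y * (dl SH π / l) with hu
  have hVu : VP P u := by
    refine DI.VP.mul hVy ?_
    rw [← DL.GE.vp_iff h2]
    have h3 : GE P p (vl P p (dl SH π)) (dl SH π) := Or.inr le_rfl
    have h4 := h3.div h2 hl0
    exact h4.mono (by linarith)
  have hFu : Fp I π u := by
    intro σ hσI hσπ
    rw [hu, map_mul, map_div₀, hy σ hσI hσπ, hlI σ hσI,
      dl_map σ SH (fun r hr => by rw [hG.ab σ hσI hσπ r (hSH hr)]; exact hr), hσπ]
  obtain ⟨F, hF, hFπ⟩ := mono P p e I S π hG u hFu hVu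
  have hcn := (cn P I hP hG.ine).2.2.2.2.2.2.2.2.1
  have hsy : ∀ i ∈ T, s i y = l * (F.eval (s i π) / dl SH (s i π)) := by
    intro i hi
    obtain ⟨h3, h4⟩ := hs i hi
    have e1 : y = u * l / dl SH π := by
      rw [hu]
      field_simp
    have e2 : s i u = F.eval (s i π) := by
      rw [← hFπ, hcn F hF π (s i) h3]
    rw [e1, map_div₀, map_mul, e2, hlI _ h3, dl_map (s i) SH h4]
    ring
  have hsum : (∑ i ∈ T, s i y) / l = ∑ a ∈ SH, F.eval a / dl SH a := by
    rw [Finset.sum_congr rfl hsy, ← Finset.mul_sum, mul_comm, mul_div_assoc, div_self hl0, mul_one]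
    refine Finset.sum_bij (fun i _ => s i π) ?_ ?_ ?_ ?_
    · intro i hi
      exact (hs i hi).2 π hπ
    · intro i hi i' hi' hii
      exact hinj i hi i' hi' hii
    · intro r hr
      obtain ⟨i, hi, hir⟩ := hsS r hr
      exact ⟨i, hi, hir⟩
    · intro i _
      rfl
  rw [hsum]
  exact (pol P hP SH F (fun r hr => hVS r (hSH hr)) (fun i => (hF i).1)).2.1

end Pool.Agent.DR.GL
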