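import Pool.Agent.Lib.DR.GL.Spec

/-!
# Theorem DR, part GL, module TrT: the trace over all classes
-/

set_option autoImplicit false

open scoped Pointwise

noncomputable section

namespace Pool.Agent.DR.GL

open Pool.Agent.MuZ Pool.Agent.FW Pool.Agent.DN
open Pool.Agent.DI (io ofC io_inj exists_io io_ofC ofC_io VP MP UP TP ex)
open Pool.Agent.DN.GL (EE pH IsR)
open Pool.Agent.DL (vl GE Pl Fi Fp Cn Cf dl Gen Dr LD)

variable {n t : ℕ}

private theorem pt_one [Rmf n t] {f N : ℕ} (hf : Odd f) (h15 : 15 ∣ f) (hN : 1 ≤ N) :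
    Pt n t f N (1 / f) (1 / (2 ^ N : ℕ)) where
  odd := hf
  f15 := h15
  pos := hN
  z := one_div_lam _ hf.pos
  zn := by
    intro h
    have h1 := (aL6.1 n t (⊤ : Ideal (OO n t)) f top_ne_bot hf.pos (by unfold PrI; rw [top_sup_eq]) 1).1
      (by rw [toC_one]; exact h)
    rw [nat_dvd_iff] at h1
    obtain ⟨h2, -⟩ := h1
    rw [re_one] at h2
    have h3 := Int.le_of_dvd one_pos h2
    have h4 := Nat.le_of_dvd hf.pos h15
    omega
  dd := by
    have h := one_div_lam (⊤ : Ideal (OO n t)) (N := 2 ^ N) (by positivity)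
    push_cast at h ⊢
    exact h
  dn := by
    intro h
    have e : toC (pO n t) * ((2 : ℂ) ^ (N - 1) * (1 / ((2 ^ N : ℕ) : ℂ))) = toC (pO n t) / ((2 : ℕ) : ℂ) := by
      obtain ⟨j, rfl⟩ := Nat.exists_eq_add_of_le' hN
      rw [Nat.add_sub_cancel]
      push_cast
      rw [pow_succ]
      field_simp
    rw [e] at h
    have h1 := (aL6.1 n t (⊤ : Ideal (OO n t)) 2 top_ne_bot two_pos (by unfold PrI; rw [top_sup_eq]) _).1 h
    rw [nat_dvd_iff] at h1
    obtain ⟨-, h2⟩ := h1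
    have h3 : (pO n t).im = 1 := rfl
    rw [h3] at h2
    omega

private theorem up_toO [Rmf n t] {P : Ideal ZZ} [P.IsPrime] (h2 : MP P 2) {h : OO n t}
    (hh : Cop h 2) : UP P (toO h) := by
  refine ⟨toO_VP h, fun hM => ?_⟩
  obtain ⟨a, b, hab⟩ := hh
  have h3 : MP P ((Nm h : ℤ) : Om) := by
    rw [← toO_int (n := n) (t := t), ← mul_cjO, toO_mul]
    exact DI.MP.mul_right hM (toO_VP _)
  have h4 : MP P ((a : Om) * ((Nm h : ℤ) : Om) + (b : Om) * 2) :=
    DI.MP.add (DI.MP.mul_left (DI.VP.int a) h3) (DI.MP.mul_left (DI.VP.int b) h2)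
  have e : (a : Om) * ((Nm h : ℤ) : Om) + (b : Om) * 2 = 1 := by
    have h5 := congrArg (fun z : ℤ => (z : Om)) hab
    push_cast at h5
    exact h5
  rw [e] at h4
  exact DI.MP.one_not h4

private theorem pO_sq [Rmf n t] (O4 : S_O4) : ∃ v : OO n t, Cop v 2 ∧ pO n t * pO n t = 2 * v := by
  obtain ⟨h4, -, -, -, -, -, -, hc, -⟩ := O4 n t
  have ht : t = 0 := Rmf.zero (n := n)
  rcases h4 with h | h
  · -- `n = 1` modulo `4`
    have hr : n % 2 = 1 := by omega
    obtain ⟨m, hm⟩ : ∃ m : ℤ, (1 : ℤ) - n = 2 * (2 * m) := ⟨(1 - n) / 4, by omega⟩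
    refine ⟨⟨2 * m, 1⟩, (hc _).2 ?_, ?_⟩
    · have e : Nm (⟨2 * m, 1⟩ : OO n t) = 2 * (2 * m ^ 2) + n := by
        simp only [Nm, ht]
        push_cast
        ring
      rw [e]
      omega
    · have e2 : (2 : OO n t) = ((2 : ℕ) : OO n t) := by norm_num
      rw [e2]
      apply QuadraticAlgebra.ext
      · rw [re_mul, re_mul, re_nat, im_nat]
        simp only [pO, hr]
        push_cast
        linarith
      · rw [im_mul, im_mul, re_nat, im_nat]
        simp only [pO, hr, ht]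
        push_cast
        ring
  · -- `n = 2` modulo `4`
    have hr : n % 2 = 0 := by omega
    obtain ⟨m, hm⟩ : ∃ m : ℤ, (n : ℤ) = 2 * (2 * m + 1) := ⟨(n - 2) / 4, by omega⟩
    refine ⟨⟨-(2 * m + 1), 0⟩, (hc _).2 ?_, ?_⟩
    · have e : Nm (⟨-(2 * m + 1), 0⟩ : OO n t) = 2 * (2 * m ^ 2 + 2 * m) + 1 := by
        simp only [Nm, ht]
        push_cast
        ring
      rw [e]
      omega
    · have e2 : (2 : OO n t) = ((2 : ℕ) : OO n t) := by norm_num
      rw [e2]
      apply QuadraticAlgebra.ext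
      · rw [re_mul, re_mul, re_nat, im_nat]
        simp only [pO, hr]
        push_cast
        linarith
      · rw [im_mul, im_mul, re_nat, im_nat]
        simp only [pO, hr, ht]
        push_cast
        ring

private theorem pO_ne [Rmf n t] : toO (pO n t) ≠ 0 := by
  refine toO_ne fun h => ?_
  have h1 : (pO n t).im = (0 : OO n t).im := by rw [h]
  rw [QuadraticAlgebra.im_zero] at h1
  exact one_ne_zero h1

private theorem vl_pO [Rmf n t] (O4 : S_O4) {P : Ideal ZZ} [P.IsPrime] (h2 : Pl P 2) :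
    vl P 2 (toO (pO n t)) = 1 / 2 := by
  obtain ⟨v, hv, he⟩ := pO_sq (n := n) (t := t) O4
  have hU : UP P (toO v) := up_toO (by exact_mod_cast h2.mp) hv
  have e : toO (pO n t) ^ 2 = ((2 : ℕ) : Om) * toO v := by
    have h3 := congrArg toO he
    rw [toO_mul, toO_mul] at h3
    have h4 : toO (2 : OO n t) = ((2 : ℕ) : Om) := by
      have := toO_nat (n := n) (t := t) 2
      push_cast at this ⊢
      exact this
    rw [h4] at h3
    rw [pow_two]
    exact h3
  have h5 : vl P 2 (toO (pO n t) ^ 2) = 1 := by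
    rw [e, DL.vl_mul h2 h2.nz (DI.UP.ne_zero hU), DL.vl_two h2, DL.vl_of_up h2 hU, add_zero]
  rw [DL.vl_pow h2 pO_ne] at h5
  push_cast at h5
  linarith

theorem tTrT : S_TrT := by
  classical
  intro trh o4 inn rep gen n t _ P hP f N hf h15 hN T s hT hs x hx hV
  have hPp : P.IsPrime := hP.1.1
  have h2 : Pl P 2 := ⟨two_ne_zero, by exact_mod_cast hP.2⟩
  have hPt : Pt n t f N (1 / f) (1 / (2 ^ N : ℕ)) := pt_one hf h15 hN
  set z0 : ℂ := 1 / f with hz0
  set d : ℂ := 1 / (2 ^ N : ℕ) with hd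
  obtain ⟨⟨S, hS⟩, hG, -, -, hG5⟩ := gen n t P hP f N z0 d hPt
  obtain ⟨hGen, -, hvl, -⟩ := hG S hS
  obtain ⟨i1, i2, i3, i4, -, -, -, -⟩ := inn n t P hP f N hf h15
  set π : Om := pH z0 d (1 : OO n t) with hπ
  have hl0 : toO (pO n t) ^ (2 * N - 1) ≠ 0 := pow_ne_zero _ pO_ne
  have hvll : vl P 2 (toO (pO n t) ^ (2 * N - 1)) = N - 1 / 2 := by
    rw [DL.vl_pow h2 pO_ne, vl_pO o4 h2, Nat.cast_sub (by omega)]
    push_cast
    ring
  have h11 : (f : OO n t) ∣ (1 : OO n t) - 1 := by rw [sub_self]; exact dvd_zero _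
  have key := trh P 2 2 (II n t P) S π hGen {π} x (toO (pO n t) ^ (2 * N - 1)) (OO n t) T s
    (Finset.mem_singleton_self π) (Finset.singleton_subset_iff.2 hGen.mem) ?_ ?_ (fun i hi => (hs i hi).mem)
    ?_ ?_ hl0 ?_ ?_
  · rwa [hvll] at key
  · -- `Fp`
    intro σ hσ hσπ
    obtain ⟨h, hh⟩ := i1 σ hσ
    have h3 := ((hG5 f hf dvd_rfl σ h hh).2).1 hσπ
    refine hx σ (i3 σ h 1 hh h11 ?_ (cop_one 2))
    rw [← neg_sub]
    exact h3.neg_right
  · intro r hr
    rw [Finset.mem_singleton] at hr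
    subst hr
    exact ⟨1, one_mem _, rfl, rfl, fun r' hr' => hr'⟩
  · -- surjectivity
    intro r hr
    obtain ⟨σ, hσ, hσr⟩ := hGen.tra r hr
    obtain ⟨g, hg⟩ := i1 σ hσ
    obtain ⟨i, hi, hgi⟩ := hT.ex g ⟨hg.one, hg.cop⟩
    obtain ⟨hi1, hi2⟩ := hT.mem i hi
    have hgi' : ((2 ^ N : ℕ) : OO n t) ∣ i - g := by
      rw [← neg_sub]
      exact hgi.neg_right
    have h3 := (hG5 f hf dvd_rfl σ i (i3 σ g i hg hi1 hgi' hi2)).1
    have h4 := (hG5 f hf dvd_rfl (s i) i (hs i hi)).1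
    exact ⟨i, hi, π, Finset.mem_singleton_self π, by rw [h4, ← h3, hσr]⟩
  · -- injectivity
    intro i hi i' hi' r hr r' hr' he
    rw [Finset.mem_singleton] at hr hr'
    subst hr
    subst hr'
    have hσ : (s i')⁻¹ * s i ∈ II n t P := mul_mem (inv_mem (hs i' hi').mem) (hs i hi).mem
    obtain ⟨g, hg⟩ := i1 _ hσ
    have hfix : ((s i')⁻¹ * s i) π = π := by
      rw [AlgEquiv.mul_apply, he]
      exact (s i').symm_apply_apply π
    have h3 := ((hG5 f hf dvd_rfl _ g hg).2).1 hfix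
    have h4 := i4 _ _ _ _ (hs i' hi') hg
    rw [mul_inv_cancel_left] at h4
    have h5 := i2 _ _ _ (hs i hi) h4
    refine hT.uni i hi i' hi' ?_
    have e : i - i' = (i - i' * g) + i' * (g - 1) := by ring
    rw [e]
    exact dvd_add h5 (h3.mul_left _)
  · -- constants
    intro σ hσ
    rw [map_pow, GK_toO hσ.2]
  · -- the value
    have e1 : dl {π} π = 1 := by
      unfold dl
      rw [Finset.erase_singleton, Finset.prod_empty]
    rw [e1, DL.vl_one h2, hvll, hvl, sub_self, zero_add, DL.GE.vp_iff h2]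
    exact hV

end Pool.Agent.DR.GL
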