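import Pool.Agent.Lib.DR.GL.SpecB
import Pool.Agent.Lib.DN.B.All

/-!
# DR, part GL, module Tru: the derivation on `X(z + u)`, `u` of odd order (helper86)
-/

set_option autoImplicit false

open scoped Pointwise

noncomputable section

namespace Pool.Agent.DR.GL

open Pool.Agent.MuZ Pool.Agent.FW Pool.Agent.DN
open Pool.Agent.DI (io ofC io_inj exists_io io_ofC ofC_io VP MP UP TP ex sqr sqr_sq kap)
open Pool.Agent.DI.GL (Fx StP xx mem_of_Fx Fx.mul Fx.inv Fx.one)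
open Pool.Agent.DN.GL (EE pH IsR)
open Pool.Agent.DL (vl GE Pl Fi Fp Cn Cf dl Gen Dr LD)

variable {n t : ℕ}

private theorem dn_congr {P : Ideal ZZ} {N : ℕ} {z0 d : ℂ} {x y x' y' : Om} (h : Dn n t P N z0 d x y)
    (hx : x = x') (hy : y = y') : Dn n t P N z0 d x' y' := by
  subst hx hy
  exact h

theorem tTru : S_Tru := by
  classical
  intro hCn hDer hKum hR1 hLev hPi hGen hOdq hKud n t _ P hP f N z0 d hp f' u hf' hff' hu hz0u
  have hPp : P.IsPrime := hP.1.1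
  have gt : G15 (⊤ : Ideal (OO n t)) := ⟨top_ne_bot, top_sup_eq _⟩
  have h15 : 15 ∣ f' := hp.f15.trans hff'
  obtain ⟨hper, -⟩ := aB1 n t ⊤ top_ne_bot
  obtain ⟨S, -, g, hq0, hq1⟩ := gen0 hGen hP hp
  obtain ⟨hP1, oz0, oa, oc, -⟩ := hPi n t P hP f N z0 d hp
  have e1d : z0 + toC (1 : OO n t) * d = z0 + d := by rw [toC_one, one_mul]
  have hc1 : Cop (1 : OO n t) 2 := (un_one (n := n) (t := t) f).2
  obtain ⟨-, -, -, -, -, uW⟩ := hP1 1 hc1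
  rw [e1d] at uW
  have vW : VP P (vO (⊤ : Ideal (OO n t)) (z0 + d)) := uW.1
  obtain ⟨-, -, -, d4, d5, -, -, -, d9, -⟩ := hDer P 2 2 (II n t P) S (pH z0 d (1 : OO n t)) g (N - 1 / 2)
    (vO (⊤ : Ideal (OO n t)) (z0 + d)) hq0 hq1 vW
  obtain ⟨c1, c2, -⟩ := hCn P (II n t P) hPp (fun σ hσ => hσ.1)
  -- the derivative of `X(z)`
  have hX : Dn n t P N z0 d (xO (⊤ : Ideal (OO n t)) (z0 + d)) (vO (⊤ : Ideal (OO n t)) (z0 + d)) := by
    refine dn_congr (d5 _ _ _ _ d9 (d4 _ oz0)).1 ?_ (add_zero _)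
    unfold pH
    rw [e1d]
    ring
  by_cases huL : u ∈ Lam (⊤ : Ideal (OO n t))
  · refine dn_congr hX ?_ ?_
    · unfold xO XC
      rw [(hper (z0 + d) u huL).1]
    · unfold vO WC
      rw [(hper (z0 + d) u huL).2]
  -- the points
  have hz0 : (f' : ℂ) * z0 ∈ Lam (⊤ : Ideal (OO n t)) := by
    obtain ⟨c, rfl⟩ := hff'
    have e : ((f * c : ℕ) : ℂ) * z0 = (c : ℂ) * (f * z0) := by
      push_cast
      ring
    rw [e]
    exact lam_nat c hp.z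
  have hzu : (f' : ℂ) * (z0 + u) ∈ Lam (⊤ : Ideal (OO n t)) := by
    rw [mul_add]
    exact lam_add hz0 hu
  obtain ⟨-, -, tz, nz, -, -, -, -, -⟩ := hOdq n t P hP ⊤ gt f' N z0 d hf' h15 hz0 hp.zn hp.dd
  obtain ⟨-, -, -, nzu, vX', uW', -, -, -⟩ := hOdq n t P hP ⊤ gt f' N (z0 + u) d hf' h15 hzu hz0u hp.dd
  obtain ⟨-, -, -, -, -, -, oU, oV, uV⟩ := hOdq n t P hP ⊤ gt f' N u d hf' h15 hu huL hp.dd
  have tu : Tor n t u := (tor_iff top_ne_bot).2 ⟨f', hf'.pos, hu⟩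
  have e1 : z0 + u + d = z0 + d + u := by ring
  rw [e1] at nzu vX' uW'
  have nzm : z0 + d - u ∉ Lam (⊤ : Ideal (OO n t)) := by
    intro h
    apply hp.dn
    have h3 : ((f' * 2 ^ (N - 1) : ℕ) : ℂ) * (z0 + d - u) ∈ Lam (⊤ : Ideal (OO n t)) := lam_nat _ h
    have h4 : ((f' : ℕ) : ℂ) * (2 ^ (N - 1) * d) ∈ Lam (⊤ : Ideal (OO n t)) := by
      have e : ((f' : ℕ) : ℂ) * (2 ^ (N - 1) * d) = ((f' * 2 ^ (N - 1) : ℕ) : ℂ) * (z0 + d - u) -
          ((2 ^ (N - 1) : ℕ) : ℂ) * (f' * z0) + ((2 ^ (N - 1) : ℕ) : ℂ) * (f' * u) := by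
        push_cast
        ring
      rw [e]
      exact lam_add (lam_sub h3 (lam_nat _ hz0)) (lam_nat _ hu)
    have h5 : ((2 : ℕ) : ℂ) * (2 ^ (N - 1) * d) ∈ Lam (⊤ : Ideal (OO n t)) := by
      have e : ((2 : ℕ) : ℂ) * (2 ^ (N - 1) * d) = 2 ^ N * d := by
        have e2 : (2 : ℂ) ^ N = 2 * 2 ^ (N - 1) := by
          rw [← pow_succ']
          congr 1
          have := hp.pos
          omega
        rw [e2]
        push_cast
        ring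
      rw [e]
      exact hp.dd
    have h6 : (2 : ℂ) ^ (N - 1) * d ∈ Lam (⊤ : Ideal (OO n t)) := by
      obtain ⟨j, hj⟩ := hf'
      have e : (2 : ℂ) ^ (N - 1) * d = ((f' : ℕ) : ℂ) * (2 ^ (N - 1) * d) -
          (j : ℂ) * (((2 : ℕ) : ℂ) * (2 ^ (N - 1) * d)) := by
        rw [hj]
        push_cast
        ring
      rw [e]
      exact lam_sub h4 (lam_nat j h5)
    exact lam_mul (pO n t) h6
  obtain ⟨k1, k2, k3⟩ := hKud n t ⊤ gt (z0 + d) u tz tu nz huL nzu nzm _ _ _ _ _ _ _ _ rfl rfl rfl rfl rfl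
    rfl rfl rfl
  -- the element `X'`
  have hM : 0 < f' * 2 ^ N := Nat.mul_pos hf'.pos (by positivity)
  have hX'E : xO (⊤ : Ideal (OO n t)) (z0 + d + u) ∈ EE n t (f' * 2 ^ N) := by
    obtain ⟨-, -, hL, -, -⟩ := hLev n t (f' * 2 ^ N) hM (h15.mul_right _)
    obtain ⟨-, -, hLx, -⟩ := hL ⊤ gt
    refine (hLx _ ?_).1
    have e : ((f' * 2 ^ N : ℕ) : ℂ) * (z0 + d + u) =
        ((2 ^ N : ℕ) : ℂ) * (f' * z0) + (f' : ℂ) * (2 ^ N * d) + ((2 ^ N : ℕ) : ℂ) * (f' * u) := by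
      push_cast
      ring
    rw [e]
    exact lam_add (lam_add (lam_nat _ hz0) (lam_nat _ hp.dd)) (lam_nat _ hu)
  obtain ⟨-, -, g3, -⟩ := hGen n t P hP f N z0 d hp
  have hFp := g3 f' hf' hff' _ hX'E
  have c0 : Cn P (II n t P) 0 := by simpa using c1 0
  have c01 : Cn P (II n t P) 1 := by simpa using c1 1
  have caa := (c2 _ _ oa oa).2.2.1
  have cac := (c2 _ _ oa oc).2.2.1
  have ccc := (c2 _ _ oc oc).2.2.1
  have key := hKum P 2 2 (II n t P) S (pH z0 d (1 : OO n t)) g (N - 1 / 2)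
    (vO (⊤ : Ideal (OO n t)) (z0 + d)) hq0 hq1 vW (xO (⊤ : Ideal (OO n t)) (z0 + d))
    (xO (⊤ : Ideal (OO n t)) (z0 + d + u)) (xO (⊤ : Ideal (OO n t)) u) (vO (⊤ : Ideal (OO n t)) (z0 + d))
    (vO (⊤ : Ideal (OO n t)) (z0 + d + u)) (vO (⊤ : Ideal (OO n t)) u) 1
    (a1O (⊤ : Ideal (OO n t)) * a1O (⊤ : Ideal (OO n t))) (a1O (⊤ : Ideal (OO n t)) * a3O (⊤ : Ideal (OO n t)))
    (a3O (⊤ : Ideal (OO n t)) * a3O (⊤ : Ideal (OO n t))) 0 oU oV c01 caa cac ccc c0 uV uW hFp vX' uW'.1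
    (dn_congr hX rfl (one_mul _).symm) (by linear_combination k1) (by linear_combination k2)
    (by linear_combination k3)
  exact dn_congr key rfl (one_mul _)

end Pool.Agent.DR.GL
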