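import Pool.Agent.Lib.DL.All
import Pool.Agent.Lib.DR.D.All
import Pool.Agent.Lib.DR.D.D2Z
import Pool.Agent.Lib.DR.E.AllZ
import Pool.Agent.Lib.DS.G.All
import Pool.Agent.Lib.DS.E.AllZ
import Pool.Agent.Lib.DR.GL.InZ
import Pool.Agent.Lib.DR.GL.Act
import Pool.Agent.Lib.DR.GL.Chi
import Pool.Agent.Lib.DR.GL.D1
import Pool.Agent.Lib.DR.GL.Dta
import Pool.Agent.Lib.DR.GL.Gen
import Pool.Agent.Lib.DR.GL.HD
import Pool.Agent.Lib.DR.GL.Hev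
import Pool.Agent.Lib.DR.GL.Iso
import Pool.Agent.Lib.DR.GL.Kud
import Pool.Agent.Lib.DR.GL.LSA
import Pool.Agent.Lib.DR.GL.LSg
import Pool.Agent.Lib.DR.GL.Lev
import Pool.Agent.Lib.DR.GL.Mnf
import Pool.Agent.Lib.DR.GL.Odq
import Pool.Agent.Lib.DR.GL.Pi
import Pool.Agent.Lib.DR.GL.Pnt
import Pool.Agent.Lib.DR.GL.Rep
import Pool.Agent.Lib.DR.GL.ResA
import Pool.Agent.Lib.DR.GL.ResB
import Pool.Agent.Lib.DR.GL.SitR
import Pool.Agent.Lib.DR.GL.Sub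
import Pool.Agent.Lib.DR.GL.Sur
import Pool.Agent.Lib.DR.GL.T0a
import Pool.Agent.Lib.DR.GL.T0b
import Pool.Agent.Lib.DR.GL.T1g
import Pool.Agent.Lib.DR.GL.T2g
import Pool.Agent.Lib.DR.GL.Tau
import Pool.Agent.Lib.DR.GL.Tht
import Pool.Agent.Lib.DR.GL.Tp
import Pool.Agent.Lib.DR.GL.TrN
import Pool.Agent.Lib.DR.GL.TrS
import Pool.Agent.Lib.DR.GL.TrT
import Pool.Agent.Lib.DR.GL.Trh
import Pool.Agent.Lib.DR.GL.Tru
import Pool.Agent.Lib.DR.GL.Un4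

/-!
# Theorem DR, part GL: complete, no hypotheses (author helper89)
-/

set_option autoImplicit false

noncomputable section

namespace Pool.Agent.DR.GL

open Pool.Agent.DN

theorem aLev : C_Lev := tLev dE1 dE6 dE10

theorem aIn : C_In := tInZ DL.aOut.K2 dE1 dE4a aLev

theorem aAct : C_Act := tAct dR1 dD8 dE6 dE10

theorem aRep : C_Rep := tRep dO4

theorem aPi : C_Pi := tPi dO4 dR1 dR2 dD1 dD2 dD10 aLev aIn aAct aRep

theorem aSur : C_Sur := tSur dO4 aIn aRep aPi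

theorem aGen : C_Gen := tGen aIn aAct aRep aPi aSur

theorem aHD : C_HD := tHD dO4 aRep aPi

theorem aTrT : C_TrT := tTrT DL.aOut.TrH dO4 aIn aRep aGen

theorem aTrN : C_TrN := tTrN DL.aOut.TrH aIn aRep aPi aSur aGen

theorem aGM : DS.S_GM := DS.G.aGM DS.zE1 DS.zE6 DS.zE8

theorem aG3 : DS.S_G3 := DS.G.aG3 DS.yD5 DS.zD7 DS.zD8 DS.zE1 DS.zE10

theorem aOdq : C_Odq := tOdq dD2 aLev aIn

theorem aKud : C_Kud := tKud dR1

theorem aTru : C_Tru := tTru DL.aOut.Cn DL.aOut.Der DL.aOut.Kum dR1 aLev aPi aGen aOdq aKud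

theorem aIso : C_Iso := tIso dR1

theorem aTrh : C_Trh := tTrh DL.aOut.Cn DL.aOut.Der dD2 aLev aIn aPi aGen aOdq aTru aIso

theorem aTht : C_Tht := tTht DL.aOut.Cn DL.aOut.Der DL.aOut.LDr dR1 dD2 dD9 aLev aIn aPi aGen aOdq aTrh

theorem aPnt : C_Pnt := tPnt

theorem aMnf : C_Mnf := tMnf dO4 dE1 aGM aIn

theorem aUn4 : C_Un4 := tUn4 DL.aOut.Fix DL.aOut.LDr aG3 aPi aSur aGen aMnf aTht

theorem aSub : C_Sub := tSub DL.aOut.Fix DL.aOut.LDr dD8 aIn aAct aPi aSur aGen aTht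

theorem aSitR : C_SitR := tSitR dE9 aGM aAct aSur aMnf

theorem aHev : C_Hev := tHev dO4 dE9 aGM aIn aAct

theorem aTau : C_Tau := tTau dO4 aIn aAct

theorem aDta : C_Dta := tDta DL.aOut.Cn DL.aOut.Der DL.aOut.Cj dR1 dD2 dE6 dE11 aLev aIn aPi aGen aTrh

theorem aResB : C_ResB :=
  tResB DL.aOut.Cn DL.aOut.Der DL.aOut.Fix DL.aOut.Rt DL.aRSq aHD aPi aSur aGen aMnf aSitR aHev

theorem aResA : C_ResA :=
  tResA DL.aOut.Cn DL.aOut.Der DL.aOut.LDr DL.aOut.Fix DL.aOut.Rt DL.aRSq dE9 aHD aPi aSur aGen aMnf aSitR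

theorem aChi : C_Chi := tChi dO4

theorem aLSg : C_LSg := tLSg DL.aOut.LDr aG3 aPi aGen aUn4 aChi

theorem aLSA : C_LSA := tLSA aTau aDta aResA aResB aChi aLSg

theorem aTp : C_Tp := tTp dE9 aGM aG3 aMnf

theorem aT0a : C_T0a := tT0a dO4

theorem aTrS : C_TrS := tTrS DL.aOut.Pol DL.aOut.Cn DL.aOut.Mono

theorem aD1 : C_D1 := tD1 dO4 aRep aPi aGen

/-- `S_T0`. -/
theorem zT0 : S_T0 := tT0b DL.aOut.K0 aT0a

/-- `S_T1`. -/
theorem zT1 : S_T1 := tT1g dE1 aIn aSur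

/-- `S_T2`. -/
theorem zT2 : S_T2 := tT2g DL.aOut.K0 dO4 aT0a aIn aRep aPi aGen aTrT aTrS aD1

end Pool.Agent.DR.GL
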