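import Pool.Agent.Lib.DR.GL.SpecB
import Pool.Agent.Lib.DI.G.L.X0

/-!
# Theorem DR, part GL, module Hev: `xx ζ` is not a square up to a unit (`n = 6` modulo `8`)
-/

set_option autoImplicit false

open scoped Pointwise

noncomputable section

namespace Pool.Agent.DR.GL

open Pool.Agent.MuZ Pool.Agent.FW Pool.Agent.DN
open Pool.Agent.DI (io ofC io_inj exists_io io_ofC ofC_io VP MP UP TP ex sqr sqr_sq kap)
open Pool.Agent.DI.GL (Fx StP xx mem_of_Fx Fx.mul Fx.inv Fx.one)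
open Pool.Agent.DN.GL (EE pH IsR)
open Pool.Agent.DL (vl GE Pl Fi Fp Cn Cf dl Gen Dr LD)

variable {n t : ℕ}

private theorem gtop : G15 (⊤ : Ideal (OO n t)) := ⟨top_ne_bot, top_sup_eq _⟩

/-- The valuation of `xx ζ`. -/
private theorem vxx {P : Ideal ZZ} (hP : Ab2 P) : ∀ (j : ℕ) (ζ : Om), IsPrimitiveRoot ζ (2 ^ (j + 2)) →
    vl P 2 (xx ζ) = 1 / 2 ^ j := by
  have := hP.1.1
  have h2 := pl2 hP
  intro j
  induction j with
  | zero =>
    intro ζ hζ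
    rw [(DI.GL.tX0 P hP.1.1 hP.2 2 le_rfl ζ hζ).2.2.2.1 rfl, pow_zero, div_one]
    exact_mod_cast DL.vl_two h2
  | succ j ih =>
    intro ζ hζ
    have hp : IsPrimitiveRoot (ζ ^ 2) (2 ^ (j + 2)) := hζ.pow (by positivity) (by ring)
    obtain ⟨h3, -, -, -, h4⟩ := DI.GL.tX0 P hP.1.1 hP.2 (j + 2) (by omega) (ζ ^ 2) hp
    have h5 := (h4 ζ rfl).2
    have h6 : xx ζ ≠ 0 := by
      intro h
      have := h5.ne_zero
      rw [h] at this
      norm_num at this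
    have h7 := DL.vl_of_up h2 h5
    rw [DL.vl_div h2 (pow_ne_zero 2 h6) h3, DL.vl_pow h2 h6, ih _ hp] at h7
    push_cast at h7
    have h8 : vl P 2 (xx ζ) = 1 / 2 ^ j / 2 := by linarith
    rw [h8, pow_succ]
    field_simp

/-- The number of the classes. -/
private theorem idx {N : ℕ} (hN : 3 ≤ N) (x : ℤ) (hx : x % 8 = 1 ∨ x % 8 = 7) :
    ∃ i < 2 ^ (N - 3), (2 : ℤ) ^ N ∣ x - (8 * (i : ℕ) + 1) ∨ (2 : ℤ) ^ N ∣ x + (8 * (i : ℕ) + 1) := by
  have key : ∀ y : ℤ, y % 8 = 1 → ∃ i < 2 ^ (N - 3), (2 : ℤ) ^ N ∣ y - (8 * (i : ℕ) + 1) := by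
    intro y hy
    obtain ⟨M, hM, hM0⟩ : ∃ M : ℕ, 2 ^ (N - 3) = M ∧ 0 < M := ⟨_, rfl, by positivity⟩
    have e : (2 : ℤ) ^ N = 8 * (M : ℤ) := by
      have h1 : (2 : ℤ) ^ N = 2 ^ 3 * 2 ^ (N - 3) := by
        rw [← pow_add]
        congr 1
        omega
      rw [h1, ← hM]
      push_cast
      ring
    have h3 : (y % (8 * (M : ℤ))) % 8 = 1 := by
      rw [Int.emod_emod_of_dvd y ⟨(M : ℤ), rfl⟩, hy]
    have h4 : 0 ≤ y % (8 * (M : ℤ)) := Int.emod_nonneg _ (by omega)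
    have h5 : y % (8 * (M : ℤ)) < 8 * M := Int.emod_lt_of_pos _ (by omega)
    have h6 : 8 * (M : ℤ) ∣ y - y % (8 * (M : ℤ)) := Int.dvd_self_sub_emod
    rw [hM, e]
    generalize y % (8 * (M : ℤ)) = r at *
    refine ⟨(r / 8).toNat, by omega, ?_⟩
    have e2 : (8 * (((r / 8).toNat : ℕ) : ℤ) + 1) = r := by omega
    rw [e2]
    exact h6
  rcases hx with hx | hx
  · obtain ⟨i, hi, h⟩ := key x hx
    exact ⟨i, hi, Or.inl h⟩
  · obtain ⟨i, hi, h⟩ := key (-x) (by omega)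
    refine ⟨i, hi, Or.inr ?_⟩
    rw [← dvd_neg]
    have e : -(x + (8 * ((i : ℕ) : ℤ) + 1)) = -x - (8 * (i : ℕ) + 1) := by ring
    rw [e]
    exact h

private theorem wO_img [h : Rmf n t] {σ : Gal(Om/ℚ)} (hσ : σ ∉ GK n t) : σ (wO n t) = -wO n t := by
  have ht : (t : Om) = 0 := by
    rw [h.zero]
    norm_num
  have h1 : wO n t ^ 2 = -(n : Om) := by
    rw [wO_sq, ht]
    ring
  have h2 : σ (wO n t) ^ 2 = wO n t ^ 2 := by
    rw [← map_pow, h1, map_neg, map_natCast]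
  rcases sq_eq_sq_iff_eq_or_eq_neg.1 h2 with h3 | h3
  · exact absurd (mem_GK_iff.2 h3) hσ
  · exact h3

/-- `GK` has index two. -/
private theorem gk_two [Rmf n t] {σ σ' : Gal(Om/ℚ)} (hσ : σ ∉ GK n t) (hσ' : σ' ∉ GK n t) :
    σ⁻¹ * σ' ∈ GK n t := by
  rw [mem_GK_iff]
  have h1 := wO_img hσ
  have h2 := wO_img hσ'
  have h3 : σ⁻¹ (wO n t) = -wO n t := by
    have h4 := congrArg (fun x => σ⁻¹ x) h1
    simp only [map_neg] at h4
    have h5 : σ⁻¹ (σ (wO n t)) = wO n t := σ.symm_apply_apply _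
    rw [h5] at h4
    linear_combination h4
  change σ⁻¹ (σ' (wO n t)) = wO n t
  rw [h2, map_neg, h3, neg_neg]

theorem tHev : S_Hev := by
  classical
  intro hO4 hE9 hGM hIn hAct n t _ P hP h6 f hodd h15 N hN ζ hζ ρ hρ hup
  have := hP.1.1
  have h2 := pl2 hP
  have hN1 : 1 ≤ N := by omega
  obtain ⟨hfd, -, -⟩ := (hGM n t f hodd h15).2.2.2.2.1 N hN1
  have hGL := (hGM n t f hodd h15).2.2.2.2.2.2.2 N ζ hN1 hζ
  have hSt := (hE9 n t f hodd h15).2.1 N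
  have hIne := (hE9 n t f hodd h15).2.2.2.2.1 P hP
  obtain ⟨S, hS0, hSi, hSe, -, hSv⟩ := DN.GL.tRam (Mn n t f N) hfd (fun τ x hx => hSt τ hN1 x hx) P hP.1.1 hP.2
  -- the classes
  have hz0 : ζ ≠ 0 := hζ.ne_zero (by positivity)
  have hcls : ∀ σ ∈ II n t P, ∃ x : ℤ, (x % 8 = 1 ∨ x % 8 = 7) ∧ σ ζ = ζ ^ x := by
    intro σ hσ
    obtain ⟨h, hh⟩ := (hIn n t P hP f N hodd h15).1 σ hσ
    have h1 := (hAct n t P hP f N h σ hodd h15 hh ⊤ gtop).2.2.2.2.2.1 ζ hζ.pow_eq_one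
    have h3 : (((Nm h).toNat : ℕ) : ℤ) = Nm h := Int.toNat_of_nonneg (Nm_nonneg h)
    refine ⟨Nm h, ?_, ?_⟩
    · have h4 : n % 4 = 2 := by omega
      rcases (hO4 n t).2.2.2.2.2.2.2.2.2.2.2.2.2.2.1 h hh.cop h4 with h5 | h5
      · left
        omega
      · right
        omega
    · rw [h1, ← zpow_natCast, h3]
  have hind : ∀ σ ∈ II n t P, ∃ i < 2 ^ (N - 3), σ ζ = ζ ^ (8 * (i : ℕ) + 1) ∨
      σ ζ = (ζ ^ (8 * (i : ℕ) + 1))⁻¹ := by
    intro σ hσ
    obtain ⟨x, hx, hxσ⟩ := hcls σ hσ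
    obtain ⟨i, hi, h⟩ := idx hN x hx
    refine ⟨i, hi, ?_⟩
    have hd : ∀ z : ℤ, (2 : ℤ) ^ N ∣ z → ζ ^ z = 1 := by
      intro z hz
      rw [hζ.zpow_eq_one_iff_dvd]
      exact_mod_cast hz
    rcases h with h | h
    · left
      have h3 := hd _ h
      rw [zpow_sub₀ hz0, div_eq_one_iff_eq (zpow_ne_zero _ hz0)] at h3
      rw [hxσ, h3]
      exact_mod_cast rfl
    · right
      have h3 := hd _ h
      rw [zpow_add₀ hz0] at h3
      rw [hxσ, eq_inv_of_mul_eq_one_left h3]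
      congr 1
      exact_mod_cast rfl
  -- elements of `II` which are different on the field
  have hB : ∀ A : Finset Gal(Om/ℚ), (∀ σ ∈ A, σ ∈ II n t P) →
      (∀ σ ∈ A, ∀ σ' ∈ A, (∀ x ∈ Mn n t f N, σ x = σ' x) → σ = σ') → A.card ≤ 2 ^ (N - 3) := by
    intro A hA hA'
    let g : Gal(Om/ℚ) → ℕ := fun σ => if h : σ ∈ II n t P then (hind σ h).choose else 0
    have hg : ∀ σ, ∀ h : σ ∈ II n t P, g σ < 2 ^ (N - 3) ∧ (σ ζ = ζ ^ (8 * (g σ) + 1) ∨
        σ ζ = (ζ ^ (8 * (g σ) + 1))⁻¹) := by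
      intro σ h
      have e : g σ = (hind σ h).choose := dif_pos h
      rw [e]
      exact (hind σ h).choose_spec
    have h1 : A.card ≤ (Finset.range (2 ^ (N - 3))).card := by
      refine Finset.card_le_card_of_injOn g ?_ ?_
      · intro σ hσ
        simpa using (hg σ (hA σ hσ)).1
      · intro σ hσ σ' hσ' hgg
        refine hA' σ hσ σ' hσ' ?_
        have a1 := (hg σ (hA σ hσ)).2
        have a2 := (hg σ' (hA σ' hσ')).2
        rw [← hgg] at a2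
        have a3 : σ ζ = σ' ζ ∨ σ ζ = (σ' ζ)⁻¹ := by
          rcases a1 with a1 | a1 <;> rcases a2 with a2 | a2 <;> rw [a1, a2]
          · exact Or.inl rfl
          · right
            rw [inv_inv]
          · exact Or.inr rfl
          · exact Or.inl rfl
        have a4 : (σ'⁻¹ * σ) ζ = ζ ∨ (σ'⁻¹ * σ) ζ = ζ⁻¹ := by
          change σ'⁻¹ (σ ζ) = ζ ∨ σ'⁻¹ (σ ζ) = ζ⁻¹
          have e : σ'⁻¹ (σ' ζ) = ζ := σ'.symm_apply_apply _
          rcases a3 with a3 | a3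
          · left
            rw [a3, e]
          · right
            rw [a3, map_inv₀, e]
        have a5 : σ'⁻¹ * σ ∈ II n t P := (II n t P).mul_mem ((II n t P).inv_mem (hA σ' hσ')) (hA σ hσ)
        have a6 := (hGL (σ'⁻¹ * σ)).2 ⟨fun x hx => hIne _ a5.1 a5.2 x hx, a4⟩
        intro x hx
        have a7 := congrArg (fun y => σ' y) (a6 x hx)
        have e : σ' ((σ'⁻¹ * σ) x) = σ x := σ'.apply_symm_apply _
        rw [e] at a7
        exact a7
    rwa [Finset.card_range] at h1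
  -- the count
  have hS1 : (S.filter fun σ => σ ∈ GK n t).card ≤ 2 ^ (N - 3) := by
    refine hB _ (fun σ hσ => ?_) (fun σ hσ σ' hσ' h => ?_)
    · rw [Finset.mem_filter] at hσ
      exact ⟨hSi σ hσ.1, hσ.2⟩
    · rw [Finset.mem_filter] at hσ hσ'
      exact hSe σ hσ.1 σ' hσ'.1 h
  have hS2 : (S.filter fun σ => σ ∉ GK n t).card ≤ 2 ^ (N - 3) := by
    rcases (S.filter fun σ => σ ∉ GK n t).eq_empty_or_nonempty with he | ⟨σ0, hσ0⟩
    · rw [he, Finset.card_empty]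
      exact Nat.zero_le _
    · rw [Finset.mem_filter] at hσ0
      have hinj : Function.Injective fun σ : Gal(Om/ℚ) => σ0⁻¹ * σ := mul_right_injective _
      rw [← Finset.card_image_of_injective _ hinj]
      refine hB _ (fun σ hσ => ?_) (fun σ hσ σ' hσ' h => ?_)
      · obtain ⟨σ1, h1, rfl⟩ := Finset.mem_image.1 hσ
        rw [Finset.mem_filter] at h1
        refine ⟨?_, gk_two hσ0.2 h1.2⟩
        exact (P.inertia Gal(Om/ℚ)).mul_mem ((P.inertia Gal(Om/ℚ)).inv_mem (hSi σ0 hσ0.1)) (hSi σ1 h1.1)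
      · obtain ⟨σ1, h1, rfl⟩ := Finset.mem_image.1 hσ
        obtain ⟨σ2, h3, rfl⟩ := Finset.mem_image.1 hσ'
        rw [Finset.mem_filter] at h1 h3
        have h4 : σ1 = σ2 := by
          refine hSe σ1 h1.1 σ2 h3.1 fun x hx => ?_
          have h5 := congrArg (fun y => σ0 y) (h x hx)
          have e1 : σ0 ((σ0⁻¹ * σ1) x) = σ1 x := σ0.apply_symm_apply _
          have e2 : σ0 ((σ0⁻¹ * σ2) x) = σ2 x := σ0.apply_symm_apply _
          rwa [e1, e2] at h5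
        rw [h4]
  have hcard : S.card ≤ 2 ^ (N - 2) := by
    have h1 := Finset.card_filter_add_card_filter_not (s := S) (fun σ => σ ∈ GK n t)
    have h3 : 2 ^ (N - 2) = 2 ^ (N - 3) + 2 ^ (N - 3) := by
      have : N - 2 = (N - 3) + 1 := by omega
      rw [this, pow_succ]
      ring
    omega
  -- the values
  have hx0 : xx ζ ≠ 0 := (DI.GL.tX0 P hP.1.1 hP.2 N (by omega) ζ hζ).1
  have hρ0 : ρ ≠ 0 := by
    rintro rfl
    have := hup.ne_zero
    norm_num at this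
  have hv := DL.vl_of_up h2 hup
  obtain ⟨j, hj⟩ : ∃ j, N = j + 2 := ⟨N - 2, by omega⟩
  rw [DL.vl_div h2 (pow_ne_zero 2 hρ0) hx0, DL.vl_pow h2 hρ0, vxx hP j ζ (by rwa [← hj])] at hv
  push_cast at hv
  obtain ⟨i, hi⟩ := hSv ρ hρ hρ0
  rw [vP_vl hP hρ0] at hi
  rw [hi] at hv
  have hSq : (0 : ℚ) < S.card := by exact_mod_cast hS0
  have h7 : (2 : ℚ) ^ (j + 1) * i = S.card := by
    have h8 : 2 * ((i : ℚ) / S.card) = 1 / 2 ^ j := by linarith
    have h9 : (2 : ℚ) ^ j ≠ 0 := by positivity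
    have h10 : (S.card : ℚ) ≠ 0 := hSq.ne'
    field_simp at h8
    rw [pow_succ]
    linarith
  have h8 : (2 : ℤ) ^ (j + 1) * i = S.card := by exact_mod_cast h7
  have h9 : (0 : ℤ) < S.card := by exact_mod_cast hS0
  have h10 : 1 ≤ i := by
    by_contra h
    have h11 : i ≤ 0 := by omega
    have h12 : (2 : ℤ) ^ (j + 1) * i ≤ 0 := mul_nonpos_of_nonneg_of_nonpos (by positivity) h11
    omega
  have h11 : (2 : ℤ) ^ (j + 1) ≤ S.card := by
    rw [← h8]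
    exact le_mul_of_one_le_right (by positivity) h10
  have h12 : (S.card : ℤ) ≤ 2 ^ j := by
    have e : N - 2 = j := by omega
    rw [e] at hcard
    exact_mod_cast hcard
  have h13 : (2 : ℤ) ^ (j + 1) = 2 ^ j * 2 := pow_succ _ _
  have h14 : (0 : ℤ) < 2 ^ j := by positivity
  omega

end Pool.Agent.DR.GL
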