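import Pool.Agent.Lib.DR.GL.Spec

/-!
# Theorem DR, part GL, module In: classes of the elements of inertia in `Gal(Om/K)`, constants
-/

set_option autoImplicit false

open scoped Pointwise

noncomputable section

namespace Pool.Agent.DR.GL

open Pool.Agent.MuZ Pool.Agent.FW Pool.Agent.DN
open Pool.Agent.DI (io ofC io_inj exists_io io_ofC ofC_io VP MP UP TP ex)
open Pool.Agent.DN.GL (EE pH IsR)
open Pool.Agent.DL (vl GE Pl Fi Fp Cn Cf dl Gen Dr LD)

variable {k t : ℕ}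

private theorem In_cop_of [SqN k t] {M : ℕ} {h : OO k t} (hh : (M : OO k t) ∣ h - 1) : Cop h M := by
  refine cop_congr (a := 1) ?_ (cop_one M)
  rw [← neg_sub]
  exact (dvd_neg).2 hh

private theorem In_ne [SqN k t] {M : ℕ} (hM : 2 ≤ M) {h : OO k t} (hh : (M : OO k t) ∣ h - 1) :
    h ≠ 0 := by
  rintro rfl
  rw [zero_sub, dvd_neg, nat_dvd_iff] at hh
  have h1 := hh.1
  rw [re_one] at h1
  have h2 := Int.le_of_dvd one_pos h1
  have : (2 : ℤ) ≤ M := by exact_mod_cast hM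
  omega

/-- The ideal computation. -/
private theorem In_ray [SqN k t] {f M : ℕ} (hM : 0 < M) (hfM : f ∣ M) (hf : 2 ≤ f)
    {a : Ideal (OO k t)} (ha : a ≠ ⊥) (haM : PrI a M) (hr : Ray f a ⊤) :
    ∃ h : OO k t, (f : OO k t) ∣ h - 1 ∧ Cop h M ∧ Ray M a (sp h) := by
  obtain ⟨α, α', hα0, hα'0, hαc, hα'c, hαα, he⟩ := hr
  obtain ⟨x, hxa, hx0, hx1⟩ := (aO6 k t).2.2.2.2 M a hM ha haM
  rw [Ideal.mul_top] at he
  have h1 : α * x ∈ sp α' := by
    rw [← he]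
    exact Ideal.mul_mem_mul (Ideal.mem_span_singleton_self α) hxa
  obtain ⟨y, hy⟩ := Ideal.mem_span_singleton.1 h1
  have hspm : ∀ u v : OO k t, sp (u * v) = sp u * sp v := fun u v =>
    (Ideal.span_singleton_mul_span_singleton u v).symm
  have hya : sp y * a = sp x := by
    apply (Ideal.span_singleton_mul_right_inj hα0).1
    change sp α * (sp y * a) = sp α * sp x
    rw [← hspm, hy, hspm, ← he]
    ac_rfl
  have hy0 : y ≠ 0 := by
    rintro rfl
    rw [mul_zero] at hy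
    exact mul_ne_zero hα0 hx0 hy
  have hfM' : (f : OO k t) ∣ (M : OO k t) := by exact_mod_cast (Nat.cast_dvd_cast hfM : (f : OO k t) ∣ M)
  have hx1f : (f : OO k t) ∣ x - 1 := hfM'.trans hx1
  have hxc : Cop x M := In_cop_of hx1
  have hyc : Cop y M := by
    have h2 : PrI (sp y * a) M := by
      rw [hya]
      exact ((aO6 k t).2.2.2.1 M x hM).2 hxc
    exact ((aO6 k t).2.2.2.1 M y hM).1 (((aO6 k t).1 M _ _).1 h2).1
  have hy1 : (f : OO k t) ∣ y - 1 := by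
    obtain ⟨c, -, hc⟩ := cop_inv hα'c
    have h3 : (f : OO k t) ∣ α' * (y - 1) := by
      have e : α' * (y - 1) = α * (x - 1) + (α - α') := by
        rw [mul_sub, ← hy]
        ring
      rw [e]
      exact dvd_add (Dvd.dvd.mul_left hx1f α) hαα
    have e : y - 1 = c * (α' * (y - 1)) - (α' * c - 1) * (y - 1) := by ring
    rw [e]
    exact dvd_sub (Dvd.dvd.mul_left h3 c) (Dvd.dvd.mul_right hc _)
  obtain ⟨h, hhc, hh⟩ := cop_inv hyc
  have hh1 : (f : OO k t) ∣ h - 1 := by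
    have e : h - 1 = (y * h - 1) - (y - 1) * h := by ring
    rw [e]
    exact dvd_sub (hfM'.trans hh) (Dvd.dvd.mul_right hy1 _)
  refine ⟨h, hh1, hhc, y * h, x, mul_ne_zero hy0 (In_ne hf hh1), hx0, cop_mul hyc hhc, hxc, ?_, ?_⟩
  · have e : y * h - x = (y * h - 1) - (x - 1) := by ring
    rw [e]
    exact dvd_sub hh hx1
  · rw [hspm, ← hya]
    ac_rfl

private theorem In_cop_full [SqN k t] {f N : ℕ} {h : OO k t} (h1 : (f : OO k t) ∣ h - 1)
    (h2 : Cop h 2) : Cop h (f * 2 ^ N) := by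
  have h3 := In_cop_of h1
  unfold Cop at *
  push_cast
  push_cast at h2
  exact h3.mul_right (h2.pow_right)

private theorem In_dvd [SqN k t] {f N : ℕ} (hf : Odd f) {x : OO k t} (h1 : (f : OO k t) ∣ x)
    (h2 : ((2 ^ N : ℕ) : OO k t) ∣ x) : ((f * 2 ^ N : ℕ) : OO k t) ∣ x := by
  have hc : Nat.Coprime f (2 ^ N) := Nat.Coprime.pow_right N (Nat.coprime_two_right.2 hf)
  have h3 : IsCoprime (f : OO k t) ((2 ^ N : ℕ) : OO k t) := hc.cast
  rw [Nat.cast_mul]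
  exact h3.mul_dvd h1 h2

/-- Elements outside of `Gal(Om/K)`. -/
private theorem In_neg [hR : Rmf k t] {g : Gal(Om/ℚ)} (hg : g ∉ GK k t) : g (wO k t) = -wO k t := by
  have e1 : wO k t ^ 2 = -(k : Om) := by
    have h := wO_sq (n := k) (t := t)
    have h0 : ((t : ℕ) : Om) = 0 := by rw [hR.zero, Nat.cast_zero]
    rw [h0] at h
    rw [h]
    ring
  have e2 : g (wO k t) ^ 2 = -(k : Om) := by
    rw [← map_pow, e1, map_neg, map_natCast]
  have e3 : (g (wO k t) - wO k t) * (g (wO k t) + wO k t) = 0 := by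
    linear_combination e2 - e1
  rcases mul_eq_zero.1 e3 with h | h
  · exact absurd (mem_GK_iff.2 (sub_eq_zero.1 h)) hg
  · exact eq_neg_of_add_eq_zero_left h

private theorem In_index [Rmf k t] {g g' : Gal(Om/ℚ)} (hg : g ∉ GK k t) (hg' : g' ∉ GK k t) :
    g * g' ∈ GK k t := by
  rw [mem_GK_iff]
  change g (g' (wO k t)) = wO k t
  rw [In_neg hg', map_neg, In_neg hg, neg_neg]

/-- **In.** Classes of the elements of `II`, constants. -/
theorem tIn : S_In := by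
  intro hK2 hE1 hE4 hLev k t _ P hP f N hf h15
  have hPp : P.IsPrime := hP.1.1
  have hf0 : 0 < f := hf.pos
  have hf15 : 15 ≤ f := Nat.le_of_dvd hf0 h15
  have hpos : ∀ N : ℕ, 0 < f * 2 ^ N := fun N => Nat.mul_pos hf0 (by positivity)
  have hd : ∀ N : ℕ, 15 ∣ f * 2 ^ N := fun N => Dvd.dvd.mul_right h15 _
  have hfd : ∀ N : ℕ, (f : OO k t) ∣ ((f * 2 ^ N : ℕ) : OO k t) := fun N =>
    ⟨((2 ^ N : ℕ) : OO k t), by push_cast; ring⟩
  have hGK : ∀ τ ∈ II k t P, τ ∈ GK k t := fun τ h => h.2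
  have hIn : ∀ τ ∈ II k t P, τ ∈ P.inertia Gal(Om/ℚ) := fun τ h => h.1
  have hft : ∀ τ ∈ II k t P, Psi τ f (⊤ : Ideal (OO k t)) := fun τ hτ =>
    (hE4 k t P hP.1 τ (hGK τ hτ) (hIn τ hτ)).1 hP.2 f hf h15
  refine ⟨?_, ?_, ?_, ?_, ?_, ?_, ?_, ?_⟩
  · intro τ hτ
    have E := hE1 k t (f * 2 ^ (N + 1)) (hpos _) (hd _)
    obtain ⟨a, ha⟩ := E.1 τ (hGK τ hτ)
    have haf : Psi τ f a := E.2.2.2.2 τ f a ha (Dvd.intro _ rfl) h15
    have hr : Ray f a ⊤ := (hE1 k t f hf0 h15).2.1 τ a ⊤ haf (hft τ hτ)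
    have haM : PrI a (f * 2 ^ (N + 1)) := (((aO6 k t).2.1 _ _ _).1 ha.cop).2
    obtain ⟨h, h1, h2, h3⟩ := In_ray (hpos (N + 1)) (Dvd.intro _ rfl) (by omega) ha.ne haM hr
    have hps : Psi τ (f * 2 ^ (N + 1)) (sp h) := E.2.2.1 τ a (sp h) ha h3
    refine ⟨h, hτ, h1, cop_dvd h2 ?_, ?_⟩
    · rw [pow_succ]
      exact ⟨f * 2 ^ N, by ring⟩
    · refine E.2.2.2.2 τ (f * 2 ^ N) (sp h) hps ?_ (hd N)
      exact Nat.mul_dvd_mul_left f (pow_dvd_pow 2 (Nat.le_succ N))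
  · intro τ h h' c c'
    have hr : Ray (f * 2 ^ N) (sp h) (sp h') :=
      (hE1 k t _ (hpos N) (hd N)).2.1 τ _ _ c.psi c'.psi
    obtain ⟨e, he1, he2⟩ := ((aO7 k t _ (hpos N)).2.2.2.2.2.2.2.1 h h' (In_ne (by omega) c.one)
      (In_ne (by omega) c'.one) (In_cop_full c.one c.cop) (In_cop_full c'.one c'.cop)).1 hr
    have he3 : (f : OO k t) ∣ e - 1 := by
      have e' : e - 1 = -((h - e * h') - (h - 1) + e * (h' - 1)) := by ring
      rw [e']
      exact (dvd_neg).2 (dvd_add (dvd_sub ((hfd N).trans he2) c.one) (Dvd.dvd.mul_left c'.one e))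
    have he4 : e = 1 := (aO7 k t f hf0).2.2.2.2.2.2.2.2.1 e (by omega) he1 he3
    rw [he4, one_mul] at he2
    refine Dvd.dvd.trans ?_ he2
    exact ⟨(f : OO k t), by push_cast; ring⟩
  · intro τ h h' c h1 h2 h3
    refine ⟨c.mem, h1, h3, ?_⟩
    refine (hE1 k t _ (hpos N) (hd N)).2.2.1 τ (sp h) (sp h') c.psi ?_
    refine ((aO7 k t _ (hpos N)).2.2.2.2.2.2.2.1 h h' (In_ne (by omega) c.one)
      (In_ne (by omega) h1) (In_cop_full c.one c.cop) (In_cop_full h1 h3)).2 ⟨1, Nm_one, ?_⟩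
    rw [one_mul]
    refine In_dvd hf ?_ ?_
    · have e : h - h' = (h - 1) - (h' - 1) := by ring
      rw [e]
      exact dvd_sub c.one h1
    · rw [← neg_sub]
      exact (dvd_neg).2 h2
  · intro τ τ' h h' c c'
    refine ⟨mul_mem c.mem c'.mem, ?_, cop_mul c.cop c'.cop, ?_⟩
    · have e : h * h' - 1 = h * (h' - 1) + (h - 1) := by ring
      rw [e]
      exact dvd_add (Dvd.dvd.mul_left c'.one h) c.one
    · have h1 := (hE1 k t _ (hpos N) (hd N)).2.2.2.1 τ τ' _ _ c.psi c'.psi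
      rwa [Ideal.span_singleton_mul_span_singleton] at h1
  · intro τ τ' h c c' x hx
    exact (hLev k t (f * 2 ^ N) (hpos N) (hd N)).2.2.2.2.2 τ (hGK τ c.mem) τ' (hGK τ' c'.mem) _ _
      c.psi c'.psi ((aO7 k t _ (hpos N)).1 _) x hx
  · intro τ h f' N' c h15' hff hNN
    refine ⟨c.mem, ?_, c.cop, ?_⟩
    · obtain ⟨m, hm⟩ := hff
      refine Dvd.dvd.trans ?_ c.one
      exact ⟨(m : OO k t), by rw [hm]; push_cast; ring⟩
    · exact (hE1 k t _ (hpos N) (hd N)).2.2.2.2 τ (f' * 2 ^ N') (sp h) c.psi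
        (Nat.mul_dvd_mul hff (pow_dvd_pow 2 hNN)) (Dvd.dvd.mul_right h15' _)
  · intro x hx τ hτ
    exact hx τ (hGK τ hτ) ⊤ (hft τ hτ) ((aO7 k t f hf0).1 _)
  · intro x hx hx0
    obtain ⟨j, hj⟩ := hK2 P 2 (GK k t) hPp Nat.prime_two ⟨two_ne_zero, by exact_mod_cast hP.2⟩
      (fun g g' hg hg' => In_index hg hg') x hx hx0
    exact ⟨j, hj⟩

end Pool.Agent.DR.GL
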