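import Pool.Agent.Lib.DN.O.All
import Pool.Agent.Lib.DN.GL.Spec
import Pool.Agent.Lib.DL.Spec
import Pool.Agent.Lib.DR.Iface

/-!
# Theorem DR, part GL, first half (author helper89): the fields `K(f 2^N)` at a prime above `2`, `2` ramified

`P` above `2`; `II n t P = P.inertia ∩ Gal(Om/K)`. `f` odd, `15 ∣ f`. `II` acts trivially on the points of order `f` and on the points of order
`f 2^N` as the group of the `h = 1` modulo `f`, prime to `2`, modulo `2^N` (`2^(2N-1)` classes). `z = z0 + d`, `z0` of odd order `f`, `d` of exact order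
`pp^(2N)`: `pH z0 d 1 = X(z) - X(z0)` has the valuation `1/2^(2N)`, its conjugates are the numbers `pH z0 d h = X(z0 + h d) - X(z0)`, and
`v(pH z0 d h - pH z0 d h') = 1/2^(2N-j)` if `h - h'` is in `pp^j`, not in `pp^(j+1)`. The abstract theory (`DL/Spec.lean`) applies with `e = 2`:
`C_Gen`. The total different is `N - 1/2`. Compare `DN/GL/Spec.lean` (2 inert); the modules of `DN/GL` named in the docstrings are proved and can be adapted.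

Tools: `DL/Va.lean` (the valuation `vl P 2`, `GE P 2 q x`; first argument `h2 : Pl P 2`: `⟨two_ne_zero, by exact_mod_cast hP.2⟩`), `DI/Val.lean` (`DI.VP.add`, ...), `DN/Base.lean` (`lam_..`, `tor_..`, `toC_..`, `toO_..`, `cop_..`, `nat_dvd_iff`, `GK_toO`, ...; everything for `[SqN n t]`).
The instance `P.IsPrime`: `have := hP.1.1` for `hP : Ab2 P`; `hP.2 : MP P 2`. PARTS O, L, B ARE PROVED for all imaginary quadratic fields: `DN/O/All.lean` (imported): `aO1 .. aO12` without `aO4`, `aL1 .. aL5`, `aL7`; `DN/B/All.lean` (`aB1 ..`, to be imported where needed).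

RULES: the statement `S_X` is to be proved as `theorem tX : S_X` in the module `Pool/Agent/Lib/DR/GL/X.lean` with the first
lines `import Pool.Agent.Lib.DR.GL.Spec`, `set_option autoImplicit false`, `open scoped Pointwise`, `noncomputable section`,
`namespace Pool.Agent.DR.GL` and the `open` lines of this file. Auxiliary declarations are `private`. Every `C_X` is a statement, `S_X` the
implication from the statements used to `C_X`. All modules are independent.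
-/

set_option autoImplicit false

open scoped Pointwise

noncomputable section

namespace Pool.Agent.DR.GL

open Pool.Agent.MuZ Pool.Agent.FW Pool.Agent.DN
open Pool.Agent.DI (io ofC io_inj exists_io io_ofC ofC_io VP MP UP TP ex)
open Pool.Agent.DN.GL (EE pH IsR)
open Pool.Agent.DL (vl GE Pl Fi Fp Cn Cf dl Gen Dr LD)

variable {n t : ℕ}

/-! ## Definitions -/

/-- The inertia elements in `Gal(Om/K)`. -/
def II (n t : ℕ) (P : Ideal ZZ) : Subgroup Gal(Om/ℚ) := P.inertia Gal(Om/ℚ) ⊓ GK n t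

/-- The element `s` of `II` acts on the torsion of level `f 2 ^ N` as `h`, `h = 1` modulo `f`. -/
structure Cls (P : Ideal ZZ) (f N : ℕ) (h : OO n t) (s : Gal(Om/ℚ)) : Prop where
  mem : s ∈ II n t P
  one : (f : OO n t) ∣ h - 1
  cop : Cop h 2
  psi : Psi s (f * 2 ^ N) (sp h)

/-- The point `z0 + d`: `z0` of odd order, `d` of exact order `pp ^ (2 N)`. -/
structure Pt (n t f N : ℕ) (z0 d : ℂ) : Prop where
  odd : Odd f
  f15 : 15 ∣ f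
  pos : 1 ≤ N
  z : (f : ℂ) * z0 ∈ Lam (⊤ : Ideal (OO n t))
  zn : z0 ∉ Lam (⊤ : Ideal (OO n t))
  dd : (2 : ℂ) ^ N * d ∈ Lam (⊤ : Ideal (OO n t))
  dn : toC (pO n t) * ((2 : ℂ) ^ (N - 1) * d) ∉ Lam (⊤ : Ideal (OO n t))

/-- The units: `h = 1` modulo `f`, `h` prime to `2`. -/
def Un (f : ℕ) (h : OO n t) : Prop := (f : OO n t) ∣ h - 1 ∧ Cop h 2

/-- `S` is the set of the `pH z0 d h`, `h` with the property `C`. -/
def Orb (z0 d : ℂ) (C : OO n t → Prop) (S : Finset Om) : Prop :=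
  ∀ x : Om, x ∈ S ↔ ∃ h : OO n t, C h ∧ pH z0 d h = x

/-- The group `H_N` at `2`: `h = 1` modulo `f`, `h` prime to `2`, `N h = ± 1` modulo `2 ^ N`. -/
def Hn (f N : ℕ) (h : OO n t) : Prop :=
  (f : OO n t) ∣ h - 1 ∧ Cop h 2 ∧ ((2 : ℤ) ^ N ∣ Nm h - 1 ∨ (2 : ℤ) ^ N ∣ Nm h + 1)

/-- The subgroup of the `h` which are `1` modulo `2 ^ 10`. -/
def Hs (f N : ℕ) (h : OO n t) : Prop := Hn f N h ∧ ((2 ^ 10 : ℕ) : OO n t) ∣ h - 1

/-- **The derivation** modulo `2 ^ (N - 1/2)`: `X(z) ↦ W(z)`, `z = z0 + d`. -/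
abbrev Dn (n t : ℕ) (P : Ideal ZZ) (N : ℕ) (z0 d : ℂ) (x y : Om) : Prop :=
  Dr P 2 (II n t P) (pH z0 d (1 : OO n t)) (N - 1 / 2) (vO (⊤ : Ideal (OO n t)) (z0 + d)) x y

/-- The logarithmic derivative of units. -/
abbrev LDn (n t : ℕ) (P : Ideal ZZ) (N : ℕ) (z0 d : ℂ) (x y : Om) : Prop :=
  LD P 2 (II n t P) (pH z0 d (1 : OO n t)) (N - 1 / 2) (vO (⊤ : Ideal (OO n t)) (z0 + d)) x y

/-! ## The fields `EE M` -/

/-- Levels and elements. -/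
def C_Lev : Prop :=
  ∀ (n t : ℕ) [Rmf n t] (M : ℕ), 0 < M → 15 ∣ M →
    (∀ M' : ℕ, 0 < M' → M ∣ M' → EE n t M ≤ EE n t M') ∧
    (∀ v : OO n t, toO v ∈ EE n t M) ∧
    (∀ b : Ideal (OO n t), G15 b → a1O b ∈ EE n t M ∧ a3O b ∈ EE n t M ∧
      (∀ z : ℂ, (M : ℂ) * z ∈ Lam b → xO b z ∈ EE n t M ∧ vO b z ∈ EE n t M) ∧
      ∀ c : Ideal (OO n t), G15 c → rO b c ∈ EE n t M) ∧
    (∀ ζ : Om, ζ ^ M = 1 → ζ ∈ EE n t M) ∧
    (∀ m b : Ideal (OO n t), m ≠ ⊥ → G15 b → PrI m 2 → PrI m 15 → NI m ∣ M →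
      ∀ z : ℂ, (M : ℂ) * z ∈ Lam b →
        (z ∉ Lam (m * b) → gO m b z ∈ EE n t M) ∧ Theta m b z ∈ EE n t M) ∧
    ∀ τ ∈ GK n t, ∀ τ' ∈ GK n t, ∀ a a' : Ideal (OO n t), Psi τ M a → Psi τ' M a' → Ray M a a' →
      ∀ x ∈ EE n t M, τ x = τ' x

/-- (150 lines) **Lev** (from E1, E6, E10). Adapt `DN/GL/Lev.lean` (the first five items) and the third item of `DN/GL/Gal.lean` (the last item; proof: `σ = τ'⁻¹ * τ ∈ GK`, `Psi τ'⁻¹ M a''` (S_E1, 1), `Psi (τ'⁻¹ * τ') M (a'' a')` and `Psi 1 M ⊤` give `Ray M (a'' a') ⊤` (S_E1, 2); `Psi σ M (a'' a)`, `Ray M (a'' a) (a'' a')`, so `Ray M (a'' a) ⊤` and `σ x = x`). -/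
def S_Lev : Prop := S_E1 → S_E6 → S_E10 → C_Lev

/-! ## Inertia elements and points -/

/-- The elements of `II` have classes; constants; valuations of constants. -/
def C_In : Prop :=
  ∀ (n t : ℕ) [Rmf n t] (P : Ideal ZZ), Ab2 P → ∀ f N : ℕ, Odd f → 15 ∣ f →
    (∀ τ ∈ II n t P, ∃ h : OO n t, Cls P f N h τ) ∧
    (∀ (τ : Gal(Om/ℚ)) (h h' : OO n t), Cls P f N h τ → Cls P f N h' τ → ((2 ^ N : ℕ) : OO n t) ∣ h - h') ∧
    (∀ (τ : Gal(Om/ℚ)) (h h' : OO n t), Cls P f N h τ → (f : OO n t) ∣ h' - 1 →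
      ((2 ^ N : ℕ) : OO n t) ∣ h' - h → Cop h' 2 → Cls P f N h' τ) ∧
    (∀ (τ τ' : Gal(Om/ℚ)) (h h' : OO n t), Cls P f N h τ → Cls P f N h' τ' → Cls P f N (h * h') (τ * τ')) ∧
    (∀ (τ τ' : Gal(Om/ℚ)) (h : OO n t), Cls P f N h τ → Cls P f N h τ' →
      ∀ x ∈ EE n t (f * 2 ^ N), τ x = τ' x) ∧
    (∀ (τ : Gal(Om/ℚ)) (h : OO n t) (f' N' : ℕ), Cls P f N h τ → 15 ∣ f' → f' ∣ f → N' ≤ N →
      Cls P f' N' h τ) ∧
    (∀ x ∈ EE n t f, Fi (II n t P) x) ∧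
    ∀ x : Om, Fi (II n t P) x → x ≠ 0 → ∃ j : ℤ, vl P 2 x = j / 2

/-- (160 lines) **In** (from K2, E1, E4, Lev). Adapt `DN/GL/In.lean`: there the first item was proved with `τ ∈ GK` from Unr (now it is part of `II`), and `Psi τ f ⊤` from S_E4 (its first half for the prime `P`, `MP P 2`). Item (5): the last item of Lev. Item (7): `x ∈ EE n t f`, `τ ∈ II`: `Psi τ f ⊤` (S_E4), `Ray f ⊤ ⊤`, so `τ x = x` by the definition of `EE`. Item (8): `DL.C_K2` with `p = 2`, `G = GK n t`: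
`GK n t` has index at most two: for `g ∉ GK n t`: `g (wO) = -wO` (`wO ^ 2 = -n`, `t = 0`; `mem_GK_iff`), so `g g' (wO) = wO` if `g, g' ∉ GK n t`. -/
def S_In : Prop := DL.C_K2 → S_E1 → S_E4 → C_Lev → C_In

/-- The action on points. -/
def C_Act : Prop :=
  ∀ (n t : ℕ) [Rmf n t] (P : Ideal ZZ), Ab2 P → ∀ (f N : ℕ) (h : OO n t) (τ : Gal(Om/ℚ)), Odd f → 15 ∣ f →
    Cls P f N h τ → ∀ b : Ideal (OO n t), G15 b →
      τ (a1O b) = a1O b ∧ τ (a3O b) = a3O b ∧ (∀ c : Ideal (OO n t), G15 c → τ (rO b c) = rO b c) ∧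
      (∀ z : ℂ, ((f * 2 ^ N : ℕ) : ℂ) * z ∈ Lam b →
        τ (xO b z) = xO b (toC h * z) ∧ τ (vO b z) = vO b (toC h * z)) ∧
      (∀ z : ℂ, (f : ℂ) * z ∈ Lam b → τ (xO b z) = xO b z ∧ τ (vO b z) = vO b z) ∧
      (∀ ζ : Om, ζ ^ 2 ^ N = 1 → τ ζ = ζ ^ (Nm h).toNat) ∧
      ∀ m : Ideal (OO n t), m ≠ ⊥ → PrI m 2 → PrI m 15 → NI m ∣ f →
        ∀ z : ℂ, ((f * 2 ^ N : ℕ) : ℂ) * z ∈ Lam b →
          (z ∉ Lam (m * b) → τ (gO m b z) = gO m b (toC h * z)) ∧ τ (Theta m b z) = Theta m b (toC h * z)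

/-- (140 lines) **Act** (from R1, D8, E6, E10). Adapt `DN/GL/Act.lean` (`aB1`, `aB7` are proved: `import Pool.Agent.Lib.DN.B.All`). -/
def S_Act : Prop := S_R1 → S_D8 → S_E6 → S_E10 → C_Act

open Classical in
/-- Finite sets of representatives modulo `2 ^ N`; `pp`-adic levels. -/
def C_Rep : Prop :=
  ∀ (n t : ℕ) [Rmf n t] (N : ℕ), 1 ≤ N → (∀ C : OO n t → Prop, ∃ T : Finset (OO n t), IsR N C T) ∧
    (∀ (C : OO n t → Prop) (T T' : Finset (OO n t)), IsR N C T → IsR N C T' → T.card = T'.card) ∧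
    (∀ (v : OO n t) (i : ℕ), (v ∈ pp n t ^ (2 * i) ↔ ((2 ^ i : ℕ) : OO n t) ∣ v)) ∧
    (∀ (v u : OO n t) (j : ℕ), Cop u 2 → (u * v ∈ pp n t ^ j ↔ v ∈ pp n t ^ j)) ∧
    ∀ f : ℕ, Odd f → ∀ T : Finset (OO n t), IsR N (Un f) T → T.card = 2 ^ (2 * N - 1) ∧
      (∀ h ∈ T, ∀ h' ∈ T, h - h' ∈ pp n t ^ 1) ∧
      ∀ h0 ∈ T, ∀ j : ℕ, 1 ≤ j → j ≤ 2 * N → (T.filter (fun h => h - h0 ∈ pp n t ^ j)).card = 2 ^ (2 * N - j)

/-- (220 lines) **Rep** (from O4). Items (1), (2): as in `DN/GL/Rep.lean` (copy). (3) `pp * pp = sp 2` (S_O4), so `pp ^ (2 i) = sp 2 ^ i = sp (2 ^ i)`, `Ideal.mem_span_singleton`. (4) `u v ∈ pp^j` implies `v ∈ pp^j` for `u ∉ pp` (`Cop u 2 ↔ u ∉ pp`): `sp u ⊔ pp = ⊤` (`pp` is maximal: prime and not `⊥`, or `NI pp = 2`), so `sp u ⊔ pp ^ j = ⊤` (`Ideal.IsCoprime.pow_right`): `1 = a u + b`, `v = a (u v) + b v`.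
(5) Differences: `u, u' ∉ pp`, `NI pp = 2`: `u - u' ∈ pp` (S_O4: `Cop v 2` iff `2 ∣ v - 1` or `2 ∣ v - (1 + pO)`). COUNTING: by (2) and translation it is enough to count pairs: the condition modulo `f` can always be satisfied (`h + 2^N c`, `f` odd). `j = 2 i`, `1 ≤ i`: `2^i ∣ h - h0`: the classes of `h0 + 2^i u`, `u` modulo `2^(N-i)`: `4^(N-i)` (pairs modulo `2^(N-i)`).
`j = 2 i + 1`, `i < N`: `h - h0 = 2^i u` with `u ∈ pp` (from (3) and `pp ^ (2 i + 1) = sp (2^i) * pp`), `u` modulo `2^(N-i)`; `u ∈ pp` iff `2 ∣ u` or `2 ∣ u - pO`: half of the pairs modulo `2^(N-i)` (`u ↦ u + 1` exchanges the two halves: `NI pp = 2`): `4^(N-i)/2 = 2^(2N - j)`. For `j = 1`: all of `T` (first claim), `4^N/2`: `h ∉ pp` half of the pairs. -/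
def S_Rep : Prop := S_O4 → C_Rep

/-- Valuations at the conjugates. -/
def C_Pi : Prop :=
  ∀ (n t : ℕ) [Rmf n t] (P : Ideal ZZ), Ab2 P → ∀ (f N : ℕ) (z0 d : ℂ), Pt n t f N z0 d →
    (∀ h : OO n t, Cop h 2 → pH z0 d h ∈ EE n t (f * 2 ^ N) ∧ pH z0 d h ≠ 0 ∧
      vl P 2 (pH z0 d h) = 1 / 2 ^ (2 * N) ∧
      ¬ IK P (⊤ : Ideal (OO n t)) (z0 + toC h * d) ∧ VP P (xO (⊤ : Ideal (OO n t)) (z0 + toC h * d)) ∧
      UP P (vO (⊤ : Ideal (OO n t)) (z0 + toC h * d))) ∧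
    Cn P (II n t P) (xO (⊤ : Ideal (OO n t)) z0) ∧ Cn P (II n t P) (a1O (⊤ : Ideal (OO n t))) ∧
    Cn P (II n t P) (a3O (⊤ : Ideal (OO n t))) ∧
    (∀ h h' : OO n t, ((2 ^ N : ℕ) : OO n t) ∣ h - h' → pH z0 d h = pH z0 d h') ∧
    (∀ (h h' : OO n t) (j : ℕ), Cop h 2 → Cop h' 2 → j < 2 * N → h - h' ∈ pp n t ^ j →
      h - h' ∉ pp n t ^ (j + 1) →
      pH z0 d h ≠ pH z0 d h' ∧ vl P 2 (pH z0 d h - pH z0 d h') = 1 / 2 ^ (2 * N - j)) ∧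
    ∀ (f' : ℕ) (h h' : OO n t) (τ : Gal(Om/ℚ)), Odd f' → f ∣ f' → Cls P f' N h τ →
      τ (pH z0 d h') = pH z0 d (h * h')

/-- (200 lines) **Pi** (from O4, R1, R2, D1, D2, D10, Lev, In, Act). Compare `DN/GL/Pi.lean`. KEY: for `v : OO`: `v d ∈ Lam (pp ^ i)` iff `pp ^ i * sp v` annihilates `d` modulo `O`. The annihilator `J = {v | v d ∈ O}` of `d` modulo `O = Lam ⊤` is an ideal which contains `2^N`, i.e. `sp (2^N) = pp^(2N)`, and does not contain `pO * 2^(N-1)`, which is in `pp^(2N-1)` (`pO ∈ pp`). By S_O4 (last item)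
`J = pp^i * a'` with `PrI a' 2`, and `pp^(2N) ≤ J` gives `a' = ⊤`, `i ≤ 2N`; `J ≠ pp^(2N)` would give `pp^(2N-1) ≤ J`: contradiction. So `v d ∈ O ↔ v ∈ pp^(2N)`. Hence for `v ∈ pp^j`, `v ∉ pp^(j+1)` (`j < 2N`): `v d ∈ Lam (pp^(2N-j))` (all `u ∈ pp^(2N-j)`: `u v ∈ pp^(2N)`), `v d ∉ Lam (pp^(2N-j-1))` (otherwise `pp^(2N-j-1) v ⊆ pp^(2N)`; write `sp v = pp^j a''`, `PrI a'' 2`:
`pp^(2N-1) a'' ≤ pp^(2N)`, so `pp` divides `a''`: contradiction; or with the element `pO` of exact level one: `pO^(2N-j-1) v ∈ pp^(2N)`; Rep (4) is useful: `pO^2 = 2 *` unit at `2`). `z0` is not in the kernel of reduction: S_D2 (fifth item), `z0` is not `P`-primary (`f z0 ∈ O`, `f` odd, `z0 ∉ O`: take `α = f`, `β = 1` in `Qp`). `h d` is in the kernel (S_D2 (1)), so `z0 + h d` is not (S_D1), S_D2 (4): `VP`, `UP`.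
S_D10 at `z0` with `j = 2N - 1` and the point `h d ∈ Lam (pp^(2N))`, `∉ Lam (pp^(2N-1))`: `UP (pH^(2^(2N))/2)`: `vl` (`vl_eq` with `a = 1`), `≠ 0`. `Cn`: Lev (level `f`), In (7), S_R2 (`GQ`: `a1O`, `a3O` integral), S_D2 (4) for `z0`. Differences: `z0 + h d = (z0 + h' d) + (h - h') d`, `(h - h') d` has exact order `pp^(2N-j)`: S_D10 at `z0 + h' d` with `2N - j - 1`. Equal classes: `(h - h') d ∈ O`,
periods (`aB1` (1) through S_R1 or `ofC`; `DN/GL/Pi.lean` has this). The action: Act for `b = ⊤` at `z0 + h' d` (level `f'`): `h (z0 + h' d) = z0 + h h' d` modulo `O` (`(h - 1) z0 ∈ O` since `f ∣ h - 1`), and `τ (xO ⊤ z0) = xO ⊤ z0`. -/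
def S_Pi : Prop := S_O4 → S_R1 → S_R2 → S_D1 → S_D2 → S_D10 → C_Lev → C_In → C_Act → C_Rep → C_Pi

/-- **Total ramification**: every class is the class of an element of `II`. -/
def C_Sur : Prop :=
  ∀ (n t : ℕ) [Rmf n t] (P : Ideal ZZ), Ab2 P → ∀ f N : ℕ, Odd f → 15 ∣ f → 1 ≤ N →
    ∀ h : OO n t, (f : OO n t) ∣ h - 1 → Cop h 2 → ∃ τ : Gal(Om/ℚ), Cls P f N h τ

/-- (120 lines) **Sur** (from O4, In, Rep, Pi). PROOF. `z0 = 1/f`, `d = 1/2^N`: `Pt n t f N z0 d` (`1/f ∉ O`, `pO 2^(N-1)/2^N = pO/2 ∉ O`: `aL6`-like; `toC (pO)/2 = toC u` gives `pO = 2 u` (`toC` injective), but `pO.im = 1`). `T` a system for `Un f` (Rep), `T' ⊆ T` the set of the `h ∈ T` which are the class of an element of `II` (for `f, N`). `y = ∏_(h ∈ T') pH z0 d h ≠ 0` (Pi).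
Every `σ ∈ II` fixes `y`: `Cls P f N h0 σ` (In (1)), `σ (pH z0 d h) = pH z0 d (h0 h)` (Pi), and `h ↦` the representative in `T` of `h0 h` maps `T'` to `T'` (In (3), (4)), injectively (`2^N ∣ h0 (h - h')`, `h0` prime to `2`: `cop_inv`), `pH` depends only on the class modulo `2^N`. In (8): `v(y) = card T' / 2^(2N) = j/2`, `j : ℤ`, `card T' ≥ 1` (the representative of `1`: `σ = 1`, `Psi 1 (f 2^N) ⊤`,
`⊤ = sp 1`; In (3)). So `card T' = j 2^(2N-1) ≥ 2^(2N-1) = card T` (Rep) and `T' = T`. For `h` as in the claim take its representative `h1 ∈ T`, an element with the class `h1`, and In (3). -/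
def S_Sur : Prop := S_O4 → C_In → C_Rep → C_Pi → C_Sur

/-- **Gen.** The abstract theory applies. -/
def C_Gen : Prop :=
  ∀ (n t : ℕ) [Rmf n t] (P : Ideal ZZ), Ab2 P → ∀ (f N : ℕ) (z0 d : ℂ), Pt n t f N z0 d →
    (∃ S : Finset Om, Orb z0 d (Un (n := n) (t := t) f) S) ∧
    (∀ S : Finset Om, Orb z0 d (Un (n := n) (t := t) f) S →
      Gen P 2 2 (II n t P) S (pH z0 d (1 : OO n t)) ∧ S.card = 2 ^ (2 * N - 1) ∧
      vl P 2 (dl S (pH z0 d (1 : OO n t))) = N - 1 / 2 ∧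
      ∀ C : OO n t → Prop, (∀ h, C h → Un f h) → C 1 → ∃ S' : Finset Om, Orb z0 d C S' ∧ S' ⊆ S ∧
        pH z0 d (1 : OO n t) ∈ S' ∧ dl S' (pH z0 d (1 : OO n t)) ≠ 0 ∧
        0 ≤ vl P 2 (dl S' (pH z0 d (1 : OO n t))) ∧ vl P 2 (dl S' (pH z0 d (1 : OO n t))) ≤ N - 1 / 2) ∧
    (∀ f' : ℕ, Odd f' → f ∣ f' → ∀ x ∈ EE n t (f' * 2 ^ N), Fp (II n t P) (pH z0 d (1 : OO n t)) x) ∧
    (∀ f' : ℕ, Odd f' → 15 ∣ f' → ∀ x ∈ EE n t f', Fi (II n t P) x) ∧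
    ∀ f' : ℕ, Odd f' → f ∣ f' → ∀ (σ : Gal(Om/ℚ)) (h : OO n t), Cls P f' N h σ →
      (σ (pH z0 d (1 : OO n t)) = pH z0 d h ∧
        (σ (pH z0 d (1 : OO n t)) = pH z0 d (1 : OO n t) ↔ ((2 ^ N : ℕ) : OO n t) ∣ h - 1))

/-- (220 lines) **Gen** (from In, Act, Rep, Pi, Sur). PROOF. `π_h = pH z0 d h`, it depends only on `h` modulo `2^N` and for `h, h'` prime to `2`: `π_h = π_h'` iff `2^N ∣ h - h'` (Pi (6): if not `2^N ∣ h - h'`, i.e. `h - h' ∉ pp^(2N)` (Rep (3)), let `j < 2N` be maximal with `h - h' ∈ pp^j`). `S`: the image under `π` of a system `T` for `Un f` (Rep); injective, so `card S = 2^(2N-1)`. `Gen`: `prime`, `pl`: `hP`; `ine`, `val`: In (8); `mem`: `h = 1`;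
`stab`: `σ ∈ II` has a class `h0` (In (1)), `σ π_h = π_(h0 h)` (Pi (7)); `tra`: Sur, `σ π_1 = π_h`; `ab`: `σ π_1 = π_(h0) = π_1` gives `2^N ∣ h0 - 1`, `σ π_h = π_(h0 h) = π_h`; `ne`, `vpi`: Pi (1), `1/2^(2N) = 1/(2 * 2^(2N-1))`. DIFFERENT: `vl (dl S π) = ∑_(h ∈ T, h ≠ h1) v(π_(h1) - π_h)`, `h1 ∈ T` with `2^N ∣ h1 - 1` (`vl_prod`; `dl`: the erased element is `π_1 = π_(h1)`). The number of `h ∈ T` with
`h - h1 ∈ pp^j`, `∉ pp^(j+1)` is `2^(2N-j) - 2^(2N-j-1) = 2^(2N-j-1)` for `1 ≤ j < 2N` (Rep), each has the valuation `1/2^(2N-j)`: the sum is `(2N-1)/2` (`Finset.sum_fiberwise` over the level, or: `1/2^(2N-j) = 1/2^(2N-1) + ∑_(i = 2)^(j) 1/2^(2N-i+1)` and exchange the sums as in `DN/GL/Sum.lean`). `S'`: `S.filter`; `dl S' π ∣ dl S π` with integral quotient: differences of elements of `S` are integral (`VP π_h`),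
not `0`. (3) `x ∈ EE (f' 2^N)`, `σ ∈ II`, `σ π = π`: `Cls P f' N h0 σ` (In (1) for `f'`), `σ π_1 = π_(h0)` (Pi (7)), so `2^N ∣ h0 - 1`, `Cls P f' N 1 σ` (In (3)), as `Cls P f' N 1 1` (`Psi 1 M ⊤`): `σ x = x` (In (5)). (4) In (7). (5) Pi (7), (6). -/
def S_Gen : Prop := C_In → C_Act → C_Rep → C_Pi → C_Sur → C_Gen

/-! ## The group `H_N` -/

/-- **HD.** The number `D(H) = v(dl SH π)` is at most `9`, and `D(H) - D(H2)` is small. -/
def C_HD : Prop :=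
  ∀ (n t : ℕ) [Rmf n t] (P : Ideal ZZ), Ab2 P → ∀ (f N : ℕ) (z0 d : ℂ), Pt n t f N z0 d → 12 ≤ N →
    ∀ SH SH2 : Finset Om, Orb z0 d (Hn (n := n) (t := t) f N) SH → Orb z0 d (Hs (n := n) (t := t) f N) SH2 →
      vl P 2 (dl SH (pH z0 d (1 : OO n t))) ≤ 9 ∧
      vl P 2 (dl SH (pH z0 d (1 : OO n t))) ≤ vl P 2 (dl SH2 (pH z0 d (1 : OO n t))) + 2 ^ 21 / 2 ^ N

/-- (240 lines) **HD** (from O4, Rep, Pi). PROOF. `T` a system for `Hn f N` modulo `2^N` (Rep), `h1 ∈ T` with `2^N ∣ h1 - 1`; `SH` is the image of `T` under the injective map `h ↦ π_h` (Pi (5), (6), Rep (3)), `D(H) = ∑_(h ∈ T, h ≠ h1) v(π_(h1) - π_h)`, a term with `h - h1 ∈ pp^j`, `∉ pp^(j+1)` is `2^(j - 2N)`. `SH2` is the image of the `h ∈ T` with `2^10 ∣ h - 1`. COUNT. `n_i = #{h ∈ T : 2^i ∣ h - 1}`.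
(a) `n_i ≤ 2^(N-i+1)` for `2 ≤ i ≤ N`: for `i ≤ N - 1` the map `(h, a) ↦ h (1 + 2^i a)`, `a < 2^(N-i-1)`, into the classes modulo `2^N` of the elements `1` modulo `2^i` and modulo `f` (make `a` a multiple of `f`: use `1 + 2^i f a`; there are `4^(N-i)` classes: Rep with `j = 2 i`) is injective: equal classes have equal norms modulo `2^N`; `N h = 1` modulo `2^N` (as `4 ∣ h - 1` and `N h = -1` modulo `4` is impossible),
so `(1 + 2^i f a)^2 = (1 + 2^i f b)^2` modulo `2^N`, `2^(i+1) f (a - b)(1 + 2^(i-1) f (a + b)) = 0` modulo `2^N`, `2^(N-i-1) ∣ a - b`, `a = b`; then `h (1 + 2^i f a) = h' (1 + 2^i f a)` modulo `2^N`, `h = h'`. So `n_i 2^(N-i-1) ≤ 4^(N-i)`. `n_N = 1`. (b) `card T ≤ 2^(N+2)`: the same with `(h, a) ↦ h (1 + 4 f a)`, `a < 2^(N-3)`, into all `2^(2N-1)` classes of `Un f`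
(`N h (1 + 4fa)^2 = N h' (1 + 4fb)^2`, `N h, N h' = ± 1`: the signs agree modulo `4`). SUMS. A term with `2^i ∣ h - 1`, not `2^(i+1) ∣ h - 1` has level `2 i` or `2 i + 1`: it is at most `2^(2i+1-2N)`. `D(H) ≤ card T * 2^(3-2N) + ∑_(i=2)^(N-1) n_i 2^(2i+1-2N) ≤ 2^(5-N) + ∑ 2^(i+2-N) ≤ 1 + 4`. `D(H) - D(H2)`: the terms with not `2^10 ∣ h - 1`: level at most `19`: at most `card T * 2^(19-2N) ≤ 2^(21-N)`. -/
def S_HD : Prop := S_O4 → C_Rep → C_Pi → C_HD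

/-! ## Traces -/

/-- **TrT.** The trace over all classes. -/
def C_TrT : Prop :=
  ∀ (n t : ℕ) [Rmf n t] (P : Ideal ZZ), Ab2 P → ∀ f N : ℕ, Odd f → 15 ∣ f → 1 ≤ N →
    ∀ (T : Finset (OO n t)) (s : OO n t → Gal(Om/ℚ)), IsR N (Un f) T → (∀ h ∈ T, Cls P f N h (s h)) →
      ∀ x : Om, (∀ σ : Gal(Om/ℚ), Cls P f N (1 : OO n t) σ → σ x = x) → VP P x →
        GE P 2 (N - 1 / 2) (∑ h ∈ T, s h x)

/-- (90 lines) **TrT** (from TrH, In, Rep, Gen). PROOF. `z0 = 1/f`, `d = 1/2^N`, `Pt` (see S_Sur), `S` (Gen). `DL.C_TrH` with `SH = {π}`, `dl SH π = 1`, `vl 1 = 0`; `l = toO (pO n t) ^ (2 N - 1)`: `v(toO pO) = 1/2` (`pO^2 = 2 *` a unit at `2`: `NI`/norm: `Nm pO = 2` modulo `4`, `toO pO * toO (cjO pO) = Nm pO`, and `toO (cjO pO)/toO pO` is a unit: `pO^2 ∣ 2`-type computation with S_O4: `sp pO = pp * c`, `c` prime to `2`),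
`v(l) = N - 1/2`, `Fi l` (`toO v` is fixed by `GK`: `GK_toO`). `Fp x`: `σ ∈ II`, `σ π = π`: class `1` (Gen (5), In (1), (3)). `GE 0 x`. The bijection: `ι = OO n t`, `i ↦ s_i π = π_i` from `T` onto `S` (Gen, Rep). -/
def S_TrT : Prop := DL.C_TrH → S_O4 → C_In → C_Rep → C_Gen → C_TrT

/-- **TrN.** The trace over the norm classes of an element fixed by the elements of `II` with class in `H_N`. -/
def C_TrN : Prop :=
  ∀ (n t : ℕ) [Rmf n t] (P : Ideal ZZ), Ab2 P → ∀ (f N : ℕ) (z0 d : ℂ), Pt n t f N z0 d →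
    ∀ (SH : Finset Om), Orb z0 d (Hn (n := n) (t := t) f N) SH → ∀ (f' : ℕ), Odd f' → f ∣ f' →
    ∀ (A : Finset ℕ) (s : ℕ → Gal(Om/ℚ)),
      (∀ a ∈ A, ∃ h : OO n t, Cls P f' N h (s a) ∧ (2 : ℤ) ^ N ∣ Nm h - a) →
      (∀ h : OO n t, Cop h 2 → (f' : OO n t) ∣ h - 1 → ∃ a ∈ A, (2 : ℤ) ^ N ∣ Nm h - a ∨ (2 : ℤ) ^ N ∣ Nm h + a) →
      (∀ a ∈ A, ∀ a' ∈ A, ((2 : ℤ) ^ N ∣ (a : ℤ) - a' ∨ (2 : ℤ) ^ N ∣ (a : ℤ) + a') → a = a') →
      ∀ z : Om, (∀ (σ : Gal(Om/ℚ)) (h : OO n t), Cls P f' N h σ → Hn f' N h → σ z = z) →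
        GE P 2 (1 / 2 + vl P 2 (dl SH (pH z0 d (1 : OO n t)))) z → GE P 2 N (∑ a ∈ A, s a z)

/-- (150 lines) **TrN** (from TrH, In, Rep, Pi, Sur, Gen). PROOF. `DL.C_TrH` with `l = 2^N` (`vl = N`, `Fi`), `S` from Gen: the exponent is `N - (N - 1/2) + v(dl SH π)`. `Fp z`: `σ ∈ II` with `σ π = π` has a class `h` for `f'` with `2^N ∣ h - 1` (Gen (5)), so `Hn f' N h`. `r ∈ SH`: `r = π_h`, `Hn f N h`; let `h'` be congruent to `h` modulo `2^N` and to `1` modulo `f'` (`f'` odd), `Cls P f' N h' σ` (Sur), `σ π = π_(h') = r`, `Hn f' N h'` (`Nm_congr`),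
`σ z = z`, and `σ π_u = π_(h' u) ∈ SH` for `Hn f N u` (`Hn f N (h' u)`: norms multiply, `± 1 * ± 1`). COVER: `r = π_u ∈ S`, `Un f u`, `u'` congruent to `u` modulo `2^N`, `1` modulo `f'`; `a ∈ A` with `Nm u' = ± a` modulo `2^N`, `Cls P f' N h (s a)`, `Nm h = a`: let `h v = 1` modulo `2^N f'` (`cop_inv`), `r' = π_(v u')`: `Hn f N (v u')` and `s a r' = π_(h v u') = π_u`. UNIQUENESS: `s_a π_u = s_(a') π_(u')`
with `Hn u`, `Hn u'`: `2^N ∣ h u - h' u'` (Gen/Pi (6)), norms: `± a = ± a'` modulo `2^N`, so `a = a'`. -/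
def S_TrN : Prop := DL.C_TrH → C_In → C_Rep → C_Pi → C_Sur → C_Gen → C_TrN

/-! ## The composition -/

/-- The inputs of this file. -/
structure GLIn : Prop where
  O4 : S_O4
  R1 : S_R1
  R2 : S_R2
  D1 : S_D1
  D2 : S_D2
  D8 : S_D8
  D10 : S_D10
  E1 : S_E1
  E4 : S_E4
  E6 : S_E6
  E10 : S_E10

/-- The output of this file. -/
structure GLOut : Prop where
  Lev : C_Lev
  In : C_In
  Act : C_Act
  Rep : C_Rep
  Pi : C_Pi
  Sur : C_Sur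
  Gen : C_Gen
  HD : C_HD
  TrT : C_TrT
  TrN : C_TrN

theorem asmGL (o : DL.Out) (i : GLIn) (lev : S_Lev) (inn : S_In) (act : S_Act) (rep : S_Rep) (pi : S_Pi)
    (sur : S_Sur) (gen : S_Gen) (hd : S_HD) (trt : S_TrT) (trn : S_TrN) : GLOut :=
  have Lev := lev i.E1 i.E6 i.E10
  have In := inn o.K2 i.E1 i.E4 Lev
  have Act := act i.R1 i.D8 i.E6 i.E10
  have Rep := rep i.O4
  have Pi := pi i.O4 i.R1 i.R2 i.D1 i.D2 i.D10 Lev In Act Rep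
  have Sur := sur i.O4 In Rep Pi
  have Gen := gen In Act Rep Pi Sur
  { Lev := Lev
    In := In
    Act := Act
    Rep := Rep
    Pi := Pi
    Sur := Sur
    Gen := Gen
    HD := hd i.O4 Rep Pi
    TrT := trt o.TrH i.O4 In Rep Gen
    TrN := trn o.TrH In Rep Pi Sur Gen }

end Pool.Agent.DR.GL
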