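import Pool.Agent.Lib.DR.GL.Spec
import Pool.Agent.Lib.DL.Tow2
import Pool.Agent.Lib.DN.GL.Ram
import Pool.Agent.Lib.DR.IfaceL

/-!
# Theorem DR, part GL, second half (author helper89): the elliptic units and the local step

`z = z0 + d = 1/(f 2^N)` (`PtN`), `z0` of odd order `f`, `d` of exact order `pp ^ (2 N)`. `Dn` is the derivation modulo `2^(N - 1/2)` of `GL/Spec.lean` (`X(z) ↦ W(z)` for the curve `ℂ / O`), `LDn` its
logarithmic form. This file: the derivation on the numbers `X(z + u)`, `X_c(h z)`, `Theta(c, h z)` and on the elliptic units `uN f N m T c`, the semilinear action of the inertia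
elements outside of `Gal(Om/K)`, the square root in `L'_N`; the results are `LS0`, `LSA`, `LSB`, `Sub`, `Tp` (used by the part LS). `dv .. SH` is the valuation of the different of the orbit `SH`.

Tools. `DL/Va.lean` (the valuation `vl P 2`, `GE P 2 q x`; first argument `pl2 hP : Pl P 2` (below); instance: `have := hP.1.1` for `hP : Ab2 P`), `DL/Spec.lean` (the abstract theory; all its
statements will be available: they are hypotheses `DL.C_X` here), `gen0`, `genH` (below: how to get the structure `DL.Gen`), `DN/Base.lean` (`lam_add`, `lam_neg`, `lam_sub`, `lam_mul`, `lam_sp`, `lam_prod`, `lam_top`, `lam_mono`, `tor_iff`, `toC_..`, `toO_..`, `cop_..`),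
`DI/Val.lean` (`VP.add`, `UP.mul`, `MP.of_pow`, ...). THE PARTS O, L, B ARE PROVED: `DN/O/All.lean` (imported): `aO1 .. aO12` without `aO4`, `aL1 .. aL5`, `aL7`; `DN/B/All.lean` (to be imported where needed): `aB1 .. aB16`. The abstract tower `DL.C_RSq` is `DL/Tow2.lean`.

RULES: the statement `S_X` is to be proved as `theorem tX : S_X` in the module `Pool/Agent/Lib/DR/GL/X.lean` with the first
lines `import Pool.Agent.Lib.DR.GL.SpecB`, `set_option autoImplicit false`, `open scoped Pointwise`, `noncomputable section`,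
`namespace Pool.Agent.DR.GL` and the `open` lines of this file. Auxiliary declarations are `private`. Every `C_X` is a statement, `S_X` the
implication from the statements used to `C_X`. All modules are independent. Most are adaptations of the proved modules `DN/GL/X.lean` with the same name.
-/

set_option autoImplicit false

open scoped Pointwise

noncomputable section

namespace Pool.Agent.DR.GL

open Pool.Agent.MuZ Pool.Agent.FW Pool.Agent.DN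
open Pool.Agent.DI (io ofC io_inj exists_io io_ofC ofC_io VP MP UP TP ex sqr sqr_sq kap)
open Pool.Agent.DI.GL (Fx StP xx mem_of_Fx Fx.mul Fx.inv Fx.one)
open Pool.Agent.DN.GL (EE pH IsR)
open Pool.Agent.DL (vl GE Pl Fi Fp Cn Cf dl Gen Dr LD)

variable {n t : ℕ}

/-! ## Definitions -/

/-- The point `z = z0 + d = 1/(f 2^N)`. -/
structure PtN (n t f N : ℕ) (z0 d : ℂ) : Prop extends Pt n t f N z0 d where
  eq : z0 + d = 1 / (f * 2 ^ N : ℕ)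
  pri : ∀ a : Ideal (OO n t), a ≠ ⊥ → PrI a f → z0 ∉ Lam a
  cz : (starRingEnd ℂ) z0 = z0
  cd : (starRingEnd ℂ) d = d

/-- The valuation of the different of the orbit `SH`. -/
abbrev dv (n t : ℕ) (P : Ideal ZZ) (z0 d : ℂ) (SH : Finset Om) : ℚ := vl P 2 (dl SH (pH z0 d (1 : OO n t)))

/-- The logarithmic derivative of the elliptic unit: `-9 (fr(c)/fr(1)) ∑ h g(c, h z_N)`. -/
def SN (f N : ℕ) (m : Ideal (OO n t)) (T : Finset (OO n t)) (c : Ideal (OO n t)) : Om :=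
  -9 * (rO (⊤ : Ideal (OO n t)) c * ∑ h ∈ T, toO h * gO m c (toC h / (f * 2 ^ N : ℕ)))

/-- The sum `∑ χ(c) (fr(c)/fr(1)) ∑ h g(c, h z_N)`. -/
def SS (f N : ℕ) (m : Ideal (OO n t)) (χ : Ideal (OO n t) → Om) (T : Finset (OO n t))
    (D : Finset (Ideal (OO n t))) : Om :=
  ∑ c ∈ D, χ c * (rO (⊤ : Ideal (OO n t)) c * ∑ h ∈ T, toO h * gO m c (toC h / (f * 2 ^ N : ℕ)))

/-! ## Simple facts -/

theorem pl2 {P : Ideal ZZ} (hP : Ab2 P) : Pl P 2 := ⟨two_ne_zero, by exact_mod_cast hP.2⟩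

theorem Orb.ext {z0 d : ℂ} {C : OO n t → Prop} {S S' : Finset Om} (h : Orb z0 d C S) (h' : Orb z0 d C S') :
    S = S' := Finset.ext fun x => (h x).trans (h' x).symm

theorem un_one (f : ℕ) : Un f (1 : OO n t) := by
  refine ⟨by rw [sub_self]; exact dvd_zero _, ?_⟩
  unfold Cop
  rw [Nm_one]
  exact isCoprime_one_left

theorem hn_one (f N : ℕ) : Hn f N (1 : OO n t) :=
  ⟨(un_one f).1, (un_one f).2, Or.inl (by rw [Nm_one, sub_self]; exact dvd_zero _)⟩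

theorem hs_one (f N : ℕ) : Hs f N (1 : OO n t) := ⟨hn_one f N, by rw [sub_self]; exact dvd_zero _⟩

theorem hn_un {f N : ℕ} (h : OO n t) (hh : Hn f N h) : Un f h := ⟨hh.1, hh.2.1⟩

theorem hs_un {f N : ℕ} (h : OO n t) (hh : Hs f N h) : Un f h := hn_un h hh.1

/-- The abstract theory applies: `S` is the orbit of `π = pH z0 d 1`. -/
theorem gen0 [Rmf n t] (g : C_Gen) {P : Ideal ZZ} (hP : Ab2 P) {f N : ℕ} {z0 d : ℂ}
    (hp : Pt n t f N z0 d) : ∃ S : Finset Om, Orb z0 d (Un (n := n) (t := t) f) S ∧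
      Gen P 2 2 (II n t P) S (pH z0 d (1 : OO n t)) ∧ (0 : ℚ) ≤ N - 1 / 2 ∧
      (N : ℚ) - 1 / 2 ≤ vl P 2 (dl S (pH z0 d (1 : OO n t))) := by
  obtain ⟨⟨S, hS⟩, h2, -⟩ := g n t P hP f N z0 d hp
  obtain ⟨h3, -, h4, -⟩ := h2 S hS
  have h1 : (1 : ℚ) ≤ N := by exact_mod_cast hp.pos
  exact ⟨S, hS, h3, by linarith, h4.ge⟩

/-- The orbits of subgroups. -/
theorem genH [Rmf n t] (g : C_Gen) {P : Ideal ZZ} (hP : Ab2 P) {f N : ℕ} {z0 d : ℂ}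
    (hp : Pt n t f N z0 d) {C : OO n t → Prop} (hC : ∀ h, C h → Un f h) (h1 : C 1) {SH : Finset Om}
    (hH : Orb z0 d C SH) : pH z0 d (1 : OO n t) ∈ SH ∧ dl SH (pH z0 d (1 : OO n t)) ≠ 0 ∧
      0 ≤ dv n t P z0 d SH ∧ dv n t P z0 d SH ≤ N - 1 / 2 := by
  obtain ⟨⟨S, hS⟩, h2, -⟩ := g n t P hP f N z0 d hp
  obtain ⟨-, -, -, h3⟩ := h2 S hS
  obtain ⟨S', a1, a2, a3, a4, a5, a6⟩ := h3 C hC h1
  obtain rfl := a1.ext hH
  exact ⟨a3, a4, a5, a6⟩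

/-- The orbit of a group exists. -/
theorem genE [Rmf n t] (g : C_Gen) {P : Ideal ZZ} (hP : Ab2 P) {f N : ℕ} {z0 d : ℂ}
    (hp : Pt n t f N z0 d) {C : OO n t → Prop} (hC : ∀ h, C h → Un f h) (h1 : C 1) :
    ∃ SH : Finset Om, Orb z0 d C SH := by
  obtain ⟨⟨S, hS⟩, h2, -⟩ := g n t P hP f N z0 d hp
  obtain ⟨-, -, -, h3⟩ := h2 S hS
  obtain ⟨S', a1, -⟩ := h3 C hC h1
  exact ⟨S', a1⟩

/-- The valuation of `DN/GL` is `vl P 2`. -/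
theorem vP_vl {P : Ideal ZZ} (hP : Ab2 P) {x : Om} (hx : x ≠ 0) : DN.GL.vP P x = vl P 2 x := by
  have := hP.1.1
  obtain ⟨b, a, hb, h⟩ := DL.com (pl2 hP) hx
  rw [DL.vl_eq (pl2 hP) hb h]
  refine DN.GL.vP_eq hP.2 hb ?_
  exact_mod_cast h

/-! ## Points -/

/-- The points `z + d`, `z` of odd order (`z ∉ Lam b`), `d` of order a power of two (also `d = 0`). -/
def C_Odq : Prop :=
  ∀ (n t : ℕ) [Rmf n t] (P : Ideal ZZ), Ab2 P → ∀ b : Ideal (OO n t), G15 b → ∀ (f N : ℕ) (z d : ℂ), Odd f →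
    15 ∣ f → (f : ℂ) * z ∈ Lam b → z ∉ Lam b → (2 : ℂ) ^ N * d ∈ Lam b →
    ¬ Qp P b (z + d) ∧ ¬ IK P b (z + d) ∧ Tor n t (z + d) ∧ z + d ∉ Lam b ∧ VP P (xO b (z + d)) ∧
      UP P (vO b (z + d)) ∧ Cn P (II n t P) (xO b z) ∧ Cn P (II n t P) (vO b z) ∧ UP P (vO b z)

/-- (80 lines) **Odq** (from D2, Lev, In). Adapt `DN/GL/Odq.lean`. `Qp`: suppose `Qp P b (z + d)`. Take `α = f` (`¬ MP P (toO f)`: `toO f = f` is odd and `MP P 2`: `1 = f - 2 j`), `β = 2^N`: `toC (α β) (z + d) = 2^N (f z) + f (2^N d) ∈ Lam b`,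
so `2^N (z + d) ∈ Lam b`, `2^N z ∈ Lam b`; with `f z ∈ Lam b` and `a 2^N + c f = 1` (Bezout) `z ∈ Lam b`: contradiction. `Tor`: `tor_iff` with `f * 2^N`. `z + d ∉ Lam b`: otherwise `Qp P b (z + d)` holds (`lam_mul`).
`¬ IK`: S_D2 (5); `VP`, `UP`: S_D2 (4). The same for `d := 0` gives `VP P (xO b z)`, `UP P (vO b z)`; `xO b z`, `vO b z ∈ EE n t f` by Lev (3), so they are fixed by `II` (In (7)): `Cn`. -/
def S_Odq : Prop := S_D2 → C_Lev → C_In → C_Odq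

/-- The Kummer relation between `X(z)` and `X(z + u)`, its discriminant and its derivative. -/
def C_Kud : Prop :=
  ∀ (n t : ℕ) [Rmf n t] (b : Ideal (OO n t)), G15 b → ∀ z u : ℂ, Tor n t z → Tor n t u → z ∉ Lam b →
    u ∉ Lam b → z + u ∉ Lam b → z - u ∉ Lam b → ∀ X X' U W W' V a c : Om, X = xO b z →
      X' = xO b (z + u) → U = xO b u → W = vO b z → W' = vO b (z + u) → V = vO b u → a = a1O b → c = a3O b →
      (X - U) ^ 2 * X' ^ 2 - (2 * X * U * (X + U) + a ^ 2 * (X * U) + a * c * (X + U) + c ^ 2) * X' +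
        (X ^ 2 * U ^ 2 - a * c * (X * U) - c ^ 2 * (X + U)) = 0 ∧
      2 * (X - U) ^ 2 * X' - (2 * X * U * (X + U) + a ^ 2 * (X * U) + a * c * (X + U) + c ^ 2) = -(W * V) ∧
      (2 * (X - U) * X' ^ 2 - (4 * X * U + 2 * U ^ 2 + a ^ 2 * U + a * c) * X' +
        (2 * X * U ^ 2 - a * c * U - c ^ 2)) * W = W * V * W'

/-- (60 lines) **Kud** (from R1; `aB1`, `aB2`, `aB3` are proved: `import Pool.Agent.Lib.DN.B.All`). The proof is that of `DN/GL/Kud.lean` word for word (`Ine` is now `Rmf`; `S_B1`, `S_B2`, `S_B3` are now `aB1`, `aB2`, `aB3`). -/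
def S_Kud : Prop := S_R1 → C_Kud

/-! ## The derivation on `X(z + u)` and `X_c(h z)` -/

/-- Translation by points of odd order. -/
def C_Tru : Prop :=
  ∀ (n t : ℕ) [Rmf n t] (P : Ideal ZZ), Ab2 P → ∀ (f N : ℕ) (z0 d : ℂ), Pt n t f N z0 d →
    ∀ (f' : ℕ) (u : ℂ), Odd f' → f ∣ f' → (f' : ℂ) * u ∈ Lam (⊤ : Ideal (OO n t)) →
      z0 + u ∉ Lam (⊤ : Ideal (OO n t)) →
      Dn n t P N z0 d (xO (⊤ : Ideal (OO n t)) (z0 + d + u)) (vO (⊤ : Ideal (OO n t)) (z0 + d + u))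

/-- (100 lines) **Tru** (from R1, Lev, Pi, Gen, Odq, Kud). Adapt the first half of `DN/GL/Tru.lean`; the algebra is `DL.C_Kum`. PROOF. `z = z0 + d`, `gen0` (the rules `DL.C_Der`, `DL.C_Cn` are used for `Gen P 2 2 (II n t P) S π`, `q = N - 1/2`, `W = vO ⊤ z`; `VP P W`: Pi (1) with `h = 1`). `Dn (xO ⊤ z) (1 * vO ⊤ z)`: `xO ⊤ z = π + xO ⊤ z0` (`pH`), Der (9), (4) (`Cn (xO ⊤ z0)`: Pi (2)), (5).
If `u ∈ Lam ⊤`: periodicity (`xO b z = ofC (XC b z)`, `aB1` (1): `import Pool.Agent.Lib.DN.B.All`). Otherwise: `z0`, `u`, `z0 + u` have odd order dividing `f'` and are not in `Lam ⊤`. Odq for `u`: `UP P (vO ⊤ u)`, `Cn (xO ⊤ u)`, `Cn (vO ⊤ u)`; for `z0 + u` and `d`: `VP P (xO ⊤ (z0 + u + d))`, `UP P (vO ..)`, `z0 + u + d ∉ Lam ⊤`; `z ∉ Lam ⊤`. `z - u ∉ Lam ⊤`: otherwise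
(Bezout for `f'` odd and `2^N`) `2^N d ∈ Lam ⊤`, `f' (z - u) ∈ Lam ⊤` give `f' d ∈ Lam ⊤`, so `d ∈ Lam ⊤` and `pO 2^(N-1) d ∈ Lam ⊤` (`lam_mul`), against `Pt.dn`. Kud with `b = ⊤` and `DL.C_Kum` with `κ = 1`, `b2 = a²`, `b4 = a c`, `b6 = c²`, `b8 = 0` (`Cn a`, `Cn c`: Pi (3), (4); products: `DL.C_Cn`). `Fp (xO ⊤ (z + u))`: Gen (3) for `f'` and Lev (3) (`f' 2^N (z + u) ∈ Lam ⊤`). -/
def S_Tru : Prop := DL.C_Cn → DL.C_Der → DL.C_Kum → S_R1 → C_Lev → C_Pi → C_Gen → C_Odq → C_Kud → C_Tru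

/-- Isogenies and multiplication: the lattice `Lam c` and the point `h z`. -/
def C_Trh : Prop :=
  ∀ (n t : ℕ) [Rmf n t] (P : Ideal ZZ), Ab2 P → ∀ (f N : ℕ) (z0 d : ℂ), Pt n t f N z0 d →
    ∀ (c : Ideal (OO n t)) (h : OO n t), G15 c → PrI c 2 → h ≠ 0 → Cop h 2 → z0 ∉ Lam (sp h * c) →
      Cn P (II n t P) (xO c (toC h * z0)) ∧
      Dn n t P N z0 d (xO c (toC h * (z0 + d)))
        (toO h * rO (⊤ : Ideal (OO n t)) c * vO c (toC h * (z0 + d)))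

/-- The formulas for the isogeny. `R` is a system for `Lam (h c) / O`. -/
def C_Iso : Prop :=
  ∀ (n t : ℕ) [Rmf n t] (c : Ideal (OO n t)) (h : OO n t), G15 c → h ≠ 0 → ∀ R : Finset ℂ,
    IsSys (sp h * c) (⊤ : Ideal (OO n t)) R → ∀ z z' : ℂ, Tor n t z → Tor n t z' → z ∉ Lam (sp h * c) →
    z' ∉ Lam (sp h * c) →
    (toO h * rO (⊤ : Ideal (OO n t)) c) ^ 2 * (xO c (toC h * z) - xO c (toC h * z')) =
      ∑ u ∈ R, (xO (⊤ : Ideal (OO n t)) (z + u) - xO (⊤ : Ideal (OO n t)) (z' + u)) ∧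
    (toO h * rO (⊤ : Ideal (OO n t)) c) ^ 3 * vO c (toC h * z) =
      ∑ u ∈ R, vO (⊤ : Ideal (OO n t)) (z + u)

/-- (40 lines) **Iso** (from R1; `aB1`, `aB7`, `aB9` are proved: `import Pool.Agent.Lib.DN.B.All`). The proof is that of `DN/GL/Iso.lean` word for word (`Ine` is now `Rmf`; `S_B1`, `S_B7`, `S_B9` are now `aB1`, `aB7`, `aB9`). -/
def S_Iso : Prop := S_R1 → C_Iso

/-- (120 lines) **Trh** (from D2, Lev, In, Pi, Gen, Odq, Tru, Iso). Adapt `DN/GL/Trh.lean` (`OA` is now `DL.Cn P (II n t P)`, with the rules `DL.C_Cn`; `Der` is now `Dn`, with the rules `DL.C_Der` for the structure from `gen0`, `q = N - 1/2`, `W = vO ⊤ (z0 + d)`, `VP P W`: Pi (1)). PROOF. `z = z0 + d`, `a = sp h * c ≠ ⊥`, `NI a = Nm h * NI c` is odd (`aO2`, `aO6` (3), `Cop h 2`). `f' = f * NI a`. `R` with `IsSys a ⊤ R` (`aL3`). Every `u ∈ R` is in `Lam (a * ⊤) = Lam a`, so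 `NI a * u ∈ Lam ⊤`
(`(NI a : O) ∈ a`: `a * cjI a = sp (NI a)`, `aO3`; `lam_prod`), `f' u ∈ Lam ⊤`; `z0 + u ∉ Lam ⊤` (otherwise `z0 ∈ Lam a`: `lam_mono`). Tru: `Dn (X(z + u)) (W(z + u))`. `Cn (X(z0 + u))` (Odq, `f' (z0 + u) ∈ Lam ⊤`). `h z0`: `f (h z0) ∈ Lam ⊤ ⊆ Lam c`, `h z0 ∉ Lam c` (`lam_sp`): Odq for `b = c`: `Cn (xO c (h z0))`, `h z0 + h d ∉ Lam c`, so `z ∉ Lam a`. `r = toO h * rO ⊤ c` is a unit in `Cn`
(`Fi`: Lev (2), (3) and In (7); S_D2 (7) with `b = ⊤`, `a = c`, `c * ⊤ = c`; `UP P (toO h)`: `Cop h 2`: `toO h * toO (cjO h) = Nm h` odd), so `κ = (r²)⁻¹` is in `Cn`. Iso (1) for `z, z0`: `xO c (h z) = κ ∑_u (X(z + u) - X(z0 + u)) + xO c (h z0)`, so by Der (4), (5) (induction over `R`) its derivative is `κ ∑_u W(z + u) = κ r³ vO c (h z) = r vO c (h z)` (Iso (2)). -/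
def S_Trh : Prop :=
  DL.C_Cn → DL.C_Der → S_D2 → C_Lev → C_In → C_Pi → C_Gen → C_Odq → C_Tru → C_Iso → C_Trh

/-- **Tht.** The logarithmic derivative of `Theta`. -/
def C_Tht : Prop :=
  ∀ (n t : ℕ) [Rmf n t] (P : Ideal ZZ), Ab2 P → ∀ (f N : ℕ) (z0 d : ℂ), Pt n t f N z0 d →
    ∀ (m c : Ideal (OO n t)) (h : OO n t), m ≠ ⊥ → PrI m 2 → PrI m 15 → G15 c → PrI c 2 → h ≠ 0 →
      Cop h 2 → z0 ∉ Lam (m * (sp h * c)) →
        LDn n t P N z0 d (Theta m c (toC h * (z0 + d)))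
          (-9 * (toO h * rO (⊤ : Ideal (OO n t)) c * gO m c (toC h * (z0 + d))))

/-- (170 lines) **Tht** (from R1, D2, D9, Lev, In, Pi, Gen, Odq, Trh; `aB2`, `aB14` are proved: `import Pool.Agent.Lib.DN.B.All`). Adapt `DN/GL/Tht.lean` (`LD` is now `LDn`, the rules `DL.C_LDr`; there are no levels: instead `Fp` by Gen (3)). PROOF. `z = z0 + d`, `x = xO c (h z)`, `r = toO h * rO ⊤ c`, `v = vO c (h z)`. `z0 ∉ Lam (sp h * c)` (`lam_mono`), so Trh: `Dn x (r v)`. `Theta m c (h z) = ∏_(u ∈ hs m c) (W2 c u * ((x - xO c u)^3)⁻¹)^3` (definition). `u ∈ hs m c`: `u ∈ Lam (m c)`, `u ∉ Lam c` (`aB14` (1), `IsHalf.mem`; `PrI m 2`);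
`NI m * u ∈ Lam c` (`(NI m : O) ∈ m`: `m * cjI m = sp (NI m)`, `aO3`, `lam_prod`; `NI m` odd: `aO6` (3)). Put `f' = f * NI m` (odd, `15 ∣ f'`, `f ∣ f'`). Odq for `b = c`: `Cn (xO c u)`, `Cn (vO c u)`, `UP P (vO c u)`, and `¬ IK P c u` (`d := 0`). `h z0 ∉ Lam (m c)` (`Lam (m * (sp h * c)) = Lam (sp h * (m * c))`: `mul_left_comm`, `lam_sp`), so `h z0 ± u ∉ Lam c` (`lam_mono`: `u ∈ Lam (m c)`),
`f' (h z0 ± u) ∈ Lam c`, `2^N (h d) ∈ Lam c` (`Lam ⊤ ⊆ Lam c`). Odq: `¬ Qp P c (h z ± u)`, `¬ IK P c (h z)`: S_D2 (6): `UP P (x - xO c u)`. `W2 c u = vO c u ^ 2` (the curve: `aB2` (2) through S_R1): a unit in `Cn`. LDr (6) for `x - xO c u` with `Dn (x - xO c u) (r v - 0)`: the logarithmic derivative is `r v / (x - xO c u)`;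
LDr: the factor has `3 (0 - 3 r v/(x - xO c u))`, the product `-9 r ∑_u v (x - xO c u)⁻¹ = -9 r gO m c (h z)` by S_D9 (for all `u' ∈ Lam (m c)`: `¬ Qp P c (h z + u')`, as before by Odq with the odd number `f'`). -/
def S_Tht : Prop :=
  DL.C_Cn → DL.C_Der → DL.C_LDr → S_R1 → S_D2 → S_D9 → C_Lev → C_In → C_Pi → C_Gen → C_Odq → C_Trh → C_Tht

/-! ## The elliptic units -/

/-- The point `1/(f 2^N)`. -/
def C_Pnt : Prop :=
  ∀ (n t : ℕ) [Rmf n t] (f N : ℕ), Odd f → 15 ∣ f → 1 ≤ N → ∃ z0 d : ℂ, PtN n t f N z0 d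

/-- (80 lines) **Pnt**. Adapt `DN/GL/Pnt.lean`. PROOF. `a0 2^N + c0 f = 1` (integers; `f` odd), `z0 = a0/f`, `d = c0/2^N`: `z0 + d = (a0 2^N + c0 f)/(f 2^N)`; both are real (`cz`, `cd`). `f z0 = a0`, `2^N d = c0` are in `Lam ⊤` (`lam_top`, `toC_int`). `z0 = toC (a0 : O)/f ∈ Lam a`, `PrI a f`: `1 = x + f y`, `x ∈ a`: `x z0 = toC u`, `f y z0 = toC (a0 y)`, so `z0 = toC (u + a0 y)`, `a0 = f (u + a0 y)` in `O` (`toC_inj`),
so `f ∣ a0` in `ℤ` (`nat_dvd_iff`), impossible since `c0 f + a0 2^N = 1`, `15 ∣ f` (`f ≠ 1`). `Pt.zn`: `a = ⊤`. `Pt.dn`: `pO 2^(N-1) d = toC (pO) c0/2 = toC u` would give `c0 pO = 2 u` in `O`, the second coordinate: `c0 = 2 u.im`; but `c0 f = 1 - a0 2^N` is odd. -/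
def S_Pnt : Prop := C_Pnt

/-- Inertia and the fields `L'`, `L'_N`. -/
def C_Mnf : Prop :=
  ∀ (n t : ℕ) [Rmf n t] (P : Ideal ZZ), Ab2 P → ∀ f : ℕ, Odd f → 15 ∣ f →
    Mf n t f ≤ EE n t (f * 2 ^ 1) ∧ (∀ N : ℕ, 1 ≤ N → Mn n t f N ≤ EE n t (f * 2 ^ N)) ∧
    Mn n t f 0 ≤ Mf n t f ∧
    ∀ (f' N : ℕ) (h : OO n t) (τ : Gal(Om/ℚ)), 1 ≤ N → Odd f' → f ∣ f' → Cls P f' N h τ → Hn f' N h →
      ∀ x ∈ Mn n t f N, τ x = x

/-- (90 lines) **Mnf** (from O4, E1, GM, In). Adapt `DN/GL/Mnf.lean`. PROOF. `FixI M H`, `EE n t M = FixI M (Ray · ⊤)`. (1) `x ∈ Mf`, `τ ∈ GK`, `Psi τ (f 2^1) a`, `Ray (f 2^1) a ⊤` (`f * 2 ^ 1 = 2 * f`): `HP f a` by S_GM ((1): `HP f ⊤` and invariance, `Ray` is symmetric: `aO7`), so `τ x = x`. (2) The same with `HPN f N`. (3) `x ∈ Mn n t f 0`; let `τ ∈ GK`, `Psi τ (2 f) a`, `HP f a`: `Ray (2 f) a (sp v)`, `Hf f v`, `v ≠ 0`. `Psi τ f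 a`
(S_E1 (5); `f * 2 ^ 0 = f`), `Ray f a (sp v)` (`aO7` (7)), `HN f 0 v` (`2 ^ 0 = 1` divides everything): `HPN f 0 a`, `τ x = x` by the definition of `Mn n t f 0 = FixI (f * 2 ^ 0) (HPN f 0)`. (4) `τ ∈ GK` (`Cls.mem`; `II` is an intersection); `Cls P f N h τ` (In (6)), so `Psi τ (f 2^N) (sp h)`. `HPN f N (sp h)`: `v = h` (`h ≠ 0` by `Cop h 2`), `Ray` reflexive; `HN f N h`: the norm (`Hn`), `Hf f h` with `j = 1`:
`2 ∣ h² - 1` (S_O4), `f ∣ h² - 1`, `f` odd, so `2 f ∣ h² - 1`; `Cop h (2 f)` (`cop_congr` with `1` for `f`). S_GM (the claim on `Psi τ (f 2^N) a`, direction `←`). -/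
def S_Mnf : Prop := S_O4 → S_E1 → DS.S_GM → C_In → C_Mnf

/-- **Un4.** The logarithmic derivative of the elliptic unit, and its valuation. -/
def C_Un4 : Prop :=
  ∀ (n t : ℕ) [Rmf n t] (P : Ideal ZZ), Ab2 P → ∀ (f N : ℕ) (m : Ideal (OO n t)) (T : Finset (OO n t)),
    FM f m → 3 ≤ N → DS.IsRep f N T → ∀ z0 d : ℂ, PtN n t f N z0 d → ∀ SH : Finset Om,
    Orb z0 d (Hn (n := n) (t := t) f N) SH → ∀ c : Ideal (OO n t), c ≠ ⊥ → PrI c (2 * f) →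
      LDn n t P N z0 d (uN f N m T c) (SN f N m T c) ∧ GE P 2 (dv n t P z0 d SH) (SN f N m T c)

/-- (110 lines) **Un4** (from G3, Sur, Gen, Mnf, Tht). Adapt `DN/GL/Un4.lean`. PROOF. `uN f N m T c = ∏_(h ∈ T) Theta m c (toC h / (f 2^N))`, `toC h / (f 2^N) = toC h * (z0 + d)`. `h ∈ T`: `HN f N h`, so `Cop h (2 f)`, `h ≠ 0`. `a = m * (sp h * c)` is nonzero and prime to `f` (`aO6`), so `z0 ∉ Lam a`. `G15 c`, `PrI c 2`, `PrI m 15` (`aO6` (2), `15 ∣ f`). Tht for each `h`, `DL.C_LDr` (5) (structure from `gen0`; `VP P (vO ⊤ (z0 + d))`: Pi (1)); the sum of the logarithmic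
derivatives is `SN` (`Finset.mul_sum`). VALUATION: `genH` for `C = Hn f N` (`hn_un`, `hn_one`). `r ∈ SH`: `r = pH z0 d h`, `Hn f N h`; Sur: `Cls P f N h σ`, so `σ π = r` (Gen (5) with `f' = f`) and `σ (uN ..) = uN ..` (Mnf (4); `uN ∈ Mn n t f N`: S_G3 (1)). `DL.C_Fix` with `S' = SH`, `q' = dv n t P z0 d SH` (`≤ N - 1/2`): `GE q' (uN * SN)`; `uN` is a unit (`GE.mul_left` with the inverse). -/
def S_Un4 : Prop :=
  DL.C_Fix → DL.C_LDr → DS.S_G3 → C_Pi → C_Sur → C_Gen → C_Mnf → C_Tht → C_Un4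

/-- **Sub.** The sums over the subgroup `Hs`. -/
def C_Sub : Prop :=
  ∀ (n t : ℕ) [Rmf n t] (P : Ideal ZZ), Ab2 P → ∀ (f N : ℕ) (m : Ideal (OO n t)), FM f m →
    ∀ z0 d : ℂ, PtN n t f N z0 d → ∀ SH2 : Finset Om, Orb z0 d (Hs (n := n) (t := t) f N) SH2 →
    ∀ T : Finset (OO n t), IsR N (Hs (f * NI m) N) T → ∀ (c : Ideal (OO n t)) (v : OO n t), FB f c →
      Cop v (2 * f) →
      GE P 2 (dv n t P z0 d SH2)
        (∑ h ∈ T, toO (h * v) * (rO (⊤ : Ideal (OO n t)) c * gO m c (toC (h * v) / (f * 2 ^ N : ℕ))))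

/-- (150 lines) **Sub** (from D8, In, Act, Pi, Sur, Gen, Tht). PROOF. `z = z0 + d`, `f' = f * NI m` (odd, `15 ∣ f'`, `f ∣ f'`). `x = ∏_(h ∈ T) Theta m c (toC (h * v) * z)`. As in Un4 (Tht for `h * v ≠ 0`, `Cop (h * v) 2`, `m * (sp (h v) * c)` nonzero and prime to `f`: `h = 1` modulo `f`; `DL.C_LDr` (5)): `LDn x (-9 * (the sum))`. FIX: `genH` for `C = Hs f N` (`hs_un`, `hs_one`). `r ∈ SH2`: `r = pH z0 d h`, `Hs f N h`. Let `h'` be congruent to `h` modulo `2^N` and to `1` modulo `f'`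
(`f'` odd: `h' = h + (1 - h) e` with an integer `e = 0` modulo `2^N`, `= 1` modulo `f'`; `10 ≤ N` or not: if `2^10 ∣ h - 1` then `h' - 1 = (h - 1)(1 - e)` is divisible by `2^10`), so `Hs f' N h'` (`Nm_congr`, `cop_congr`); Sur for `f'`: `Cls P f' N h' σ`. `σ π = π_(h')` (Gen (5)) `= π_h` (Pi (5)). `σ (Theta m c (h'' v z)) = Theta m c (h' h'' v z)` (Act (7) for `f'`: `NI m ∣ f'`, `(f' 2^N)(h'' v z) = toC (h'' v NI m) ∈ Lam c`). `h' h''` has `Hs f' N`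
(products: `± 1 * ± 1`; `2^10 ∣ h' h'' - 1`), let `h3 ∈ T` be its representative: `2^N ∣ h' h'' - h3`, and `f ∣ h' h'' - h3`, so `f 2^N` divides it and `h' h'' v z - h3 v z ∈ Lam ⊤ ⊆ Lam c`: the same value of `Theta` (S_D8 (2)). `h'' ↦ h3` is injective on `T` (`2^N ∣ h' (h'' - h4)`, `cop_inv`, `IsR.uni`), so a bijection, `σ x = x`. `DL.C_Fix` with `S' = SH2`, `q' = dv n t P z0 d SH2`: `GE q' (x * (-9 * sum))`; divide by the unit `-9 x`. -/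
def S_Sub : Prop :=
  DL.C_Fix → DL.C_LDr → S_D8 → C_In → C_Act → C_Pi → C_Sur → C_Gen → C_Tht → C_Sub

/-! ## The tower `L'_N` -/

/-- The abstract tower applies. -/
def C_SitR : Prop :=
  ∀ (n t : ℕ) [Rmf n t] (P : Ideal ZZ), Ab2 P → ∀ f : ℕ, Odd f → 15 ∣ f → DL.SitR (Mf n t f) (Mn n t f) P

/-- (100 lines) **SitR** (from E9, GM, Act, Sur, Mnf). PROOF. `prime`, `two`: `hP.1.1`, `hP.2`. `lze`: Mnf (3). `lnx`: S_GM (last). `iul`: let `k = max m 3`. LEMMA: for `u % 8 = 1` and `k ≥ 3` there is an integer `s` with `2^k ∣ s² - u` (induction: if `2^k ∣ s² - u` but not `2^(k+1)`, take `s + 2^(k-1)`; `s` is odd). Change `s` modulo `2^k` so that `f ∣ s - 1` (`f` odd), `h = (s : O)`: `f ∣ h - 1`, `Cop h 2`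
(`Nm h = s²`), Sur: `ι` with `Cls P f k h ι`; `ι ∈ P.inertia`, `ι ∈ GK` (`Cls.mem`), `ι` fixes `Mf n t f` (S_E9 (5)). Act (6): `ι ζ = ζ ^ (Nm h).toNat` for `ζ ^ 2^k = 1` (`b = ⊤`), and `(s²).toNat = u` modulo `2^k`; `z ^ 2^m = 1` gives `z ^ 2^k = 1`. -/
def S_SitR : Prop := S_E9 → DS.S_GM → C_Act → C_Sur → C_Mnf → C_SitR

/-- `n = 6` modulo `8`: the number `xx ζ` is not a square up to a unit. -/
def C_Hev : Prop :=
  ∀ (n t : ℕ) [Rmf n t] (P : Ideal ZZ), Ab2 P → n % 8 = 6 → ∀ f : ℕ, Odd f → 15 ∣ f → ∀ N : ℕ, 3 ≤ N →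
    ∀ ζ : Om, IsPrimitiveRoot ζ (2 ^ N) → ∀ ρ ∈ Mn n t f N, ¬ UP P (ρ ^ 2 / xx ζ)

/-- (160 lines) **Hev** (from O4, E9, GM, In, Act; `DN.GL.tRam : DN.GL.S_Ram` is proved, `vP_vl` above). PROOF. `E = Mn n t f N` is finite (S_GM) and stable (S_E9 (2)). `DN.GL.tRam`: the set `S`, `e = S.card`. (a) COUNT: `e ≤ 2^(N-2)`. For an element `σ` of `II n t P`: class `h` (In (1), level `f`, `N`), `σ ζ = ζ ^ (Nm h).toNat` (Act (6)), and `Nm h` is `1` or `1 + n = 7` modulo `8` (S_O4), so there is a unique `a < 2^N`, `a % 8 = 1` with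
`Nm h = ± a` modulo `2^N`; if `σ, σ'` have the same `a` then `σ⁻¹ σ'` fixes `Mf` (S_E9 (5)) and maps `ζ` to `ζ^(± 1)`, so it fixes `E` (S_GM, last). So the elements of `S` in `GK` are at most `2^(N-3)` (an injective map to `{a < 2^N, a % 8 = 1}`, a set with `2^(N-3)` elements: `a = 8 i + 1`, `i < 2^(N-3)`). If `σ0 ∈ S` is not in `GK` then for all `σ ∈ S` not in `GK`: `σ0⁻¹ σ ∈ II` (`GK` has index two: `mem_GK_iff`,
`σ (wO) = - wO`; `t = 0`), and the same count. (b) VALUES. Let `ζ_2 = ζ^(2^(N-2))` (order `4`), in general `v(xx ζ) = 1/2^(N-2)`: induction on `N` with `DI.GL.tX0` (import `Pool.Agent.Lib.DI.G.L.X0`): `xx ζ = 2` for `N = 2`, `2 v(xx ζ') = v(xx ζ)` for `ζ'^2 = ζ`. Suppose `UP P (ρ² / xx ζ)`: `ρ ≠ 0`, `vl P 2 ρ = 1/2^(N-1) = j/e` with `j : ℤ`: `j > 0`, `e = j 2^(N-1) ≥ 2^(N-1)`: contradiction. -/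
def S_Hev : Prop := S_O4 → S_E9 → DS.S_GM → C_In → C_Act → C_Hev

/-- `n` not `6` modulo `8`: inertia elements with `ζ ↦ ζ⁻¹` exist, they are not in `Gal(Om/K)`. -/
def C_Tau : Prop :=
  ∀ (n t : ℕ) [Rmf n t] (P : Ideal ZZ), Ab2 P → n % 8 ≠ 6 → ∀ N : ℕ, 3 ≤ N →
    (∃ τ ∈ P.inertia Gal(Om/ℚ), ∀ ζ : Om, ζ ^ 2 ^ N = 1 → τ ζ = ζ⁻¹) ∧
    ∀ τ ∈ P.inertia Gal(Om/ℚ), (∀ ζ : Om, ζ ^ 2 ^ N = 1 → τ ζ = ζ⁻¹) → τ ∉ GK n t

/-- (60 lines) **Tau** (from O4, In, Act). PROOF. (1) `DI.GL.tIu` (import `Pool.Agent.Lib.DI.G.L.Iu`) with `u = 2^N - 1` (odd), `m = N`: `z ^ (2^N - 1) = z⁻¹`. (2) Suppose `τ ∈ GK`: `τ ∈ II n t P`, In (1) with `f = 15`: `Cls P 15 N h τ`, Act (6) for a primitive root (`HasEnoughRootsOfUnity.exists_primitiveRoot`, see `DN/GL/Sq.lean`): `ζ ^ (Nm h).toNat = ζ⁻¹`, so `2^N ∣ Nm h + 1` (`Nm h ≥ 0`: `Nm_nonneg`-like; `IsPrimitiveRoot`), `8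 ∣ Nm h + 1`.
S_O4: `n % 4 = 1`: `4 ∣ Nm h - 1`: contradiction. `n % 4 = 2`: `8 ∣ Nm h - 1` or `8 ∣ Nm h - (1 + n)`, `n % 8 = 2`: `Nm h = 1` or `3` modulo `8`: contradiction. -/
def S_Tau : Prop := S_O4 → C_In → C_Act → C_Tau

/-- **Dta.** The semilinear action of the inertia elements outside of `Gal(Om/K)`. -/
def C_Dta : Prop :=
  ∀ (n t : ℕ) [Rmf n t] (P : Ideal ZZ), Ab2 P → ∀ (f N : ℕ) (z0 d : ℂ), PtN n t f N z0 d →
    ∀ τ ∈ P.inertia Gal(Om/ℚ), τ ∉ GK n t → ∃ r : Om, Cn P (II n t P) r ∧ GE P 2 (1 / 2) (r - 1) ∧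
      (∀ x y : Om, Dn n t P N z0 d x y → Dn n t P N z0 d (τ x) (r * τ y)) ∧
      ∀ x y : Om, LDn n t P N z0 d x y → LDn n t P N z0 d (τ x) (r * τ y)

/-- (150 lines) **Dta** (from R1, D2, E6, E11, Lev, In, Pi, Gen, Trh; `aB7` is proved). PROOF. `M = f 2^N`. S_E11 (1): `PsiC τ M a`; `a ≠ ⊥`, `a` prime to `15 M` (`PsiC.cop`), so `G15 a`, `PrI a 2`, `PrI a f` (`aO6` (2)). `r = rO ⊤ a`. `cjI ⊤ = ⊤`, `a * ⊤ = a`. `τ (xO ⊤ (z0 + d)) = xO a (z0 + d)` (`PsiC.xx`, `M (z0 + d) ∈ Lam ⊤`, `PtN.cz`, `cd`), `τ (xO ⊤ z0) = xO a z0`, `τ (vO ⊤ (z0 + d)) = vO a (z0 + d)` (S_E11 (2)).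
Trh with `c = a`, `h = 1` (`toC 1 = 1`, `toO 1 = 1`, `sp 1 * a = a`; `z0 ∉ Lam a`: `PtN.pri`): `Cn (xO a z0)`, `Dn (xO a (z0 + d)) (r * vO a (z0 + d))`. So `τ π = xO a (z0 + d) - xO a z0` has the derivative `r * τ (vO ⊤ (z0 + d))` (`DL.C_Der` (4), (5)): the hypothesis of `DL.C_Cj` (structure from `gen0`, `q = N - 1/2`; `VP P (vO ⊤ (z0 + d))`: Pi (1)); `τ⁻¹ σ τ ∈ II n t P` for `σ ∈ II`: `P.inertia` is a subgroup, `GK` has index two (`mem_GK_iff`: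
`τ (wO) = - wO`, since `wO² = -n`, `t = 0`). `Cn r`: `VP`: S_D2 (7) (`b = ⊤`: `a * ⊤ = a`; even `UP P r`), `Fi`: Lev (3) (level `f`) and In (7). `r = 1` MODULO `P`: S_E11 (2): `τ r = rO (a * cjI ⊤) (a * cjI a) = rO a (a * cjI a)`, `a * cjI a = sp (NI a)` (`aO3`), so `r * τ r = rO ⊤ (sp (NI a))` (`io`: S_R1, `fr`-quotients, `rO b c ≠ 0`). CLAIM `15 ∣ NI a + 1`: let `ζ` be a primitive 15th root of unity; `τ ζ = ζ` (LEMMA: `ζ^15 = 1`, `τ` inertia: `τ ζ ζ⁻¹` is a 15th root of unity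
congruent to `1` modulo `P`, so `1`: otherwise `x - 1` (`x^15 = 1`, `x ≠ 1`) divides `15`: `∑_(i < 15) x^i = 0` and it is congruent to `15` modulo `P`, `15` is a unit at `P`). Let `c` be the complex conjugation of S_R1: `c ζ = ζ⁻¹` (`|io ζ| = 1`), `PsiC c M ⊤` (S_E11 (3)), `Psi (τ * c) M (a * cjI ⊤)` (S_E11 (2), last), `τ * c ∈ GK` (both map `wO` to `-wO`), S_E6: `(τ * c) ζ = ζ ^ NI a`; and `(τ * c) ζ = τ ζ⁻¹ = ζ⁻¹`. So `15 ∣ NI a + 1`. Hence with `v = -(NI a) : O`: `sp v = sp (NI a)`, `3 ∣ v - 1`, `5 ∣ v - 1`,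
`aB7` (3): `fr (sp v * ⊤) = toC v * fr ⊤`, `rO ⊤ (sp v) = -(NI a)`. So `r * τ r = -(NI a)`, an odd integer (`PrI a 2`: `aO6` (3)): it is `1` modulo `P`. `MP P (τ r - r)` (`VP.inertia`), so `MP P (r² - 1)`, `(r - 1)² = r² - 1 - 2 (r - 1)`: `MP P (r - 1)` (`MP.of_pow`). `r - 1` is `0` or `vl P 2 (r - 1) = j/2` (In (8)) and `> 0` (`vl_pos`): `≥ 1/2`. -/
def S_Dta : Prop :=
  DL.C_Cn → DL.C_Der → DL.C_Cj → S_R1 → S_D2 → S_E6 → S_E11 → C_Lev → C_In → C_Pi → C_Gen → C_Trh → C_Dta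

/-- **ResB.** `n = 6` modulo `8`: if the Kummer character of the unit `w` of `L'_N` vanishes on `D_P ∩ Gal(Om/L'_∞(i))`, then its
logarithmic derivative has valuation at least `1 + D(H)`. -/
def C_ResB : Prop :=
  ∀ (n t : ℕ) [Rmf n t] (P : Ideal ZZ), Ab2 P → n % 8 = 6 → ∀ (f N : ℕ) (z0 d : ℂ), PtN n t f N z0 d → 12 ≤ N →
    ∀ SH : Finset Om, Orb z0 d (Hn (n := n) (t := t) f N) SH →
    ∀ w ∈ Mn n t f N, (∀ g : Gal(Om/ℚ), DN.GL.DD (Mn n t f) P g → kap w g = 0) → ∀ y : Om,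
      LDn n t P N z0 d w y → GE P 2 (1 + dv n t P z0 d SH) y

/-- (100 lines) **ResB** (from RSq, Rt, Der, Fix, HD, Pi, Sur, Gen, Mnf, SitR, Hev). PROOF. A primitive root `ζ` of order `2^N` (see `DN/GL/Sq.lean`). `DL.C_RSq` with SitR: `e = ± 1`, `b = 0` (`b = 1` contradicts Hev), and for the exponent `N`: `r ∈ Mn n t f N`, `VP P r`, `w e - r² = 2^N s`, `VP P s`. `s ∈ Mn n t f N`. `Mn ≤ EE (f 2^N)` (Mnf (2)): `Fp r`, `Fp s` (Gen (3), `f' = f`). `gen0`; `VP P (vO ⊤ (z0 + d))`: Pi (1). `DL.C_Der` (8): `Dr r yu`.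
`GE (dv SH) yu`: `DL.C_Fix` with `S' = SH` (`genH`, `hn_un`, `hn_one`; `r' ∈ SH`: `r' = pH z0 d h`, Sur `σ`, `σ π = r'` (Gen (5)), `σ r = r` (Mnf (4))). `DL.C_Rt` with `c = e` (`Dr e 0`: Der (4), `Cn (± 1)`; `vl P 2 e = 0`), `u = r`, `D = dv SH`, `M = N`, `q = N - 1/2`: `GE (min (1 + dv - 0) (min N (N - 1/2))) (y + 0/e)`, and `dv ≤ 9` (HD), `12 ≤ N`: `1 + dv ≤ 10 ≤ N - 1/2`. (`SH2` for HD: `genE` with `Hs f N`, `hs_un`, `hs_one`.) -/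
def S_ResB : Prop :=
  DL.C_Cn → DL.C_Der → DL.C_Fix → DL.C_Rt → DL.C_RSq → C_HD → C_Pi → C_Sur → C_Gen → C_Mnf → C_SitR → C_Hev →
    C_ResB

/-- **ResA.** `n` not `6` modulo `8`: the logarithmic derivative `y` satisfies `v(y + r τ y) ≥ 1 + D(H) - 4/2^N`. -/
def C_ResA : Prop :=
  ∀ (n t : ℕ) [Rmf n t] (P : Ideal ZZ), Ab2 P → ∀ (f N : ℕ) (z0 d : ℂ), PtN n t f N z0 d → 12 ≤ N →
    ∀ SH : Finset Om, Orb z0 d (Hn (n := n) (t := t) f N) SH → ∀ τ ∈ P.inertia Gal(Om/ℚ),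
    (∀ ζ : Om, ζ ^ 2 ^ N = 1 → τ ζ = ζ⁻¹) → ∀ r : Om,
    (∀ x y : Om, LDn n t P N z0 d x y → LDn n t P N z0 d (τ x) (r * τ y)) →
    ∀ w ∈ Mn n t f N, (∀ g : Gal(Om/ℚ), DN.GL.DD (Mn n t f) P g → kap w g = 0) → ∀ y : Om,
      LDn n t P N z0 d w y → GE P 2 (1 + dv n t P z0 d SH - 4 / 2 ^ N) (y + r * τ y)

/-- (160 lines) **ResA** (from RSq, Rt, Der, LDr, Fix, E9, HD, Pi, Sur, Gen, Mnf, SitR). PROOF. A primitive root `ζ` of order `2^N`. `DL.C_RSq` with SitR: `e = ± 1`, `b ∈ {0, 1}`, and for the exponent `N`: `r0 ∈ Mn n t f N`, `VP P r0`, `w (e xx^b) - r0² = 2^N s0`, `VP P s0`, `xx = xx ζ`. `τ xx = xx` (`xx ζ = 2 + ζ + ζ⁻¹`), `τ e = e`, `e² = 1`. Apply `τ` and multiply: `(w τ w) xx^(2b) = (r0² + 2^N s0)(τ r0² + 2^N τ s0) = (r0 τ r0)² + 2^N s`,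
`VP P s` (`VP.inertia_vp`). `c = xx^(2 b)`, `u = r0 * τ r0`, `w' = w * τ w`. All of `w, τ w, r0, τ r0, s, xx` are in `Mn n t f N` (S_E9 (2); `s = (w' c - u²)/2^N`; `xx`: `mem_of_Fx` and `SitR.lnx`, see `Sq_mem` in `DN/GL/Sq.lean`). FACT F: if `x ∈ Mn n t f N`, `VP P x` then there is `y` with `Dr x y` and `GE (dv SH) y`: Der (8) (`Fp x`: Mnf (2), Gen (3)) and `DL.C_Fix` (as in ResB). So `Dr u yu`, `GE (dv SH) yu`,
and `Dr (xx^b) x'`, `GE (dv SH) x'`, `Dr c (xx^b x' + xx^b x')` (Der (5)); `yc / c = 2 x'/xx^b`. `v(xx) = 4/2^N` (induction with `DI.GL.tX0`, import `Pool.Agent.Lib.DI.G.L.X0`: `xx = 2` for `N = 2`, `2 v(xx ζ') = v(xx ζ)`), so `v(xx^b) ≤ 4/2^N`, `GE (1 + dv - 4/2^N) (yc/c)` (`GE.div`). `LD w' (y + r τ y)`: the hypothesis and `DL.C_LDr` (2). `DL.C_Rt` with `Y = y + r τ y`, `D = dv SH`, `M = N`, `q = N - 1/2`, `vl c = 2 v(xx^b) ≤ 8/2^N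 < N`:
`GE (min (1 + dv - vl c/2) (min (N - vl c) (N - 1/2 - vl c))) (Y + yc/c)`, `vl c/2 = v(xx^b) ≤ 4/2^N`, and `1 + dv ≤ 10 ≤ N - 1/2 - 1` (HD, `12 ≤ N`; `SH2` by `genE`). Subtract `yc/c`. -/
def S_ResA : Prop :=
  DL.C_Cn → DL.C_Der → DL.C_LDr → DL.C_Fix → DL.C_Rt → DL.C_RSq → S_E9 → C_HD → C_Pi → C_Sur → C_Gen → C_Mnf →
    C_SitR → C_ResA

/-! ## The result -/

/-- The character `χ`: integrality, inertia, principal ideals. -/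
def C_Chi : Prop :=
  ∀ (n t : ℕ) [Rmf n t] (P : Ideal ZZ), Ab2 P → ∀ (f : ℕ) (χ : Ideal (OO n t) → Om), Odd f → 15 ∣ f →
    IsChi (2 * f) χ →
    (∀ b : Ideal (OO n t), VP P (χ b) ∧ ∀ τ ∈ P.inertia Gal(Om/ℚ), τ (χ b) = χ b) ∧
    (∀ v : OO n t, (f : OO n t) ∣ v - 1 → Cop v 2 → χ (sp v) = 1) ∧
    ∀ h : OO n t, Hf f h → χ (sp h) = 1

/-- (110 lines) **Chi** (from O4). Compare `DN/G/ChT.lean`. PROOF. LEMMA R: `ζ ^ M = 1`, `M` odd, `MP P (ζ - 1)` gives `ζ = 1`: `(ζ - 1) * ∑_(i<M) ζ^i = 0` and `∑ ζ^i - M ∈ P`, `M` is not in `P`, so the sum is not `0`. (1) `χ b` is `0` or `χ b ^ m' = 1`, `m'` odd (`IsChi.zero`, `IsChi.odd`). `VP`: `DI.VP.of_pow`. Inertia: `x = χ b`, `τ x * x⁻¹` is an `m'`-th root of unity, `MP P (τ x - x)` (`VP.inertia`), so Lemma R.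
(2) `2 ∣ v² - 1` (S_O4), `f ∣ v² - 1`: `2 f ∣ v² - 1`: `Ray (2 f) (sp (v²)) ⊤` (`aO7` (8)), `χ (sp v)² = χ (sp (v²)) = χ ⊤ = 1` (`IsChi.mul`, `IsChi.ray`; `χ ⊤ = χ ⊤ ^ 2`, `χ ⊤ ≠ 0`), with `χ (sp v)^m' = 1`, `m'` odd: `χ (sp v) = 1`. (3) `h ≠ 0`, `2 f ∣ h^(2^j) - 1`: `χ (sp h)^(2^j) = 1`, and `χ (sp h) ^ m' = 1` (`pow_gcd_eq_one`). -/
def S_Chi : Prop := S_O4 → C_Chi

/-- **LSg.** The linear algebra: from statements on units to the sum. `Λ` is an additive operator. -/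
def C_LSg : Prop :=
  ∀ (n t : ℕ) [Rmf n t] (P : Ideal ZZ), Ab2 P → ∀ (f N : ℕ) (m : Ideal (OO n t)) (χ : Ideal (OO n t) → Om)
    (T : Finset (OO n t)) (D : Finset (Ideal (OO n t))) (z0 d : ℂ) (SH : Finset Om) (q : ℚ) (Λ : Om →+ Om),
    FM f m → IsChi (2 * f) χ → 3 ≤ N → DS.IsRep f N T → PtN n t f N z0 d →
    Orb z0 d (Hn (n := n) (t := t) f N) SH → (∀ c ∈ D, c ≠ ⊥ ∧ PrI c (2 * f)) →
    (∀ g : Gal(Om/ℚ), IsD n t f P g → MP P (∑ c ∈ D, χ c * ((kap (uN f N m T c) g).val : Om))) →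
    (∀ (q' : ℚ) (x : Om), GE P 2 q' x → GE P 2 q' (Λ x)) →
    (∀ (c : Ideal (OO n t)) (x : Om), Λ (χ c * x) = χ c * Λ x) → q ≤ 1 + dv n t P z0 d SH →
    (∀ w ∈ Mn n t f N, (∀ g : Gal(Om/ℚ), DN.GL.DD (Mn n t f) P g → kap w g = 0) → ∀ y : Om,
      LDn n t P N z0 d w y → GE P 2 q (Λ y)) →
    GE P 2 (dv n t P z0 d SH) (SS f N m χ T D) ∧ GE P 2 q (Λ (SS f N m χ T D))

/-- (170 lines) **LSg** (from G3, Pi, Gen, Un4, Chi). Adapt `DN/GL/LSS.lean` (there `Λ` is the identity; copy its auxiliary lemmas; imports `Pool.Agent.Lib.DK.GL.RR`, `Pool.Agent.Lib.DK.GL.Lin`, `Pool.Agent.Lib.DI.G.L.Kap`, `Pool.Agent.Lib.DI.G.L.Arch`). PROOF. Un4 for `c ∈ D`: `LDn (u c) (s c)`, `GE (dv SH) (s c)`, `u c = uN f N m T c`,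
`s c = SN f N m T c`. `VP P (χ c)` (Chi (1)). First claim: `∑ χ c * s c = -9 * SS`, `-9` is a unit at `P`. Second: Lin: `k, b, e` (`e i c : ℕ`). For `c ∈ D` the element `ρ c = χ c - ∑ i, e i c * χ (b i)` is in `Algebra.adjoin ℤ (Set.range χ)` and in `M_P`, so `TP P 2 (ρ c)` (RR). `w i = ∏_(c ∈ D) u c ^ e i c`: in `Mn n t f N`, a unit (DS.S_G3 (1), (3)). For `g` with `DD (Mn n t f) P g` (this is `IsD n t f P g`; then `g (u c) = u c`):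
`kap (w i) g = 0` as in `DN/GL/LSS.lean`. `DL.C_LDr` (4), (5) (structure from `gen0`, `VP P (vO ⊤ (z0 + d))`: Pi (1)): `LDn (w i) (Y i)`, `Y i = ∑_(c ∈ D) e i c * s c`; the last hypothesis: `GE q (Λ (Y i))`. `∑ χ c * s c = ∑ ρ c * s c + ∑ i, χ (b i) * Y i`; `Λ` of the first sum is `GE (1 + dv)` (`GE 1 (ρ c)`: `GE.tp_iff`; `GE.mul`; the third property of `Λ`), so `GE q`; `Λ (χ (b i) * Y i) = χ (b i) * Λ (Y i)`. So `GE q (Λ (-9 * SS))`, `Λ (-9 x) = -9 Λ x` (`map_zsmul` or `map_nsmul`): divide by the unit `-9`. -/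
def S_LSg : Prop := DL.C_LDr → DS.S_G3 → C_Pi → C_Gen → C_Un4 → C_Chi → C_LSg

/-- **LSA, LSB.** The local step: from the Kummer characters to the sum `SS = ∑ χ(c) (fr(c)/fr(1)) ∑ h g(c, h z_N)`. -/
def C_LSA : Prop :=
  ∀ (n t : ℕ) [Rmf n t] (P : Ideal ZZ), Ab2 P → ∀ (f N : ℕ) (m : Ideal (OO n t)) (χ : Ideal (OO n t) → Om)
    (T : Finset (OO n t)) (D : Finset (Ideal (OO n t))) (z0 d : ℂ) (SH : Finset Om),
    FM f m → IsChi (2 * f) χ → 12 ≤ N → DS.IsRep f N T → PtN n t f N z0 d →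
    Orb z0 d (Hn (n := n) (t := t) f N) SH → (∀ c ∈ D, c ≠ ⊥ ∧ PrI c (2 * f)) →
    (∀ g : Gal(Om/ℚ), IsD n t f P g → MP P (∑ c ∈ D, χ c * ((kap (uN f N m T c) g).val : Om))) →
    GE P 2 (dv n t P z0 d SH) (SS f N m χ T D) ∧
    (n % 8 ≠ 6 → ∀ τ ∈ P.inertia Gal(Om/ℚ), (∀ ζ : Om, ζ ^ 2 ^ N = 1 → τ ζ = ζ⁻¹) →
      GE P 2 (1 / 2 + dv n t P z0 d SH) (SS f N m χ T D - τ (SS f N m χ T D))) ∧
    (n % 8 = 6 → GE P 2 (1 + dv n t P z0 d SH) (SS f N m χ T D))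

/-- (80 lines) **LSA** (from Tau, Dta, ResA, ResB, Chi, LSg). PROOF. First and third claim: LSg with `Λ = AddMonoidHom.id Om`, `q = 1 + dv` and ResB (for `n % 8 ≠ 6` the first claim comes from the second part). Second claim: `τ ∉ GK` (Tau (2)), Dta: `r`; LSg with `Λ x = x + r * τ x` (an additive map; `τ (χ c) = χ c`: Chi (1); `GE.inertia`, `VP P r`), `q = 1 + dv - 4/2^N` and ResA: `GE (1 + dv - 4/2^N) (S + r τ S)`, `S = SS ..`; `1 - 4/2^N ≥ 1/2`. `GE dv S`, so `GE dv (τ S)`,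
`GE (1/2 + dv) ((r - 1) τ S)`, `GE (1 + dv) (2 S)`; `S - τ S = 2 S + (r - 1) τ S - (S + r τ S)`. -/
def S_LSA : Prop := C_Tau → C_Dta → C_ResA → C_ResB → C_Chi → C_LSg → C_LSA

/-- **Tp.** Transport to the conjugate primes. -/
def C_Tp : Prop :=
  ∀ (n t : ℕ) [Rmf n t] (f N : ℕ) (m : Ideal (OO n t)) (T : Finset (OO n t)), FM f m → 3 ≤ N →
    DS.IsRep f N T → ∀ τ ∈ GK n t, ∀ a : Ideal (OO n t), Psi τ (f * 2 ^ N) a → ∀ P : Ideal ZZ, Ab2 P →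
    ∃ P' : Ideal ZZ, Ab2 P' ∧ ∀ d : Gal(Om/ℚ), IsD n t f P d → IsD n t f P' (τ⁻¹ * d * τ) ∧
      ∀ c : Ideal (OO n t), c ≠ ⊥ → PrI c (2 * f) →
        kap (uN f N m T (a * c)) d = kap (uN f N m T c) (τ⁻¹ * d * τ)

/-- (90 lines) **Tp** (from E9, G3). PROOF. `P' = P.comap (MulSemiringAction.toRingHom Gal(Om/ℚ) ZZ τ)`, i.e. `x ∈ P' ↔ τ • x ∈ P`: a nonzero prime ideal (`P' ≠ ⊥`: `2 ∈ P'`), `MP P' 2` (`MP.coe_iff`-like lemmas of `DI/Val.lean`). `IsD P' (τ⁻¹ d τ)`: `τ • (τ⁻¹ d τ) • x = d • (τ • x) ∈ P`; `x ∈ Mn n t f N'`: for `1 ≤ N'` `τ x ∈ Mn n t f N'` (S_E9 (2)), `d (τ x) = τ x`; for `N' = 0`: `Mn n t f 0 ≤ Mf ≤ Mn n t f 1` (Mnf (3) and S_GM; the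
hypothesis is in the list); `i² = -1`: `(τ i)² = -1`, `d (τ i) = τ i`. `uN (a c) = τ (uN c)` (S_G3 (6)), `w = uN c ≠ 0`, `ρ = sqr w`, `(τ ρ)² = τ w`: `kap (τ w) d = 0 ↔ d (τ ρ) = τ ρ ↔ (τ⁻¹ d τ) ρ = ρ ↔ kap w (τ⁻¹ d τ) = 0` (`DI.GL.tKap` (1): import `Pool.Agent.Lib.DI.G.L.Kap`), and `kap` has values in `ZMod 2`, so equality. -/
def S_Tp : Prop := S_E9 → DS.S_GM → DS.S_G3 → C_Mnf → C_Tp

/-! ## The composition -/

/-- The inputs of this part (besides `GLIn`, `GLOut`). -/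
structure GLInB : Prop where
  D9 : S_D9
  E9 : S_E9
  E11 : S_E11
  GM : DS.S_GM
  G3 : DS.S_G3

/-- The output of this file. -/
structure GLOutB : Prop where
  Odq : C_Odq
  Tht : C_Tht
  Pnt : C_Pnt
  Mnf : C_Mnf
  Sub : C_Sub
  Tau : C_Tau
  Chi : C_Chi
  LSA : C_LSA
  Tp : C_Tp

theorem asmGLB (l : DL.Out) (rsq : DL.C_RSq) (i : GLIn) (j : GLInB) (o : GLOut) (odq : S_Odq) (kud : S_Kud)
    (tru : S_Tru) (iso : S_Iso) (trh : S_Trh) (tht : S_Tht) (pnt : S_Pnt) (mnf : S_Mnf) (un4 : S_Un4)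
    (sub : S_Sub) (sitr : S_SitR) (hev : S_Hev) (tau : S_Tau) (dta : S_Dta) (resB : S_ResB) (resA : S_ResA)
    (chi : S_Chi) (lsg : S_LSg) (lsa : S_LSA) (tp : S_Tp) : GLOutB :=
  have Odq := odq i.D2 o.Lev o.In
  have Tru := tru l.Cn l.Der l.Kum i.R1 o.Lev o.Pi o.Gen Odq (kud i.R1)
  have Trh := trh l.Cn l.Der i.D2 o.Lev o.In o.Pi o.Gen Odq Tru (iso i.R1)
  have Tht := tht l.Cn l.Der l.LDr i.R1 i.D2 j.D9 o.Lev o.In o.Pi o.Gen Odq Trh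
  have Mnf := mnf i.O4 i.E1 j.GM o.In
  have Un4 := un4 l.Fix l.LDr j.G3 o.Pi o.Sur o.Gen Mnf Tht
  have Sub := sub l.Fix l.LDr i.D8 o.In o.Act o.Pi o.Sur o.Gen Tht
  have SitR := sitr j.E9 j.GM o.Act o.Sur Mnf
  have Hev := hev i.O4 j.E9 j.GM o.In o.Act
  have Tau := tau i.O4 o.In o.Act
  have Dta := dta l.Cn l.Der l.Cj i.R1 i.D2 i.E6 j.E11 o.Lev o.In o.Pi o.Gen Trh
  have ResB := resB l.Cn l.Der l.Fix l.Rt rsq o.HD o.Pi o.Sur o.Gen Mnf SitR Hev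
  have ResA := resA l.Cn l.Der l.LDr l.Fix l.Rt rsq j.E9 o.HD o.Pi o.Sur o.Gen Mnf SitR
  have Chi := chi i.O4
  have LSg := lsg l.LDr j.G3 o.Pi o.Gen Un4 Chi
  { Odq := Odq
    Tht := Tht
    Pnt := pnt
    Mnf := Mnf
    Sub := Sub
    Tau := Tau
    Chi := Chi
    LSA := lsa Tau Dta ResA ResB Chi LSg
    Tp := tp j.E9 j.GM j.G3 Mnf }

end Pool.Agent.DR.GL
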