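import Pool.Agent.Lib.DR.GL.Spec
import Pool.Agent.Lib.DR.IfaceC

/-!
# Theorem DR, part GL, third file (author helper89): part T of the interface (`S_T0`, `S_T1`, `S_T2` of `DR/IfaceC.lean`)

RULES as in `GL/Spec.lean`: `theorem tX : S_X` (names `T0a, T0b, TrS, D1, T1g, T2g`) in the module `Pool/Agent/Lib/DR/GL/X.lean` with the first lines
`import Pool.Agent.Lib.DR.GL.SpecT`, `set_option autoImplicit false`, `open scoped Pointwise`, `noncomputable section`, `namespace Pool.Agent.DR.GL` and the `open` lines of this file.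
All modules are independent. Tools: see `DR/GL/Spec.lean`.
-/

set_option autoImplicit false

open scoped Pointwise

noncomputable section

namespace Pool.Agent.DR.GL

open Pool.Agent.MuZ Pool.Agent.FW Pool.Agent.DN
open Pool.Agent.DI (io ofC io_inj exists_io io_ofC ofC_io VP MP UP TP ex)
open Pool.Agent.DN.GL (EE pH IsR)
open Pool.Agent.DL (vl GE Pl Fi Fp Cn Cf dl Gen Dr LD)

variable {n t : ℕ}

/-- Valuations in `K`. -/
def C_T0a : Prop :=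
  ∀ (n t : ℕ) [Rmf n t] (P : Ideal ZZ), Ab2 P →
    UP P (toO (pO n t) ^ 2 / 2) ∧ MP P (toO (pO n t)) ∧ toO (pO n t) ≠ 0 ∧ vl P 2 (toO (pO n t)) = 1 / 2 ∧
    (∀ σ ∈ P.inertia Gal(Om/ℚ), MP P (σ (toO (pO n t)) / toO (pO n t) - 1)) ∧
    (∀ v : OO n t, Cop v 2 → UP P (toO v) ∧ MP P (toO v - 1)) ∧
    (∀ v ∈ pp n t, VP P (toO v / toO (pO n t))) ∧ ∀ v ∈ pp n t, VP P (toO v ^ 2 / 2)

/-- (120 lines) **T0a** (from O4). PROOF. `pO = (n mod 2) + w`, `w² = -n` (`t = 0`: `Rmf.zero`). EXPLICIT: `pO² = 2 u`, `u = -(n/2)` (`n` even, `n % 4 = 2`), `u = (1 - n)/2 + w` (`n` odd, `n % 4 = 1`): `Nm u` is odd (`(n/2)²`; `((1 - n)/2)² + n`). For `v` with `Cop v 2` (`Nm v` odd: S_O4): `toO v * toO (cjO v) = Nm v` is an odd integer, a unit at `P`, both factors are in `V_P`: `UP P (toO v)`. So `toO pO ^ 2 / 2 = toO u` is a unit,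
`MP P (toO pO)` (`MP.of_pow`), `toO pO ≠ 0`; `vl P 2 (toO pO) = 1/2`: `DL.vl_eq` with `b = 2`, `a = 1`. `MP P (toO v - 1)`: S_O4: `2 ∣ v - 1` or `2 ∣ v - (1 + pO)`. `v ∈ pp`: `v = 2 x` or `v = pO + 2 x` (S_O4), `2/toO pO = toO pO/toO u`: integral; `toO v ^ 2/2 = (toO v/toO pO)² * (toO pO²/2)`. `σ`: `x = σ (toO pO)/toO pO`, `x² = σ (2 u')/(2 u') = σ u'/u'`, `u' = toO u` a unit, `MP P (σ u' - u')` (`VP.inertia`):
`MP P (x² - 1)`, `VP P x` (`VP.of_pow`), `(x - 1)² = x² - 1 - 2 (x - 1)`: `MP.of_pow`. -/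
def S_T0a : Prop := S_O4 → C_T0a

/-- (100 lines) **T0b**: `S_T0` (from K0, T0a). PROOF. The first claims are T0a. EXISTENCE of `τ`: otherwise `toO (pO n t)` is fixed by all `τ ∈ P.inertia` (`GK_toO`), so `vl P 2 (toO pO) = j`, `j : ℤ` (K0): but it is `1/2`. CONJUGACY: `tot_trans` (`MuZ/Tot.lean`) with `H = ⊤` (closed): `x : ZZ` fixed by all `g` is a rational algebraic integer (`mem_of_Fx`-like: `x` is in the bottom field; integrally closed `ℤ`), so an integer `a`,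
and `a ∈ P` iff `2 ∣ a` iff `a ∈ P'` (`MP.nat_iff` or: `2 ∈ P`, `P ≠ ⊤`, Bezout). So `P' = g • P`. If `g ∉ GK`: `g τ ∈ GK` (`GK` has index two: `g (wO) = - wO` by `wO² = -n`, `mem_GK_iff`) and `τ • P = P` (`τ` in the inertia group: `τ • x - x ∈ P`), so `P' = (g τ) • P`. `x ∈ g • P ↔ g⁻¹ • x ∈ P` (`Ideal.mem_pointwise_smul_iff_inv_smul_mem` or `Submodule`-version). Take `g⁻¹`. -/
def S_T0b : Prop := DL.C_K0 → C_T0a → S_T0

/-- **TrS.** The trace over a subgroup. -/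
def C_TrS : Prop :=
  ∀ (P : Ideal ZZ) (p e : ℕ) (I : Subgroup Gal(Om/ℚ)) (S : Finset Om) (π : Om), Gen P p e I S π →
    ∀ (SH : Finset Om) (y l : Om) (ι : Type) (T : Finset ι) (s : ι → Gal(Om/ℚ)), SH ⊆ S → π ∈ SH → Fp I π y →
      VP P y → (∀ i ∈ T, s i ∈ I ∧ ∀ r ∈ SH, s i r ∈ SH) → (∀ r ∈ SH, ∃ i ∈ T, s i π = r) →
      (∀ i ∈ T, ∀ i' ∈ T, s i π = s i' π → i = i') → l ≠ 0 → Fi I l →
      vl P p l ≤ vl P p (dl SH π) → VP P ((∑ i ∈ T, s i y) / l)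

/-- (90 lines) **TrS** (from Pol, Mono). PROOF. `δ = dl SH π ≠ 0` (a product of `π - r`, `r ≠ π`), `u = y δ / l`: `VP P u` (valuation; or `y = 0`: trivial), `Fp I π u` (an element of `I` which fixes `π` fixes all `r ∈ S`: `Gen.ab`). Mono: `u = G(π)`, `Cf G`. `i ∈ T`: `s i u = G(s i π)` (`DL.C_Cn`-like: coefficients are fixed by `I`; prove it directly with `Polynomial.hom_eval₂` or use the hypothesis C_Cn),
`s i δ = dl SH (s i π)` (`s i` permutes `SH`: `Finset.prod_bij`), `s i l = l`: `s i y / l = G(s i π)/dl SH (s i π)`. The map `i ↦ s i π` is a bijection of `T` and `SH`: the sum is `∑_(a ∈ SH) G(a)/dl SH a`, integral by `DL.C_Pol` (2) (`VP P r` for `r ∈ SH ⊆ S`: `Gen.tra`, `VP.inertia_vp`, `VP P π` by `Gen.vpi`). -/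
def S_TrS : Prop := DL.C_Pol → DL.C_Cn → DL.C_Mono → C_TrS

/-- The different of the subgroup of the `h = 1` modulo `2`. -/
def C_D1 : Prop :=
  ∀ (n t : ℕ) [Rmf n t] (P : Ideal ZZ), Ab2 P → ∀ (f N : ℕ) (z0 d : ℂ), Pt n t f N z0 d →
    ∃ S1 : Finset Om, Orb z0 d (fun h : OO n t => Un f h ∧ (2 : OO n t) ∣ h - 1) S1 ∧
      pH z0 d (1 : OO n t) ∈ S1 ∧ vl P 2 (dl S1 (pH z0 d (1 : OO n t))) = N - 1

/-- (110 lines) **D1** (from O4, Rep, Pi, Gen). PROOF. `T` a system for `Un f` (Rep (1)), `h1 ∈ T` with `2^N ∣ h1 - 1`; `S` (Gen) is the image of `T` under the injective map `h ↦ π_h = pH z0 d h` (`π_h = π_h'` iff `2^N ∣ h - h'`: Pi (5), (6) and Rep (3)). `S1` is the image of `T' = {h ∈ T : h - h1 ∈ pp^2}` (`h - h1 ∈ pp^2` iff `2 ∣ h - h1` (Rep (3) with `i = 1`) iff `2 ∣ h - 1`, as `1 ≤ N`). `dl S π = dl S1 π * ∏_(h ∈ T, h ∉ T') (π_(h1) - π_h)`,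
the second product has `2^(2N-1) - 2^(2N-2) = 2^(2N-2)` factors (Rep (5): `card T`, `j = 2`) of valuation `1/2^(2N-1)` (Pi (6) with `j = 1`: `h - h1 ∈ pp^1` by Rep (5), `∉ pp^2`; `1 < 2N`), so its valuation is `1/2` (`vl_prod`), and `vl P 2 (dl S π) = N - 1/2` (Gen (2)). -/
def S_D1 : Prop := S_O4 → C_Rep → C_Pi → C_Gen → C_D1

/-- (50 lines) **T1g.** PROOF of `S_T1` from E1, In, Sur. `Cls P F0 N h σ` is the conjunction of `mem, one, cop, psi` (`II n t P = P.inertia ⊓ GK n t`). First claim: In (1). Second: Sur for `1 ≤ N`; for `N = 0` take Sur for `1` and restrict (S_E1 (5): `F0 * 2 ^ 0 ∣ F0 * 2 ^ 1`). -/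
def S_T1g : Prop := S_E1 → C_In → C_Sur → S_T1

/-- (130 lines) **T2g.** PROOF of `S_T2` from K0, T0a, In, Rep, Pi, Gen, TrT, TrS, D1) `A` (`IsG F0 N A`) is a system `IsR N (Un F0) A` (modulo `F0 2^N` and modulo `2^N` is the same for elements `1` modulo `F0`, `F0` odd). `Cls P F0 N α (s α)` for `α ∈ A`. Hypothesis of TrT: `Cls P F0 N 1 σ` gives `Psi σ (F0 2^N) ⊤` (`sp 1 = ⊤`). FIRST: TrT: `GE (N - 1/2)` of the sum; `vl P 2 (toO pO ^ (2 N - 1)) = (2 N - 1)/2` (T0a): `VP` of the quotient (`GE.div`, `GE.vp_iff`).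
SECOND: `z0 = 1/F0`, `d = 1/2^N` (`Pt n t F0 N z0 d`, see the docstring of `S_Sur` in `GL/Spec.lean`), `S` from Gen (1), (2): the structure `Gen`; `S1` from D1 (`S1 ⊆ S`: `Orb`). TrS with `l = 2^(N-1)` (`vl = N - 1`; `Fi`), `ι = OO n t`, `T = A1`, `s`: `Fp`: `σ ∈ II`, `σ π = π`: class `h` (In (1)), `2^N ∣ h - 1` (Gen (5)), so `Cls P F0 N 1 σ` (In (3)), `σ y = y`. `s α π = π_α ∈ S1`, `s α π_h = π_(α h)` (Pi (7)), `2 ∣ α h - 1`.
Every `r ∈ S1`: `r = π_h`, `α ∈ A` with `2^N ∣ h - α` (so `2 ∣ α - 1` as `1 ≤ N`), `π_α = π_h` (Pi (5)). Injective: Gen (5)/Pi (6): `π_α = π_α'` gives `2^N ∣ α - α'`, `α = α'`. (If `π_α = π_α'`: `s α'⁻¹ * s α` fixes `π`; use Gen (5) for it with the class from In (4), or Pi (6) and Rep (3).) -/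
def S_T2g : Prop :=
  DL.C_K0 → S_O4 → C_T0a → C_In → C_Rep → C_Pi → C_Gen → C_TrT → C_TrS → C_D1 → S_T2

/-- The composition. -/
theorem asmGT (l : DL.Out) (i : GLIn) (o : GLOut) (t0a : S_T0a) (t0b : S_T0b) (trs : S_TrS) (d1 : S_D1)
    (t1 : S_T1g) (t2 : S_T2g) : C_T0a ∧ S_T0 ∧ S_T1 ∧ S_T2 :=
  have T0a := t0a i.O4
  have TrS := trs l.Pol l.Cn l.Mono
  ⟨T0a, t0b l.K0 T0a, t1 i.E1 o.In o.Sur,
    t2 l.K0 i.O4 T0a o.In o.Rep o.Pi o.Gen o.TrT TrS (d1 i.O4 o.Rep o.Pi o.Gen)⟩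

end Pool.Agent.DR.GL
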