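import Pool.Agent.Lib.DR.GL.SpecB

/-!
# Theorem DR, part GL, module `Sub`: the sums over the subgroup `Hs`
-/

set_option autoImplicit false

open scoped Pointwise

noncomputable section

namespace Pool.Agent.DR.GL

open Pool.Agent.MuZ Pool.Agent.FW Pool.Agent.DN
open Pool.Agent.DI (io ofC io_inj exists_io io_ofC ofC_io VP MP UP TP ex sqr sqr_sq kap)
open Pool.Agent.DI.GL (Fx StP xx mem_of_Fx Fx.mul Fx.inv Fx.one)
open Pool.Agent.DN.GL (EE pH IsR)
open Pool.Agent.DL (vl GE Pl Fi Fp Cn Cf dl Gen Dr LD)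

variable {n t : ℕ}

private theorem sub_pri [SqN n t] {f M : ℕ} {a : Ideal (OO n t)} (h : PrI a f) (hd : M ∣ f) :
    PrI a M := by
  obtain ⟨g, rfl⟩ := hd
  exact (((aO6 n t).2.1 M g a).1 h).1

private theorem sub_ne {h : OO n t} (hh : Cop h 2) : h ≠ 0 := by
  rintro rfl
  unfold Cop at hh
  rw [Nm_zero, isCoprime_zero_left, Int.isUnit_iff] at hh
  omega

/-- Lifting modulo `f` and `2 ^ N`. -/
private theorem sub_lift {f : ℕ} (N : ℕ) (hf : Odd f) (u : OO n t) :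
    ∃ u' : OO n t, ((2 ^ N : ℕ) : OO n t) ∣ u' - u ∧ (f : OO n t) ∣ u' - 1 ∧
      u - 1 ∣ u' - 1 := by
  have hcop : Nat.Coprime f (2 ^ N) := Nat.Coprime.pow_right N (Nat.coprime_two_right.2 hf)
  obtain ⟨x, y, h⟩ := Nat.isCoprime_iff_coprime.2 hcop
  have h' : (x : OO n t) * (f : OO n t) + (y : OO n t) * ((2 ^ N : ℕ) : OO n t) = 1 := by
    have := congrArg (fun c : ℤ => (c : OO n t)) h
    push_cast at this ⊢
    exact this
  refine ⟨x * f * u + y * ((2 ^ N : ℕ) : OO n t), ?_, ?_, ?_⟩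
  · exact ⟨y * (1 - u), by linear_combination u * h'⟩
  · exact ⟨x * (u - 1), by linear_combination h'⟩
  · exact ⟨x * f, by linear_combination h'⟩

/-- The Chinese remainder theorem. -/
private theorem sub_crt {f : ℕ} (N : ℕ) (hf : Odd f) {u : OO n t} (h1 : (f : OO n t) ∣ u)
    (h2 : ((2 ^ N : ℕ) : OO n t) ∣ u) : ((f * 2 ^ N : ℕ) : OO n t) ∣ u := by
  have hcop : Nat.Coprime f (2 ^ N) := Nat.Coprime.pow_right N (Nat.coprime_two_right.2 hf)
  obtain ⟨x, y, h⟩ := Nat.isCoprime_iff_coprime.2 hcop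
  have h' : (x : OO n t) * (f : OO n t) + (y : OO n t) * ((2 ^ N : ℕ) : OO n t) = 1 := by
    have := congrArg (fun c : ℤ => (c : OO n t)) h
    push_cast at this ⊢
    exact this
  obtain ⟨a, ha⟩ := h1
  obtain ⟨b, hb⟩ := h2
  refine ⟨x * b + y * a, ?_⟩
  rw [Nat.cast_mul]
  linear_combination (-1 : OO n t) * u * h' + x * (f : OO n t) * hb +
    y * ((2 ^ N : ℕ) : OO n t) * ha

private theorem sub_two {N : ℕ} (hN : 1 ≤ N) {u u' : OO n t}
    (h : ((2 ^ N : ℕ) : OO n t) ∣ u' - u) (hu : Cop u 2) : Cop u' 2 := by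
  refine cop_congr (j := 2) (a := u) ?_ hu
  rw [← neg_sub]
  refine (dvd_neg).2 (dvd_trans ?_ h)
  exact_mod_cast dvd_pow_self (2 : OO n t) (by omega : N ≠ 0)

private theorem sub_perm {ι : Type*} [DecidableEq ι] (T : Finset ι) (F G : ι → Om) (φ : ι → ι)
    (h1 : ∀ i ∈ T, φ i ∈ T) (h2 : ∀ i ∈ T, ∀ j ∈ T, φ i = φ j → i = j)
    (h3 : ∀ i ∈ T, F i = G (φ i)) : ∏ i ∈ T, F i = ∏ i ∈ T, G i := by
  have h4 : T.image φ = T := Finset.eq_of_subset_of_card_le
    (fun j hj => by obtain ⟨i, hi, rfl⟩ := Finset.mem_image.1 hj; exact h1 i hi)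
    (by rw [Finset.card_image_of_injOn (fun i hi j hj h => h2 i hi j hj h)])
  calc ∏ i ∈ T, F i = ∏ i ∈ T, G (φ i) := Finset.prod_congr rfl h3
    _ = ∏ i ∈ T.image φ, G i := (Finset.prod_image (fun i hi j hj h => h2 i hi j hj h)).symm
    _ = ∏ i ∈ T, G i := by rw [h4]

/-- The norms `± 1`. -/
private theorem sub_pm {N : ℕ} {x y : ℤ} (hx : (2 : ℤ) ^ N ∣ x - 1 ∨ (2 : ℤ) ^ N ∣ x + 1)
    (hy : (2 : ℤ) ^ N ∣ y - 1 ∨ (2 : ℤ) ^ N ∣ y + 1) :
    (2 : ℤ) ^ N ∣ x * y - 1 ∨ (2 : ℤ) ^ N ∣ x * y + 1 := by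
  rcases hx with ⟨a, ha⟩ | ⟨a, ha⟩ <;> rcases hy with ⟨b, hb⟩ | ⟨b, hb⟩
  · exact Or.inl ⟨a * y + b, by linear_combination y * ha + hb⟩
  · exact Or.inr ⟨a * y + b, by linear_combination y * ha + hb⟩
  · exact Or.inr ⟨a * y - b, by linear_combination y * ha - hb⟩
  · exact Or.inl ⟨a * y - b, by linear_combination y * ha - hb⟩

private theorem sub_mul {f N : ℕ} {h h' : OO n t} (hh : Hs f N h) (hh' : Hs f N h') :
    Hs f N (h * h') := by
  obtain ⟨⟨a1, a2, a3⟩, a4⟩ := hh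
  obtain ⟨⟨b1, b2, b3⟩, b4⟩ := hh'
  have e : h * h' - 1 = (h - 1) * h' + (h' - 1) := by ring
  refine ⟨⟨?_, cop_mul a2 b2, ?_⟩, ?_⟩
  · rw [e]
    exact dvd_add (a1.mul_right _) b1
  · rw [Nm_mul]
    exact sub_pm a3 b3
  · rw [e]
    exact dvd_add (a4.mul_right _) b4

private theorem sub_hs {f f' N : ℕ} (hN : 1 ≤ N) {h h' : OO n t} (hh : Hs f N h)
    (h1 : ((2 ^ N : ℕ) : OO n t) ∣ h' - h) (h2 : (f' : OO n t) ∣ h' - 1) (h3 : h - 1 ∣ h' - 1) :
    Hs f' N h' := by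
  obtain ⟨⟨a1, a2, a3⟩, a4⟩ := hh
  have e := Nm_congr h1
  push_cast at e
  refine ⟨⟨h2, sub_two hN h1 a2, ?_⟩, a4.trans h3⟩
  rcases a3 with a3 | a3
  · left
    have := dvd_add e a3
    have e2 : Nm h' - Nm h + (Nm h - 1) = Nm h' - 1 := by ring
    rwa [e2] at this
  · right
    have := dvd_add e a3
    have e2 : Nm h' - Nm h + (Nm h + 1) = Nm h' + 1 := by ring
    rwa [e2] at this

theorem tSub : S_Sub := by
  classical
  intro fix ldr d8 _ act pi sur gen tht n t _ P hP f N m hm z0 d hp SH2 hSH T hT c v hc hv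
  have hPp : P.IsPrime := hP.1.1
  have h2 := pl2 hP
  have hpt : Pt n t f N z0 d := hp.toPt
  have hN := hpt.pos
  have hf0 : 0 < f := hm.odd.pos
  have hcf : PrI c f := sub_pri hc.cop (Dvd.intro_left _ rfl)
  have hc2 : PrI c 2 := sub_pri hc.cop (Dvd.intro _ rfl)
  have hG : G15 c := ⟨hc.ne, sub_pri hcf hm.dvd⟩
  have hm15 : PrI m 15 := sub_pri hm.cop hm.dvd
  have hNm : Odd (NI m) := Nat.coprime_two_right.1 (((aO6 n t).2.2.1 2 m two_pos).1 hm.two)
  have hM : Odd (f * NI m) := hm.odd.mul hNm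
  have hM15 : 15 ∣ f * NI m := hm.dvd.mul_right _
  have hfM : f ∣ f * NI m := Dvd.intro _ rfl
  have hfMO : (f : OO n t) ∣ ((f * NI m : ℕ) : OO n t) := by
    rw [Nat.cast_mul]
    exact Dvd.intro _ rfl
  have hv2 : Cop v 2 := cop_dvd hv (Dvd.intro _ rfl)
  have hvf : Cop v f := cop_dvd hv (Dvd.intro_left _ rfl)
  have hz : z0 + d = 1 / ((f * 2 ^ N : ℕ) : ℂ) := by
    rw [hp.eq]
  have hfN : ((f * 2 ^ N : ℕ) : ℂ) ≠ 0 := by
    exact_mod_cast (Nat.mul_pos hf0 (pow_pos two_pos N)).ne'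
  obtain ⟨S, -, hgen, hq0, hqd⟩ := gen0 gen hP hpt
  obtain ⟨hmem, -, hd0, hd1⟩ := genH gen hP hpt (C := Hs f N) hs_un (hs_one f N) hSH
  obtain ⟨pi1, -, -, -, pi5, -⟩ := pi n t P hP f N z0 d hpt
  have hW : VP P (vO (⊤ : Ideal (OO n t)) (z0 + d)) := by
    have h3 := (pi1 1 (cop_one 2)).2.2.2.2.2.1
    rwa [toC_one, one_mul] at h3
  -- the logarithmic derivative
  have hLD : LDn n t P N z0 d (∏ h ∈ T, Theta m c (toC (h * v) * (z0 + d)))
      (∑ h ∈ T, -9 * (toO (h * v) * rO (⊤ : Ideal (OO n t)) c *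
        gO m c (toC (h * v) * (z0 + d)))) := by
    refine (ldr P 2 2 (II n t P) S _ hgen _ _ hq0 hqd hW).2.2.2.2.1 (OO n t) T _ _ ?_
    intro h hh
    obtain ⟨⟨a1, a2, -⟩, -⟩ := hT.mem h hh
    have hcop : Cop (h * v) 2 := cop_mul a2 hv2
    have hcopf : Cop (h * v) f := by
      refine cop_mul (cop_congr (a := 1) ?_ (cop_one f)) hvf
      rw [← neg_sub]
      exact (dvd_neg).2 (hfMO.trans a1)
    have hne := sub_ne hcop
    have hsp : sp (h * v) ≠ ⊥ := fun h3 => hne (Ideal.span_singleton_eq_bot.1 h3)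
    have ha : m * (sp (h * v) * c) ≠ ⊥ := mul_ne_zero hm.ne (mul_ne_zero hsp hc.ne)
    have hpa : PrI (m * (sp (h * v) * c)) f := by
      rw [(aO6 n t).1, (aO6 n t).1]
      exact ⟨hm.cop, ((aO6 n t).2.2.2.1 f _ hf0).2 hcopf, hcf⟩
    exact tht n t P hP f N z0 d hpt m c (h * v) hm.ne hm.two hm15 hG hc2 hne hcop
      (hp.pri _ ha hpa)
  -- the invariance
  have hinv : ∀ r ∈ SH2, ∃ σ ∈ II n t P, σ (pH z0 d (1 : OO n t)) = r ∧
      σ (∏ h ∈ T, Theta m c (toC (h * v) * (z0 + d))) =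
        ∏ h ∈ T, Theta m c (toC (h * v) * (z0 + d)) := by
    intro r hr
    obtain ⟨h, hh, rfl⟩ := (hSH r).1 hr
    obtain ⟨h', b1, b2, b3⟩ := sub_lift N hM h
    have hh' : Hs (f * NI m) N h' := sub_hs hN hh b1 b2 b3
    obtain ⟨σ, hσ⟩ := sur n t P hP (f * NI m) N hM hM15 hN h' b2 hh'.1.2.1
    refine ⟨σ, hσ.mem, ?_, ?_⟩
    · rw [((gen n t P hP f N z0 d hpt).2.2.2.2 (f * NI m) hM hfM σ h' hσ).1]
      exact pi5 _ _ b1
    have hact : ∀ h1 : OO n t, σ (Theta m c (toC (h1 * v) * (z0 + d))) =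
        Theta m c (toC (h' * h1 * v) * (z0 + d)) := by
      intro h1
      have h3 := ((act n t P hP (f * NI m) N h' σ hM hM15 hσ c hG).2.2.2.2.2.2 m hm.ne hm.two hm15
        (Dvd.intro_left _ rfl) (toC (h1 * v) * (z0 + d)) ?_).2
      · rw [h3, ← mul_assoc, ← toC_mul, mul_assoc h' h1 v]
      · have e : ((f * NI m * 2 ^ N : ℕ) : ℂ) * (toC (h1 * v) * (z0 + d)) =
            toC ((NI m : OO n t) * (h1 * v)) := by
          rw [toC_mul (NI m : OO n t), toC_nat, hz, mul_one_div, mul_div_assoc', div_eq_iff hfN]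
          push_cast
          ring
        rw [e]
        exact lam_anti le_top (lam_top.2 ⟨_, rfl⟩)
    have hex : ∀ h1 ∈ T, ∃ h3 ∈ T, ((2 ^ N : ℕ) : OO n t) ∣ h' * h1 - h3 := fun h1 hh1 =>
      hT.ex _ (sub_mul hh' (hT.mem h1 hh1))
    choose! φ hφT hφ using hex
    rw [map_prod]
    refine sub_perm T _ _ φ hφT ?_ ?_
    · intro i hi j hj hij
      have h4 : ((2 ^ N : ℕ) : OO n t) ∣ h' * (i - j) := by
        have h5 := dvd_sub (hφ i hi) (hφ j hj)
        rw [hij] at h5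
        have e : h' * i - φ j - (h' * j - φ j) = h' * (i - j) := by ring
        rwa [e] at h5
      have hc2N : Cop h' (2 ^ N) := by
        have h6 := hh'.1.2.1
        unfold Cop at h6 ⊢
        push_cast at h6 ⊢
        exact h6.pow_right
      obtain ⟨w, -, hw⟩ := cop_inv hc2N
      refine hT.uni i hi j hj ?_
      have e : i - j = w * (h' * (i - j)) - (h' * w - 1) * (i - j) := by ring
      rw [e]
      exact dvd_sub (h4.mul_left _) (hw.mul_right _)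
    · intro i hi
      rw [hact i]
      have hdvd : ((f * 2 ^ N : ℕ) : OO n t) ∣ h' * i - φ i := by
        refine sub_crt N hm.odd ?_ (hφ i hi)
        have a1 := hfMO.trans hh'.1.1
        have a2 := hfMO.trans (hT.mem i hi).1.1
        have a3 := hfMO.trans (hT.mem _ (hφT i hi)).1.1
        have e : h' * i - φ i = (h' - 1) * i + (i - 1) - (φ i - 1) := by ring
        rw [e]
        exact dvd_sub (dvd_add (a1.mul_right _) a2) a3
      obtain ⟨w, hw⟩ := hdvd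
      have hl : toC (w * v) ∈ Lam c := lam_anti le_top (lam_top.2 ⟨_, rfl⟩)
      have e : toC (h' * i * v) * (z0 + d) = toC (φ i * v) * (z0 + d) + toC (w * v) := by
        have e1 : h' * i * v = φ i * v + ((f * 2 ^ N : ℕ) : OO n t) * (w * v) := by
          linear_combination v * hw
        rw [e1, toC_add, toC_mul ((f * 2 ^ N : ℕ) : OO n t), toC_nat, hz, add_mul, mul_one_div,
          mul_one_div, mul_div_cancel_left₀ _ hfN]
      rw [e]
      exact ((d8 n t m c hm.ne hG hm.two hm15).2.1 _).2 _ hl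
  have hfix := fix P 2 2 (II n t P) S _ hgen _ (dv n t P z0 d SH2) _ SH2 hW hmem hd0 hd1 le_rfl _ _
    hLD.2.2.2 hinv
  have h5 := GE.mul_left h2 (DI.UP.inv hLD.1).1 hfix
  rw [inv_mul_cancel_left₀ (DI.UP.ne_zero hLD.1), ← Finset.mul_sum] at h5
  have h9 : UP P (-9 : Om) := by
    have h10 : UP P (1 : Om) := DI.UP.one
    refine DI.UP.congr h10 ?_
    have e : (-9 : Om) - 1 = -5 * 2 := by norm_num
    rw [e]
    have h11 : VP P (-5 : Om) := by
      have := DI.VP.int (P := P) (-5)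
      push_cast at this
      exact this
    exact DI.MP.mul_left h11 hP.2
  have h6 := GE.mul_left h2 (DI.UP.inv h9).1 h5
  rw [inv_mul_cancel_left₀ (DI.UP.ne_zero h9)] at h6
  have e : ∑ h ∈ T, toO (h * v) * (rO (⊤ : Ideal (OO n t)) c *
      gO m c (toC (h * v) / (f * 2 ^ N : ℕ))) =
      ∑ h ∈ T, toO (h * v) * rO (⊤ : Ideal (OO n t)) c * gO m c (toC (h * v) * (z0 + d)) := by
    refine Finset.sum_congr rfl fun h _ => ?_
    rw [hz, mul_one_div, mul_assoc]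
  rw [e]
  exact h6

end Pool.Agent.DR.GL
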